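import Pool.Agent.Helper889_Cut.Section

/-! The induction step of the triangulation lemma. -/

set_option autoImplicit false
open Set

namespace Pool.Agent.H889

variable {V : Type} [NormedAddCommGroup V] [NormedSpace ℝ V]

/-! auxiliary lemmas for `arr_step` -/

/-- the sign of a Boolean -/
noncomputable def arr_step_sg (b : Bool) : ℝ := if b then 1 else -1

theorem arr_step_sg_ne (b : Bool) : arr_step_sg b ≠ 0 := by
  cases b <;> simp [arr_step_sg]

theorem arr_step_sg_eq (b b' : Bool) (h : 0 < arr_step_sg b * arr_step_sg b') : b = b' := by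
  cases b <;> cases b' <;> simp [arr_step_sg] at h ⊢ <;> linarith

theorem arr_step_pos1 {x y : ℝ} (h : 0 < x * y) (hy : 0 ≤ y) : 0 < x := by
  by_contra hc
  push Not at hc
  have := mul_nonpos_of_nonpos_of_nonneg hc hy
  linarith

/-- the signed constraints -/
noncomputable def arr_step_cc {ι : Type} (a : ι → (V →ᵃ[ℝ] ℝ)) (s : ι → Bool) :
    ι ⊕ ι → (V →ᵃ[ℝ] ℝ) :=
  Sum.elim a (fun i => (arr_step_sg (s i)) • a i)

theorem arr_step_cc_zero {ι : Type} (a : ι → (V →ᵃ[ℝ] ℝ)) (s : ι → Bool) (m : ι ⊕ ι) (x : V) :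
    arr_step_cc a s m x = 0 ↔ a (Sum.elim id id m) x = 0 := by
  cases m with
  | inl j => simp [arr_step_cc]
  | inr j => simp [arr_step_cc, arr_step_sg_ne]

/-- the cells -/
noncomputable def arr_step_Q {ι : Type} (a : ι → (V →ᵃ[ℝ] ℝ)) (G F0 : Finset ι) (s : ι → Bool) :
    Set V := Pol (arr_step_cc a s) (G.disjSum F0)

theorem arr_step_Q_mem {ι : Type} (a : ι → (V →ᵃ[ℝ] ℝ)) (G F0 : Finset ι) (s : ι → Bool) (x : V) :
    x ∈ arr_step_Q a G F0 s ↔ x ∈ Pol a G ∧ ∀ i ∈ F0, 0 ≤ arr_step_sg (s i) * a i x := by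
  simp [arr_step_Q, Pol, arr_step_cc, Finset.mem_disjSum]

theorem arr_step_lin_ne {f : V →ᵃ[ℝ] ℝ} (hf : f.linear ≠ 0) (x : V) : ∃ y, f y ≠ 0 := by
  by_contra h
  push Not at h
  apply hf
  ext v
  have h1 := f.linearMap_vsub (x + v) x
  simp only [vsub_eq_sub, add_sub_cancel_left] at h1
  rw [h1, h, h]; simp

theorem arr_step_const {f : V →ᵃ[ℝ] ℝ} (hf : f.linear = 0) (x y : V) : f x = f y := by
  have h1 := f.linearMap_vsub x y
  rw [hf] at h1
  simp only [vsub_eq_sub, LinearMap.zero_apply] at h1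
  linarith

/-- affinity along a line -/
theorem arr_step_line (f : V →ᵃ[ℝ] ℝ) (b z : V) (r : ℝ) :
    f (b + r • (z - b)) = f b + r * (f z - f b) := by
  have h1 := f.map_vadd b (r • (z - b))
  simp only [vadd_eq_add, map_smul, smul_eq_mul] at h1
  rw [add_comm b, h1]
  have h2 := f.linearMap_vsub z b
  simp only [vsub_eq_sub] at h2
  rw [h2]; ring

theorem arr_step_pol_convex {ι : Type} (c : ι → (V →ᵃ[ℝ] ℝ)) (S : Finset ι) :
    Convex ℝ (Pol c S) := by
  intro x hx y hy p q hp hq hpq i hi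
  have h1 := hx i hi
  have h2 := hy i hi
  have h3 : p • x + q • y = x + q • (y - x) := by
    have : p = 1 - q := by linarith
    rw [this]; module
  rw [h3, arr_step_line]
  have : c i x + q * (c i y - c i x) = p * c i x + q * c i y := by
    have : p = 1 - q := by linarith
    rw [this]; ring
  rw [this]
  positivity

theorem arr_step_pol_closed [FiniteDimensional ℝ V] {ι : Type} (c : ι → (V →ᵃ[ℝ] ℝ))
    (S : Finset ι) : IsClosed (Pol c S) := by
  have : Pol c S = ⋂ i ∈ S, {x | 0 ≤ c i x} := by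
    ext x; simp [Pol]
  rw [this]
  refine isClosed_biInter fun i _ => ?_
  exact isClosed_le continuous_const (AffineMap.continuous_of_finiteDimensional _)

/-- all the data of the induction step -/
structure arr_step_D {ι : Type} (k : ℕ) (a : ι → (V →ᵃ[ℝ] ℝ)) (F F0 G R : Finset ι)
    (Tt : ι → Finset (Fin (k + 1) → V)) (RI : ι → (Fin (k + 1) → V) → Set V)
    (b : (ι → Bool) → V) : Prop where
  hc : IsCompact (Pol a G)
  hint : (interior (Pol a G)).Nonempty
  F0mem : ∀ i, i ∈ F0 ↔ i ∈ F ∧ (a i).linear ≠ 0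
  Rlin : ∀ i ∈ R, (a i).linear ≠ 0
  RFG : ∀ i ∈ R, i ∈ F0 ∨ i ∈ G
  Rrep1 : ∀ j ∈ G, (a j).linear ≠ 0 → (∃ x, RelP a G j x) → ∃ i ∈ R, ∀ x, a i x = 0 ↔ a j x = 0
  Rrep2 : ∀ j ∈ F0, (∃ x ∈ interior (Pol a G), a j x = 0) → ∃ i ∈ R, ∀ x, a i x = 0 ↔ a j x = 0
  Rinj : ∀ i ∈ R, ∀ i' ∈ R, (∀ x, a i x = 0 ↔ a i' x = 0) → i = i'
  sec : ∀ i ∈ R, SecTri k a F G i (Tt i) (RI i)
  bQ : ∀ s, (interior (arr_step_Q a G F0 s)).Nonempty → b s ∈ arr_step_Q a G F0 s
  bv : ∀ s, (interior (arr_step_Q a G F0 s)).Nonempty → ∃ κ : Fin (k + 1) → ι ⊕ ι,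
    (∀ m, κ m ∈ G.disjSum F0) ∧ UZ (fun m => arr_step_cc a s (κ m)) (b s)

theorem arr_step_int_pos [FiniteDimensional ℝ V] {ι : Type} (a : ι → (V →ᵃ[ℝ] ℝ))
    (G F0 : Finset ι) (s : ι → Bool) (x : V) (hx : x ∈ interior (arr_step_Q a G F0 s)) (i : ι)
    (hi : i ∈ F0) (hl : (a i).linear ≠ 0) : 0 < arr_step_sg (s i) * a i x := by
  have h1 := (pol_interior (arr_step_cc a s) (G.disjSum F0) ⟨x, hx⟩ x).1 hx (Sum.inr i)
    (by simpa using hi) (by
      intro h
      simp only [arr_step_cc, Sum.elim_inr, AffineMap.smul_linear, smul_eq_zero] at h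
      exact h.elim (arr_step_sg_ne _) hl)
  simpa [arr_step_cc] using h1

theorem arr_step_int_P {ι : Type} (a : ι → (V →ᵃ[ℝ] ℝ))
    (G F0 : Finset ι) (s : ι → Bool) : interior (arr_step_Q a G F0 s) ⊆ interior (Pol a G) := by
  apply interior_mono
  intro x hx
  exact ((arr_step_Q_mem a G F0 s x).1 hx).1

theorem arr_step_cons_sub {ι : Type} (a : ι → (V →ᵃ[ℝ] ℝ))
    (G F0 : Finset ι) (s : ι → Bool) (k : ℕ) (b : V) (τ : Fin (k + 1) → V)
    (hb : b ∈ arr_step_Q a G F0 s) (hτ : Cv τ ⊆ arr_step_Q a G F0 s) :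
    Cv (Fin.cons b τ : Fin (k + 2) → V) ⊆ arr_step_Q a G F0 s := by
  apply convexHull_min
  · rintro _ ⟨l, rfl⟩
    refine Fin.cases ?_ (fun l' => ?_) l
    · simpa using hb
    · simp only [Fin.cons_succ]
      exact hτ (subset_convexHull ℝ _ ⟨l', rfl⟩)
  · exact arr_step_pol_convex _ _

/-- the finite set of the affine functions whose zeros are avoided -/
def arr_step_bad {ι : Type} (a : ι → (V →ᵃ[ℝ] ℝ)) (b : (ι → Bool) → V) : Set (V →ᵃ[ℝ] ℝ) :=
  {g | (∃ x, g x ≠ 0) ∧ (g ∈ range a ∨ g ∈ range (fun p : (ι → Bool) × (ι ⊕ ι) × (ι ⊕ ι) =>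
    (arr_step_cc a p.1 p.2.1 (b p.1)) • arr_step_cc a p.1 p.2.2
      - (arr_step_cc a p.1 p.2.2 (b p.1)) • arr_step_cc a p.1 p.2.1))}

theorem arr_step_bad_finite {ι : Type} [Finite ι] (a : ι → (V →ᵃ[ℝ] ℝ)) (b : (ι → Bool) → V) :
    (arr_step_bad a b).Finite := by
  refine ((Set.finite_range a).union
    (Set.finite_range (fun p : (ι → Bool) × (ι ⊕ ι) × (ι ⊕ ι) =>
    (arr_step_cc a p.1 p.2.1 (b p.1)) • arr_step_cc a p.1 p.2.2
      - (arr_step_cc a p.1 p.2.2 (b p.1)) • arr_step_cc a p.1 p.2.1))).subset ?_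
  rintro g ⟨-, h⟩
  exact h

theorem arr_step_cover [FiniteDimensional ℝ V] {k : ℕ} (hV : Module.finrank ℝ V = k + 1)
    {ι : Type} (a : ι → (V →ᵃ[ℝ] ℝ))
    (F F0 G R : Finset ι) (Tt : ι → Finset (Fin (k + 1) → V))
    (RI : ι → (Fin (k + 1) → V) → Set V) (b : (ι → Bool) → V)
    (D : arr_step_D k a F F0 G R Tt RI b) (y : V) (hy : y ∈ interior (Pol a G))
    (hyD : ∀ g ∈ arr_step_bad a b, g y ≠ 0) :
    ∃ s : ι → Bool, (interior (arr_step_Q a G F0 s)).Nonempty ∧ (∀ i, i ∉ F0 → s i = true) ∧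
      ∃ i ∈ R, ∃ τ ∈ Tt i, Cv τ ⊆ arr_step_Q a G F0 s ∧ a i (b s) ≠ 0 ∧
        y ∈ Cv (Fin.cons (b s) τ : Fin (k + 2) → V) := by
  classical
  have hcont : ∀ f : V →ᵃ[ℝ] ℝ, Continuous f := fun f => AffineMap.continuous_of_finiteDimensional f
  have hnt : Nontrivial V := Module.nontrivial_of_finrank_pos (R := ℝ) (by omega)
  set s : ι → Bool := fun i => if i ∈ F0 ∧ a i y < 0 then false else true with hs
  have hF0y : ∀ i ∈ F0, a i y ≠ 0 := by
    intro i hi
    apply hyD
    exact ⟨arr_step_lin_ne ((D.F0mem i).1 hi).2 0, Or.inl ⟨i, rfl⟩⟩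
  have hsy : ∀ i ∈ F0, 0 < arr_step_sg (s i) * a i y := by
    intro i hi
    rcases lt_or_gt_of_ne (hF0y i hi) with h | h
    · have : s i = false := by simp [hs, hi, h]
      rw [this]; simp only [arr_step_sg]; norm_num; exact h
    · have : s i = true := by simp [hs, h.le]
      rw [this]; simp only [arr_step_sg]; norm_num; exact h
  have hyQ : y ∈ interior (arr_step_Q a G F0 s) := by
    rw [mem_interior]
    refine ⟨interior (Pol a G) ∩ ⋂ i ∈ F0, {x | 0 < arr_step_sg (s i) * a i x}, ?_, ?_, ?_⟩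
    · rintro x ⟨hx1, hx2⟩
      rw [arr_step_Q_mem]
      refine ⟨interior_subset hx1, fun i hi => ?_⟩
      simp only [mem_iInter, mem_ofPred_eq] at hx2
      exact (hx2 i hi).le
    · refine isOpen_interior.inter (isOpen_biInter_finset fun i _ => ?_)
      exact isOpen_lt continuous_const (continuous_const.mul (hcont _))
    · refine ⟨hy, ?_⟩
      simp only [mem_iInter, mem_ofPred_eq]
      exact hsy
  have hne : (interior (arr_step_Q a G F0 s)).Nonempty := ⟨y, hyQ⟩
  have hs2 : ∀ i, i ∉ F0 → s i = true := by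
    intro i hi; simp [hs, hi]
  refine ⟨s, hne, hs2, ?_⟩
  have hbQ := D.bQ s hne
  obtain ⟨κ, hκ, hUZ⟩ := D.bv s hne
  have hint := (pol_interior (arr_step_cc a s) (G.disjSum F0) hne y).1 hyQ
  have hyQ' : y ∈ arr_step_Q a G F0 s := interior_subset hyQ
  have hby : b s ≠ y := by
    intro hby
    have h1 := (hUZ (b s)).2 rfl
    have h2 : ∀ m, (arr_step_cc a s (κ m)).linear = 0 := by
      intro m
      by_contra h
      have h3 := hint (κ m) (hκ m) h
      have h4 := h1 m
      simp only at h4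
      rw [hby] at h4
      linarith
    obtain ⟨p, hp⟩ := exists_ne (b s)
    apply hp
    rw [← hUZ p]
    intro m
    have := arr_step_const (h2 m) p (b s)
    rw [this]; exact h1 m
  have hQc : IsCompact (Pol (arr_step_cc a s) (G.disjSum F0)) := by
    refine D.hc.of_isClosed_subset (arr_step_pol_closed _ _) ?_
    intro x hx
    exact ((arr_step_Q_mem a G F0 s x).1 hx).1
  obtain ⟨r, hr, hz, m, hm, hml, hmz, hmb⟩ := exit_point (arr_step_cc a s) (G.disjSum F0) hQc (b s) y
    hbQ hby hint hyQ'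
  set z := b s + r • (y - b s) with hzdef
  have hyz : y = b s + (1 / r) • (z - b s) := by
    rw [hzdef, add_sub_cancel_left, smul_smul, one_div, inv_mul_cancel₀ (by linarith), one_smul]
    abel
  -- (*)
  have hstar : ∀ m', arr_step_cc a s m' z = 0 →
      ∀ x, arr_step_cc a s m (b s) * arr_step_cc a s m' x
        = arr_step_cc a s m' (b s) * arr_step_cc a s m x := by
    intro m' hm' x
    by_contra hcon
    have h1 : ((arr_step_cc a s m (b s)) • arr_step_cc a s m'
      - (arr_step_cc a s m' (b s)) • arr_step_cc a s m) ∈ arr_step_bad a b := by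
      refine ⟨⟨x, ?_⟩, Or.inr ⟨(s, m, m'), rfl⟩⟩
      simp only [AffineMap.coe_sub, AffineMap.coe_smul, Pi.sub_apply, Pi.smul_apply, smul_eq_mul]
      exact sub_ne_zero.2 hcon
    apply hyD _ h1
    simp only [AffineMap.coe_sub, AffineMap.coe_smul, Pi.sub_apply, Pi.smul_apply, smul_eq_mul]
    have e1 : arr_step_cc a s m' y = arr_step_cc a s m' (b s)
        + (1 / r) * (arr_step_cc a s m' z - arr_step_cc a s m' (b s)) := by
      rw [← arr_step_line, ← hyz]
    have e2 : arr_step_cc a s m y = arr_step_cc a s m (b s)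
        + (1 / r) * (arr_step_cc a s m z - arr_step_cc a s m (b s)) := by
      rw [← arr_step_line, ← hyz]
    rw [e1, e2, hm', hmz]
    ring
  have hvan : ∀ m', arr_step_cc a s m' z = 0 → ∀ x, arr_step_cc a s m x = 0 →
      arr_step_cc a s m' x = 0 := by
    intro m' hm' x hx
    have := hstar m' hm' x
    rw [hx, mul_zero] at this
    rcases mul_eq_zero.1 this with h | h
    · exact absurd h hmb.ne'
    · exact h
  have hzP : z ∈ Pol a G ∧ ∀ i ∈ F0, 0 ≤ arr_step_sg (s i) * a i z :=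
    (arr_step_Q_mem a G F0 s z).1 hz
  -- the index with the zero set of `c_m`
  have hidx : ∃ i ∈ R, ∀ x, a i x = 0 ↔ arr_step_cc a s m x = 0 := by
    by_cases hcase : ∃ j ∈ G, (a j).linear ≠ 0 ∧ a j z = 0
    · obtain ⟨j, hjG, hjl, hjz⟩ := hcase
      have hjs := hstar (Sum.inl j) (by simpa [arr_step_cc] using hjz)
      have hjs' : ∀ x, arr_step_cc a s m (b s) * a j x = a j (b s) * arr_step_cc a s m x := by
        intro x
        have := hjs x
        simpa [arr_step_cc] using this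
      have hjb : a j (b s) ≠ 0 := by
        intro h0
        obtain ⟨x, hx⟩ := arr_step_lin_ne hjl 0
        have := hjs' x
        rw [h0, zero_mul] at this
        rcases mul_eq_zero.1 this with h | h
        · exact hmb.ne' h
        · exact hx h
      have hiff : ∀ x, a j x = 0 ↔ arr_step_cc a s m x = 0 := by
        intro x
        have h3 := hjs' x
        constructor
        · intro h
          rw [h, mul_zero] at h3
          exact (mul_eq_zero.1 h3.symm).resolve_left hjb
        · intro h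
          rw [h, mul_zero] at h3
          exact (mul_eq_zero.1 h3).resolve_left hmb.ne'
      obtain ⟨i, hi, hii⟩ := D.Rrep1 j hjG hjl ⟨z, hzP.1, hjz, fun j' hj' hj'z x hx => by
        have := hvan (Sum.inl j') (by simpa [arr_step_cc] using hj'z) x ((hiff x).1 hx)
        simpa [arr_step_cc] using this⟩
      exact ⟨i, hi, fun x => (hii x).trans (hiff x)⟩
    · push Not at hcase
      have hzint : z ∈ interior (Pol a G) := by
        rw [pol_interior a G D.hint]
        intro j hj hjl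
        exact lt_of_le_of_ne (hzP.1 j hj) (Ne.symm (hcase j hj hjl))
      cases m with
      | inl j =>
        exfalso
        have hj : j ∈ G := by simpa using hm
        exact hcase j hj (by simpa [arr_step_cc] using hml) (by simpa [arr_step_cc] using hmz)
      | inr j =>
        have hj : j ∈ F0 := by simpa using hm
        have hiff : ∀ x, a j x = 0 ↔ arr_step_cc a s (Sum.inr j) x = 0 := by
          intro x
          rw [arr_step_cc_zero]; rfl
        obtain ⟨i, hi, hii⟩ := D.Rrep2 j hj ⟨z, hzint, (hiff z).2 hmz⟩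
        exact ⟨i, hi, fun x => (hii x).trans (hiff x)⟩
  obtain ⟨i, hiR, hiz⟩ := hidx
  have S := D.sec i hiR
  have hzi : a i z = 0 := (hiz z).2 hmz
  have hzc : z ∈ ⋃ τ ∈ Tt i, Cv τ := by
    rw [S.cover]; exact ⟨hzP.1, hzi⟩
  simp only [mem_iUnion, exists_prop] at hzc
  obtain ⟨τ, hτ, hzτ⟩ := hzc
  have hib : a i (b s) ≠ 0 := by
    intro h
    exact hmb.ne' ((hiz _).1 h)
  refine ⟨i, hiR, τ, hτ, ?_, hib, ?_⟩
  · intro x hx
    rw [arr_step_Q_mem]
    constructor
    · have : x ∈ ⋃ τ ∈ Tt i, Cv τ := by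
        simp only [mem_iUnion, exists_prop]; exact ⟨τ, hτ, hx⟩
      rw [S.cover] at this
      exact this.1
    · intro i' hi'
      by_cases h0 : a i' z = 0
      · have h1 : arr_step_cc a s (Sum.inr i') z = 0 := by
          rw [arr_step_cc_zero]; exact h0
        have h2 := hvan _ h1 x ((hiz x).1 (S.zero τ hτ x hx))
        rw [arr_step_cc_zero] at h2
        simp only [Sum.elim_inr, id_eq] at h2
        rw [h2, mul_zero]
      · have hpos : 0 < arr_step_sg (s i') * a i' z :=
          lt_of_le_of_ne (hzP.2 i' hi') (Ne.symm (mul_ne_zero (arr_step_sg_ne _) h0))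
        have hopen : IsOpen {x | 0 < arr_step_sg (s i') * a i' x} :=
          isOpen_lt continuous_const (continuous_const.mul (hcont _))
        obtain ⟨w, hw1, hw2⟩ := mem_closure_iff.1 (S.cl τ hτ hzτ) _ hopen hpos
        have hnz : ∀ w' ∈ RI i τ, a i' w' ≠ 0 := by
          intro w' hw' hw0
          exact h0 (S.avoid τ hτ i' (Or.inl ((D.F0mem i').1 hi').1) w' hw' hw0 z hzi)
        have hall : ∀ w' ∈ RI i τ, 0 ≤ arr_step_sg (s i') * a i' w' := by
          intro w' hw'
          by_contra hneg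
          push Not at hneg
          have hpre := (S.conv τ hτ).isPreconnected
          have hivt := hpre.intermediate_value hw' hw2
            (f := fun x => arr_step_sg (s i') * a i' x)
            (continuous_const.mul (hcont (a i'))).continuousOn
          obtain ⟨v, hv, hv0⟩ := hivt ⟨hneg.le, le_of_lt hw1⟩
          exact hnz v hv ((mul_eq_zero.1 hv0).resolve_left (arr_step_sg_ne _))
        have hcl : closure (RI i τ) ⊆ {x | 0 ≤ arr_step_sg (s i') * a i' x} :=
          closure_minimal hall (isClosed_le continuous_const (continuous_const.mul (hcont _)))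
        exact hcl (S.cl τ hτ hx)
  · rw [(S.cone τ hτ (b s) hib).2.1 y]
    refine ⟨z, hzτ, 1 / r, by positivity, ?_, hyz⟩
    rw [div_le_one (by linarith)]; exact hr.le

theorem arr_step_disj_aux [FiniteDimensional ℝ V] {k : ℕ}
    {ι : Type} (a : ι → (V →ᵃ[ℝ] ℝ))
    (F F0 G R : Finset ι) (Tt : ι → Finset (Fin (k + 1) → V))
    (RI : ι → (Fin (k + 1) → V) → Set V) (b : (ι → Bool) → V)
    (D : arr_step_D k a F F0 G R Tt RI b) (s : ι → Bool)
    (hne : (interior (arr_step_Q a G F0 s)).Nonempty) (i : ι) (hi : i ∈ R)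
    (hib : a i (b s) ≠ 0) (z z' : V) (hz : a i z = 0) (hz' : z' ∈ arr_step_Q a G F0 s)
    (r r' : ℝ) (hr' : 0 < r') (h : b s + r • (z - b s) = b s + r' • (z' - b s)) :
    r ≤ r' := by
  have hbQ := D.bQ s hne
  obtain ⟨ε, hε, hε'⟩ : ∃ ε : ℝ, ε ≠ 0 ∧ ∀ x ∈ arr_step_Q a G F0 s, 0 ≤ ε * a i x := by
    rcases D.RFG i hi with h1 | h1
    · exact ⟨arr_step_sg (s i), arr_step_sg_ne _, fun x hx =>
        ((arr_step_Q_mem a G F0 s x).1 hx).2 i h1⟩
    · exact ⟨1, one_ne_zero, fun x hx => by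
        rw [one_mul]; exact ((arr_step_Q_mem a G F0 s x).1 hx).1 i h1⟩
  have hbpos : 0 < ε * a i (b s) :=
    lt_of_le_of_ne (hε' _ hbQ) (Ne.symm (mul_ne_zero hε hib))
  have h1 := hε' _ hz'
  have h2 : a i (b s + r • (z - b s)) = a i (b s + r' • (z' - b s)) := by rw [h]
  rw [arr_step_line, arr_step_line, hz] at h2
  by_contra hcon
  push Not at hcon
  have h3 : r' * (ε * a i z') = (r' - r) * (ε * a i (b s)) := by
    have : r' * a i z' = (r' - r) * a i (b s) := by linarith
    calc r' * (ε * a i z') = ε * (r' * a i z') := by ring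
      _ = _ := by rw [this]; ring
  have h4 : 0 ≤ r' * (ε * a i z') := by positivity
  have h5 : (r' - r) * (ε * a i (b s)) < 0 := mul_neg_of_neg_of_pos (by linarith) hbpos
  linarith

theorem arr_step_disj [FiniteDimensional ℝ V] {k : ℕ}
    {ι : Type} (a : ι → (V →ᵃ[ℝ] ℝ))
    (F F0 G R : Finset ι) (Tt : ι → Finset (Fin (k + 1) → V))
    (RI : ι → (Fin (k + 1) → V) → Set V) (b : (ι → Bool) → V)
    (D : arr_step_D k a F F0 G R Tt RI b) (s s' : ι → Bool)
    (hne : (interior (arr_step_Q a G F0 s)).Nonempty)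
    (hne' : (interior (arr_step_Q a G F0 s')).Nonempty)
    (hs : ∀ i, i ∉ F0 → s i = true) (hs' : ∀ i, i ∉ F0 → s' i = true)
    (i i' : ι) (hi : i ∈ R) (hi' : i' ∈ R) (τ τ' : Fin (k + 1) → V) (hτ : τ ∈ Tt i)
    (hτ' : τ' ∈ Tt i') (hsub : Cv τ ⊆ arr_step_Q a G F0 s) (hsub' : Cv τ' ⊆ arr_step_Q a G F0 s')
    (hib : a i (b s) ≠ 0) (hib' : a i' (b s') ≠ 0) (y : V)
    (hy : y ∈ interior (Cv (Fin.cons (b s) τ : Fin (k + 2) → V)))
    (hy' : y ∈ interior (Cv (Fin.cons (b s') τ' : Fin (k + 2) → V))) :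
    s = s' ∧ τ = τ' := by
  have hyQ := interior_mono (arr_step_cons_sub a G F0 s k (b s) τ (D.bQ s hne) hsub) hy
  have hyQ' := interior_mono (arr_step_cons_sub a G F0 s' k (b s') τ' (D.bQ s' hne') hsub') hy'
  have hss : s = s' := by
    funext i₁
    by_cases h1 : i₁ ∈ F0
    · have h2 := arr_step_int_pos a G F0 s y hyQ i₁ h1 ((D.F0mem i₁).1 h1).2
      have h3 := arr_step_int_pos a G F0 s' y hyQ' i₁ h1 ((D.F0mem i₁).1 h1).2
      apply arr_step_sg_eq
      have h4 := mul_pos h2 h3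
      have h5 : arr_step_sg (s i₁) * arr_step_sg (s' i₁) * (a i₁ y) ^ 2
        = arr_step_sg (s i₁) * a i₁ y * (arr_step_sg (s' i₁) * a i₁ y) := by ring
      rw [← h5] at h4
      exact arr_step_pos1 h4 (sq_nonneg _)
    · rw [hs _ h1, hs' _ h1]
  subst hss
  refine ⟨rfl, ?_⟩
  have S := D.sec i hi
  have S' := D.sec i' hi'
  obtain ⟨z, hz, r, hr0, hr1, hyz⟩ := (S.cone τ hτ (b s) hib).2.2 y hy
  obtain ⟨z', hz', r', hr0', hr1', hyz'⟩ := (S'.cone τ' hτ' (b s) hib').2.2 y hy'
  have hiz : a i z = 0 := S.zero τ hτ z (S.sub τ hτ hz)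
  have hiz' : a i' z' = 0 := S'.zero τ' hτ' z' (S'.sub τ' hτ' hz')
  have heq := hyz.symm.trans hyz'
  have hle := arr_step_disj_aux a F F0 G R Tt RI b D s hne i hi hib z z' hiz
    (hsub' (S'.sub τ' hτ' hz')) r r' hr0' heq
  have hle' := arr_step_disj_aux a F F0 G R Tt RI b D s hne i' hi' hib' z' z hiz'
    (hsub (S.sub τ hτ hz)) r' r hr0 heq.symm
  have hrr : r = r' := le_antisymm hle hle'
  subst hrr
  have hzz : z = z' := by
    have h1 := add_left_cancel heq
    have h2 := smul_right_injective V hr0.ne' h1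
    simpa using h2
  subst hzz
  have hii : i = i' := by
    apply D.Rinj i hi i' hi'
    intro x
    have hFG : ∀ j ∈ R, j ∈ F ∨ j ∈ G := fun j hj => (D.RFG j hj).imp (fun h => ((D.F0mem j).1 h).1) id
    exact ⟨fun h => S.avoid τ hτ i' (hFG i' hi') z hz hiz' x h,
      fun h => S'.avoid τ' hτ' i (hFG i hi) z hz' hiz x h⟩
  subst hii
  exact S.disj τ hτ τ' hτ' ⟨z, hz, hz'⟩

theorem arr_step_uniq [FiniteDimensional ℝ V] {k : ℕ}
    {ι : Type} (a : ι → (V →ᵃ[ℝ] ℝ))
    (F F0 G R : Finset ι) (Tt : ι → Finset (Fin (k + 1) → V))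
    (RI : ι → (Fin (k + 1) → V) → Set V) (b : (ι → Bool) → V)
    (D : arr_step_D k a F F0 G R Tt RI b) (s s' : ι → Bool)
    (hne : (interior (arr_step_Q a G F0 s)).Nonempty)
    (hne' : (interior (arr_step_Q a G F0 s')).Nonempty)
    (hs : ∀ i, i ∉ F0 → s i = true) (hs' : ∀ i, i ∉ F0 → s' i = true)
    (i : ι) (hi : i ∈ R) (τ : Fin (k + 1) → V) (hτ : τ ∈ Tt i)
    (hsub : Cv τ ⊆ arr_step_Q a G F0 s) (hsub' : Cv τ ⊆ arr_step_Q a G F0 s')
    (hor : i ∈ G ∨ s i = s' i) : s = s' := by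
  have S := D.sec i hi
  obtain ⟨z, hz⟩ := S.ne τ hτ
  obtain ⟨p, hp⟩ := hne
  obtain ⟨p', hp'⟩ := hne'
  have hli := D.Rlin i hi
  have hprod : 0 < a i p * a i p' := by
    by_cases hiG : i ∈ G
    · have h1 := (pol_interior a G D.hint p).1 (arr_step_int_P a G F0 s hp) i hiG hli
      have h2 := (pol_interior a G D.hint p').1 (arr_step_int_P a G F0 s' hp') i hiG hli
      exact mul_pos h1 h2
    · have hiF : i ∈ F0 := (D.RFG i hi).resolve_right hiG
      have hsi := hor.resolve_left hiG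
      have h1 := arr_step_int_pos a G F0 s p hp i hiF hli
      have h2 := arr_step_int_pos a G F0 s' p' hp' i hiF hli
      rw [← hsi] at h2
      have h3 := mul_pos h1 h2
      have h4 : (arr_step_sg (s i)) ^ 2 * (a i p * a i p')
        = arr_step_sg (s i) * a i p * (arr_step_sg (s i) * a i p') := by ring
      rw [← h4] at h3
      exact arr_step_pos1 (by rw [mul_comm]; exact h3) (sq_nonneg (arr_step_sg (s i)))
  funext i'
  by_cases h1 : i' ∈ F0
  · have hl' := ((D.F0mem i').1 h1).2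
    by_cases h0 : a i' z = 0
    · have hav := S.avoid τ hτ i' (Or.inl ((D.F0mem i').1 h1).1) z hz h0
      obtain ⟨μ, hμ⟩ := prop_of_zero (a i) (a i') hli hav
      have h2 := arr_step_int_pos a G F0 s p hp i' h1 hl'
      have h3 := arr_step_int_pos a G F0 s' p' hp' i' h1 hl'
      rw [hμ] at h2 h3
      have h4 := mul_pos h2 h3
      have h5 : arr_step_sg (s i') * arr_step_sg (s' i') * (μ ^ 2 * (a i p * a i p'))
        = arr_step_sg (s i') * (μ * a i p) * (arr_step_sg (s' i') * (μ * a i p')) := by ring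
      rw [← h5] at h4
      exact arr_step_sg_eq _ _ (arr_step_pos1 h4 (by positivity))
    · have h2 := ((arr_step_Q_mem a G F0 s z).1 (hsub (S.sub τ hτ hz))).2 i' h1
      have h3 := ((arr_step_Q_mem a G F0 s' z).1 (hsub' (S.sub τ hτ hz))).2 i' h1
      have h2' := lt_of_le_of_ne h2 (Ne.symm (mul_ne_zero (arr_step_sg_ne _) h0))
      have h3' := lt_of_le_of_ne h3 (Ne.symm (mul_ne_zero (arr_step_sg_ne _) h0))
      have h4 := mul_pos h2' h3'
      have h5 : arr_step_sg (s i') * arr_step_sg (s' i') * (a i' z) ^ 2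
        = arr_step_sg (s i') * a i' z * (arr_step_sg (s' i') * a i' z) := by ring
      rw [← h5] at h4
      exact arr_step_sg_eq _ _ (arr_step_pos1 h4 (sq_nonneg _))
  · rw [hs _ h1, hs' _ h1]

/-! TARGET `arr_step` (the induction step; the case `k = 0` needs `c = 0`, because then `k - 1 = 0`).

Plan. Write `P = Pol a G`. Let `F0 = {i ∈ F | (a i).linear ≠ 0}`,
`RF = {i ∈ F0 | ∃ x ∈ interior P, a i x = 0}`, `RG = {i ∈ G | (a i).linear ≠ 0 ∧ ∃ x, RelP a G i x}`. For `i ∈ RF` such an `x` satisfies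
`RelP a G i x` (by `zero_of_nonneg` no nonzero `a j`, `j ∈ G`, vanishes at `x`), so `section_tri` gives `T_i, RI_i` for `i ∈ RF ∪ RG`.
Choose `R' ⊆ RF ∪ RG` with one index for every zero set `{x | a i x = 0}`, `i ∈ RF ∪ RG`.
Cells: for `s : ι → Bool` let `c_s : ι ⊕ ι → (V →ᵃ ℝ)`, `inl j ↦ a j`, `inr i ↦ ± a i` (sign by `s i`), `SS = inl '' G ∪ inr '' F0`,
`Q_s = Pol c_s SS = {x ∈ P | ∀ i ∈ F0, 0 ≤ ± a i x}`; `𝒮` = the `s` with `(interior Q_s).Nonempty` and `s i = true` for `i ∉ F0`. Each `Q_s`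
is compact; let `b_s` be a vertex (`pol_vertex`). The new triangulation:
`T = {Fin.cons b_s τ | i ∈ R', τ ∈ T_i, s ∈ 𝒮, Cv τ ⊆ Q_s, a i b_s ≠ 0}`.
* independence: `cone`. Avoiding: `Cv σ ⊆ Q_s` by convexity, and `interior Q_s ⊆ {± a i > 0}` (`pol_interior`).
* vertices: `b_s` from `pol_vertex` (same zeros as without the signs; `Sum.elim id id ∘ κ`), the others from `vert`.
* cover, `⊆` clear. `⊇`: the union is closed and `P = closure (interior P)`, so it is enough to cover the `y ∈ interior P` outside the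
 zero sets of the finitely many nonzero affine functions: `a i` (`i ∈ F0`), and `g = c_m(b) • c_m' - c_m'(b) • c_m` for `s ∈ 𝒮`, `b = b_s`,
 `m, m' ∈ SS` when `g` is not identically zero (`dense_nonzero`). Let `s` be the sign vector of `y`; `y ∈ interior Q_s` (the set of the points
 of `interior P` with the same signs is open), `s ∈ 𝒮`. `b ≠ y`, since otherwise all the constraints defining `b` vanish at the interior
 point `y`, so are constant zero, so `V` is a point, but `finrank = k + 1`. `exit_point`: `z = b + r (y - b)`, `r > 1`, `m ∈ SS` nonconstant,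
 `c_m z = 0 < c_m b`. If `m' ∈ SS` is nonconstant and `c_m' z = 0` then the `g` above vanishes at `b` and `z`, so at `y`, so `g = 0`
 identically: (*) `c_m b * c_m' x = c_m' b * c_m x` for all `x`. Let `i₀` be the index of `m`, `H` its zero set. There is
 `i ∈ RF ∪ RG` with zero set `H`: if some nonconstant `a j`, `j ∈ G`, vanishes at `z` then `j ∈ RG` with the witness `z` (by (*) every nonconstant
 `a j'`, `j' ∈ G`, vanishing at `z` vanishes on `H`, and `H` is the zero set of `a j`); otherwise `z ∈ interior P` by `pol_interior`, `m = inr i₀`,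
 `i₀ ∈ RF`. Replace `i` by its representative in `R'`. `z ∈ P ∩ H`, so `z ∈ Cv τ`, `τ ∈ T_i`. `Cv τ ⊆ Q_s`: let `i' ∈ F0`. If `a i' z = 0` it
 vanishes on `H ⊇ Cv τ` by (*). If not, `± a i' z > 0`, so `± a i' > 0` at some point of `RI τ` (`z ∈ closure (RI τ)`); `a i'` has no zero
 on `RI τ` (`avoid`, as `z ∈ H`), so `± a i' > 0` on the convex set `RI τ` and `≥ 0` on `Cv τ`. `a i b ≠ 0` since `b ∉ H`.
 `y = b + (1/r) (z - b) ∈ Cv (cons b τ)` by `cone`.
* disjoint interiors: let `y` be in the interiors of `cons b_s τ` and `cons b_s' τ'` (data `i, τ, s` and `i', τ', s'`). If `s ≠ s'` they differ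
 at some `i₁ ∈ F0`, and the interiors of `Q_s`, `Q_s'` are on different sides of `a i₁ = 0`. So `s = s'`. By `cone`
 `y = b + r (z - b) = b + r' (z' - b)`, `z ∈ RI τ`, `z' ∈ RI τ'`, `0 < r, r' < 1`. Let `c` be `± a i`, nonnegative on `Q_s`, `c b > 0`, `c z = 0`;
 `z' = b + (r / r') (z - b) ∈ Q_s`, so `0 ≤ c z' = c b (1 - r / r')`, `r ≤ r'`; by symmetry `r = r'`, `z = z'`. If `i ≠ i'`: `z ∈ RI τ`,
 `a i' z = 0`, so by `avoid` `a i'` vanishes on the zero set of `a i`; both are nonconstant, so by `prop_of_zero` the zero sets are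
 equal, contradicting the choice of `R'`. So `i = i'`, and `τ = τ'` by `disj`.
* count: for `i ∈ R'`, `τ ∈ T_i` the number of the `s ∈ 𝒮` with `Cv τ ⊆ Q_s` is at most `1` if `i ∈ RG` and at most `2` if `i ∈ RF`:
 if `s, s' ∈ 𝒮` are such, and `i ∈ G` or `s i = s' i`, then `s = s'`: for `i' ∈ F0` and `z ∈ RI τ`: if `a i' z ≠ 0` its sign determines
 `s i'`; if `a i' z = 0` then `a i' = μ a i` (`avoid`, `prop_of_zero`), `μ ≠ 0`, and at a point of `interior Q_s` the sign of `a i` is `+`
 (if `i ∈ G`) or `s i`, so `s i'` is determined. So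
 `T.card ≤ ∑_{i ∈ RG} |T_i| + 2 ∑_{i ∈ RF} |T_i|`. For `i ∈ RG` use `|T_i| ≤ 2^k F.card^k + c (F.card+1)^(k-1) ≤ (2^k + c)(F.card+1)^k`, and
 `RG.card ≤ J`. For `i ∈ RF` the points `x` with `RelP a G i x` are in `interior P` (a nonconstant `a j`, `j ∈ G`, vanishing at `x` would vanish
 on the zero set of `a i`, which meets `interior P`), so `∑_{i ∈ RF} |{κ..}| ≤ |{κ : Fin (k+1) → ι | ...}|` by the injection
 `(i, κ) ↦ Fin.cons i κ`; and `2 ∑_{i ∈ RF} c (F.card+1)^(k-1) ≤ 2 c (F.card+1)^k` (for `k = 0` both sides are `0` as `c = 0`). -/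

theorem arr_step (k J c : ℕ) (hk : k = 0 → c = 0) (h : ArrStmt k J c) :
    ArrStmt (k + 1) J (2 * c + J * (2 ^ k + c)) := by
  classical
  intro V _ _ _ hV ι _ a F G hGJ hc hint
  have hfin : Fintype ι := Fintype.ofFinite ι
  set F0 : Finset ι := F.filter fun i => (a i).linear ≠ 0 with hF0
  set RF : Finset ι := F0.filter fun i => ∃ x ∈ interior (Pol a G), a i x = 0 with hRF
  set RG : Finset ι := G.filter fun i => (a i).linear ≠ 0 ∧ ∃ x, RelP a G i x with hRG
  obtain ⟨R', hR', hbij⟩ := exists_subset_bijOn (↑(RF ∪ RG) : Set ι) (fun i => {x | a i x = 0})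
  have hR'fin : R'.Finite := (Finset.finite_toSet _).subset hR'
  set R : Finset ι := hR'fin.toFinset with hR
  have hRsub : R ⊆ RF ∪ RG := by
    intro i hi
    rw [hR, Set.Finite.mem_toFinset] at hi
    exact_mod_cast hR' hi
  have hlin : ∀ i ∈ RF ∪ RG, (a i).linear ≠ 0 := by
    intro i hi
    simp only [hRF, hRG, hF0, Finset.mem_union, Finset.mem_filter] at hi
    tauto
  have hRel : ∀ i ∈ RF ∪ RG, ∃ x, RelP a G i x := by
    intro i hi
    rw [Finset.mem_union] at hi
    rcases hi with hi | hi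
    · rw [hRF, Finset.mem_filter] at hi
      obtain ⟨-, x, hx, hix⟩ := hi
      refine ⟨x, interior_subset hx, hix, fun j hj hjx y _ => ?_⟩
      exact zero_of_nonneg (a j) (Pol a G) (fun z hz => hz j hj) x hx hjx y
    · rw [hRG, Finset.mem_filter] at hi
      exact hi.2.2
  have hsec : ∀ i ∈ RF ∪ RG, ∃ (T : Finset (Fin (k + 1) → V)) (RI : (Fin (k + 1) → V) → Set V),
      SecTri k a F G i T RI ∧
      T.card ≤ 2 ^ k * {κ : Fin k → ι | (∀ m, κ m ∈ F) ∧
          ∃ x, RelP a G i x ∧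
            UZ (fun m : Fin (k + 1) => a ((Fin.cons i κ : Fin (k + 1) → ι) m)) x}.ncard
        + c * (F.card + 1) ^ (k - 1) := by
    intro i hi
    obtain ⟨x, hx⟩ := hRel i hi
    exact section_tri k J c h hV a F G hGJ hc i (hlin i hi) x hx
  choose! Tt RI hsecT hsecC using hsec
  have hb : ∀ s : ι → Bool, (interior (arr_step_Q a G F0 s)).Nonempty → ∃ b : V,
      b ∈ arr_step_Q a G F0 s ∧ ∃ κ : Fin (k + 1) → ι ⊕ ι,
      (∀ m, κ m ∈ G.disjSum F0) ∧ UZ (fun m => arr_step_cc a s (κ m)) b := by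
    intro s hs
    have hQc : IsCompact (Pol (arr_step_cc a s) (G.disjSum F0)) := by
      refine hc.of_isClosed_subset (arr_step_pol_closed _ _) ?_
      intro x hx
      exact ((arr_step_Q_mem a G F0 s x).1 hx).1
    obtain ⟨b, hb, κ, hκ⟩ := pol_vertex (arr_step_cc a s) (G.disjSum F0) hQc
      (hs.mono interior_subset) (k + 1) hV
    exact ⟨b, hb, κ, hκ⟩
  choose! b hb1 hb2 using hb
  have hrep : ∀ j ∈ RF ∪ RG, ∃ i ∈ R, ∀ x, a i x = 0 ↔ a j x = 0 := by
    intro j hj
    have h1 := hbij.surjOn ⟨j, hj, rfl⟩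
    obtain ⟨i, hi, hij⟩ := h1
    refine ⟨i, by rw [hR, Set.Finite.mem_toFinset]; exact hi, fun x => ?_⟩
    have := Set.ext_iff.1 hij x
    simpa using this
  have D : arr_step_D k a F F0 G R Tt RI b := by
    refine ⟨hc, hint, ?_, ?_, ?_, ?_, ?_, ?_, ?_, hb1, hb2⟩
    · intro i; rw [hF0, Finset.mem_filter]
    · intro i hi; exact hlin i (hRsub hi)
    · intro i hi
      have := hRsub hi
      rw [Finset.mem_union] at this
      rcases this with h1 | h1
      · left; rw [hRF, Finset.mem_filter] at h1; exact h1.1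
      · right; rw [hRG, Finset.mem_filter] at h1; exact h1.1
    · intro j hj hjl hjx
      apply hrep
      rw [Finset.mem_union]; right
      rw [hRG, Finset.mem_filter]; exact ⟨hj, hjl, hjx⟩
    · intro j hj hjx
      apply hrep
      rw [Finset.mem_union]; left
      rw [hRF, Finset.mem_filter]; exact ⟨hj, hjx⟩
    · intro i hi i' hi' hii
      rw [hR, Set.Finite.mem_toFinset] at hi hi'
      apply hbij.injOn hi hi'
      ext x
      exact hii x
    · intro i hi
      exact hsecT i (hRsub hi)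
  set SS : Finset (ι → Bool) := Finset.univ.filter
    (fun s => (interior (arr_step_Q a G F0 s)).Nonempty ∧ ∀ i, i ∉ F0 → s i = true) with hSS
  have hSSm : ∀ s, s ∈ SS ↔ (interior (arr_step_Q a G F0 s)).Nonempty ∧
      ∀ i, i ∉ F0 → s i = true := by
    intro s; rw [hSS, Finset.mem_filter]; simp only [Finset.mem_univ, true_and]
  set N : ι → (Fin (k + 1) → V) → Finset (ι → Bool) := fun i τ =>
    SS.filter (fun s => Cv τ ⊆ arr_step_Q a G F0 s ∧ a i (b s) ≠ 0) with hN
  set T : Finset (Fin (k + 2) → V) := R.biUnion fun i => (Tt i).biUnion fun τ =>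
    (N i τ).image fun s => (Fin.cons (b s) τ : Fin (k + 2) → V) with hT
  have hTm : ∀ t ∈ T, ∃ i ∈ R, ∃ τ ∈ Tt i, ∃ s, (interior (arr_step_Q a G F0 s)).Nonempty ∧
      (∀ i, i ∉ F0 → s i = true) ∧ Cv τ ⊆ arr_step_Q a G F0 s ∧ a i (b s) ≠ 0 ∧
      t = Fin.cons (b s) τ := by
    intro t ht
    rw [hT, Finset.mem_biUnion] at ht
    obtain ⟨i, hi, ht⟩ := ht
    rw [Finset.mem_biUnion] at ht
    obtain ⟨τ, hτ, ht⟩ := ht
    rw [Finset.mem_image] at ht
    obtain ⟨s, hs, hst⟩ := ht
    rw [hN, Finset.mem_filter, hSSm] at hs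
    exact ⟨i, hi, τ, hτ, s, hs.1.1, hs.1.2, hs.2.1, hs.2.2, hst.symm⟩
  refine ⟨T, ⟨?_, ?_, ?_⟩, ?_, ?_, ?_⟩
  · -- independence
    intro t ht
    obtain ⟨i, hi, τ, hτ, s, hs1, hs2, hs3, hs4, rfl⟩ := hTm t ht
    exact ((D.sec i hi).cone τ hτ (b s) hs4).1
  · -- union
    apply Set.Subset.antisymm
    · intro x hx
      simp only [mem_iUnion, exists_prop] at hx
      obtain ⟨t, ht, hx⟩ := hx
      obtain ⟨i, hi, τ, hτ, s, hs1, hs2, hs3, hs4, rfl⟩ := hTm t ht
      exact ((arr_step_Q_mem a G F0 s x).1 (arr_step_cons_sub a G F0 s k (b s) τ (D.bQ s hs1) hs3 hx)).1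
    · have hUc : IsClosed (⋃ t ∈ T, Cv t) := by
        refine isClosed_biUnion_finset fun t _ => ?_
        exact (Set.finite_range t).isClosed_convexHull ℝ
      have hPcl : IsClosed (Pol a G) := arr_step_pol_closed _ _
      have hPc : Convex ℝ (Pol a G) := arr_step_pol_convex _ _
      have h1 : closure (interior (Pol a G)) = Pol a G := by
        rw [hPc.closure_interior_eq_closure_of_nonempty_interior hint, hPcl.closure_eq]
      have hdense := dense_nonzero (arr_step_bad a b) (arr_step_bad_finite a b) (fun g hg => hg.1)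
      have h2 := hdense.open_subset_closure_inter (isOpen_interior (s := Pol a G))
      rw [← h1]
      refine closure_minimal (h2.trans (closure_minimal ?_ hUc)) hUc
      rintro y ⟨hy, hyD⟩
      obtain ⟨s, hs1, hs2, i, hi, τ, hτ, hs3, hs4, hyc⟩ := arr_step_cover hV a F F0 G R Tt RI b D y hy hyD
      simp only [mem_iUnion, exists_prop]
      refine ⟨Fin.cons (b s) τ, ?_, hyc⟩
      rw [hT, Finset.mem_biUnion]
      refine ⟨i, hi, ?_⟩
      rw [Finset.mem_biUnion]
      refine ⟨τ, hτ, ?_⟩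
      rw [Finset.mem_image]
      refine ⟨s, ?_, rfl⟩
      rw [hN, Finset.mem_filter, hSSm]
      exact ⟨⟨hs1, hs2⟩, hs3, hs4⟩
  · -- disjoint interiors
    intro t ht t' ht' htt
    obtain ⟨i, hi, τ, hτ, s, hs1, hs2, hs3, hs4, rfl⟩ := hTm t ht
    obtain ⟨i', hi', τ', hτ', s', hs1', hs2', hs3', hs4', rfl⟩ := hTm t' ht'
    rw [Set.disjoint_left]
    intro y hy hy'
    obtain ⟨e1, e2⟩ := arr_step_disj a F F0 G R Tt RI b D s s' hs1 hs1' hs2 hs2' i i' hi hi' τ τ' hτ hτ'
      hs3 hs3' hs4 hs4' y hy hy'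
    apply htt
    rw [e1, e2]
  · -- avoiding
    intro t ht i₁ hi₁ hl x hx
    obtain ⟨i, hi, τ, hτ, s, hs1, hs2, hs3, hs4, rfl⟩ := hTm t ht
    have hxQ := interior_mono (arr_step_cons_sub a G F0 s k (b s) τ (D.bQ s hs1) hs3) hx
    have := arr_step_int_pos a G F0 s x hxQ i₁ ((D.F0mem i₁).2 ⟨hi₁, hl⟩) hl
    intro h0
    rw [h0, mul_zero] at this
    exact lt_irrefl _ this
  · -- vertices
    intro t ht l
    obtain ⟨i, hi, τ, hτ, s, hs1, hs2, hs3, hs4, rfl⟩ := hTm t ht
    refine Fin.cases ?_ (fun l' => ?_) l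
    · obtain ⟨κ, hκ, hUZ⟩ := D.bv s hs1
      refine ⟨fun m => Sum.elim id id (κ m), fun m => ?_, ?_⟩
      · have := hκ m
        rw [Finset.mem_disjSum] at this
        rcases this with ⟨j, hj, hj'⟩ | ⟨j, hj, hj'⟩
        · right; simp only [← hj', Sum.elim_inl, id_eq]; exact hj
        · left; simp only [← hj', Sum.elim_inr, id_eq]; exact ((D.F0mem j).1 hj).1
      · intro y
        rw [Fin.cons_zero, ← hUZ y]
        exact forall_congr' fun m => (arr_step_cc_zero a s (κ m) y).symm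
    · obtain ⟨κ, hκ, hUZ⟩ := (D.sec i hi).vert τ hτ l'
      refine ⟨Fin.cons i κ, fun m => ?_, ?_⟩
      · refine Fin.cases ?_ (fun m' => ?_) m
        · rw [Fin.cons_zero]
          exact (D.RFG i hi).imp (fun h => ((D.F0mem i).1 h).1) id
        · rw [Fin.cons_succ]; exact hκ m'
      · rw [Fin.cons_succ]; exact hUZ
  · -- count
    have hNcard2 : ∀ i ∈ R, ∀ τ ∈ Tt i, (N i τ).card ≤ 2 := by
      intro i hi τ hτ
      have h1 : (N i τ).card ≤ (Finset.univ : Finset Bool).card := by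
        apply Finset.card_le_card_of_injOn (fun s => s i) (fun _ _ => Finset.mem_coe.2 (Finset.mem_univ _))
        intro s hs s' hs' hss
        rw [Finset.mem_coe, hN, Finset.mem_filter, hSSm] at hs hs'
        exact arr_step_uniq a F F0 G R Tt RI b D s s' hs.1.1 hs'.1.1 hs.1.2 hs'.1.2 i hi τ hτ
          hs.2.1 hs'.2.1 (Or.inr hss)
      simpa using h1
    have hNcard1 : ∀ i ∈ R, i ∈ RG → ∀ τ ∈ Tt i, (N i τ).card ≤ 1 := by
      intro i hi hiG τ hτ
      rw [Finset.card_le_one]
      intro s hs s' hs'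
      rw [hN, Finset.mem_filter, hSSm] at hs hs'
      rw [hRG, Finset.mem_filter] at hiG
      exact arr_step_uniq a F F0 G R Tt RI b D s s' hs.1.1 hs'.1.1 hs.1.2 hs'.1.2 i hi τ hτ
          hs.2.1 hs'.2.1 (Or.inl hiG.1)
    have hT1 : T.card ≤ ∑ i ∈ R, if i ∈ RG then (Tt i).card else 2 * (Tt i).card := by
      rw [hT]
      refine Finset.card_biUnion_le.trans (Finset.sum_le_sum fun i hi => ?_)
      have h0 : ∀ n, (∀ τ ∈ Tt i, (N i τ).card ≤ n) →
          ((Tt i).biUnion fun τ => (N i τ).image fun s =>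
            (Fin.cons (b s) τ : Fin (k + 2) → V)).card ≤ n * (Tt i).card := by
        intro n hn
        refine Finset.card_biUnion_le.trans ?_
        rw [mul_comm, ← smul_eq_mul]
        exact Finset.sum_le_card_nsmul _ _ _ (fun τ hτ => Finset.card_image_le.trans (hn τ hτ))
      split_ifs with hiG
      · have := h0 1 (hNcard1 i hi hiG)
        rwa [one_mul] at this
      · exact h0 2 (hNcard2 i hi)
    have hT2 : T.card ≤ ∑ i ∈ RG, (Tt i).card + ∑ i ∈ RF, 2 * (Tt i).card := by
      refine hT1.trans ?_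
      rw [Finset.sum_ite]
      refine add_le_add (Finset.sum_le_sum_of_subset ?_) (Finset.sum_le_sum_of_subset ?_)
      · intro i hi
        exact (Finset.mem_filter.1 hi).2
      · intro i hi
        rw [Finset.mem_filter] at hi
        exact (Finset.mem_union.1 (hRsub hi.1)).resolve_right hi.2
    -- the sections
    set K : ι → Finset (Fin k → ι) := fun i => Finset.univ.filter (fun κ => (∀ m, κ m ∈ F) ∧
          ∃ x, RelP a G i x ∧
            UZ (fun m : Fin (k + 1) => a ((Fin.cons i κ : Fin (k + 1) → ι) m)) x) with hK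
    have hKn : ∀ i, {κ : Fin k → ι | (∀ m, κ m ∈ F) ∧
          ∃ x, RelP a G i x ∧
            UZ (fun m : Fin (k + 1) => a ((Fin.cons i κ : Fin (k + 1) → ι) m)) x}.ncard
          = (K i).card := by
      intro i
      rw [← Set.ncard_coe_finset]
      congr 1
      ext κ
      simp only [hK, Finset.coe_filter, Finset.mem_univ, true_and]
    set KK : Finset (Fin (k + 1) → ι) := Finset.univ.filter (fun κ => (∀ m, κ m ∈ F) ∧
          ∃ x ∈ interior (Pol a G), UZ (fun m => a (κ m)) x) with hKK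
    have hKKn : {κ : Fin (k + 1) → ι | (∀ m, κ m ∈ F) ∧
          ∃ x ∈ interior (Pol a G), UZ (fun m => a (κ m)) x}.ncard = KK.card := by
      rw [← Set.ncard_coe_finset]
      congr 1
      ext κ
      simp only [hKK, Finset.coe_filter, Finset.mem_univ, true_and]
    have hC : ∀ i ∈ RF ∪ RG, (Tt i).card ≤ 2 ^ k * (K i).card + c * (F.card + 1) ^ (k - 1) := by
      intro i hi
      rw [← hKn i]
      exact hsecC i hi
    have hKcard : ∀ i, (K i).card ≤ F.card ^ k := by
      intro i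
      have h1 : K i ⊆ Fintype.piFinset (fun _ : Fin k => F) := by
        intro κ hκ
        rw [Fintype.mem_piFinset]
        rw [hK, Finset.mem_filter] at hκ
        exact hκ.2.1
      have h2 := Finset.card_le_card h1
      rwa [Fintype.card_piFinset_const] at h2
    have hRGle : ∑ i ∈ RG, (Tt i).card ≤ J * ((2 ^ k + c) * (F.card + 1) ^ k) := by
      have h1 : ∀ i ∈ RG, (Tt i).card ≤ (2 ^ k + c) * (F.card + 1) ^ k := by
        intro i hi
        refine (hC i (Finset.mem_union_right _ hi)).trans ?_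
        rw [add_mul]
        refine add_le_add (Nat.mul_le_mul_left _ ?_) (Nat.mul_le_mul_left _ ?_)
        · exact (hKcard i).trans (Nat.pow_le_pow_left (Nat.le_succ _) _)
        · exact Nat.pow_le_pow_right (Nat.succ_pos _) (Nat.sub_le _ _)
      have h2 := Finset.sum_le_card_nsmul RG _ _ h1
      rw [smul_eq_mul] at h2
      refine h2.trans (Nat.mul_le_mul_right _ ?_)
      exact (Finset.card_le_card (Finset.filter_subset _ _)).trans hGJ
    have hsumK : ∑ i ∈ RF, (K i).card ≤ KK.card := by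
      rw [← Finset.card_sigma]
      apply Finset.card_le_card_of_injOn (fun p => (Fin.cons p.1 p.2 : Fin (k + 1) → ι))
      · rintro ⟨i, κ⟩ hp
        rw [Finset.mem_coe, Finset.mem_sigma] at hp
        obtain ⟨hi, hκ⟩ := hp
        simp only at hi hκ
        rw [hK, Finset.mem_filter] at hκ
        obtain ⟨-, hκF, x, hx, hUZ⟩ := hκ
        rw [Finset.mem_coe, hKK, Finset.mem_filter]
        rw [hRF, Finset.mem_filter, hF0, Finset.mem_filter] at hi
        obtain ⟨⟨hiF, hil⟩, x', hx', hix'⟩ := hi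
        refine ⟨Finset.mem_univ _, fun m => ?_, x, ?_, hUZ⟩
        · refine Fin.cases ?_ (fun m' => ?_) m
          · simp only [Fin.cons_zero]; exact hiF
          · simp only [Fin.cons_succ]; exact hκF m'
        · rw [pol_interior a G hint]
          intro j hj hjl
          refine lt_of_le_of_ne (hx.1 j hj) (Ne.symm ?_)
          intro h0
          have h1 := hx.2.2 j hj h0 x' hix'
          have h2 := (pol_interior a G hint x').1 hx' j hj hjl
          exact h2.ne' h1
      · rintro ⟨i, κ⟩ - ⟨i', κ'⟩ - hii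
        simp only at hii
        have h1 := Fin.cons_injective2 hii
        obtain ⟨e1, e2⟩ := h1
        subst e1
        subst e2
        rfl
    have hRFle : ∑ i ∈ RF, 2 * (Tt i).card ≤ 2 ^ (k + 1) * KK.card + 2 * c * (F.card + 1) ^ k := by
      have h1 : ∑ i ∈ RF, 2 * (Tt i).card
          ≤ ∑ i ∈ RF, (2 ^ (k + 1) * (K i).card + 2 * c * (F.card + 1) ^ (k - 1)) := by
        refine Finset.sum_le_sum fun i hi => ?_
        have := Nat.mul_le_mul_left 2 (hC i (Finset.mem_union_left _ hi))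
        refine this.trans (le_of_eq ?_)
        ring
      refine h1.trans ?_
      rw [Finset.sum_add_distrib, ← Finset.mul_sum, Finset.sum_const, smul_eq_mul]
      refine add_le_add (Nat.mul_le_mul_left _ hsumK) ?_
      rcases Nat.eq_zero_or_pos k with h0 | h0
      · rw [hk h0]; simp
      · obtain ⟨k', rfl⟩ : ∃ k', k = k' + 1 := ⟨k - 1, by omega⟩
        have hRFc : RF.card ≤ F.card + 1 :=
          ((Finset.card_le_card ((Finset.filter_subset _ _).trans (Finset.filter_subset _ _)))).trans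
            (Nat.le_succ _)
        calc RF.card * (2 * c * (F.card + 1) ^ (k' + 1 - 1))
            ≤ (F.card + 1) * (2 * c * (F.card + 1) ^ (k' + 1 - 1)) := Nat.mul_le_mul_right _ hRFc
          _ = 2 * c * (F.card + 1) ^ (k' + 1) := by
            rw [Nat.add_sub_cancel]; ring
    rw [hKKn]
    have hfinal : 2 ^ (k + 1) * KK.card + (2 * c + J * (2 ^ k + c)) * (F.card + 1) ^ (k + 1 - 1)
        = J * ((2 ^ k + c) * (F.card + 1) ^ k)
          + (2 ^ (k + 1) * KK.card + 2 * c * (F.card + 1) ^ k) := by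
      rw [Nat.add_sub_cancel]; ring
    rw [hfinal]
    exact hT2.trans (add_le_add hRGle hRFle)

/-! TARGET `arr_zero`: a space of dimension `0` is a point; `T` consists of the only tuple. -/

theorem arr_zero (J : ℕ) : ArrStmt 0 J 0 := by
  classical
  intro V _ _ _ hV ι _ a F G hGJ hc hint
  have hfin : Fintype ι := Fintype.ofFinite ι
  have hsub : Subsingleton V := Module.finrank_zero_iff.1 hV
  have huniv : interior (Pol a G) = univ := by
    obtain ⟨x, hx⟩ := hint
    ext y
    simp only [mem_univ, iff_true]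
    rw [Subsingleton.elim y x]; exact hx
  refine ⟨{fun _ => 0}, ⟨?_, ?_, ?_⟩, ?_, ?_, ?_⟩
  · intro t _
    have : Subsingleton (Fin (0 + 1)) := inferInstanceAs (Subsingleton (Fin 1))
    exact affineIndependent_of_subsingleton ℝ t
  · ext x
    constructor
    · intro _
      apply interior_subset
      rw [huniv]; trivial
    · intro _
      simp only [Finset.mem_singleton, iUnion_iUnion_eq_left]
      apply subset_convexHull
      exact ⟨0, Subsingleton.elim _ _⟩
  · intro t ht t' ht' hne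
    rw [Finset.mem_singleton] at ht ht'
    exact absurd (ht.trans ht'.symm) hne
  · intro t _ i _ hl
    exfalso
    apply hl
    ext v
    rw [Subsingleton.elim v 0]; simp
  · intro t _ l
    refine ⟨fun m => m.elim0, fun m => m.elim0, ?_⟩
    intro y
    exact ⟨fun _ => Subsingleton.elim _ _, fun _ m => m.elim0⟩
  · have hpos : 0 < {κ : Fin 0 → ι | (∀ m, κ m ∈ F) ∧
          ∃ x ∈ interior (Pol a G), UZ (fun m => a (κ m)) x}.ncard := by
      rw [Set.ncard_pos (Set.toFinite _)]
      refine ⟨fun m => m.elim0, fun m => m.elim0, 0, by rw [huniv]; trivial, ?_⟩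
      intro y
      exact ⟨fun _ => Subsingleton.elim _ _, fun _ m => m.elim0⟩
    simp only [Finset.card_singleton, pow_zero, one_mul]
    omega

end Pool.Agent.H889
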