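import Pool.Agent.Helper889_Cut.Defs

/-! Small lemmas on polyhedra, vertices, cones and dense sets. -/

set_option autoImplicit false
open Set

namespace Pool.Agent.H889

variable {V : Type} [NormedAddCommGroup V] [NormedSpace ℝ V]

/-- from an interior point one can move a little in any direction -/
theorem pol_interior_aux_move {P : Set V} {x : V} (hx : x ∈ interior P) (v : V) :
    ∃ ε : ℝ, 0 < ε ∧ x + ε • v ∈ P ∧ x - ε • v ∈ P := by
  have hc : Continuous (fun e : ℝ => x + e • v) := by fun_prop
  have h1 : (fun e : ℝ => x + e • v) ⁻¹' (interior P) ∈ nhds (0 : ℝ) := by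
    apply hc.continuousAt.preimage_mem_nhds
    simpa using isOpen_interior.mem_nhds hx
  obtain ⟨ε, hε, h⟩ := Metric.mem_nhds_iff.mp h1
  refine ⟨ε / 2, by positivity, ?_, ?_⟩
  · have : (ε / 2) ∈ Metric.ball (0 : ℝ) ε := by
      rw [Metric.mem_ball, Real.dist_eq, sub_zero, abs_of_pos (by positivity)]; linarith
    exact interior_subset (h this)
  · have : (-(ε / 2)) ∈ Metric.ball (0 : ℝ) ε := by
      rw [Metric.mem_ball, Real.dist_eq, sub_zero, abs_neg, abs_of_pos (by positivity)]; linarith
    have h2 := interior_subset (h this)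
    simpa [sub_eq_add_neg] using h2

theorem pol_interior_aux_map (g : V →ᵃ[ℝ] ℝ) (x v : V) (e : ℝ) :
    g (x + e • v) = g x + e * g.linear v := by
  have := g.map_vadd x (e • v)
  rw [vadd_eq_add, vadd_eq_add, map_smul, smul_eq_mul] at this
  rw [add_comm x, this, add_comm]

/-! TARGET `pol_interior` (the interior of a polyhedron with nonempty interior is given by strict inequalities of the
nonconstant constraints).
Proof. (→) If `x` is an interior point, `i ∈ S`, `(c i).linear ≠ 0`, choose `v` with `(c i).linear v < 0`; for small `ε > 0` the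
point `x + ε v` is in `Pol c S`, so `0 ≤ c i x + ε (c i).linear v`, hence `0 < c i x`. (←) the set of the `x` with the strict
inequalities for the finitely many nonconstant `c i` is open (affine functions on finite dimensional spaces are continuous)
and contained in `Pol c S`, because the constant `c i`, `i ∈ S`, are nonnegative at a point of the nonempty `Pol c S`. -/

theorem pol_interior [FiniteDimensional ℝ V] {ι : Type} (c : ι → (V →ᵃ[ℝ] ℝ)) (S : Finset ι)
    (hne : (interior (Pol c S)).Nonempty) (x : V) :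
    x ∈ interior (Pol c S) ↔ ∀ i ∈ S, (c i).linear ≠ 0 → 0 < c i x := by
  constructor
  · intro hx i hi hne'
    obtain ⟨v, hv⟩ : ∃ v, (c i).linear v ≠ 0 := by
      by_contra hcon
      push Not at hcon
      exact hne' (LinearMap.ext hcon)
    obtain ⟨ε, hε, h1, h2⟩ := pol_interior_aux_move hx v
    have h1 := h1 i hi
    have h2 := h2 i hi
    rw [sub_eq_add_neg, ← neg_smul] at h2
    rw [pol_interior_aux_map] at h1 h2
    rcases lt_or_gt_of_ne hv with h | h
    · nlinarith
    · nlinarith
  · intro h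
    have hopen : IsOpen {y : V | ∀ i ∈ S, (c i).linear ≠ 0 → 0 < c i y} := by
      have : {y : V | ∀ i ∈ S, (c i).linear ≠ 0 → 0 < c i y} =
          ⋂ i ∈ S, {y : V | (c i).linear ≠ 0 → 0 < c i y} := by
        ext y; simp
      rw [this]
      apply isOpen_biInter_finset
      intro i _
      by_cases hl : (c i).linear ≠ 0
      · have : {y : V | (c i).linear ≠ 0 → 0 < c i y} = {y : V | 0 < c i y} := by
          ext y; simp [hl]
        rw [this]
        exact isOpen_lt continuous_const (c i).continuous_of_finiteDimensional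
      · have : {y : V | (c i).linear ≠ 0 → 0 < c i y} = Set.univ := by
          ext y; simp [hl]
        rw [this]
        exact isOpen_univ
    refine mem_interior.mpr ⟨_, ?_, hopen, h⟩
    intro y hy i hi
    by_cases hl : (c i).linear ≠ 0
    · exact (hy i hi hl).le
    · push Not at hl
      obtain ⟨z, hz⟩ := hne
      have hz := interior_subset hz i hi
      have : c i y = c i z := by
        have := pol_interior_aux_map (c i) z (y - z) 1
        rw [hl] at this
        simpa using this
      rw [this]; exact hz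

/-! TARGET `zero_of_nonneg`. Proof: for all `y` and small `ε > 0` the points `x ± ε (y - x)` are in `P`, and `g` has the
values `± ε g y` there. -/

theorem zero_of_nonneg (g : V →ᵃ[ℝ] ℝ) (P : Set V) (hg : ∀ x ∈ P, 0 ≤ g x) (x : V)
    (hx : x ∈ interior P) (h0 : g x = 0) : ∀ y, g y = 0 := by
  intro y
  obtain ⟨ε, hε, h1, h2⟩ := pol_interior_aux_move hx (y - x)
  have h1 := hg _ h1
  have h2 := hg _ h2
  rw [sub_eq_add_neg, ← neg_smul] at h2
  rw [pol_interior_aux_map, h0] at h1 h2
  have h3 : g y = g.linear (y - x) := by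
    have := pol_interior_aux_map g x (y - x) 1
    rw [h0] at this
    simpa using this
  rw [h3]
  have h4 : 0 ≤ g.linear (y - x) := by
    by_contra hcon
    push Not at hcon
    nlinarith
  have h5 : g.linear (y - x) ≤ 0 := by
    by_contra hcon
    push Not at hcon
    nlinarith
  linarith

/-! TARGET `prop_of_zero`. Proof: choose `v` with `f.linear v = 1`, `x₀` with `f x₀ = 0` (possible as `f.linear ≠ 0`),
`μ = g.linear v` : `x - f x • v` is a zero of `f`, hence of `g`. -/

theorem prop_of_zero (f g : V →ᵃ[ℝ] ℝ) (hf : f.linear ≠ 0) (h : ∀ x, f x = 0 → g x = 0) :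
    ∃ μ : ℝ, ∀ x, g x = μ * f x := by
  obtain ⟨v, hv⟩ : ∃ v, f.linear v ≠ 0 := by
    by_contra hcon
    push Not at hcon
    exact hf (LinearMap.ext hcon)
  refine ⟨g.linear v / f.linear v, fun x => ?_⟩
  have h1 : f (x + (-(f x / f.linear v)) • v) = 0 := by
    rw [pol_interior_aux_map]
    field_simp
    ring
  have h2 := h _ h1
  rw [pol_interior_aux_map] at h2
  field_simp
  field_simp at h2
  linarith

/-! TARGET `section_interior`. Proof: (←) continuity of `φ`. (→) if `w = z` trivial; otherwise `w' = w + ε (w - z)` is in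
`φ ⁻¹' P` for a small `ε > 0`, and `φ w` is in the open segment from `φ z ∈ interior P` to `φ w' ∈ P`
(Convex.combo_interior_self_mem_interior or Convex.openSegment_interior_self_subset_interior). -/

theorem section_interior [FiniteDimensional ℝ V] {W : Type} [NormedAddCommGroup W]
    [NormedSpace ℝ W] [FiniteDimensional ℝ W] (φ : W →ᵃ[ℝ] V)
    (P : Set V) (hP : Convex ℝ P) (z : W) (hz : φ z ∈ interior P) (w : W) :
    w ∈ interior (φ ⁻¹' P) ↔ φ w ∈ interior P := by
  constructor
  · intro hw
    obtain ⟨ε, hε, h1, -⟩ := pol_interior_aux_move hw (w - z)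
    have h1 : φ (w + ε • (w - z)) ∈ P := h1
    have h2 : φ (w + ε • (w - z)) = φ w + ε • φ.linear (w - z) := by
      have := φ.map_vadd w (ε • (w - z))
      rw [vadd_eq_add, vadd_eq_add, map_smul] at this
      rw [add_comm w, this, add_comm]
    have h3 : φ w = φ z + φ.linear (w - z) := by
      have := φ.map_vadd z (w - z)
      rw [vadd_eq_add, vadd_eq_add, sub_add_cancel] at this
      rw [this, add_comm]
    have hpos : (0 : ℝ) < 1 + ε := by linarith
    have h4 := hP.combo_interior_self_mem_interior hz h1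
      (a := ε / (1 + ε)) (b := 1 / (1 + ε)) (by positivity) (by positivity)
      (by field_simp; ring)
    have h5 : (ε / (1 + ε)) • φ z + (1 / (1 + ε)) • φ (w + ε • (w - z)) = φ w := by
      have h6 : φ.linear (w - z) = φ w - φ z := by rw [h3]; abel
      rw [h2, h6]
      have : (1 / (1 + ε)) • (φ w + ε • (φ w - φ z)) =
          φ w - (ε / (1 + ε)) • φ z := by
        rw [smul_add, smul_smul, smul_sub, ← add_sub_assoc, ← add_smul]
        congr 1
        · rw [show (1 / (1 + ε) + 1 / (1 + ε) * ε) = 1 by field_simp, one_smul]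
        · rw [show (1 / (1 + ε) * ε) = ε / (1 + ε) by ring]
      rw [this]; abel
    rwa [h5] at h4
  · intro hw
    refine mem_interior.mpr ⟨φ ⁻¹' (interior P), preimage_mono interior_subset,
      isOpen_interior.preimage φ.continuous_of_finiteDimensional, hw⟩

/-! TARGET `section_compact`: `φ` is a closed embedding (an injective affine map of finite dimensional spaces;
LinearMap.isClosedEmbedding_of_injective for the linear part). -/

theorem section_compact [FiniteDimensional ℝ V] {W : Type} [NormedAddCommGroup W]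
    [NormedSpace ℝ W] [FiniteDimensional ℝ W] (φ : W →ᵃ[ℝ] V) (hφ : Function.Injective φ)
    (P : Set V) (hP : IsCompact P) : IsCompact (φ ⁻¹' P) := by
  have hlin : Function.Injective φ.linear := φ.linear_injective_iff.mpr hφ
  have hce := LinearMap.isClosedEmbedding_of_injective (f := φ.linear)
    (LinearMap.ker_eq_bot.mpr hlin)
  have h1 : Topology.IsClosedEmbedding (fun w : W => φ.linear w + φ 0) :=
    (Homeomorph.addRight (φ 0)).isClosedEmbedding.comp hce
  have h2 : (fun w : W => φ.linear w + φ 0) = φ := by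
    ext w
    have := φ.map_vadd 0 w
    rw [vadd_eq_add, vadd_eq_add, add_zero] at this
    exact this.symm
  rw [h2] at h1
  exact h1.isCompact_preimage hP

theorem pol_vertex_lin (g : V →ᵃ[ℝ] ℝ) (x v : V) : g (x + v) = g x + g.linear v := by
  have h := g.map_vadd x v
  rw [vadd_eq_add, vadd_eq_add, add_comm v x] at h
  rw [h, add_comm]

theorem pol_vertex_UZ {k : ℕ} (g : Fin k → (V →ᵃ[ℝ] ℝ)) (x : V) :
    UZ g x ↔ (∀ m, g m x = 0) ∧ ∀ v, (∀ m, (g m).linear v = 0) → v = 0 := by
  constructor
  · intro h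
    have h1 := (h x).2 rfl
    refine ⟨h1, fun v hv => ?_⟩
    have h2 := (h (x + v)).1 (fun m => by rw [pol_vertex_lin, h1 m, hv m, add_zero])
    simpa using h2
  · rintro ⟨h1, h2⟩ y
    refine ⟨fun hy => ?_, fun hy => by rw [hy]; exact h1⟩
    have h3 : y - x = 0 := h2 _ (fun m => by
      have h4 := pol_vertex_lin (g m) x (y - x)
      rw [add_sub_cancel, hy m, h1 m, zero_add] at h4
      exact h4.symm)
    exact sub_eq_zero.1 h3

theorem pol_vertex_choose [FiniteDimensional ℝ V] {ι : Type} (l : ι → (V →ₗ[ℝ] ℝ)) (A : Set ι)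
    (r : ℕ) : ∀ W : Submodule ℝ V, Module.finrank ℝ W = r →
    (∀ w ∈ W, (∀ i ∈ A, l i w = 0) → w = 0) →
    ∃ κ : Fin r → ι, (∀ m, κ m ∈ A) ∧ ∀ w ∈ W, (∀ m, l (κ m) w = 0) → w = 0 := by
  induction r with
  | zero =>
    intro W hW _
    rw [Submodule.finrank_eq_zero] at hW
    refine ⟨Fin.elim0, fun m => m.elim0, fun w hw _ => ?_⟩
    rw [hW] at hw
    exact (Submodule.mem_bot ℝ).1 hw
  | succ r ih =>
    intro W hW h
    have hne : W ≠ ⊥ := by
      intro h0
      rw [h0, finrank_bot] at hW
      omega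
    obtain ⟨w0, hw0, hw0'⟩ := (Submodule.ne_bot_iff W).1 hne
    have h1 : ∃ i ∈ A, l i w0 ≠ 0 := by
      by_contra hcon
      push Not at hcon
      exact hw0' (h w0 hw0 hcon)
    obtain ⟨i, hi, hi'⟩ := h1
    let f : W →ₗ[ℝ] ℝ := (l i).domRestrict W
    have hsurj : LinearMap.range f = ⊤ := by
      rw [LinearMap.range_eq_top]
      intro y
      refine ⟨(y / l i w0) • ⟨w0, hw0⟩, ?_⟩
      rw [map_smul]
      show (y / l i w0) * (l i w0) = y
      field_simp
    have h2 := f.finrank_range_add_finrank_ker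
    rw [hsurj, finrank_top, Module.finrank_self, hW] at h2
    obtain ⟨κ, hκ, hκ'⟩ := ih ((LinearMap.ker f).map W.subtype)
      (by rw [Submodule.finrank_map_subtype_eq]; omega)
      (fun w hw hw' => by
        obtain ⟨y, _, rfl⟩ := Submodule.mem_map.1 hw
        exact h _ y.2 hw')
    refine ⟨Fin.cons i κ, fun m => ?_, fun w hw hw' => ?_⟩
    · refine Fin.cases ?_ (fun m => ?_) m
      · exact hi
      · exact hκ m
    · apply hκ' w
      · refine Submodule.mem_map.2 ⟨⟨w, hw⟩, ?_, rfl⟩
        rw [LinearMap.mem_ker]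
        exact hw' 0
      · intro m
        exact hw' m.succ

/-! TARGET `pol_vertex`: a nonempty compact polyhedron has a vertex, which is the unique common zero of `finrank` many
constraints.
Proof. The compact nonempty convex set `Q = Pol c S` has an extreme point `b` (IsCompact.extremePoints_nonempty, Krein-Milman).
Let `A = {i ∈ S | c i b = 0}`. If `v` is in the kernel of `(c i).linear` for all `i ∈ A`, then `b ± ε v ∈ Q` for small `ε > 0`
(the constraints outside `A` are positive at `b`), so `v = 0` since `b` is extreme. So the linear functionals `(c i).linear`,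
`i ∈ A`, have trivial common kernel, hence span the dual space (e.g. Module.Dual: dualAnnihilator/dualCoannihilator, or
Subspace.dualAnnihilator_...), and some `k = finrank` many of them form a basis of the dual (exists_linearIndependent,
Basis.ofSpan / `Basis.extend`), say `κ : Fin k → ι`. Their common kernel is trivial too, so `b` is the unique common zero. -/

theorem pol_vertex [FiniteDimensional ℝ V] {ι : Type} (c : ι → (V →ᵃ[ℝ] ℝ)) (S : Finset ι)
    (hc : IsCompact (Pol c S)) (hne : (Pol c S).Nonempty) (k : ℕ) (hk : Module.finrank ℝ V = k) :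
    ∃ b ∈ Pol c S, ∃ κ : Fin k → ι, (∀ m, κ m ∈ S) ∧ UZ (fun m => c (κ m)) b := by
  obtain ⟨b, hb⟩ := hc.extremePoints_nonempty hne
  have hbQ : b ∈ Pol c S := hb.1
  have hker : ∀ v : V, (∀ i ∈ {i | i ∈ S ∧ c i b = 0}, (c i).linear v = 0) → v = 0 := by
    intro v hv
    have h1 : ∀ i ∈ S, ∀ᶠ ε in nhdsWithin (0 : ℝ) (Ioi 0),
        0 ≤ c i b + ε * (c i).linear v ∧ 0 ≤ c i b - ε * (c i).linear v := by
      intro i hi
      by_cases h0 : c i b = 0
      · have h2 := hv i ⟨hi, h0⟩
        refine Filter.Eventually.of_forall fun ε => ?_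
        rw [h0, h2]
        simp
      · have hpos : 0 < c i b := lt_of_le_of_ne (hbQ i hi) (Ne.symm h0)
        have t1 : Filter.Tendsto (fun ε : ℝ => c i b + ε * (c i).linear v)
            (nhdsWithin (0 : ℝ) (Ioi 0)) (nhds (c i b + 0 * (c i).linear v)) :=
          ((continuous_const.add (continuous_id.mul continuous_const)).tendsto 0).mono_left
            nhdsWithin_le_nhds
        have t2 : Filter.Tendsto (fun ε : ℝ => c i b - ε * (c i).linear v)
            (nhdsWithin (0 : ℝ) (Ioi 0)) (nhds (c i b - 0 * (c i).linear v)) :=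
          ((continuous_const.sub (continuous_id.mul continuous_const)).tendsto 0).mono_left
            nhdsWithin_le_nhds
        rw [zero_mul, add_zero] at t1
        rw [zero_mul, sub_zero] at t2
        filter_upwards [t1.eventually (lt_mem_nhds hpos), t2.eventually (lt_mem_nhds hpos)]
          with ε e1 e2
        exact ⟨e1.le, e2.le⟩
    have h2 := (Filter.eventually_all_finset S).2 h1
    obtain ⟨ε, hε, hε0⟩ := (h2.and self_mem_nhdsWithin).exists
    have hε0' : 0 < ε := hε0
    have hp : b + ε • v ∈ Pol c S := by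
      intro i hi
      rw [pol_vertex_lin, map_smul, smul_eq_mul]
      exact (hε i hi).1
    have hm : b + (-ε) • v ∈ Pol c S := by
      intro i hi
      rw [pol_vertex_lin, map_smul, smul_eq_mul, neg_mul, ← sub_eq_add_neg]
      exact (hε i hi).2
    have hseg : b ∈ openSegment ℝ (b + ε • v) (b + (-ε) • v) := by
      refine ⟨1 / 2, 1 / 2, by norm_num, by norm_num, by norm_num, ?_⟩
      module
    have h3 : b + ε • v = b := hb.2 hp hm hseg
    have h4 : ε • v = 0 := by simpa using h3
    exact (smul_eq_zero.1 h4).resolve_left hε0'.ne'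
  obtain ⟨κ, hκ, hκ'⟩ := pol_vertex_choose (fun i => (c i).linear) {i | i ∈ S ∧ c i b = 0} k ⊤
    (by rw [finrank_top, hk]) (fun w _ hw => hker w hw)
  refine ⟨b, hbQ, κ, fun m => (hκ m).1, (pol_vertex_UZ _ _).2 ⟨fun m => (hκ m).2, fun v hv => ?_⟩⟩
  exact hκ' v Submodule.mem_top hv

/-! TARGET `UZ_injective`. Proof: for `k = finrank` affine functions with a unique common zero `x`, the linear parts have
trivial common kernel (if `v` is in it, `x + v` is a common zero), so they span the dual of dimension `k`; if two of them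
were equal (`κ m = κ m'`, `m ≠ m'`) the span would have dimension less than `k`. -/

theorem UZ_injective [FiniteDimensional ℝ V] (D : ℕ) (hV : Module.finrank ℝ V = D)
    {ι : Type} (f : ι → (V →ᵃ[ℝ] ℝ)) (κ : Fin D → ι) (x : V) (h : UZ (fun m => f (κ m)) x) :
    Function.Injective κ := by
  obtain ⟨_, h2⟩ := (pol_vertex_UZ _ _).1 h
  let Φ : V →ₗ[ℝ] (Fin D → ℝ) := LinearMap.pi (fun m => (f (κ m)).linear)
  have hinj : Function.Injective Φ := by
    rw [← LinearMap.ker_eq_bot, LinearMap.ker_eq_bot']
    intro v hv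
    exact h2 v (fun m => congrFun hv m)
  have hsurj : Function.Surjective Φ :=
    (LinearMap.injective_iff_surjective_of_finrank_eq_finrank (by rw [hV]; simp)).1 hinj
  intro m m' hm
  by_contra hne
  obtain ⟨v, hv⟩ := hsurj (Pi.single m 1)
  have e1 : (f (κ m)).linear v = 1 := by
    have := congrFun hv m
    rw [Pi.single_eq_same] at this
    exact this
  have e2 : (f (κ m')).linear v = 0 := by
    have := congrFun hv m'
    rw [Pi.single_eq_of_ne (Ne.symm hne)] at this
    exact this
  rw [hm, e2] at e1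
  exact zero_ne_one e1

theorem cone_simplex_interior [FiniteDimensional ℝ V] {n : ℕ} (hV : Module.finrank ℝ V = n)
    (s : Fin (n + 1) → V) (hs : AffineIndependent ℝ s) (y : V) :
    y ∈ interior (Cv s) ↔ ∃ w : Fin (n + 1) → ℝ, (∀ i, 0 < w i) ∧ ∑ i, w i = 1 ∧
      ∑ i, w i • s i = y := by
  have htop : affineSpan ℝ (range s) = ⊤ := by
    rw [hs.affineSpan_eq_top_iff_card_eq_finrank_add_one, hV, Fintype.card_fin]
  let B : AffineBasis (Fin (n + 1)) ℝ V := ⟨s, hs, htop⟩
  have hB : ∀ i, B i = s i := fun i => rfl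
  have h1 : interior (Cv s) = {x | ∀ i, 0 < B.coord i x} := B.interior_convexHull
  rw [h1]
  constructor
  · intro hy
    refine ⟨fun i => B.coord i y, hy, B.sum_coord_apply_eq_one y, ?_⟩
    exact B.linear_combination_coord_eq_self y
  · rintro ⟨w, h2, h3, rfl⟩ i
    have h4 : ∑ j, w j • s j = Finset.univ.affineCombination ℝ B w := by
      rw [Finset.affineCombination_eq_linear_combination _ _ _ h3]
      rfl
    rw [h4, B.coord_apply_combination_of_mem (Finset.mem_univ i) h3]
    exact h2 i

theorem cone_simplex_indep {W : Type} [NormedAddCommGroup W]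
    [NormedSpace ℝ W] (k : ℕ) (f : V →ᵃ[ℝ] ℝ) (φ : W →ᵃ[ℝ] V)
    (hφ : Function.Injective φ) (hf : ∀ w, f (φ w) = 0)
    (τ : Fin (k + 1) → W) (hτ : AffineIndependent ℝ τ) (b : V) (hb : f b ≠ 0) :
    AffineIndependent ℝ (Fin.cons b (fun i => φ (τ i)) : Fin (k + 2) → V) := by
  rw [affineIndependent_iff_of_fintype]
  intro w hw hw0
  rw [Finset.weightedVSub_eq_linear_combination _ hw] at hw0
  have h1 : ∀ x, f.linear x = f x - f 0 := by
    intro x
    have h2 := f.linearMap_vsub x 0
    simpa using h2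
  have h2 := congrArg f.linear hw0
  rw [map_sum, map_zero, Fin.sum_univ_succ] at h2
  simp only [map_smul, Fin.cons_zero, Fin.cons_succ] at h2
  simp only [h1, hf, smul_eq_mul, zero_sub] at h2
  rw [Fin.sum_univ_succ] at hw
  have h3 : w 0 = 0 := by
    have h4 : ∑ i : Fin (k + 1), w i.succ * -f 0 = -(∑ i : Fin (k + 1), w i.succ) * f 0 := by
      rw [neg_mul, Finset.sum_mul, ← Finset.sum_neg_distrib]
      exact Finset.sum_congr rfl fun i _ => by ring
    rw [h4] at h2
    have h5 : w 0 * f b = 0 := by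
      have h6 : -(∑ i : Fin (k + 1), w i.succ) = w 0 := by linarith
      rw [h6] at h2
      linarith
    exact (mul_eq_zero.1 h5).resolve_right hb
  have h4 := hτ.map' φ hφ
  rw [affineIndependent_iff_of_fintype] at h4
  have h5 := h4 (fun i => w i.succ) (by rw [h3, zero_add] at hw; exact hw) (by
    rw [Finset.weightedVSub_eq_linear_combination _ (by rw [h3, zero_add] at hw; exact hw)]
    rw [Fin.sum_univ_succ] at hw0
    simpa [h3] using hw0)
  intro i
  refine Fin.cases h3 (fun i => ?_) i
  exact h5 i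

/-! TARGET `cone_simplex` -/

theorem cone_simplex [FiniteDimensional ℝ V] {W : Type} [NormedAddCommGroup W]
    [NormedSpace ℝ W] [FiniteDimensional ℝ W] (k : ℕ) (hV : Module.finrank ℝ V = k + 1)
    (hW : Module.finrank ℝ W = k) (f : V →ᵃ[ℝ] ℝ) (φ : W →ᵃ[ℝ] V)
    (hφ : Function.Injective φ) (hf : ∀ w, f (φ w) = 0)
    (τ : Fin (k + 1) → W) (hτ : AffineIndependent ℝ τ) (b : V) (hb : f b ≠ 0) :
    AffineIndependent ℝ (Fin.cons b (fun i => φ (τ i)) : Fin (k + 2) → V) ∧
    (∀ y, y ∈ Cv (Fin.cons b (fun i => φ (τ i)) : Fin (k + 2) → V) ↔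
      ∃ z ∈ Cv τ, ∃ r : ℝ, 0 ≤ r ∧ r ≤ 1 ∧ y = b + r • (φ z - b)) ∧
    (∀ y, y ∈ interior (Cv (Fin.cons b (fun i => φ (τ i)) : Fin (k + 2) → V)) →
      ∃ z ∈ interior (Cv τ), ∃ r : ℝ, 0 < r ∧ r < 1 ∧ y = b + r • (φ z - b)) := by
  have hI := cone_simplex_indep k f φ hφ hf τ hτ b hb
  refine ⟨hI, fun y => ?_, fun y hy => ?_⟩
  · have h1 : Cv (Fin.cons b (fun i => φ (τ i)) : Fin (k + 2) → V) =
        convexJoin ℝ {b} (φ '' convexHull ℝ (range τ)) := by
      rw [Cv, Fin.range_cons, convexHull_insert (range_nonempty _), AffineMap.image_convexHull,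
        ← range_comp]
      rfl
    rw [h1, mem_convexJoin]
    constructor
    · rintro ⟨x, rfl, v, ⟨z, hz, rfl⟩, hy⟩
      rw [segment_eq_image'] at hy
      obtain ⟨r, hr, rfl⟩ := hy
      exact ⟨z, hz, r, hr.1, hr.2, rfl⟩
    · rintro ⟨z, hz, r, hr0, hr1, rfl⟩
      refine ⟨b, rfl, φ z, ⟨z, hz, rfl⟩, ?_⟩
      rw [segment_eq_image']
      exact ⟨r, ⟨hr0, hr1⟩, rfl⟩
  · obtain ⟨w, h1, h2, h3⟩ := (cone_simplex_interior hV _ hI y).1 hy
    rw [Fin.sum_univ_succ] at h2 h3
    simp only [Fin.cons_zero, Fin.cons_succ] at h3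
    set r : ℝ := ∑ i : Fin (k + 1), w i.succ with hr
    have hr0 : 0 < r := by
      rw [hr]
      exact Finset.sum_pos (fun i _ => h1 _) Finset.univ_nonempty
    have hsum : ∑ i : Fin (k + 1), w i.succ / r = 1 := by
      rw [← Finset.sum_div, ← hr, div_self hr0.ne']
    refine ⟨∑ i : Fin (k + 1), (w i.succ / r) • τ i,
      (cone_simplex_interior hW _ hτ _).2 ⟨fun i => w i.succ / r, fun i => div_pos (h1 _) hr0,
        hsum, rfl⟩, r, hr0, by linarith [h1 0], ?_⟩
    have h4 : φ (∑ i : Fin (k + 1), (w i.succ / r) • τ i) =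
        ∑ i : Fin (k + 1), (w i.succ / r) • φ (τ i) := by
      rw [← Finset.affineCombination_eq_linear_combination _ _ _ hsum,
        Finset.map_affineCombination _ _ _ hsum,
        Finset.affineCombination_eq_linear_combination _ _ _ hsum]
      rfl
    have h5 : r • ∑ i : Fin (k + 1), (w i.succ / r) • φ (τ i) =
        ∑ i : Fin (k + 1), w i.succ • φ (τ i) := by
      rw [Finset.smul_sum]
      refine Finset.sum_congr rfl fun i _ => ?_
      rw [smul_smul, mul_div_cancel₀ _ hr0.ne']
    rw [h4, smul_sub, h5, ← h3]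
    have h6 : w 0 = 1 - r := by linarith
    rw [h6, sub_smul, one_smul]
    abel

/-! TARGET `dense_nonzero`: the complement of the union of finitely many zero sets of nonzero affine functions is dense.
Proof: by induction on the finite set: each `{x | g x ≠ 0}` is open (continuity of affine maps in finite dimension) and dense
(if `g y ≠ 0` then for every `x` with `g x = 0` the points `x + ε (y - x)` have `g = ε g y ≠ 0`), and the intersection of a dense
set with an open dense set is dense (`Dense.inter_of_isOpen_left`, ...). -/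

theorem dense_nonzero [FiniteDimensional ℝ V] (s : Set (V →ᵃ[ℝ] ℝ)) (hs : s.Finite)
    (h : ∀ g ∈ s, ∃ x, g x ≠ 0) : Dense {x : V | ∀ g ∈ s, g x ≠ 0} := by
  have : CompleteSpace V := FiniteDimensional.complete ℝ V
  have h0 : {x : V | ∀ g ∈ s, g x ≠ 0} = ⋂ g ∈ s, {x : V | g x ≠ 0} := by
    ext x
    simp
  rw [h0]
  refine dense_biInter_of_isOpen (fun g _ => ?_) hs.countable (fun g hg => ?_)
  · exact isOpen_ne_fun g.continuous_of_finiteDimensional continuous_const
  · obtain ⟨y, hy⟩ := h g hg
    intro x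
    by_cases hx : g x = 0
    · rw [mem_closure_iff_nhds]
      intro U hU
      have h1 : Filter.Tendsto (fun ε : ℝ => AffineMap.lineMap x y ε) (nhdsWithin 0 {0}ᶜ)
          (nhds x) := by
        have h2 : Continuous fun ε : ℝ => (AffineMap.lineMap x y ε : V) :=
          AffineMap.lineMap_continuous
        have h3 := h2.tendsto 0
        rw [AffineMap.lineMap_apply_zero] at h3
        exact h3.mono_left nhdsWithin_le_nhds
      obtain ⟨ε, h4, h5⟩ := ((h1.eventually_mem hU).and
        (self_mem_nhdsWithin : ({0}ᶜ : Set ℝ) ∈ nhdsWithin 0 {0}ᶜ)).exists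
      refine ⟨AffineMap.lineMap x y ε, h4, ?_⟩
      change g (AffineMap.lineMap x y ε) ≠ 0
      rw [AffineMap.apply_lineMap, hx, AffineMap.lineMap_apply_module]
      simpa using ⟨h5, hy⟩
    · exact subset_closure hx

/-! TARGET `exit_point`: the ray from `b ∈ Q = Pol c S` through `y` leaves the compact polyhedron `Q` at a point
`b + r (y - b)`, `r > 1`, where some constraint positive at `b` vanishes.
Proof. Let `S' = {i ∈ S | c i y < c i b}`. It is not empty: otherwise `b + r (y - b) ∈ Q` for all `r ≥ 0` (each constraint is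
`c i b + r (c i y - c i b)`), contradicting that `Q` is bounded and `b ≠ y`. Let `r` be the minimum of `c i b / (c i b - c i y)`
over `i ∈ S'`, attained at `i₀`. For `i ∈ S'` the linear part is not zero, so `0 < c i y < c i b` and the quotient is `> 1`. At
`b + r (y - b)` all constraints are `≥ 0` and `c i₀` vanishes. -/

theorem exit_point {ι : Type} (c : ι → (V →ᵃ[ℝ] ℝ)) (S : Finset ι)
    (hc : IsCompact (Pol c S)) (b y : V) (hb : b ∈ Pol c S) (hby : b ≠ y)
    (hy : ∀ i ∈ S, (c i).linear ≠ 0 → 0 < c i y) (hy' : y ∈ Pol c S) :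
    ∃ r : ℝ, 1 < r ∧ b + r • (y - b) ∈ Pol c S ∧
      ∃ i ∈ S, (c i).linear ≠ 0 ∧ c i (b + r • (y - b)) = 0 ∧ 0 < c i b := by
  have hlin : ∀ (i : ι) (r : ℝ), c i (b + r • (y - b)) = c i b + r * (c i y - c i b) := by
    intro i r
    have h1 : b + r • (y - b) = AffineMap.lineMap b y r := by
      rw [AffineMap.lineMap_apply]
      simp [add_comm]
    rw [h1, AffineMap.apply_lineMap, AffineMap.lineMap_apply]
    simp [add_comm]
  have hne : ∃ i ∈ S, c i y < c i b := by
    by_contra hcon
    push Not at hcon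
    obtain ⟨R, hR⟩ := hc.isBounded.exists_norm_le
    have hpos : 0 < ‖y - b‖ := norm_pos_iff.2 (sub_ne_zero.2 hby.symm)
    have hR0 : 0 ≤ R := (norm_nonneg b).trans (hR b hb)
    have h1 : b + ((R + ‖b‖ + 1) / ‖y - b‖) • (y - b) ∈ Pol c S := by
      intro i hi
      rw [hlin]
      have h2 : 0 ≤ c i b := hb i hi
      have h3 : 0 ≤ c i y - c i b := sub_nonneg.2 (hcon i hi)
      positivity
    have h2 := hR _ h1
    have h3 : ‖((R + ‖b‖ + 1) / ‖y - b‖) • (y - b)‖ = R + ‖b‖ + 1 := by
      rw [norm_smul, Real.norm_of_nonneg (by positivity), div_mul_cancel₀ _ hpos.ne']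
    have h4 : ‖((R + ‖b‖ + 1) / ‖y - b‖) • (y - b)‖ ≤
        ‖b + ((R + ‖b‖ + 1) / ‖y - b‖) • (y - b)‖ + ‖b‖ := by
      have h5 := norm_sub_le (b + ((R + ‖b‖ + 1) / ‖y - b‖) • (y - b)) b
      rwa [add_sub_cancel_left] at h5
    linarith
  classical
  have hne' : (S.filter fun i => c i y < c i b).Nonempty := by
    obtain ⟨i, hi, h1⟩ := hne
    exact ⟨i, Finset.mem_filter.2 ⟨hi, h1⟩⟩
  obtain ⟨i₀, hi₀, hmin⟩ := Finset.exists_min_image _ (fun i => c i b / (c i b - c i y)) hne'
  have hprop : ∀ i ∈ S, c i y < c i b → (c i).linear ≠ 0 ∧ 0 < c i y := by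
    intro i hi h1
    have h2 : (c i).linear ≠ 0 := by
      intro h3
      have h4 : c i y = c i b := by
        have h5 := (c i).linearMap_vsub y b
        rw [h3] at h5
        simp only [LinearMap.zero_apply, vsub_eq_sub] at h5
        linarith
      linarith
    exact ⟨h2, hy i hi h2⟩
  obtain ⟨hi₀S, hi₀1⟩ := Finset.mem_filter.1 hi₀
  obtain ⟨hl0, hp0⟩ := hprop i₀ hi₀S hi₀1
  have hd0 : 0 < c i₀ b - c i₀ y := sub_pos.2 hi₀1
  refine ⟨c i₀ b / (c i₀ b - c i₀ y), ?_, ?_, i₀, hi₀S, hl0, ?_, hp0.trans hi₀1⟩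
  · rw [one_lt_div hd0]
    linarith
  · intro i hi
    rw [hlin]
    have h2 : 0 ≤ c i b := hb i hi
    have hr0 : 0 ≤ c i₀ b / (c i₀ b - c i₀ y) := div_nonneg (hp0.trans hi₀1).le hd0.le
    by_cases h1 : c i y < c i b
    · have h3 := hmin i (Finset.mem_filter.2 ⟨hi, h1⟩)
      have h4 : 0 < c i b - c i y := sub_pos.2 h1
      rw [le_div_iff₀ h4] at h3
      nlinarith
    · have h3 : 0 ≤ c i y - c i b := sub_nonneg.2 (not_lt.1 h1)
      positivity
  · rw [hlin]
    field_simp
    ring

end Pool.Agent.H889
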