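import Pool.Agent.Helper889_Cut.ArrStep

/-! Triangulating an arrangement inside a polytope. -/

set_option autoImplicit false
open Set

namespace Pool.Agent.H889

theorem arr_stmt_all (J : ℕ) : ∀ k : ℕ, ∃ c : ℕ, (k = 0 → c = 0) ∧ ArrStmt k J c := by
  intro k
  induction k with
  | zero => exact ⟨0, fun _ => rfl, arr_zero J⟩
  | succ k ih =>
    obtain ⟨c, hc, h⟩ := ih
    exact ⟨2 * c + J * (2 ^ k + c), fun h => absurd h (Nat.succ_ne_zero k), arr_step k J c hc h⟩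

theorem arr_tri (k : ℕ) (J : ℕ) : ∃ c : ℕ, ∀ (V : Type) [NormedAddCommGroup V] [NormedSpace ℝ V]
    [FiniteDimensional ℝ V], Module.finrank ℝ V = k → ∀ (ι : Type) [Finite ι]
    (a : ι → (V →ᵃ[ℝ] ℝ)) (F G : Finset ι), G.card ≤ J → IsCompact (Pol a G) →
    (interior (Pol a G)).Nonempty →
    ∃ T : Finset (Fin (k + 1) → V), IsTri (Pol a G) T ∧
      (∀ t ∈ T, ∀ i ∈ F, (a i).linear ≠ 0 → ∀ x ∈ interior (Cv t), a i x ≠ 0) ∧
      (∀ t ∈ T, ∀ l, ∃ κ : Fin k → ι, (∀ m, κ m ∈ F ∨ κ m ∈ G) ∧ UZ (fun m => a (κ m)) (t l)) ∧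
      T.card ≤ 2 ^ k * {κ : Fin k → ι | (∀ m, κ m ∈ F) ∧
          ∃ x ∈ interior (Pol a G), UZ (fun m => a (κ m)) x}.ncard
        + c * (F.card + 1) ^ (k - 1) := by
  obtain ⟨c, -, h⟩ := arr_stmt_all J k
  exact ⟨c, h⟩

end Pool.Agent.H889
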