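import Pool.Agent.Helper889_Cut.Cell
import Pool.Agent.Helper889_Cut.Tri

/-! Triangulating the bodies. -/

set_option autoImplicit false
open Set

namespace Pool.Agent.H889

variable {V : Type} [NormedAddCommGroup V] [NormedSpace ℝ V]

theorem body_tri_interior {D : ℕ} {V : Type} [NormedAddCommGroup V] [NormedSpace ℝ V]
    (w : Fin (D + 1) → V) (a b : V →ᵃ[ℝ] ℝ) (ha : Continuous a) (hb : Continuous b) :
    interior (Body w a b) = OBody w a b := by
  apply Subset.antisymm
  · intro p hp
    have h1 : p.1 ∈ interior (Cv w) := by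
      have h2 : Prod.fst '' interior (Body w a b) ⊆ Cv w := by
        rintro _ ⟨q, hq, rfl⟩
        exact (interior_subset hq).1
      exact interior_maximal h2 (isOpenMap_fst _ isOpen_interior) (mem_image_of_mem _ hp)
    obtain ⟨ε, hε, hball⟩ := Metric.isOpen_iff.1 isOpen_interior p hp
    have hmove : ∀ s : ℝ, |s| < ε → ((p.1, p.2 + s) : V × ℝ) ∈ Body w a b := by
      intro s hs
      apply interior_subset
      apply hball
      rw [Metric.mem_ball, Prod.dist_eq]
      simp only [dist_self, Real.dist_eq, add_sub_cancel_left]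
      exact max_lt hε hs
    have h3 := hmove (ε / 2) (by rw [abs_of_pos (by positivity)]; linarith)
    have h4 := hmove (-(ε / 2)) (by rw [abs_neg, abs_of_pos (by positivity)]; linarith)
    refine ⟨h1, ?_, ?_⟩
    · have := h4.2.1
      simp only at this
      linarith
    · have := h3.2.2
      simp only at this
      linarith
  · apply interior_maximal
    · rintro p ⟨h1, h2, h3⟩
      exact ⟨interior_subset h1, h2.le, h3.le⟩
    · have e1 : OBody w a b = (Prod.fst ⁻¹' interior (Cv w)) ∩ ({p : V × ℝ | a p.1 < p.2} ∩
          {p : V × ℝ | p.2 < b p.1}) := rfl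
      rw [e1]
      exact (isOpen_interior.preimage continuous_fst).inter
        ((isOpen_lt (ha.comp continuous_fst) continuous_snd).inter
          (isOpen_lt continuous_snd (hb.comp continuous_fst)))

/-! TARGET `body_tri`. Proof. Interior: `OBody` is open (affine maps are continuous) and contained in `Body`; conversely at
an interior point of `Body` the first component is interior in `Cv w` (the projection is open) and moving the second
component up and down gives the strict inequalities. Triangulation: apply `arr_tri` with `k = D + 1`, `J = D + 3` to the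
space `V × ℝ` and the index type `Fin (D + 1) ⊕ Bool` (or similar), the constraints being the `D + 1` barycentric coordinates of
`w` (as functions of the first component), `p.2 - a p.1` and `b p.1 - p.2`, with `G = univ` and `F = ∅`: `Pol` is `Body`, compact
(closed and bounded, `a`, `b` being bounded on the compact `Cv w`), with nonempty interior `OBody`. The first summand of the
bound is `0`, because `F = ∅` and `D + 1 ≥ 1`; the second is `c * 1`. -/

theorem body_tri (D : ℕ) (hD : 1 ≤ D) : ∃ c : ℕ, ∀ (V : Type) [NormedAddCommGroup V]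
    [NormedSpace ℝ V] [FiniteDimensional ℝ V], Module.finrank ℝ V = D →
    ∀ (w : Fin (D + 1) → V), AffineIndependent ℝ w → ∀ (a b : V →ᵃ[ℝ] ℝ),
    (∀ x ∈ interior (Cv w), a x < b x) →
    interior (Body w a b) = OBody w a b ∧
    ∃ T : Finset (Fin (D + 2) → V × ℝ), IsTri (Body w a b) T ∧ T.card ≤ c := by
  classical
  obtain ⟨c, hc⟩ := arr_tri (D + 1) (D + 3)
  refine ⟨c, ?_⟩
  intro V _ _ _ hfin w hw a b hab
  have hac : Continuous a := a.continuous_of_finiteDimensional
  have hbc : Continuous b := b.continuous_of_finiteDimensional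
  have hint := body_tri_interior w a b hac hbc
  refine ⟨hint, ?_⟩
  have hspan : affineSpan ℝ (range w) = ⊤ := by
    rw [hw.affineSpan_eq_top_iff_card_eq_finrank_add_one, hfin]
    simp
  let B : AffineBasis (Fin (D + 1)) ℝ V := ⟨w, hw, hspan⟩
  have hCv : Cv w = {x | ∀ i, 0 ≤ B.coord i x} := B.convexHull_eq_nonneg_coord
  let g : Fin (D + 1) ⊕ Bool → (V × ℝ →ᵃ[ℝ] ℝ) := fun i => match i with
    | Sum.inl i => (B.coord i).comp (LinearMap.fst ℝ V ℝ).toAffineMap
    | Sum.inr true => (LinearMap.snd ℝ V ℝ).toAffineMap - a.comp (LinearMap.fst ℝ V ℝ).toAffineMap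
    | Sum.inr false => b.comp (LinearMap.fst ℝ V ℝ).toAffineMap - (LinearMap.snd ℝ V ℝ).toAffineMap
  have hPol : Pol g Finset.univ = Body w a b := by
    ext p
    simp only [Pol, Body, mem_ofPred_eq, Finset.mem_univ, forall_true_left, Sum.forall, hCv]
    constructor
    · rintro ⟨h1, h2⟩
      have h3 := h2 true
      have h4 := h2 false
      simp only [g, AffineMap.coe_sub, Pi.sub_apply, AffineMap.comp_apply,
        LinearMap.coe_toAffineMap, LinearMap.fst_apply, LinearMap.snd_apply] at h3 h4
      exact ⟨h1, by linarith, by linarith⟩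
    · rintro ⟨h1, h2, h3⟩
      refine ⟨h1, ?_⟩
      rintro (_ | _)
      · simp only [g, AffineMap.coe_sub, Pi.sub_apply, AffineMap.comp_apply,
          LinearMap.coe_toAffineMap, LinearMap.fst_apply, LinearMap.snd_apply]
        linarith
      · simp only [g, AffineMap.coe_sub, Pi.sub_apply, AffineMap.comp_apply,
          LinearMap.coe_toAffineMap, LinearMap.fst_apply, LinearMap.snd_apply]
        linarith
  have hCc : IsCompact (Cv w) := (finite_range w).isCompact_convexHull (𝕜 := ℝ)
  have hcomp : IsCompact (Body w a b) := by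
    obtain ⟨m, hm⟩ := hCc.bddBelow_image hac.continuousOn
    obtain ⟨M, hM⟩ := hCc.bddAbove_image hbc.continuousOn
    refine (hCc.prod (isCompact_Icc (a := m) (b := M))).of_isClosed_subset ?_ ?_
    · have e1 : Body w a b = (Prod.fst ⁻¹' Cv w) ∩ ({p : V × ℝ | a p.1 ≤ p.2} ∩
          {p : V × ℝ | p.2 ≤ b p.1}) := rfl
      rw [e1]
      exact (hCc.isClosed.preimage continuous_fst).inter
        ((isClosed_le (hac.comp continuous_fst) continuous_snd).inter
          (isClosed_le continuous_snd (hbc.comp continuous_fst)))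
    · rintro p ⟨h1, h2, h3⟩
      exact ⟨h1, (hm (mem_image_of_mem _ h1)).trans h2, h3.trans (hM (mem_image_of_mem _ h1))⟩
  have hne : (interior (Body w a b)).Nonempty := by
    rw [hint]
    have h1 : (interior (Cv w)).Nonempty := by
      have : (interior (convexHull ℝ (range B))).Nonempty := ⟨_, B.centroid_mem_interior_convexHull⟩
      exact this
    obtain ⟨x, hx⟩ := h1
    have := hab x hx
    exact ⟨(x, (a x + b x) / 2), hx, by simp only; linarith, by simp only; linarith⟩
  obtain ⟨T, hT, _, _, hcard⟩ := hc (V × ℝ) (by simp [hfin]) (Fin (D + 1) ⊕ Bool) g ∅ Finset.univ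
    (by simp) (by rw [hPol]; exact hcomp) (by rw [hPol]; exact hne)
  rw [hPol] at hT hcard
  refine ⟨T, hT, hcard.trans ?_⟩
  have e2 : {κ : Fin (D + 1) → Fin (D + 1) ⊕ Bool | (∀ m, κ m ∈ (∅ : Finset (Fin (D + 1) ⊕ Bool))) ∧
      ∃ x ∈ interior (Body w a b), UZ (fun m => g (κ m)) x} = ∅ := by
    ext κ
    simp only [mem_ofPred_eq, mem_empty_iff_false, iff_false, not_and]
    intro h
    exact absurd (h 0) (by simp)
  rw [e2]
  simp

end Pool.Agent.H889
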