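import Pool.Agent.Helper889_Cut.Defs

/-! The cells of the subdivision and the quantities attached to them. -/

set_option autoImplicit false
open Set

namespace Pool.Agent.H889

variable {V : Type} [NormedAddCommGroup V] [NormedSpace ℝ V]

/-- the members of a family of affine functions with a zero in the open simplex -/
def Cross {ι : Type} {m : ℕ} (f : ι → (V →ᵃ[ℝ] ℝ)) (t : Fin m → V) : Set ι :=
  {i | ∃ x ∈ interior (Cv t), f i x = 0}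

/-- the tuples of members with a unique common zero, in the open simplex -/
def Vert {ι : Type} {m : ℕ} (D : ℕ) (f : ι → (V →ᵃ[ℝ] ℝ)) (t : Fin m → V) : Set (Fin D → ι) :=
  {κ | ∃ x ∈ interior (Cv t), UZ (fun m => f (κ m)) x}

/-- the part over the simplex `w` between the graphs of `a` and `b` -/
def Body {m : ℕ} (w : Fin m → V) (a b : V →ᵃ[ℝ] ℝ) : Set (V × ℝ) :=
  {p | p.1 ∈ Cv w ∧ a p.1 ≤ p.2 ∧ p.2 ≤ b p.1}

/-- its interior -/
def OBody {m : ℕ} (w : Fin m → V) (a b : V →ᵃ[ℝ] ℝ) : Set (V × ℝ) :=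
  {p | p.1 ∈ interior (Cv w) ∧ a p.1 < p.2 ∧ p.2 < b p.1}

/-- a good cell: a simplex `w` and `a < b` on its interior -/
def GoodC {D : ℕ} (w : Fin (D + 1) → V) (a b : V →ᵃ[ℝ] ℝ) : Prop :=
  AffineIndependent ℝ w ∧ ∀ x ∈ interior (Cv w), a x < b x

/-- the open region of a member -/
def Reg {D : ℕ} (ψ : Fin (D + 1) → (V →ᵃ[ℝ] ℝ)) : Set V := {x | ∀ k, 0 < ψ k x}

/-- the member `(ψ, ℓ)` meets the open cell -/
def MeetsC {D : ℕ} (ψ : Fin (D + 1) → (V →ᵃ[ℝ] ℝ)) (ℓ : V →ᵃ[ℝ] ℝ) (w : Fin (D + 1) → V)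
    (a b : V →ᵃ[ℝ] ℝ) : Prop :=
  ∃ x ∈ interior (Cv w), x ∈ Reg ψ ∧ a x < ℓ x ∧ ℓ x < b x

/-- the members with index in `I` are inside the cell and short -/
def InSh {D : ℕ} {ι : Type} (ψ : ι → Fin (D + 1) → (V →ᵃ[ℝ] ℝ)) (ℓ : ι → (V →ᵃ[ℝ] ℝ))
    (w : Fin (D + 1) → V) (a b : V →ᵃ[ℝ] ℝ) (I : Finset ι) : Prop :=
  (∀ i ∈ I, ∀ x ∈ interior (Cv w), x ∈ Reg (ψ i) → a x < ℓ i x ∧ ℓ i x < b x) ∧
  (∀ i ∈ I, ∃ k, ∃ x ∈ interior (Cv w), ψ i k x = 0)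

/-- the facet functions of the members of `I` with a zero in the open simplex -/
def HH {D : ℕ} {ι : Type} (ψ : ι → Fin (D + 1) → (V →ᵃ[ℝ] ℝ)) (w : Fin (D + 1) → V) (I : Finset ι) :
    Set (ι × Fin (D + 1)) :=
  {x | x.1 ∈ I ∧ ∃ y ∈ interior (Cv w), ψ x.1 x.2 y = 0}

/-- the `D`-tuples of them with a unique common zero, in the open simplex -/
def VV {D : ℕ} {ι : Type} (ψ : ι → Fin (D + 1) → (V →ᵃ[ℝ] ℝ)) (w : Fin (D + 1) → V) (I : Finset ι) :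
    Set (Fin D → ι × Fin (D + 1)) :=
  {κ | (∀ m, κ m ∈ HH ψ w I) ∧
    ∃ x ∈ interior (Cv w), UZ (fun m => ψ (κ m).1 (κ m).2) x}

/-- the bound of the recursion -/
noncomputable def Phi (D : ℕ) (A B t h v : ℝ) : ℝ :=
  if h ≤ t then 1 else A * (Real.sqrt (h / t)) ^ (2 * D - 1) +
    B * (v / t ^ D) * (1 - 1 / (2 * Real.sqrt (h / t)))

/-- the weak cutting property of the space `V` of dimension `D` -/
def WCut (V : Type) [NormedAddCommGroup V] [NormedSpace ℝ V] (D : ℕ) (s Cs Np δ : ℝ) : Prop :=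
  ∀ (ι : Type) [Fintype ι] (f : ι → (V →ᵃ[ℝ] ℝ)) (w : Fin (D + 1) → V), AffineIndependent ℝ w →
    (∀ i, (f i).linear ≠ 0) → 0 < Fintype.card ι →
    ∃ T : Finset (Fin (D + 1) → V), IsTri (Cv w) T ∧
      (∀ t ∈ T, ((Cross f t).ncard : ℝ) ≤ (Fintype.card ι : ℝ) / s ^ 2) ∧
      (T.card : ℝ) ≤ Cs ∧
      (((Vert D f w).ncard : ℝ) < δ * (Fintype.card ι : ℝ) ^ D → (T.card : ℝ) ≤ Np)

/-- the relatively open simplex -/
def Op {m : ℕ} (t : Fin m → V) : Set V :=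
  {x | ∃ w : Fin m → ℝ, (∀ k, 0 < w k) ∧ ∑ k, w k = 1 ∧ x = ∑ k, w k • t k}

end Pool.Agent.H889
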