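import Pool.Agent.Helper889_Cut.Mem

/-! Cells with members which may cross: the quantities attached to a cell. -/

set_option autoImplicit false
open Set

namespace Pool.Agent.H889

variable {V : Type} [NormedAddCommGroup V] [NormedSpace ℝ V]

/-- `P` is a set of (ordered) pairs of members, each with a vertical hyperplane `π e = 0` containing the common part;
it contains all pairs which matter: if `M j` is the graph of `ℓ j` over some nonempty open set and `M i` meets `M j` and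
is not contained in the graph of `ℓ j`, then `(i, j)` is in `P`. -/
structure PairSys {ι : Type} (M : ι → Set (V × ℝ)) (ℓ : ι → (V →ᵃ[ℝ] ℝ)) (P : Finset (ι × ι))
    (π : ι × ι → (V →ᵃ[ℝ] ℝ)) : Prop where
  lin : ∀ e ∈ P, (π e).linear ≠ 0
  zero : ∀ e ∈ P, ∀ z ∈ M e.1, z ∈ M e.2 → π e z.1 = 0
  full : ∀ i j, ∀ G : Set V, IsOpen G → G.Nonempty → GrOv (M j) (ℓ j) G →
    ∀ z ∈ M i, z ∈ M j → ∀ z' ∈ M i, z'.2 ≠ ℓ j z'.1 → (i, j) ∈ P

/-- the members meeting the open cell -/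
def Im {ι : Type} {m : ℕ} (M : ι → Set (V × ℝ)) (w : Fin m → V) (a b : V →ᵃ[ℝ] ℝ) : Set ι :=
  {i | (M i ∩ OBody w a b).Nonempty}

/-- the pairs of `P` meeting inside the open cell -/
def PA {ι : Type} {m : ℕ} (M : ι → Set (V × ℝ)) (P : Finset (ι × ι)) (w : Fin m → V)
    (a b : V →ᵃ[ℝ] ℝ) : Set (ι × ι) :=
  {e | e ∈ P ∧ ∃ z, z ∈ M e.1 ∧ z ∈ M e.2 ∧ z ∈ OBody w a b}

/-- the weight of the cell -/
noncomputable def Wt {ι : Type} {m : ℕ} (M : ι → Set (V × ℝ)) (P : Finset (ι × ι)) (Δ : ℕ)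
    (w : Fin m → V) (a b : V →ᵃ[ℝ] ℝ) : ℕ :=
  (Δ + 1) * (Im M w a b).ncard + (PA M P w a b).ncard

/-- the functions of the members: the facet functions, and the differences to the floor and to the roof -/
def fI {ι : Type} {D : ℕ} (ψ : ι → Fin (D + 1) → (V →ᵃ[ℝ] ℝ)) (ℓ : ι → (V →ᵃ[ℝ] ℝ))
    (a b : V →ᵃ[ℝ] ℝ) (y : ι × (Fin (D + 1) ⊕ Bool)) : V →ᵃ[ℝ] ℝ :=
  match y.2 with
  | Sum.inl k => ψ y.1 k
  | Sum.inr false => ℓ y.1 - a
  | Sum.inr true => ℓ y.1 - b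

/-- the active functions of the members in a cell: all facet functions of the members meeting the open cell, and the
differences to the floor and to the roof for those of them which really meet the floor (the roof) over the open base -/
def FA {ι : Type} {D : ℕ} (M : ι → Set (V × ℝ)) (ℓ : ι → (V →ᵃ[ℝ] ℝ))
    (w : Fin (D + 1) → V) (a b : V →ᵃ[ℝ] ℝ) : Set (ι × (Fin (D + 1) ⊕ Bool)) :=
  {y | y.1 ∈ Im M w a b ∧
    (y.2 = Sum.inr false → (ℓ y.1 - a).linear ≠ 0 ∧ ∃ z ∈ M y.1, z.1 ∈ interior (Cv w) ∧ z.2 = a z.1) ∧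
    (y.2 = Sum.inr true → (ℓ y.1 - b).linear ≠ 0 ∧ ∃ z ∈ M y.1, z.1 ∈ interior (Cv w) ∧ z.2 = b z.1)}

/-- the index type of the weighted family of functions of a cell -/
abbrev Ix (ι : Type) (D Δ : ℕ) : Type := ((ι × (Fin (D + 1) ⊕ Bool)) × Fin (Δ + 1)) ⊕ (ι × ι)

/-- the weighted family of functions -/
def gf {ι : Type} {D Δ : ℕ} (ψ : ι → Fin (D + 1) → (V →ᵃ[ℝ] ℝ)) (ℓ : ι → (V →ᵃ[ℝ] ℝ))
    (π : ι × ι → (V →ᵃ[ℝ] ℝ)) (a b : V →ᵃ[ℝ] ℝ) (x : Ix ι D Δ) : V →ᵃ[ℝ] ℝ :=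
  match x with
  | Sum.inl y => fI ψ ℓ a b y.1
  | Sum.inr e => π e

/-- the active indices of a cell -/
def Ac {ι : Type} {D : ℕ} (M : ι → Set (V × ℝ)) (ℓ : ι → (V →ᵃ[ℝ] ℝ)) (P : Finset (ι × ι)) (Δ : ℕ)
    (w : Fin (D + 1) → V) (a b : V →ᵃ[ℝ] ℝ) : Set (Ix ι D Δ) :=
  {x | match x with
    | Sum.inl y => y.1 ∈ FA M ℓ w a b
    | Sum.inr e => e ∈ PA M P w a b}

/-- the vertices of a cell: the `D`-tuples of active functions with a unique common zero, in the open base -/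
def Vx {ι : Type} {D : ℕ} (M : ι → Set (V × ℝ)) (ψ : ι → Fin (D + 1) → (V →ᵃ[ℝ] ℝ))
    (ℓ : ι → (V →ᵃ[ℝ] ℝ)) (P : Finset (ι × ι)) (π : ι × ι → (V →ᵃ[ℝ] ℝ)) (Δ : ℕ)
    (w : Fin (D + 1) → V) (a b : V →ᵃ[ℝ] ℝ) : Set (Fin D → Ix ι D Δ) :=
  {κ | (∀ m, κ m ∈ Ac M ℓ P Δ w a b) ∧ ∃ x ∈ interior (Cv w), UZ (fun m => gf ψ ℓ π a b (κ m)) x}

end Pool.Agent.H889
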