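import Pool.Agent.Helper889_Cut.Defs

/-! Cutting between two graphs along every q-th graph. -/

set_option autoImplicit false
open Set

namespace Pool.Agent.H889

variable {V : Type} [NormedAddCommGroup V] [NormedSpace ℝ V]

theorem layers_sign {K : Set V} (hK : Convex ℝ K) {f g : V →ᵃ[ℝ] ℝ}
    (hne : ∀ x ∈ K, f x ≠ g x) {x₀ : V} (hx₀ : x₀ ∈ K) (h0 : f x₀ < g x₀) :
    ∀ x ∈ K, f x < g x := by
  intro x hx
  by_contra hcon
  have h1 : g x < f x := lt_of_le_of_ne (not_lt.mp hcon) (hne x hx).symm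
  have hc : Convex ℝ ((f - g) '' K) := hK.affine_image (f - g)
  have hoc := hc.ordConnected
  have hm : (0 : ℝ) ∈ (f - g) '' K := by
    apply hoc.out ⟨x₀, hx₀, rfl⟩ ⟨x, hx, rfl⟩
    simp only [AffineMap.coe_sub, Pi.sub_apply, mem_Icc]
    constructor <;> linarith
  obtain ⟨y, hy, hy0⟩ := hm
  apply hne y hy
  simp only [AffineMap.coe_sub, Pi.sub_apply] at hy0
  linarith

theorem layers_rank {ι : Type} [DecidableEq ι] (v : ι → ℝ) (L : Finset ι)
    (hv : ∀ i ∈ L, ∀ j ∈ L, i ≠ j → v i ≠ v j) (k : ℕ) (hk : k < L.card) :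
    ∃ μ ∈ L, (L.filter (fun i => v i < v μ)).card = k := by
  revert hv hk
  refine Finset.induction_on_max_value v L ?_ ?_
  · intro _ hk; simp at hk
  · intro a s ha hmax ih hv hk
    rw [Finset.card_insert_of_notMem ha] at hk
    have hlt : ∀ x ∈ s, v x < v a := by
      intro x hx
      refine lt_of_le_of_ne (hmax x hx) ?_
      refine hv x (Finset.mem_insert_of_mem hx) a (Finset.mem_insert_self _ _) ?_
      rintro rfl; exact ha hx
    by_cases hks : k < s.card
    · obtain ⟨μ, hμ, hc⟩ := ih (fun i hi j hj => hv i (Finset.mem_insert_of_mem hi) j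
        (Finset.mem_insert_of_mem hj)) hks
      refine ⟨μ, Finset.mem_insert_of_mem hμ, ?_⟩
      rw [Finset.filter_insert, if_neg (by linarith [hlt μ hμ]), hc]
    · have hk' : k = s.card := by omega
      refine ⟨a, Finset.mem_insert_self _ _, ?_⟩
      rw [Finset.filter_insert, if_neg (lt_irrefl _), hk']
      congr 1
      exact Finset.filter_true_of_mem hlt

/-! TARGET `layers`. `G` convex nonempty; `ℓ i`, `i ∈ L`, affine functions, strictly between `a` and `b` on `G`, pairwise
different at every point of `G` (so, `G` being convex, pairwise strictly ordered on `G`: an affine function without zero on a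
convex set has constant sign there). We cut the region between `a` and `b` along every `q`-th of the `ℓ i` in this order.
Proof by strong induction on `L.card`, for all `a`. If `L.card < q` take `Λ = {(a, b)}`. Otherwise fix `x₀ ∈ G`, let
`μ ∈ L` be the element with exactly `q - 1` elements `i ∈ L` with `ℓ i x₀ < ℓ μ x₀` (the values `ℓ i x₀` are distinct), let
`L' = {i ∈ L | ℓ μ x₀ < ℓ i x₀}` (then `ℓ μ < ℓ i` on `G`), `L'.card = L.card - q`, apply the induction hypothesis to `ℓ μ, b, L'`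
and add the pair `(a, ℓ μ)`. Check: (1) `(L.card - q) / q + 1 + 1 = L.card / q + 1`. (5) at `x ∈ closure G` the weak inequalities
`a x ≤ ℓ μ x ≤ b x` hold by continuity; compare `z` with `ℓ μ x`. (6) the new layer is below `ℓ μ`, the others above `ℓ μ`
(by (3) for the others). (7) the members of `L` strictly between `a` and `ℓ μ` somewhere are those below `μ`: `q - 1` of them; a
layer of `L'` lies above `ℓ μ`, so only members of `L'` can be inside. (8) `g - ℓ μ` has no zero on the convex set `G'`, so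
`g < ℓ μ` on `G'` or `g > ℓ μ` on `G'`. (`closure G` needs continuity of affine maps: finite dimension.) -/

theorem layers [FiniteDimensional ℝ V] {ι : Type} (G : Set V) (hG : Convex ℝ G) (hne : G.Nonempty)
    (a b : V →ᵃ[ℝ] ℝ) (ℓ : ι → (V →ᵃ[ℝ] ℝ)) (L : Finset ι)
    (hab : ∀ x ∈ G, a x < b x)
    (hL : ∀ i ∈ L, ∀ x ∈ G, a x < ℓ i x ∧ ℓ i x < b x)
    (hd : ∀ i ∈ L, ∀ j ∈ L, i ≠ j → ∀ x ∈ G, ℓ i x ≠ ℓ j x) (q : ℕ) (hq : 1 ≤ q) :
    ∃ Λ : Finset ((V →ᵃ[ℝ] ℝ) × (V →ᵃ[ℝ] ℝ)),
      Λ.card ≤ L.card / q + 1 ∧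
      (∀ p ∈ Λ, ∀ x ∈ G, p.1 x < p.2 x) ∧
      (∀ p ∈ Λ, ∀ x ∈ G, a x ≤ p.1 x ∧ p.2 x ≤ b x) ∧
      (∀ p ∈ Λ, (p.1 = a ∨ ∃ i ∈ L, p.1 = ℓ i) ∧ (p.2 = b ∨ ∃ i ∈ L, p.2 = ℓ i)) ∧
      (∀ x ∈ closure G, ∀ z, a x ≤ z → z ≤ b x → ∃ p ∈ Λ, p.1 x ≤ z ∧ z ≤ p.2 x) ∧
      (∀ p ∈ Λ, ∀ p' ∈ Λ, p ≠ p' → ∀ x ∈ G, ∀ z,
        ¬ (p.1 x < z ∧ z < p.2 x ∧ p'.1 x < z ∧ z < p'.2 x)) ∧
      (∀ p ∈ Λ, {i | i ∈ L ∧ ∃ x ∈ G, p.1 x < ℓ i x ∧ ℓ i x < p.2 x}.ncard < q) ∧
      (∀ (G' : Set V) (g : V →ᵃ[ℝ] ℝ), G' ⊆ G → Convex ℝ G' → G'.Nonempty →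
        (∀ x ∈ G', a x < g x ∧ g x < b x) → (∀ i ∈ L, ∀ x ∈ G', g x ≠ ℓ i x) →
        ∃ p ∈ Λ, ∀ x ∈ G', p.1 x < g x ∧ g x < p.2 x) := by
  classical
  induction hn : L.card using Nat.strong_induction_on generalizing a L with
  | _ n ih =>
  by_cases hLq : L.card < q
  · refine ⟨{(a, b)}, ?_, ?_, ?_, ?_, ?_, ?_, ?_, ?_⟩
    · simp
    · intro p hp x hx
      rw [Finset.mem_singleton] at hp; subst hp
      exact hab x hx
    · intro p hp x hx
      rw [Finset.mem_singleton] at hp; subst hp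
      exact ⟨le_refl _, le_refl _⟩
    · intro p hp
      rw [Finset.mem_singleton] at hp; subst hp
      exact ⟨Or.inl rfl, Or.inl rfl⟩
    · intro x _ z h1 h2
      exact ⟨(a, b), Finset.mem_singleton_self _, h1, h2⟩
    · intro p hp p' hp' hne
      rw [Finset.mem_singleton] at hp hp'
      exact absurd (hp.trans hp'.symm) hne
    · intro p hp
      have hsub : {i | i ∈ L ∧ ∃ x ∈ G, p.1 x < ℓ i x ∧ ℓ i x < p.2 x} ⊆ (L : Set ι) :=
        fun i hi => hi.1
      have h1 := Set.ncard_le_ncard hsub L.finite_toSet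
      rw [Set.ncard_coe_finset] at h1
      omega
    · intro G' g _ _ _ h1 _
      exact ⟨(a, b), Finset.mem_singleton_self _, h1⟩
  · push Not at hLq
    obtain ⟨x₀, hx₀⟩ := hne
    obtain ⟨μ, hμ, hμc⟩ := layers_rank (fun i => ℓ i x₀) L
      (fun i hi j hj hij => hd i hi j hj hij x₀ hx₀) (q - 1) (by omega)
    try simp only at hμc
    set L' : Finset ι := L.filter (fun i => ℓ μ x₀ < ℓ i x₀) with hL'
    have hpart : L = (L.filter (fun i => ℓ i x₀ < ℓ μ x₀)) ∪ insert μ L' := by
      ext i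
      simp only [hL', Finset.mem_union, Finset.mem_filter, Finset.mem_insert]
      constructor
      · intro hi
        by_cases him : i = μ
        · right; left; exact him
        · rcases lt_or_gt_of_ne (hd i hi μ hμ him x₀ hx₀) with h | h
          · left; exact ⟨hi, h⟩
          · right; right; exact ⟨hi, h⟩
      · rintro (h | h | h)
        · exact h.1
        · rw [h]; exact hμ
        · exact h.1
    have hcard : L.card = (q - 1) + (L'.card + 1) := by
      have hdis : Disjoint (L.filter (fun i => ℓ i x₀ < ℓ μ x₀)) (insert μ L') := by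
        rw [Finset.disjoint_left]
        intro i hi hi'
        rw [Finset.mem_filter] at hi
        rw [Finset.mem_insert, hL', Finset.mem_filter] at hi'
        rcases hi' with h | h
        · rw [h] at hi; exact lt_irrefl _ hi.2
        · exact absurd hi.2 (not_lt.mpr h.2.le)
      have hnot : μ ∉ L' := by
        rw [hL', Finset.mem_filter]
        exact fun h => lt_irrefl _ h.2
      calc L.card = ((L.filter (fun i => ℓ i x₀ < ℓ μ x₀)) ∪ insert μ L').card := by
            rw [← hpart]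
        _ = (q - 1) + (L'.card + 1) := by
            rw [Finset.card_union_of_disjoint hdis, hμc, Finset.card_insert_of_notMem hnot]
    have hcard' : L'.card + q = L.card := by omega
    have hup : ∀ i ∈ L', ∀ x ∈ G, ℓ μ x < ℓ i x := by
      intro i hi
      rw [hL', Finset.mem_filter] at hi
      have hne' : μ ≠ i := by
        rintro rfl; exact lt_irrefl _ hi.2
      exact layers_sign hG (hd μ hμ i hi.1 hne') hx₀ hi.2
    have hdown : ∀ i ∈ L, ℓ i x₀ < ℓ μ x₀ → ∀ x ∈ G, ℓ i x < ℓ μ x := by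
      intro i hi hlt
      have hne' : i ≠ μ := by
        rintro rfl; exact lt_irrefl _ hlt
      exact layers_sign hG (hd i hi μ hμ hne') hx₀ hlt
    have hL'L : ∀ i ∈ L', i ∈ L := fun i hi => (Finset.mem_filter.mp hi).1
    obtain ⟨Λ, c1, c2, c3, c4, c5, c6, c7, c8⟩ := ih L'.card (by omega) (ℓ μ) L'
      (fun x hx => (hL μ hμ x hx).2)
      (fun i hi x hx => ⟨hup i hi x hx, (hL i (hL'L i hi) x hx).2⟩)
      (fun i hi j hj => hd i (hL'L i hi) j (hL'L j hj)) rfl
    refine ⟨insert (a, ℓ μ) Λ, ?_, ?_, ?_, ?_, ?_, ?_, ?_, ?_⟩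
    · refine (Finset.card_insert_le _ _).trans ?_
      have h1 := Nat.add_div_right L'.card (show 0 < q by omega)
      have h2 : n / q = L'.card / q + 1 := by
        rw [← hn, ← hcard', h1]
      rw [h2]
      omega
    · intro p hp x hx
      rw [Finset.mem_insert] at hp
      rcases hp with rfl | hp
      · exact (hL μ hμ x hx).1
      · exact c2 p hp x hx
    · intro p hp x hx
      rw [Finset.mem_insert] at hp
      rcases hp with rfl | hp
      · exact ⟨le_refl _, (hL μ hμ x hx).2.le⟩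
      · have h1 := c3 p hp x hx
        exact ⟨(hL μ hμ x hx).1.le.trans h1.1, h1.2⟩
    · intro p hp
      rw [Finset.mem_insert] at hp
      rcases hp with rfl | hp
      · exact ⟨Or.inl rfl, Or.inr ⟨μ, hμ, rfl⟩⟩
      · obtain ⟨h1, h2⟩ := c4 p hp
        constructor
        · rcases h1 with h1 | ⟨i, hi, h1⟩
          · exact Or.inr ⟨μ, hμ, h1⟩
          · exact Or.inr ⟨i, hL'L i hi, h1⟩
        · rcases h2 with h2 | ⟨i, hi, h2⟩
          · exact Or.inl h2
          · exact Or.inr ⟨i, hL'L i hi, h2⟩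
    · intro x hx z h1 h2
      by_cases hz : z ≤ ℓ μ x
      · exact ⟨(a, ℓ μ), Finset.mem_insert_self _ _, h1, hz⟩
      · obtain ⟨p, hp, hpz⟩ := c5 x hx z (not_le.mp hz).le h2
        exact ⟨p, Finset.mem_insert_of_mem hp, hpz⟩
    · intro p hp p' hp' hpp x hx z
      rw [Finset.mem_insert] at hp hp'
      rcases hp with rfl | hp <;> rcases hp' with rfl | hp'
      · exact absurd rfl hpp
      · rintro ⟨-, h2, h3, -⟩
        have h5 := (c3 p' hp' x hx).1
        simp only at h2
        linarith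
      · rintro ⟨h1, -, -, h4⟩
        have h5 := (c3 p hp x hx).1
        simp only at h4
        linarith
      · exact c6 p hp p' hp' hpp x hx z
    · intro p hp
      rw [Finset.mem_insert] at hp
      rcases hp with rfl | hp
      · have hsub : {i | i ∈ L ∧ ∃ x ∈ G, (a, ℓ μ).1 x < ℓ i x ∧ ℓ i x < (a, ℓ μ).2 x} ⊆
            ((L.filter (fun i => ℓ i x₀ < ℓ μ x₀) : Finset ι) : Set ι) := by
          rintro i ⟨hi, x, hx, -, h2⟩
          simp only at h2
          rw [Finset.mem_coe, Finset.mem_filter]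
          refine ⟨hi, ?_⟩
          have him : i ≠ μ := by rintro rfl; exact lt_irrefl _ h2
          rcases lt_or_gt_of_ne (hd i hi μ hμ him x₀ hx₀) with h | h
          · exact h
          · have := hup i (by rw [hL', Finset.mem_filter]; exact ⟨hi, h⟩) x hx
            linarith
        have h1 := Set.ncard_le_ncard hsub (Finset.finite_toSet _)
        rw [Set.ncard_coe_finset, hμc] at h1
        omega
      · refine lt_of_le_of_lt (Set.ncard_le_ncard ?_ ?_) (c7 p hp)
        · rintro i ⟨hi, x, hx, h1, h2⟩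
          refine ⟨?_, x, hx, h1, h2⟩
          have h3 := (c3 p hp x hx).1
          rw [hL', Finset.mem_filter]
          refine ⟨hi, ?_⟩
          have him : i ≠ μ := by rintro rfl; linarith
          rcases lt_or_gt_of_ne (hd i hi μ hμ him x₀ hx₀) with h | h
          · have := hdown i hi h x hx
            linarith
          · exact h
        · exact L'.finite_toSet.subset (fun i hi => hi.1)
    · intro G' g hG' hcG' hneG' hg1 hg2
      obtain ⟨y, hy⟩ := hneG'
      rcases lt_or_gt_of_ne (hg2 μ hμ y hy) with h | h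
      · refine ⟨(a, ℓ μ), Finset.mem_insert_self _ _, fun x hx => ⟨(hg1 x hx).1, ?_⟩⟩
        exact layers_sign hcG' (fun x hx => hg2 μ hμ x hx) hy h x hx
      · have hgt : ∀ x ∈ G', ℓ μ x < g x :=
          layers_sign hcG' (fun x hx => (hg2 μ hμ x hx).symm) hy h
        obtain ⟨p, hp, hpx⟩ := c8 G' g hG' hcG' ⟨y, hy⟩
          (fun x hx => ⟨hgt x hx, (hg1 x hx).2⟩)
          (fun i hi x hx => hg2 i (hL'L i hi) x hx)
        exact ⟨p, Finset.mem_insert_of_mem hp, hpx⟩

end Pool.Agent.H889
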