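import Pool.Agent.Helper889_Cut.Cell
import Pool.Agent.Helper889_Cut.Layers

/-! One step of the subdivision of a cell. -/

set_option autoImplicit false
open Set

namespace Pool.Agent.H889

variable {V : Type} [NormedAddCommGroup V] [NormedSpace ℝ V]

/-! auxiliary lemmas -/

lemma cell_step_sum {α β : Type} [Finite α] (s : Finset β) (f : β → Set α) :
    ∀ (B : Set α), (∀ b ∈ s, f b ⊆ B) →
    (∀ b ∈ s, ∀ b' ∈ s, b ≠ b' → Disjoint (f b) (f b')) →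
    ∑ b ∈ s, (f b).ncard ≤ B.ncard := by
  classical
  induction s using Finset.induction_on with
  | empty => intro B _ _; simp
  | insert b s hb ih =>
    intro B hsub hd
    rw [Finset.sum_insert hb]
    have h1 := ih (B \ f b) (fun b' hb' => by
      have h2 := hsub b' (Finset.mem_insert_of_mem hb')
      have h3 := hd b (Finset.mem_insert_self _ _) b' (Finset.mem_insert_of_mem hb')
        (fun h => hb (h ▸ hb'))
      intro x hx
      exact ⟨h2 hx, fun hx' => Set.disjoint_left.1 h3 hx' hx⟩)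
      (fun b' hb' b'' hb'' => hd b' (Finset.mem_insert_of_mem hb') b''
        (Finset.mem_insert_of_mem hb''))
    have h2 := Set.ncard_sdiff_add_ncard_of_subset (hsub b (Finset.mem_insert_self _ _))
      (Set.toFinite B)
    omega

lemma cell_step_convex_reg {D : ℕ} (ψ : Fin (D + 1) → (V →ᵃ[ℝ] ℝ)) : Convex ℝ (Reg ψ) := by
  have : Reg ψ = ⋂ k, (ψ k) ⁻¹' (Set.Ioi 0) := by
    ext x; simp [Reg]
  rw [this]
  exact convex_iInter fun k => (convex_Ioi (0 : ℝ)).affine_preimage (ψ k)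

lemma cell_step_sign [FiniteDimensional ℝ V] (G : Set V) (hG : Convex ℝ G) (g : V →ᵃ[ℝ] ℝ)
    (h0 : ∀ x ∈ G, g x ≠ 0) (x : V) (hx : x ∈ G) (hgx : 0 < g x) (y : V) (hy : y ∈ G) :
    0 < g y := by
  by_contra hcon
  rw [not_lt] at hcon
  have h1 := hG.isPreconnected.intermediate_value hy hx
    (f := g) g.continuous_of_finiteDimensional.continuousOn
  obtain ⟨z, hz, hz0⟩ := h1 ⟨hcon, hgx.le⟩
  exact h0 z hz hz0

lemma cell_step_simplex [FiniteDimensional ℝ V] (D : ℕ) (hV : Module.finrank ℝ V = D)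
    (τ : Fin (D + 1) → V) (hτ : AffineIndependent ℝ τ) :
    (interior (Cv τ)).Nonempty ∧ closure (interior (Cv τ)) = Cv τ := by
  have h1 : (interior (Cv τ)).Nonempty := by
    rw [Cv, interior_convexHull_nonempty_iff_affineSpan_eq_top,
      hτ.affineSpan_eq_top_iff_card_eq_finrank_add_one, hV]
    simp
  refine ⟨h1, ?_⟩
  have h2 : Convex ℝ (Cv τ) := convex_convexHull ℝ _
  rw [h2.closure_interior_eq_closure_of_nonempty_interior h1]
  exact ((Set.finite_range τ).isCompact_convexHull (𝕜 := ℝ)).isClosed.closure_eq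

lemma cell_step_closure [FiniteDimensional ℝ V] (G : Set V) (f g : V →ᵃ[ℝ] ℝ)
    (h : ∀ x ∈ G, f x ≤ g x) : ∀ x ∈ closure G, f x ≤ g x := by
  have hc : IsClosed {x | f x ≤ g x} :=
    isClosed_le f.continuous_of_finiteDimensional g.continuous_of_finiteDimensional
  intro x hx
  exact closure_minimal (fun y hy => h y hy) hc hx

/-! TARGET `cell_step`: one step of the subdivision of a cell.
`T` is a partition of the base simplex `w`. Over each `τ ∈ T` let `G = interior (Cv τ)` (convex, nonempty), and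
* `Is = {i ∈ I | ∃ k, ψ i k has a zero in G}` (short),
* `Lo = {i ∈ I | i ∉ Is, G ⊆ Reg (ψ i)}` (long); for the other `i ∈ I`, `G ∩ Reg (ψ i) = ∅` (without zero each `ψ i k` has constant
  sign on the convex set `G`), so they meet no cell over `τ`.
The functions `ℓ i`, `i ∈ Lo`, are strictly between `a` and `b` on `G` and pairwise different at all points of `G` (noncrossing). Apply
`layers` to `G, a, b, ℓ, Lo, q`: this is `Λ τ`. `J τ p = {i ∈ Is | (G ∩ Reg (ψ i)).Nonempty ∧ ∀ x ∈ G ∩ Reg (ψ i), p.1 x < ℓ i x < p.2 x}`.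
Every `i ∈ Is` with `(G ∩ Reg (ψ i)).Nonempty` is in `J τ p` for exactly one `p` (last item of `layers` with `G' = G ∩ Reg (ψ i)`, `g = ℓ i`:
noncrossing; uniqueness by the disjointness item at a point of `G'`).
(1) `Lo.card ≤ I.card`. (2) clear. (3) body: use `Cv τ ⊆ Cv w`, `Cv τ = closure G` (simplex with nonempty interior), the covering item
at `x ∈ closure G`, and `a ≤ p.1`, `p.2 ≤ b` on the closure by continuity. (4) different `τ`: disjoint interiors; same `τ`, different `p`: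
the disjointness item. (5) clear. (6) a member `i ∈ I`, `i ∉ J τ p`, meeting the cell is in `Lo` (if it were in `Is` it would be in `J τ p'`
with `p' ≠ p`, contradicting disjointness; `interior` of `Cv τ` is `G`), so the count is `< q`. (7) the sets `HH ψ τ (J τ p)`, `p ∈ Λ τ`, are
pairwise disjoint subsets of `HH ψ τ I`. (8) the sets `VV ψ τ (J τ p)` are pairwise disjoint subsets of `VV ψ w I`: the common zero is in
`interior (Cv τ) ⊆ interior (Cv w)`, which determines `τ`, and the member `(κ m).1` for one `m : Fin D` (`D ≥ 1`) determines `p`. -/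

theorem cell_step [FiniteDimensional ℝ V] (D : ℕ) (hD : 1 ≤ D) (hV : Module.finrank ℝ V = D)
    {ι : Type} [Fintype ι] (ψ : ι → Fin (D + 1) → (V →ᵃ[ℝ] ℝ)) (ℓ : ι → (V →ᵃ[ℝ] ℝ))
    (hnc : ∀ i j, i ≠ j → ∀ x, x ∈ Reg (ψ i) → x ∈ Reg (ψ j) → ℓ i x ≠ ℓ j x)
    (w : Fin (D + 1) → V) (a b : V →ᵃ[ℝ] ℝ) (hg : GoodC w a b) (I : Finset ι)
    (hI : InSh ψ ℓ w a b I) (T : Finset (Fin (D + 1) → V)) (hT : IsTri (Cv w) T)
    (q : ℕ) (hq : 1 ≤ q) :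
    ∃ (Λ : (Fin (D + 1) → V) → Finset ((V →ᵃ[ℝ] ℝ) × (V →ᵃ[ℝ] ℝ)))
      (J : (Fin (D + 1) → V) → ((V →ᵃ[ℝ] ℝ) × (V →ᵃ[ℝ] ℝ)) → Finset ι),
      (∀ τ ∈ T, (Λ τ).card ≤ I.card / q + 1) ∧
      (∀ τ ∈ T, ∀ p ∈ Λ τ, GoodC τ p.1 p.2) ∧
      ((⋃ τ ∈ T, ⋃ p ∈ Λ τ, Body τ p.1 p.2) = Body w a b) ∧
      (∀ τ ∈ T, ∀ p ∈ Λ τ, ∀ τ' ∈ T, ∀ p' ∈ Λ τ', (τ, p) ≠ (τ', p') →
        Disjoint (OBody τ p.1 p.2) (OBody τ' p'.1 p'.2)) ∧
      (∀ τ ∈ T, ∀ p ∈ Λ τ, J τ p ⊆ I ∧ InSh ψ ℓ τ p.1 p.2 (J τ p)) ∧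
      (∀ τ ∈ T, ∀ p ∈ Λ τ,
        {i | i ∈ I ∧ i ∉ J τ p ∧ MeetsC (ψ i) (ℓ i) τ p.1 p.2}.ncard < q) ∧
      (∀ τ ∈ T, ∑ p ∈ Λ τ, (HH ψ τ (J τ p)).ncard ≤ (HH ψ τ I).ncard) ∧
      (∑ τ ∈ T, ∑ p ∈ Λ τ, (VV ψ τ (J τ p)).ncard ≤ (VV ψ w I).ncard) := by
  classical
  have hsub : ∀ τ ∈ T, Cv τ ⊆ Cv w := by
    intro τ hτ x hx
    rw [← hT.union]
    exact Set.mem_biUnion hτ hx
  have hint : ∀ τ ∈ T, interior (Cv τ) ⊆ interior (Cv w) := fun τ hτ => interior_mono (hsub τ hτ)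
  have hconv : ∀ τ : Fin (D + 1) → V, Convex ℝ (interior (Cv τ)) :=
    fun τ => (convex_convexHull ℝ _).interior
  set Lo : (Fin (D + 1) → V) → Finset ι := fun τ => I.filter fun i =>
    (¬ ∃ k, ∃ x ∈ interior (Cv τ), ψ i k x = 0) ∧ interior (Cv τ) ⊆ Reg (ψ i) with hLo
  have key : ∀ τ : Fin (D + 1) → V, ∃ Λ : Finset ((V →ᵃ[ℝ] ℝ) × (V →ᵃ[ℝ] ℝ)), τ ∈ T →
      Λ.card ≤ (Lo τ).card / q + 1 ∧
      (∀ p ∈ Λ, ∀ x ∈ interior (Cv τ), p.1 x < p.2 x) ∧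
      (∀ p ∈ Λ, ∀ x ∈ interior (Cv τ), a x ≤ p.1 x ∧ p.2 x ≤ b x) ∧
      (∀ x ∈ closure (interior (Cv τ)), ∀ z, a x ≤ z → z ≤ b x →
        ∃ p ∈ Λ, p.1 x ≤ z ∧ z ≤ p.2 x) ∧
      (∀ p ∈ Λ, ∀ p' ∈ Λ, p ≠ p' → ∀ x ∈ interior (Cv τ), ∀ z,
        ¬ (p.1 x < z ∧ z < p.2 x ∧ p'.1 x < z ∧ z < p'.2 x)) ∧
      (∀ p ∈ Λ, {i | i ∈ Lo τ ∧ ∃ x ∈ interior (Cv τ), p.1 x < ℓ i x ∧ ℓ i x < p.2 x}.ncard < q) ∧
      (∀ (G' : Set V) (g : V →ᵃ[ℝ] ℝ), G' ⊆ interior (Cv τ) → Convex ℝ G' → G'.Nonempty →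
        (∀ x ∈ G', a x < g x ∧ g x < b x) → (∀ i ∈ Lo τ, ∀ x ∈ G', g x ≠ ℓ i x) →
        ∃ p ∈ Λ, ∀ x ∈ G', p.1 x < g x ∧ g x < p.2 x) := by
    intro τ
    by_cases hτ : τ ∈ T
    swap
    · exact ⟨∅, fun h => absurd h hτ⟩
    obtain ⟨hne, -⟩ := cell_step_simplex D hV τ (hT.indep τ hτ)
    obtain ⟨Λ, h1, h2, h3, -, h5, h6, h7, h8⟩ := layers (interior (Cv τ)) (hconv τ) hne a b ℓ
      (Lo τ) (fun x hx => hg.2 x (hint τ hτ hx))
      (fun i hi x hx => by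
        rw [hLo, Finset.mem_filter] at hi
        exact hI.1 i hi.1 x (hint τ hτ hx) (hi.2.2 hx))
      (fun i hi j hj hij x hx => by
        rw [hLo, Finset.mem_filter] at hi hj
        exact hnc i j hij x (hi.2.2 hx) (hj.2.2 hx)) q hq
    exact ⟨Λ, fun _ => ⟨h1, h2, h3, h5, h6, h7, h8⟩⟩
  choose Λ hΛ using key
  set J : (Fin (D + 1) → V) → ((V →ᵃ[ℝ] ℝ) × (V →ᵃ[ℝ] ℝ)) → Finset ι := fun τ p =>
    I.filter fun i => (∃ k, ∃ x ∈ interior (Cv τ), ψ i k x = 0) ∧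
      (interior (Cv τ) ∩ Reg (ψ i)).Nonempty ∧
      ∀ x ∈ interior (Cv τ), x ∈ Reg (ψ i) → p.1 x < ℓ i x ∧ ℓ i x < p.2 x with hJ
  have hJI : ∀ τ p, J τ p ⊆ I := fun τ p => Finset.filter_subset _ _
  -- a member is in at most one `J τ p`
  have hJd : ∀ τ ∈ T, ∀ p ∈ Λ τ, ∀ p' ∈ Λ τ, p ≠ p' → ∀ i, i ∈ J τ p → i ∈ J τ p' → False := by
    intro τ hτ p hp p' hp' hne i hi hi'
    rw [hJ, Finset.mem_filter] at hi hi'
    obtain ⟨-, -, ⟨x, hxG, hxR⟩, h1⟩ := hi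
    obtain ⟨-, -, -, h2⟩ := hi'
    exact (hΛ τ hτ).2.2.2.2.1 p hp p' hp' hne x hxG (ℓ i x)
      ⟨(h1 x hxG hxR).1, (h1 x hxG hxR).2, (h2 x hxG hxR).1, (h2 x hxG hxR).2⟩
  refine ⟨Λ, J, ?_, ?_, ?_, ?_, ?_, ?_, ?_, ?_⟩
  · intro τ hτ
    refine (hΛ τ hτ).1.trans ?_
    have : (Lo τ).card ≤ I.card := Finset.card_filter_le _ _
    exact Nat.add_le_add_right (Nat.div_le_div_right this) 1
  · intro τ hτ p hp
    exact ⟨hT.indep τ hτ, (hΛ τ hτ).2.1 p hp⟩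
  · ext ⟨x, z⟩
    simp only [Set.mem_iUnion, exists_prop]
    constructor
    · rintro ⟨τ, hτ, p, hp, h1, h2, h3⟩
      have hcl := (cell_step_simplex D hV τ (hT.indep τ hτ)).2
      have h1' : x ∈ closure (interior (Cv τ)) := by rw [hcl]; exact h1
      have h4 := cell_step_closure (interior (Cv τ)) a p.1
        (fun y hy => ((hΛ τ hτ).2.2.1 p hp y hy).1) x h1'
      have h5 := cell_step_closure (interior (Cv τ)) p.2 b
        (fun y hy => ((hΛ τ hτ).2.2.1 p hp y hy).2) x h1'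
      exact ⟨hsub τ hτ h1, h4.trans h2, h3.trans h5⟩
    · rintro ⟨h1, h2, h3⟩
      rw [← hT.union] at h1
      simp only [Set.mem_iUnion, exists_prop] at h1
      obtain ⟨τ, hτ, h1⟩ := h1
      have hcl := (cell_step_simplex D hV τ (hT.indep τ hτ)).2
      obtain ⟨p, hp, h4, h5⟩ := (hΛ τ hτ).2.2.2.1 x (by rw [hcl]; exact h1) z h2 h3
      exact ⟨τ, hτ, p, hp, h1, h4, h5⟩
  · intro τ hτ p hp τ' hτ' p' hp' hne
    rw [Set.disjoint_left]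
    rintro ⟨x, z⟩ ⟨h1, h2, h3⟩ ⟨h1', h2', h3'⟩
    by_cases hττ : τ = τ'
    · subst hττ
      have hpp : p ≠ p' := fun h => hne (by rw [h])
      exact (hΛ τ hτ).2.2.2.2.1 p hp p' hp' hpp x h1 z ⟨h2, h3, h2', h3'⟩
    · exact Set.disjoint_left.1 (hT.disj τ hτ τ' hτ' hττ) h1 h1'
  · intro τ hτ p hp
    refine ⟨hJI τ p, ?_, ?_⟩
    · intro i hi x hx hxR
      rw [hJ, Finset.mem_filter] at hi
      exact hi.2.2.2 x hx hxR
    · intro i hi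
      rw [hJ, Finset.mem_filter] at hi
      exact hi.2.1
  · intro τ hτ p hp
    refine lt_of_le_of_lt (Set.ncard_le_ncard ?_ (Set.toFinite _)) ((hΛ τ hτ).2.2.2.2.2.1 p hp)
    rintro i ⟨hiI, hiJ, x, hx, hxR, h1, h2⟩
    refine ⟨?_, x, hx, h1, h2⟩
    have hns : ¬ ∃ k, ∃ x ∈ interior (Cv τ), ψ i k x = 0 := by
      intro hs
      obtain ⟨p', hp', h3⟩ := (hΛ τ hτ).2.2.2.2.2.2 (interior (Cv τ) ∩ Reg (ψ i)) (ℓ i)
        Set.inter_subset_left ((hconv τ).inter (cell_step_convex_reg (ψ i))) ⟨x, hx, hxR⟩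
        (fun y hy => hI.1 i hiI y (hint τ hτ hy.1) hy.2)
        (fun j hj y hy => by
          rw [hLo, Finset.mem_filter] at hj
          refine hnc i j ?_ y hy.2 (hj.2.2 hy.1)
          rintro rfl
          exact hj.2.1 hs)
      have hij : i ∈ J τ p' := by
        rw [hJ, Finset.mem_filter]
        exact ⟨hiI, hs, ⟨x, hx, hxR⟩, fun y hy hyR => h3 y ⟨hy, hyR⟩⟩
      have hpp : p ≠ p' := fun h => hiJ (h ▸ hij)
      exact (hΛ τ hτ).2.2.2.2.1 p hp p' hp' hpp x hx (ℓ i x)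
        ⟨h1, h2, (h3 x ⟨hx, hxR⟩).1, (h3 x ⟨hx, hxR⟩).2⟩
    rw [hLo, Finset.mem_filter]
    refine ⟨hiI, hns, ?_⟩
    intro y hy k
    exact cell_step_sign (interior (Cv τ)) (hconv τ) (ψ i k)
      (fun z hz h0 => hns ⟨k, z, hz, h0⟩) x hx (hxR k) y hy
  · intro τ hτ
    apply cell_step_sum
    · rintro p hp x ⟨h1, h2⟩
      exact ⟨hJI τ p h1, h2⟩
    · intro p hp p' hp' hpp
      rw [Set.disjoint_left]
      rintro x ⟨h1, -⟩ ⟨h1', -⟩
      exact hJd τ hτ p hp p' hp' hpp x.1 h1 h1'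
  · have h1 : ∀ τ ∈ T, ∑ p ∈ Λ τ, (VV ψ τ (J τ p)).ncard ≤
        {κ : Fin D → ι × Fin (D + 1) | (∀ m, κ m ∈ HH ψ w I) ∧
          ∃ x ∈ interior (Cv τ), UZ (fun m => ψ (κ m).1 (κ m).2) x}.ncard := by
      intro τ hτ
      apply cell_step_sum
      · rintro p hp κ ⟨h2, h3⟩
        refine ⟨fun m => ?_, h3⟩
        obtain ⟨h4, y, hy, hy0⟩ := h2 m
        exact ⟨hJI τ p h4, y, hint τ hτ hy, hy0⟩
      · intro p hp p' hp' hpp
        rw [Set.disjoint_left]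
        rintro κ ⟨h2, -⟩ ⟨h2', -⟩
        exact hJd τ hτ p hp p' hp' hpp _ (h2 ⟨0, hD⟩).1 (h2' ⟨0, hD⟩).1
    refine (Finset.sum_le_sum h1).trans ?_
    apply cell_step_sum
    · rintro τ hτ κ ⟨h2, x, hx, h3⟩
      exact ⟨h2, x, hint τ hτ hx, h3⟩
    · intro τ hτ τ' hτ' hne
      rw [Set.disjoint_left]
      rintro κ ⟨-, x, hx, h3⟩ ⟨-, x', hx', h3'⟩
      have hxx : x = x' := (h3' x).1 ((h3 x).2 rfl)
      subst hxx
      exact Set.disjoint_left.1 (hT.disj τ hτ τ' hτ' hne) hx hx'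

end Pool.Agent.H889
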