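import Pool.Agent.Helper889_Cut.Cell4
import Pool.Agent.Helper889_Cut.Step

/-! Counting lemmas for the weighted families of functions. -/

set_option autoImplicit false
open Set

namespace Pool.Agent.H889

variable {V : Type} [NormedAddCommGroup V] [NormedSpace ℝ V]

/-- the indices belonging to a set of members and a set of pairs -/
def IxS {ι : Type} {D Δ : ℕ} (I0 : Set ι) (Q0 : Set (ι × ι)) : Set (Ix ι D Δ) :=
  {x | match x with
    | Sum.inl y => y.1.1 ∈ I0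
    | Sum.inr e => e ∈ Q0}

theorem IxS_card {ι : Type} [Finite ι] {D Δ : ℕ} (I0 : Set ι) (Q0 : Set (ι × ι)) :
    (IxS I0 Q0 : Set (Ix ι D Δ)).ncard = (D + 3) * ((Δ + 1) * I0.ncard) + Q0.ncard := by
  have h1 : (IxS I0 Q0 : Set (Ix ι D Δ)) =
      Sum.inl '' ((I0 ×ˢ (univ : Set (Fin (D + 1) ⊕ Bool))) ×ˢ (univ : Set (Fin (Δ + 1)))) ∪
        Sum.inr '' Q0 := by
    ext x
    rcases x with y | e
    · simp [IxS]
    · simp [IxS]
  have h2 : Disjoint (Sum.inl '' ((I0 ×ˢ (univ : Set (Fin (D + 1) ⊕ Bool))) ×ˢ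
      (univ : Set (Fin (Δ + 1)))) : Set (Ix ι D Δ)) (Sum.inr '' Q0) := by
    rw [Set.disjoint_left]
    rintro x ⟨y, -, rfl⟩ ⟨e, -, he⟩
    simp at he
  rw [h1, Set.ncard_union_eq h2 (Set.toFinite _) (Set.toFinite _),
    Set.ncard_image_of_injective _ Sum.inl_injective,
    Set.ncard_image_of_injective _ Sum.inr_injective, Set.ncard_prod, Set.ncard_prod,
    Set.ncard_univ, Set.ncard_univ]
  simp only [Nat.card_eq_fintype_card, Fintype.card_sum, Fintype.card_fin, Fintype.card_bool]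
  ring

theorem Ac_sub {D : ℕ} {ι : Type} (M : ι → Set (V × ℝ))
    (ℓ : ι → (V →ᵃ[ℝ] ℝ)) (P : Finset (ι × ι)) (Δ : ℕ) (w : Fin (D + 1) → V) (a b : V →ᵃ[ℝ] ℝ) :
    Ac M ℓ P Δ w a b ⊆ IxS (Im M w a b) (PA M P w a b) := by
  intro x hx
  rcases x with y | e
  · exact hx.1
  · exact hx

theorem Ac_card_le {D : ℕ} {ι : Type} [Fintype ι] (M : ι → Set (V × ℝ))
    (ℓ : ι → (V →ᵃ[ℝ] ℝ)) (P : Finset (ι × ι)) (Δ : ℕ) (w : Fin (D + 1) → V) (a b : V →ᵃ[ℝ] ℝ) :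
    (Ac M ℓ P Δ w a b).ncard ≤ (D + 3) * Wt M P Δ w a b := by
  refine (Set.ncard_le_ncard (Ac_sub M ℓ P Δ w a b) (Set.toFinite _)).trans ?_
  rw [IxS_card]
  unfold Wt
  nlinarith

theorem Wt_le_Ac {D : ℕ} {ι : Type} [Fintype ι] (M : ι → Set (V × ℝ))
    (ℓ : ι → (V →ᵃ[ℝ] ℝ)) (P : Finset (ι × ι)) (Δ : ℕ) (w : Fin (D + 1) → V) (a b : V →ᵃ[ℝ] ℝ) :
    Wt M P Δ w a b ≤ (Ac M ℓ P Δ w a b).ncard := by
  let g : (ι × Fin (Δ + 1)) → Ix ι D Δ := fun x => Sum.inl ((x.1, Sum.inl 0), x.2)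
  have hg : Function.Injective g := by
    rintro ⟨i, m⟩ ⟨i', m'⟩ h
    simp only [g, Sum.inl.injEq, Prod.mk.injEq] at h
    exact Prod.ext h.1.1 h.2
  have h1 : g '' ((Im M w a b) ×ˢ (univ : Set (Fin (Δ + 1)))) ∪ Sum.inr '' (PA M P w a b) ⊆
      Ac M ℓ P Δ w a b := by
    rintro x (⟨⟨i, m⟩, ⟨hi, -⟩, rfl⟩ | ⟨e, he, rfl⟩)
    · exact ⟨hi, by simp, by simp⟩
    · exact he
  have h2 : Disjoint (g '' ((Im M w a b) ×ˢ (univ : Set (Fin (Δ + 1)))))
      (Sum.inr '' (PA M P w a b) : Set (Ix ι D Δ)) := by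
    rw [Set.disjoint_left]
    rintro x ⟨y, -, rfl⟩ ⟨e, -, he⟩
    simp [g] at he
  refine le_trans ?_ (Set.ncard_le_ncard h1 (Set.toFinite _))
  rw [Set.ncard_union_eq h2 (Set.toFinite _) (Set.toFinite _), Set.ncard_image_of_injective _ hg,
    Set.ncard_image_of_injective _ Sum.inr_injective, Set.ncard_prod, Set.ncard_univ]
  simp only [Nat.card_eq_fintype_card, Fintype.card_fin]
  unfold Wt
  apply le_of_eq
  ring

theorem Ac_lin {D : ℕ} {ι : Type} (M : ι → Set (V × ℝ))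
    (ψ : ι → Fin (D + 1) → (V →ᵃ[ℝ] ℝ)) (ℓ : ι → (V →ᵃ[ℝ] ℝ)) (P : Finset (ι × ι))
    (π : ι × ι → (V →ᵃ[ℝ] ℝ)) (Δ : ℕ) (hM : ∀ i, IsMem (M i) (ψ i) (ℓ i)) (hP : PairSys M ℓ P π)
    (w : Fin (D + 1) → V) (a b : V →ᵃ[ℝ] ℝ) (x : Ix ι D Δ) (hx : x ∈ Ac M ℓ P Δ w a b) :
    (gf ψ ℓ π a b x).linear ≠ 0 := by
  rcases x with ⟨⟨i, k | f⟩, m⟩ | e
  · exact (hM i).lin k
  · cases f
    · exact (hx.2.1 rfl).1
    · exact (hx.2.2 rfl).1
  · exact hP.lin e hx.1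

/-- tuples with all entries in `A`, the entry `m` in `B` -/
theorem count4_tuple {X : Type} [Finite X] {D : ℕ} (A B : Set X) (m : Fin D) :
    {κ : Fin D → X | κ m ∈ B ∧ ∀ m', κ m' ∈ A}.ncard ≤ B.ncard * A.ncard ^ (D - 1) := by
  classical
  have := Fintype.ofFinite X
  have h1 : {κ : Fin D → X | κ m ∈ B ∧ ∀ m', κ m' ∈ A} ⊆
      ((Fintype.piFinset (fun m' => if m' = m then B.toFinset else A.toFinset) :
        Finset (Fin D → X)) : Set (Fin D → X)) := by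
    rintro κ ⟨h1, h2⟩
    rw [Finset.mem_coe, Fintype.mem_piFinset]
    intro m'
    by_cases h : m' = m
    · subst h
      simp [h1]
    · simp [h, h2 m']
  refine (Set.ncard_le_ncard h1 (Set.toFinite _)).trans ?_
  rw [Set.ncard_coe_finset, Fintype.card_piFinset]
  have h2 : ∏ m' : Fin D, (if m' = m then B.toFinset else A.toFinset).card =
      B.ncard * A.ncard ^ (D - 1) := by
    rw [← Finset.mul_prod_erase _ _ (Finset.mem_univ m), if_pos rfl, ← Set.ncard_eq_toFinset_card']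
    congr 1
    rw [Finset.prod_congr rfl (g := fun _ => A.ncard)]
    · rw [Finset.prod_const, Finset.card_erase_of_mem (Finset.mem_univ _), Finset.card_univ,
        Fintype.card_fin]
    · intro m' hm'
      rw [if_neg (Finset.ne_of_mem_erase hm'), ← Set.ncard_eq_toFinset_card']
  exact h2.le

/-- tuples with all entries in `A`, with all entries in `K` or not -/
theorem count4_split {X : Type} [Finite X] {D : ℕ} (A K : Set X) (S : Set (Fin D → X))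
    (hS : ∀ κ ∈ S, ∀ m, κ m ∈ A) :
    S.ncard ≤ {κ : Fin D → X | κ ∈ S ∧ ∀ m, κ m ∈ K}.ncard + D * ((A \ K).ncard * A.ncard ^ (D - 1)) := by
  classical
  have h1 : S ⊆ {κ : Fin D → X | κ ∈ S ∧ ∀ m, κ m ∈ K} ∪
      ⋃ m ∈ (Finset.univ : Finset (Fin D)), {κ : Fin D → X | κ m ∈ A \ K ∧ ∀ m', κ m' ∈ A} := by
    intro κ hκ
    by_cases h : ∀ m, κ m ∈ K
    · exact Or.inl ⟨hκ, h⟩
    · push Not at h
      obtain ⟨m, hm⟩ := h
      right
      simp only [Set.mem_iUnion]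
      exact ⟨m, Finset.mem_univ _, ⟨hS κ hκ m, hm⟩, hS κ hκ⟩
  refine (Set.ncard_le_ncard h1 (Set.toFinite _)).trans ((Set.ncard_union_le _ _).trans ?_)
  refine Nat.add_le_add_left ?_ _
  refine (Finset.set_ncard_biUnion_le _ _).trans ?_
  refine (Finset.sum_le_card_nsmul _ _ ((A \ K).ncard * A.ncard ^ (D - 1))
    (fun m _ => count4_tuple A (A \ K) m)).trans ?_
  rw [Finset.card_univ, Fintype.card_fin, smul_eq_mul]

end Pool.Agent.H889
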