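import Pool.Agent.Helper889_Cut.Defs

/-! Two counting lemmas for random samples. -/

set_option autoImplicit false
open Set

namespace Pool.Agent.H889

variable {V : Type} [NormedAddCommGroup V] [NormedSpace ℝ V]

/-! TARGET `count_bad`. Pure counting. `P` is a set of positions, `X ω` depends only on `ω` restricted to `P`.
Proof. Split `ω` into its restriction `η` to `P` and its restriction to the complement (e.g. `Equiv.piEquivPiSubtypeProd`,
or fibre over the restriction). There are `N ^ |P|` restrictions `η` (`N = card ι`); for a fixed `η` the set `X ω = X_η` is fixed,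
and if `N / ρ < |X_η|` then the `K - |P|` other values are outside `X_η`: at most `(N - |X_η|) ^ (K - |P|) ≤ (N (1 - 1/ρ)) ^ (K - |P|)`
choices. Total `N ^ |P| (N (1 - 1/ρ)) ^ (K - |P|) = N ^ K (1 - 1/ρ) ^ (K - |P|)`. -/

theorem count_bad {ι : Type} [Fintype ι] (K : ℕ) (P : Finset (Fin K))
    (X : (Fin K → ι) → Set ι) (hX : ∀ ω ω', (∀ j ∈ P, ω j = ω' j) → X ω = X ω')
    (ρ : ℝ) (hρ : 1 < ρ) :
    ({ω : Fin K → ι | (Fintype.card ι : ℝ) / ρ < ((X ω).ncard : ℝ) ∧ ∀ j, j ∉ P → ω j ∉ X ω}.ncard : ℝ)
      ≤ (Fintype.card ι : ℝ) ^ K * (1 - 1 / ρ) ^ (K - P.card) := by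
  classical
  set N : ℝ := (Fintype.card ι : ℝ) with hN
  have hN0 : 0 ≤ N := by positivity
  have hρ1 : 0 ≤ 1 - 1 / ρ := by
    have : 1 / ρ ≤ 1 := by rw [div_le_one (by linarith)]; linarith
    linarith
  set B : Finset (Fin K → ι) := Finset.univ.filter
    (fun ω => N / ρ < ((X ω).ncard : ℝ) ∧ ∀ j, j ∉ P → ω j ∉ X ω) with hB
  have e1 : {ω : Fin K → ι | N / ρ < ((X ω).ncard : ℝ) ∧ ∀ j, j ∉ P → ω j ∉ X ω} = (B : Set _) := by
    ext ω; simp [hB]
  rw [e1, Set.ncard_coe_finset]
  have hPK : P.card ≤ K := by simpa using P.card_le_univ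
  have hcompl : Fintype.card {j : Fin K // j ∉ P} = K - P.card := by
    rw [Fintype.card_subtype_compl]
    simp
  have key : ∀ η : (↥P → ι), ((B.filter (fun ω => (fun j : ↥P => ω j) = η)).card : ℝ) ≤
      (N * (1 - 1 / ρ)) ^ (K - P.card) := by
    intro η
    rcases (B.filter (fun ω => (fun j : ↥P => ω j) = η)).eq_empty_or_nonempty with h | ⟨ω0, h0⟩
    · rw [h]; simp only [Finset.card_empty, Nat.cast_zero]
      exact pow_nonneg (mul_nonneg hN0 hρ1) _
    · rw [Finset.mem_filter, hB, Finset.mem_filter] at h0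
      obtain ⟨⟨_, h1, _⟩, h2⟩ := h0
      have hXe : ∀ ω ∈ B.filter (fun ω => (fun j : ↥P => ω j) = η), X ω = X ω0 := by
        intro ω hω
        rw [Finset.mem_filter] at hω
        refine hX ω ω0 fun j hj => ?_
        have := congrFun (hω.2.trans h2.symm) ⟨j, hj⟩
        simpa using this
      have hle : (B.filter (fun ω => (fun j : ↥P => ω j) = η)).card ≤
          (Fintype.piFinset (fun _ : {j : Fin K // j ∉ P} => (X ω0)ᶜ.toFinset)).card := by
        refine Finset.card_le_card_of_injOn (fun ω => fun j : {j : Fin K // j ∉ P} => ω j) ?_ ?_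
        · intro ω hω
          have hx := hXe ω hω
          have hω' : ω ∈ B.filter (fun ω => (fun j : ↥P => ω j) = η) := hω
          rw [Finset.mem_filter, hB, Finset.mem_filter] at hω'
          rw [Finset.mem_coe, Fintype.mem_piFinset]
          intro j
          rw [Set.mem_toFinset, Set.mem_compl_iff, ← hx]
          exact hω'.1.2.2 j j.2
        · intro ω hω ω' hω' he
          have hω2 : ω ∈ B.filter (fun ω => (fun j : ↥P => ω j) = η) := hω
          have hω2' : ω' ∈ B.filter (fun ω => (fun j : ↥P => ω j) = η) := hω'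
          rw [Finset.mem_filter] at hω2 hω2'
          funext j
          by_cases hj : j ∈ P
          · have := congrFun (hω2.2.trans hω2'.2.symm) ⟨j, hj⟩
            simpa using this
          · exact congrFun he ⟨j, hj⟩
      rw [Fintype.card_piFinset, Finset.prod_const, Finset.card_univ, hcompl] at hle
      have hc : ((X ω0)ᶜ.toFinset.card : ℝ) ≤ N * (1 - 1 / ρ) := by
        rw [Set.toFinset_compl, Finset.card_compl, Nat.cast_sub (Finset.card_le_univ _)]
        rw [Set.ncard_eq_toFinset_card'] at h1
        have : N * (1 - 1 / ρ) = N - N / ρ := by ring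
        rw [this]
        linarith
      calc ((B.filter (fun ω => (fun j : ↥P => ω j) = η)).card : ℝ) ≤
            (((X ω0)ᶜ.toFinset.card ^ (K - P.card) : ℕ) : ℝ) := by exact_mod_cast hle
        _ = ((X ω0)ᶜ.toFinset.card : ℝ) ^ (K - P.card) := by push_cast; rfl
        _ ≤ _ := pow_le_pow_left₀ (by positivity) hc _
  have hsum : B.card = ∑ η : (↥P → ι), (B.filter (fun ω => (fun j : ↥P => ω j) = η)).card :=
    Finset.card_eq_sum_card_fiberwise (fun ω _ => Finset.mem_coe.2 (Finset.mem_univ _))
  rw [hsum, Nat.cast_sum]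
  calc ∑ η : (↥P → ι), ((B.filter (fun ω => (fun j : ↥P => ω j) = η)).card : ℝ)
      ≤ ∑ _η : (↥P → ι), (N * (1 - 1 / ρ)) ^ (K - P.card) := Finset.sum_le_sum fun η _ => key η
    _ = N ^ P.card * (N * (1 - 1 / ρ)) ^ (K - P.card) := by
        rw [Finset.sum_const, Finset.card_univ, Fintype.card_fun, nsmul_eq_mul]
        simp [hN]
    _ = N ^ (P.card + (K - P.card)) * (1 - 1 / ρ) ^ (K - P.card) := by
        rw [mul_pow, pow_add]; ring
    _ = N ^ K * (1 - 1 / ρ) ^ (K - P.card) := by
        rw [Nat.add_sub_cancel' hPK]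

/-! TARGET `count_poor`. Pure counting. Proof: the set is the union over the at most `K ^ D` maps `κ`; for a fixed injective
`κ` (so `D ≤ K`) there are `|Gd|` choices for `ω ∘ κ` and then `N ^ (K - D)` choices for the other `K - D` values of `ω`. -/

theorem count_poor {ι : Type} [Fintype ι] (K D : ℕ) (Gd : Set (Fin D → ι)) :
    {ω : Fin K → ι | ∃ κ : Fin D → Fin K, Function.Injective κ ∧ (fun m => ω (κ m)) ∈ Gd}.ncard
      ≤ K ^ D * Gd.ncard * (Fintype.card ι) ^ (K - D) := by
  classical
  have e1 : {ω : Fin K → ι | ∃ κ : Fin D → Fin K, Function.Injective κ ∧ (fun m => ω (κ m)) ∈ Gd} =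
      (((Finset.univ : Finset (Fin D → Fin K)).biUnion fun κ => Finset.univ.filter
        (fun ω : Fin K → ι => Function.Injective κ ∧ (fun m => ω (κ m)) ∈ Gd) :
          Finset (Fin K → ι)) : Set (Fin K → ι)) := by
    ext ω; simp
  rw [e1, Set.ncard_coe_finset, Set.ncard_eq_toFinset_card']
  have key : ∀ κ : Fin D → Fin K, (Finset.univ.filter
        (fun ω : Fin K → ι => Function.Injective κ ∧ (fun m => ω (κ m)) ∈ Gd)).card ≤
        Gd.toFinset.card * (Fintype.card ι) ^ (K - D) := by
    intro κ
    by_cases hκ : Function.Injective κ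
    · have hc : Fintype.card {j : Fin K // j ∉ Set.range κ} = K - D := by
        rw [Fintype.card_subtype_compl, Fintype.card_fin]
        congr 1
        exact (Set.card_range_of_injective hκ).trans (Fintype.card_fin D)
      have hle : (Finset.univ.filter
        (fun ω : Fin K → ι => Function.Injective κ ∧ (fun m => ω (κ m)) ∈ Gd)).card ≤
          (Gd.toFinset ×ˢ (Finset.univ : Finset ({j : Fin K // j ∉ Set.range κ} → ι))).card := by
        refine Finset.card_le_card_of_injOn
          (fun ω => ((fun m => ω (κ m)), fun j : {j : Fin K // j ∉ Set.range κ} => ω j)) ?_ ?_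
        · intro ω hω
          have hω' : ω ∈ Finset.univ.filter
            (fun ω : Fin K → ι => Function.Injective κ ∧ (fun m => ω (κ m)) ∈ Gd) := hω
          rw [Finset.mem_filter] at hω'
          rw [Finset.mem_coe, Finset.mem_product]
          exact ⟨Set.mem_toFinset.2 hω'.2.2, Finset.mem_univ _⟩
        · intro ω _ ω' _ he
          simp only [Prod.mk.injEq] at he
          funext j
          by_cases hj : j ∈ Set.range κ
          · obtain ⟨m, rfl⟩ := hj
            exact congrFun he.1 m
          · exact congrFun he.2 ⟨j, hj⟩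
      rw [Finset.card_product, Finset.card_univ, Fintype.card_fun, hc] at hle
      exact hle
    · have : (Finset.univ.filter
        (fun ω : Fin K → ι => Function.Injective κ ∧ (fun m => ω (κ m)) ∈ Gd)) = ∅ := by
        rw [Finset.filter_eq_empty_iff]
        intro ω _ h
        exact hκ h.1
      rw [this]; simp
  calc _ ≤ ∑ κ : Fin D → Fin K, (Finset.univ.filter
        (fun ω : Fin K → ι => Function.Injective κ ∧ (fun m => ω (κ m)) ∈ Gd)).card :=
        Finset.card_biUnion_le
    _ ≤ ∑ _κ : Fin D → Fin K, Gd.toFinset.card * (Fintype.card ι) ^ (K - D) :=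
        Finset.sum_le_sum fun κ _ => key κ
    _ = K ^ D * Gd.toFinset.card * (Fintype.card ι) ^ (K - D) := by
        rw [Finset.sum_const, Finset.card_univ, Fintype.card_fun, smul_eq_mul]
        simp [mul_assoc]

end Pool.Agent.H889
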