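import Mathlib

set_option autoImplicit false
open Set

namespace Pool.Agent.H889

variable {V : Type} [NormedAddCommGroup V] [NormedSpace ℝ V]

/-- `x` is the only common zero of the affine functions `g m`. -/
def UZ {k : ℕ} (g : Fin k → (V →ᵃ[ℝ] ℝ)) (x : V) : Prop :=
  ∀ y, (∀ m, g m y = 0) ↔ y = x

/-- The polyhedron of the constraints `0 ≤ c i`, `i ∈ S`. -/
def Pol {ι : Type} (c : ι → (V →ᵃ[ℝ] ℝ)) (S : Finset ι) : Set V := {x | ∀ i ∈ S, 0 ≤ c i x}

/-- The closed simplex with the vertices `t`. -/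
def Cv {m : ℕ} (t : Fin m → V) : Set V := convexHull ℝ (range t)

/-- `T` is a partition of `P` into closed simplices of dimension `m - 1`, given by their vertices. -/
structure IsTri {m : ℕ} (P : Set V) (T : Finset (Fin m → V)) : Prop where
  indep : ∀ t ∈ T, AffineIndependent ℝ t
  union : (⋃ t ∈ T, Cv t) = P
  disj : ∀ t ∈ T, ∀ t' ∈ T, t ≠ t' → Disjoint (interior (Cv t)) (interior (Cv t'))

end Pool.Agent.H889
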