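import Pool.Agent.Helper889_Cut.Cell

/-! Graph simplices and the intrinsic interior. -/

set_option autoImplicit false
open Set

namespace Pool.Agent.H889

variable {V : Type} [NormedAddCommGroup V] [NormedSpace ℝ V]

/-- closed simplices by weights -/
theorem graph_simplex_mem_Cv {E : Type*} [AddCommGroup E] [Module ℝ E] {m : ℕ} (t : Fin m → E)
    (x : E) : x ∈ convexHull ℝ (range t) ↔
      ∃ w : Fin m → ℝ, (∀ k, 0 ≤ w k) ∧ ∑ k, w k = 1 ∧ x = ∑ k, w k • t k := by
  constructor
  · intro hx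
    have h1 : convexHull ℝ (range t) ⊆
        {x | ∃ w : Fin m → ℝ, (∀ k, 0 ≤ w k) ∧ ∑ k, w k = 1 ∧ x = ∑ k, w k • t k} := by
      apply convexHull_min
      · rintro _ ⟨k, rfl⟩
        refine ⟨fun j => if j = k then 1 else 0, fun j => ?_, by simp, by simp⟩
        show (0 : ℝ) ≤ if j = k then 1 else 0
        split_ifs <;> norm_num
      · rintro x ⟨w, hw0, hw1, rfl⟩ y ⟨v, hv0, hv1, rfl⟩ a b ha hb hab
        refine ⟨fun k => a * w k + b * v k, fun k => ?_, ?_, ?_⟩
        · have := hw0 k; have := hv0 k; positivity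
        · rw [Finset.sum_add_distrib, ← Finset.mul_sum, ← Finset.mul_sum, hw1, hv1]
          linarith
        · rw [Finset.smul_sum, Finset.smul_sum, ← Finset.sum_add_distrib]
          refine Finset.sum_congr rfl fun k _ => ?_
          rw [add_smul, mul_smul, mul_smul]
    exact h1 hx
  · rintro ⟨w, hw0, hw1, rfl⟩
    exact (convex_convexHull ℝ (range t)).sum_mem (fun k _ => hw0 k) hw1
      (fun k _ => subset_convexHull ℝ _ ⟨k, rfl⟩)

/-- affine functions of a weighted sum -/
theorem graph_simplex_aff {E : Type*} [AddCommGroup E] [Module ℝ E] {ι : Type*} [Fintype ι]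
    (f : E →ᵃ[ℝ] ℝ) (w : ι → ℝ) (hw : ∑ k, w k = 1) (t : ι → E) :
    f (∑ k, w k • t k) = ∑ k, w k * f (t k) := by
  have h : ∀ x, f x = f.linear x + f 0 := by
    intro x
    have := f.map_vadd 0 x
    simpa using this
  rw [h, map_sum]
  simp only [map_smul, smul_eq_mul]
  have h2 : ∑ k, w k * f (t k) = ∑ k, w k * f.linear (t k) + (∑ k, w k) * f 0 := by
    rw [Finset.sum_mul, ← Finset.sum_add_distrib]
    refine Finset.sum_congr rfl fun k _ => ?_
    rw [h (t k)]; ring
  rw [h2, hw, one_mul]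

/-! TARGET `graph_simplex`. The `D + 1` points `(y k).1` of the `D`-dimensional space `V` form an affine basis; `ψ k` are the
barycentric coordinates and `ℓ x = ∑ k, ψ k x * (y k).2`. Each `ψ k` is not constant as `D ≥ 1`. The other statements are the
descriptions of the closed and open simplex by barycentric coordinates (`AffineBasis.convexHull_eq_nonneg_coord`,
`AffineBasis.interior_convexHull`). -/

theorem graph_simplex [FiniteDimensional ℝ V] (D : ℕ) (hD : 1 ≤ D)
    (hV : Module.finrank ℝ V = D) (y : Fin (D + 1) → V × ℝ)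
    (hy : AffineIndependent ℝ (fun k => (y k).1)) :
    ∃ (ψ : Fin (D + 1) → (V →ᵃ[ℝ] ℝ)) (ℓ : V →ᵃ[ℝ] ℝ),
      (∀ k, (ψ k).linear ≠ 0) ∧
      (Cv y = {q | (∀ k, 0 ≤ ψ k q.1) ∧ q.2 = ℓ q.1}) ∧
      (Op y = {q | (∀ k, 0 < ψ k q.1) ∧ q.2 = ℓ q.1}) ∧
      (∀ x, (∀ k, 0 ≤ ψ k x) ↔ x ∈ Cv (fun k => (y k).1)) ∧
      (∀ x, (∀ k, 0 < ψ k x) ↔ x ∈ interior (Cv (fun k => (y k).1))) := by
  classical
  have hspan : affineSpan ℝ (range (fun k => (y k).1)) = ⊤ := by
    rw [hy.affineSpan_eq_top_iff_card_eq_finrank_add_one, hV, Fintype.card_fin]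
  let b : AffineBasis (Fin (D + 1)) ℝ V := ⟨fun k => (y k).1, hy, hspan⟩
  have hb : ∀ k, b k = (y k).1 := fun _ => rfl
  let ℓ : V →ᵃ[ℝ] ℝ := ∑ k, (y k).2 • b.coord k
  have hℓ : ∀ x, ℓ x = ∑ k, (y k).2 * b.coord k x := by
    intro x
    have h1 : ∀ s : Finset (Fin (D + 1)), (∑ k ∈ s, (y k).2 • b.coord k : V →ᵃ[ℝ] ℝ) x =
        ∑ k ∈ s, (y k).2 * b.coord k x := by
      intro s
      induction s using Finset.induction_on with
      | empty => simp
      | insert a s ha ih =>
        rw [Finset.sum_insert ha, Finset.sum_insert ha, ← ih]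
        rfl
    exact h1 Finset.univ
  have hco : ∀ (w : Fin (D + 1) → ℝ), ∑ k, w k = 1 → ∀ j,
      b.coord j (∑ k, w k • (y k).1) = w j := by
    intro w hw j
    rw [graph_simplex_aff _ w hw]
    simp only [← hb, b.coord_apply]
    simp
  have hfst : ∀ w : Fin (D + 1) → ℝ, (∑ k, w k • y k).1 = ∑ k, w k • (y k).1 := by
    intro w
    rw [Prod.fst_sum]; rfl
  have hsnd : ∀ w : Fin (D + 1) → ℝ, (∑ k, w k • y k).2 = ∑ k, w k * (y k).2 := by
    intro w
    rw [Prod.snd_sum]; rfl
  have hwt : ∀ w : Fin (D + 1) → ℝ, ∑ k, w k = 1 →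
      (∑ k, w k • y k).2 = ℓ (∑ k, w k • y k).1 := by
    intro w hw
    rw [hℓ, hfst, hsnd]
    refine Finset.sum_congr rfl fun k _ => ?_
    rw [hco w hw k]; ring
  have hback : ∀ q : V × ℝ, q.2 = ℓ q.1 → q = ∑ k, (b.coord k q.1) • y k := by
    intro q hq
    apply Prod.ext
    · rw [hfst]
      exact (b.linear_combination_coord_eq_self q.1).symm
    · rw [hsnd, hq, hℓ]
      exact Finset.sum_congr rfl fun k _ => mul_comm _ _
  refine ⟨fun k => b.coord k, ℓ, ?_, ?_, ?_, ?_, ?_⟩
  · intro k h0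
    obtain ⟨j, hj⟩ : ∃ j : Fin (D + 1), j ≠ k := by
      have : Nontrivial (Fin (D + 1)) := Fin.nontrivial_iff_two_le.mpr (by omega)
      exact exists_ne k
    have h1 := (b.coord k).linearMap_vsub (b k) (b j)
    rw [h0, b.coord_apply_eq, b.coord_apply_ne hj.symm] at h1
    simp at h1
  · ext q
    rw [Cv, graph_simplex_mem_Cv]
    constructor
    · rintro ⟨w, hw0, hw1, rfl⟩
      refine ⟨fun k => ?_, hwt w hw1⟩
      rw [hfst, hco w hw1]
      exact hw0 k
    · rintro ⟨h1, h2⟩
      exact ⟨fun k => b.coord k q.1, h1, b.sum_coord_apply_eq_one q.1, hback q h2⟩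
  · ext q
    constructor
    · rintro ⟨w, hw0, hw1, rfl⟩
      refine ⟨fun k => ?_, hwt w hw1⟩
      rw [hfst, hco w hw1]
      exact hw0 k
    · rintro ⟨h1, h2⟩
      exact ⟨fun k => b.coord k q.1, h1, b.sum_coord_apply_eq_one q.1, hback q h2⟩
  · intro x
    have := b.convexHull_eq_nonneg_coord
    have h2 : Cv (fun k => (y k).1) = {x | ∀ i, 0 ≤ b.coord i x} := this
    rw [h2]; rfl
  · intro x
    have := b.interior_convexHull
    have h2 : interior (Cv (fun k => (y k).1)) = {x | ∀ i, 0 < b.coord i x} := this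
    rw [h2]; rfl

/-! TARGET `Op_subset`: the points with positive barycentric coordinates are in the intrinsic interior. (Proof: the
intrinsic interior is the interior in the affine span; the weights are continuous affine functions on the affine span of the
affinely independent points; a point with all weights positive has a neighbourhood in the affine span with the same property,
contained in the convex hull. One may transport along an affine equivalence of `affineSpan` with a space where the points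
form an affine basis and use `AffineBasis.interior_convexHull`.) -/

theorem Op_subset [FiniteDimensional ℝ V] {m : ℕ} (t : Fin m → V) (ht : AffineIndependent ℝ t) :
    Op t ⊆ intrinsicInterior ℝ (Cv t) := by
  classical
  rintro x ⟨w, hw0, hw1, rfl⟩
  obtain ⟨T, hsub, hind, hspan⟩ :=
    exists_subset_affineIndependent_affineSpan_eq_top (k := ℝ) (s := range t) ht.range
  have hfin : Finite T := finite_set_of_fin_dim_affineIndependent ℝ hind
  let b : AffineBasis T ℝ V := ⟨((↑) : T → V), hind, by rw [Subtype.range_coe]; exact hspan⟩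
  have : Fintype T := Fintype.ofFinite T
  have hTk : ∀ k, t k ∈ T := fun k => hsub ⟨k, rfl⟩
  let τ : Fin m → T := fun k => ⟨t k, hTk k⟩
  have hτ : Function.Injective τ := by
    intro j k hjk
    exact ht.injective (congrArg Subtype.val hjk)
  have hbτ : ∀ k, b (τ k) = t k := fun _ => rfl
  have hco : ∀ (v : Fin m → ℝ), ∑ k, v k = 1 → ∀ j,
      b.coord (τ j) (∑ k, v k • t k) = v j := by
    intro v hv j
    rw [graph_simplex_aff _ v hv]
    simp only [← hbτ, b.coord_apply, hτ.eq_iff]
    simp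
  have hA : ((affineSpan ℝ (Cv t) : AffineSubspace ℝ V) : Set V) = affineSpan ℝ (range t) := by
    unfold Cv
    rw [affineSpan_convexHull]
  have hrep : ∀ z ∈ affineSpan ℝ (Cv t), ∃ v : Fin m → ℝ, ∑ k, v k = 1 ∧ z = ∑ k, v k • t k := by
    intro z hz
    have hz' : z ∈ affineSpan ℝ (range t) := by
      rw [← SetLike.mem_coe, ← hA]; exact hz
    obtain ⟨v, hv1, hv2⟩ := eq_affineCombination_of_mem_affineSpan_of_fintype hz'
    refine ⟨v, hv1, ?_⟩
    rw [hv2, Finset.affineCombination_eq_linear_combination _ _ _ hv1]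
  have hxC : ∑ k, w k • t k ∈ Cv t := by
    rw [Cv, graph_simplex_mem_Cv]
    exact ⟨w, fun k => (hw0 k).le, hw1, rfl⟩
  rw [mem_intrinsicInterior]
  refine ⟨⟨∑ k, w k • t k, subset_affineSpan ℝ _ hxC⟩, ?_, rfl⟩
  rw [mem_interior]
  refine ⟨{z | ∀ k, 0 < b.coord (τ k) (z : V)}, ?_, ?_, ?_⟩
  · intro z hz
    obtain ⟨v, hv1, hv2⟩ := hrep z z.2
    show (z : V) ∈ convexHull ℝ (range t)
    rw [graph_simplex_mem_Cv]
    refine ⟨v, fun k => ?_, hv1, hv2⟩
    have h1 : 0 < b.coord (τ k) (z : V) := hz k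
    rw [hv2, hco v hv1] at h1
    exact h1.le
  · have h1 : {z : affineSpan ℝ (Cv t) | ∀ k, 0 < b.coord (τ k) (z : V)} =
        ⋂ k, {z : affineSpan ℝ (Cv t) | 0 < b.coord (τ k) (z : V)} := by
      ext z; simp
    rw [h1]
    apply isOpen_iInter_of_finite
    intro k
    exact isOpen_lt continuous_const
      ((continuous_barycentric_coord b (τ k)).comp continuous_subtype_val)
  · intro k
    show 0 < b.coord (τ k) (∑ k, w k • t k)
    rw [hco w hw1]
    exact hw0 k

end Pool.Agent.H889
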