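import Pool.Agent.Helper889_Cut.Defs

/-! A good direction of projection. -/

set_option autoImplicit false
open Set

namespace Pool.Agent.H889

variable {V : Type} [NormedAddCommGroup V] [NormedSpace ℝ V]

/-! TARGET `good_projection`. Proof. For each `i` the hyperplane directions `vectorSpan ℝ (range (p i))` are proper subspaces
(dimension `D < D + 1`), so their finite union is not the whole space (`Subspace.biUnion_ne_univ_of_top_nmem` or a similar
Mathlib lemma for infinite fields; or: a finite union of proper subspaces is nowhere dense). Choose `u` outside, `u ≠ 0`. Choose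
a linear equivalence `Φ` of `EuclideanSpace ℝ (Fin (D+1))` with `EuclideanSpace ℝ (Fin D) × ℝ` such that the kernel of
`x ↦ (Φ x).1` is the line of `u` (extend `u` to a basis, or compose any linear equivalence with a linear automorphism moving
`u` to `(0, 1)`). The map `x ↦ (Φ x).1` is injective on `vectorSpan ℝ (range (p i))`, since `u` is not in it, so it preserves the
affine independence of `p i` (for `n = 0` any `Φ` works). -/

theorem good_projection (D : ℕ) (hD : 1 ≤ D) {n : ℕ}
    (p : Fin n → Fin (D + 1) → EuclideanSpace ℝ (Fin (D + 1)))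
    (hp : ∀ i, AffineIndependent ℝ (p i)) :
    ∃ Φ : EuclideanSpace ℝ (Fin (D + 1)) ≃L[ℝ] (EuclideanSpace ℝ (Fin D) × ℝ),
      ∀ i, AffineIndependent ℝ (fun k => (Φ (p i k)).1) := by
  classical
  have hfr : Module.finrank ℝ (EuclideanSpace ℝ (Fin (D + 1))) = D + 1 := by simp
  -- a vector outside all the hyperplane directions
  let s : Finset (Subspace ℝ (EuclideanSpace ℝ (Fin (D + 1)))) :=
    insert ⊥ (Finset.univ.image fun i => vectorSpan ℝ (range (p i)))
  have hs : (⊤ : Subspace ℝ (EuclideanSpace ℝ (Fin (D + 1)))) ∉ s := by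
    intro h
    rw [Finset.mem_insert] at h
    rcases h with h | h
    · have h1 : Module.finrank ℝ (⊤ : Subspace ℝ (EuclideanSpace ℝ (Fin (D + 1)))) = D + 1 := by
        rw [finrank_top, hfr]
      rw [h, finrank_bot] at h1
      omega
    · obtain ⟨i, -, hi⟩ := Finset.mem_image.1 h
      have h1 := (hp i).finrank_vectorSpan (n := D) (by simp)
      rw [hi, finrank_top, hfr] at h1
      omega
  obtain ⟨u, hu⟩ : ∃ u, u ∉ ⋃ W ∈ s, (W : Set (EuclideanSpace ℝ (Fin (D + 1)))) := by
    by_contra hcon
    push Not at hcon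
    exact Subspace.biUnion_ne_univ_of_top_notMem hs (eq_univ_of_forall hcon)
  simp only [mem_iUnion, not_exists] at hu
  have hu0 : u ≠ 0 := by
    rintro rfl
    exact hu ⊥ (Finset.mem_insert_self _ _) (zero_mem _)
  have hui : ∀ i, u ∉ vectorSpan ℝ (range (p i)) := fun i =>
    hu _ (Finset.mem_insert_of_mem (Finset.mem_image_of_mem _ (Finset.mem_univ i)))
  obtain ⟨q, hq⟩ := Submodule.exists_isCompl (Submodule.span ℝ {u})
  have hq' := hq.symm
  have h1 : Module.finrank ℝ (Submodule.span ℝ {u}) = 1 := finrank_span_singleton hu0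
  have h2 : Module.finrank ℝ q = D := by
    have := Submodule.finrank_add_eq_of_isCompl hq
    rw [h1, hfr] at this
    omega
  let e1 : q ≃ₗ[ℝ] EuclideanSpace ℝ (Fin D) := LinearEquiv.ofFinrankEq _ _ (by rw [h2]; simp)
  let e2 : Submodule.span ℝ {u} ≃ₗ[ℝ] ℝ := (LinearEquiv.toSpanNonzeroSingleton ℝ _ u hu0).symm
  let e : EuclideanSpace ℝ (Fin (D + 1)) ≃ₗ[ℝ] (EuclideanSpace ℝ (Fin D) × ℝ) :=
    (Submodule.prodEquivOfIsCompl q _ hq').symm.trans (e1.prodCongr e2)
  refine ⟨e.toContinuousLinearEquiv, fun i => ?_⟩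
  let L : EuclideanSpace ℝ (Fin (D + 1)) →ₗ[ℝ] EuclideanSpace ℝ (Fin D) :=
    (LinearMap.fst ℝ _ _).comp e.toLinearMap
  have hker : ∀ x, L x = 0 → x ∈ Submodule.span ℝ {u} := by
    intro x hx
    have h3 : e1 ((Submodule.prodEquivOfIsCompl q _ hq').symm x).1 = 0 := hx
    have h4 : ((Submodule.prodEquivOfIsCompl q _ hq').symm x).1 = 0 := by
      apply e1.injective
      rw [h3, map_zero]
    exact (Submodule.prodEquivOfIsCompl_symm_apply_fst_eq_zero q _ hq').1 h4
  have hL : (fun k => (e.toContinuousLinearEquiv (p i k)).1) = fun k => L (p i k) := rfl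
  rw [hL, affineIndependent_iff_linearIndependent_vsub ℝ _ (0 : Fin (D + 1))]
  have h3 := (affineIndependent_iff_linearIndependent_vsub ℝ (p i) (0 : Fin (D + 1))).1 (hp i)
  have h4 : Disjoint (Submodule.span ℝ
      (range (fun k : {x : Fin (D + 1) // x ≠ 0} => (p i k -ᵥ p i 0 :
        EuclideanSpace ℝ (Fin (D + 1)))))) (LinearMap.ker L) := by
    rw [Submodule.disjoint_def]
    intro x hx hx'
    have h5 : x ∈ vectorSpan ℝ (range (p i)) := by
      refine Submodule.span_le.2 ?_ hx
      rintro _ ⟨k, rfl⟩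
      exact vsub_mem_vectorSpan ℝ (mem_range_self _) (mem_range_self _)
    obtain ⟨c, rfl⟩ := Submodule.mem_span_singleton.1 (hker x (LinearMap.mem_ker.1 hx'))
    by_cases hc : c = 0
    · rw [hc, zero_smul]
    · exfalso
      apply hui i
      have := Submodule.smul_mem _ c⁻¹ h5
      rwa [smul_smul, inv_mul_cancel₀ hc, one_smul] at this
  have h5 := h3.map h4
  convert h5 using 1
  funext k
  simp only [Function.comp, vsub_eq_sub, map_sub]

end Pool.Agent.H889
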