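import Pool.Agent.Helper889_Cut.Cell

/-! The numerics of the recursion. -/

set_option autoImplicit false
open Set

namespace Pool.Agent.H889

variable {V : Type} [NormedAddCommGroup V] [NormedSpace ℝ V]

/-! TARGET `numeric_step`. Pure inequalities.
Proof. `A = 10 Np + 1`, `B = 2 (5 Cs + Cs A) / δ`. Let `z = √(h/t) > 1`. Children `b` with `hh a b ≤ t` contribute `1` each, at most
`5 z^3` for each `a`. Let `hh a b > t`, `y' = hh a b / t`, `z' = √y' > 1`; as `hh a b ≤ h / s^2` we have `z' ≤ z / s`.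
`z' ^ (2D-1) = y' z'^(2D-3) ≤ y' (z/s)^(2D-3)`; the sum over `b` is `≤ (z/s)^2 (z/s)^(2D-3) = (z/s)^(2D-1)`. Also
`0 ≤ 1 - 1/(2z') ≤ 1 - s/(2z)`. So the total is at most
`T.card * (5 z^3 + A (z/s)^(2D-1)) + B (v/t^D) max 0 (1 - s/(2z))`, and `z^3 ≤ z^(2D-1)`.
Case `v < δ h^D`: `T.card ≤ Np`, `Np (z/s)^(2D-1) ≤ z^(2D-1) / 2`, `5 Np ≤ A / 2`, and `max 0 (1 - s/(2z)) ≤ 1 - 1/(2z)`.
Case `v ≥ δ h^D = δ t^D z^(2D)`: `T.card ≤ Cs`, `(1 - 1/(2z)) - max 0 (1 - s/(2z)) ≥ 1/(2z)`, so the `B`-terms leave at least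
`B δ z^(2D-1) / 2 ≥ (5 Cs + Cs A) z^(2D-1)`. -/

theorem numeric_step_term (k : ℕ) {A B t s z x w : ℝ} (hA : 0 ≤ A) (hB : 0 ≤ B) (ht : 0 < t)
    (hs : 0 < s) (hz : 0 < z) (hx0 : 0 ≤ x) (hx : x ≤ t * (z / s) ^ 2) (hw : 0 ≤ w) :
    Phi (k + 2) A B t x w ≤ 1 + A * ((x / t) * (z / s) ^ (2 * k + 1)) +
      B * (w / t ^ (k + 2)) * max 0 (1 - s / (2 * z)) := by
  have hm : 0 ≤ max 0 (1 - s / (2 * z)) := le_max_left _ _
  unfold Phi
  split_ifs with h
  · have h1 : 0 ≤ A * ((x / t) * (z / s) ^ (2 * k + 1)) := by positivity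
    have h2 : 0 ≤ B * (w / t ^ (k + 2)) * max 0 (1 - s / (2 * z)) := by positivity
    linarith
  · push Not at h
    have hxt : 0 < x / t := div_pos (ht.trans h) ht
    set y := Real.sqrt (x / t) with hy
    have hy2 : y ^ 2 = x / t := Real.sq_sqrt hxt.le
    have hy0 : 0 < y := Real.sqrt_pos.2 hxt
    have hyz : y ≤ z / s := by
      apply Real.sqrt_le_iff.2
      refine ⟨by positivity, ?_⟩
      rw [div_le_iff₀ ht]
      linarith
    rw [show 2 * (k + 2) - 1 = 2 + (2 * k + 1) by omega, pow_add, hy2]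
    have h1 : A * (x / t * y ^ (2 * k + 1)) ≤ A * (x / t * (z / s) ^ (2 * k + 1)) :=
      mul_le_mul_of_nonneg_left (mul_le_mul_of_nonneg_left
        (pow_le_pow_left₀ hy0.le hyz _) hxt.le) hA
    have h2 : s / (2 * z) ≤ 1 / (2 * y) := by
      rw [div_le_div_iff₀ (by positivity) (by positivity)]
      rw [le_div_iff₀ hs] at hyz
      linarith
    have h3 : 1 - 1 / (2 * y) ≤ max 0 (1 - s / (2 * z)) :=
      le_trans (by linarith) (le_max_right _ _)
    have h4 : B * (w / t ^ (k + 2)) * (1 - 1 / (2 * y))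
        ≤ B * (w / t ^ (k + 2)) * max 0 (1 - s / (2 * z)) :=
      mul_le_mul_of_nonneg_left h3 (by positivity)
    linarith

theorem numeric_step (D : ℕ) (hD : 2 ≤ D) (s Cs Np δ : ℝ) (hs : 4 ≤ s) (hCs : 0 ≤ Cs) (hNp : 0 ≤ Np)
    (h2 : 2 * Np ≤ s ^ (2 * D - 1)) (hδ : 0 < δ) :
    ∃ A B : ℝ, 1 ≤ A ∧ 0 ≤ B ∧ ∀ t : ℝ, 0 < t → ∀ h v : ℝ, t < h → 0 ≤ v →
      ∀ (α β : Type) (T : Finset α) (L : α → Finset β) (hh vv : α → β → ℝ),
      (∀ a ∈ T, ∀ b ∈ L a, 0 ≤ hh a b ∧ 0 ≤ vv a b) →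
      (∀ a ∈ T, ((L a).card : ℝ) ≤ 5 * (Real.sqrt (h / t)) ^ 3) →
      (∀ a ∈ T, ∑ b ∈ L a, hh a b ≤ h / s ^ 2) →
      (∑ a ∈ T, ∑ b ∈ L a, vv a b ≤ v) →
      (T.card : ℝ) ≤ Cs → (v < δ * h ^ D → (T.card : ℝ) ≤ Np) →
      ∑ a ∈ T, ∑ b ∈ L a, Phi D A B t (hh a b) (vv a b) ≤ Phi D A B t h v := by
  obtain ⟨k, rfl⟩ : ∃ k, D = k + 2 := ⟨D - 2, by omega⟩
  set A : ℝ := 10 * Np + 1 with hA
  have hA1 : 1 ≤ A := by linarith
  have hA0 : 0 ≤ A := by linarith
  set B : ℝ := 2 * (5 * Cs + Cs * A) / δ with hB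
  have hB0 : 0 ≤ B := by positivity
  refine ⟨A, B, hA1, hB0, ?_⟩
  intro t ht h v hth hv α β T L hh vv hnn hcard hsum hvs hT1 hT2
  have hs0 : 0 < s := by linarith
  have hht : 1 < h / t := by rw [lt_div_iff₀ ht]; linarith
  set z := Real.sqrt (h / t) with hz
  have hz2 : z ^ 2 = h / t := Real.sq_sqrt (by linarith)
  have hz1 : 1 < z := by
    rw [hz, Real.lt_sqrt (by norm_num)]; linarith
  have hz0 : 0 < z := by linarith
  have hhz : h = t * z ^ 2 := by rw [hz2]; field_simp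
  set M : ℝ := max 0 (1 - s / (2 * z)) with hM
  have hM0 : 0 ≤ M := le_max_left _ _
  have hodd : 2 * (k + 2) - 1 = 2 * k + 3 := by omega
  rw [hodd] at h2
  -- one `a`
  have hone : ∀ a ∈ T, ∑ b ∈ L a, Phi (k + 2) A B t (hh a b) (vv a b)
      ≤ (5 * z ^ 3 + A * (z / s) ^ (2 * k + 3)) + B * ((∑ b ∈ L a, vv a b) / t ^ (k + 2)) * M := by
    intro a ha
    have hle : ∀ b ∈ L a, hh a b ≤ t * (z / s) ^ 2 := by
      intro b hb
      have h1 : hh a b ≤ ∑ b ∈ L a, hh a b :=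
        Finset.single_le_sum (f := fun b => hh a b) (fun b hb => (hnn a ha b hb).1) hb
      have h3 : h / s ^ 2 = t * (z / s) ^ 2 := by rw [hhz, div_pow]; ring
      linarith [hsum a ha]
    calc ∑ b ∈ L a, Phi (k + 2) A B t (hh a b) (vv a b)
        ≤ ∑ b ∈ L a, (1 + A * ((hh a b / t) * (z / s) ^ (2 * k + 1)) +
            B * (vv a b / t ^ (k + 2)) * M) :=
          Finset.sum_le_sum fun b hb => numeric_step_term k hA0 hB0 ht hs0 hz0 (hnn a ha b hb).1
            (hle b hb) (hnn a ha b hb).2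
      _ = (L a).card + A * (((∑ b ∈ L a, hh a b) / t) * (z / s) ^ (2 * k + 1))
            + B * ((∑ b ∈ L a, vv a b) / t ^ (k + 2)) * M := by
          rw [Finset.sum_add_distrib, Finset.sum_add_distrib, Finset.sum_const, nsmul_eq_mul,
            mul_one, ← Finset.mul_sum, ← Finset.sum_mul, ← Finset.sum_div, ← Finset.sum_mul,
            ← Finset.mul_sum, ← Finset.sum_div]
      _ ≤ _ := by
          have h1 := hcard a ha
          have h3 : (∑ b ∈ L a, hh a b) / t ≤ (z / s) ^ 2 := by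
            rw [div_le_iff₀ ht]
            have h4 : h / s ^ 2 = (z / s) ^ 2 * t := by rw [hhz, div_pow]; ring
            linarith [hsum a ha]
          have h4 : A * (((∑ b ∈ L a, hh a b) / t) * (z / s) ^ (2 * k + 1))
              ≤ A * (z / s) ^ (2 * k + 3) := by
            apply mul_le_mul_of_nonneg_left _ hA0
            have h5 : (z / s) ^ (2 * k + 3) = (z / s) ^ 2 * (z / s) ^ (2 * k + 1) := by
              rw [← pow_add]; congr 1; ring
            rw [h5]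
            exact mul_le_mul_of_nonneg_right h3 (by positivity)
          linarith
  have htot : ∑ a ∈ T, ∑ b ∈ L a, Phi (k + 2) A B t (hh a b) (vv a b)
      ≤ T.card * (5 * z ^ 3 + A * (z / s) ^ (2 * k + 3)) + B * (v / t ^ (k + 2)) * M := by
    calc _ ≤ ∑ a ∈ T, ((5 * z ^ 3 + A * (z / s) ^ (2 * k + 3))
            + B * ((∑ b ∈ L a, vv a b) / t ^ (k + 2)) * M) := Finset.sum_le_sum hone
      _ = T.card * (5 * z ^ 3 + A * (z / s) ^ (2 * k + 3))
            + B * ((∑ a ∈ T, ∑ b ∈ L a, vv a b) / t ^ (k + 2)) * M := by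
          rw [Finset.sum_add_distrib, Finset.sum_const, nsmul_eq_mul, ← Finset.sum_mul,
            ← Finset.mul_sum, ← Finset.sum_div]
      _ ≤ _ := by
          have h1 : (∑ a ∈ T, ∑ b ∈ L a, vv a b) / t ^ (k + 2) ≤ v / t ^ (k + 2) :=
            div_le_div_of_nonneg_right hvs (by positivity)
          have h3 : B * ((∑ a ∈ T, ∑ b ∈ L a, vv a b) / t ^ (k + 2)) * M
              ≤ B * (v / t ^ (k + 2)) * M :=
            mul_le_mul_of_nonneg_right (mul_le_mul_of_nonneg_left h1 hB0) hM0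
          linarith
  have hPhi : Phi (k + 2) A B t h v = A * z ^ (2 * k + 3)
      + B * (v / t ^ (k + 2)) * (1 - 1 / (2 * z)) := by
    unfold Phi
    rw [if_neg (not_le.2 hth), hodd]
  rw [hPhi]
  refine htot.trans ?_
  have hz3 : z ^ 3 ≤ z ^ (2 * k + 3) := pow_le_pow_right₀ hz1.le (by omega)
  have hzs : (z / s) ^ (2 * k + 3) = z ^ (2 * k + 3) / s ^ (2 * k + 3) := div_pow _ _ _
  have hZ : 0 < z ^ (2 * k + 3) := by positivity
  have hS : 0 < s ^ (2 * k + 3) := by positivity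
  have hinv : 1 / (2 * z) ≤ 1 / 2 := by
    rw [div_le_div_iff₀ (by positivity) (by norm_num)]; linarith
  have hvt : 0 ≤ B * (v / t ^ (k + 2)) := by positivity
  by_cases hcase : v < δ * h ^ (k + 2)
  · have hc := hT2 hcase
    have hcn : (0 : ℝ) ≤ T.card := Nat.cast_nonneg _
    have hMle : M ≤ 1 - 1 / (2 * z) := by
      apply max_le
      · linarith
      · have : 1 / (2 * z) ≤ s / (2 * z) := div_le_div_of_nonneg_right (by linarith) (by positivity)
        linarith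
    have e1 : (T.card : ℝ) * (5 * z ^ 3 + A * (z / s) ^ (2 * k + 3))
        ≤ Np * (5 * z ^ (2 * k + 3) + A * (z ^ (2 * k + 3) / s ^ (2 * k + 3))) := by
      rw [hzs]
      apply mul_le_mul hc _ (by positivity) hNp
      linarith
    have e2 : Np * (A * (z ^ (2 * k + 3) / s ^ (2 * k + 3))) ≤ A * z ^ (2 * k + 3) / 2 := by
      have : Np * (A * (z ^ (2 * k + 3) / s ^ (2 * k + 3)))
          = (A * z ^ (2 * k + 3)) * (Np / s ^ (2 * k + 3)) := by ring
      rw [this]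
      have h5 : Np / s ^ (2 * k + 3) ≤ 1 / 2 := by
        rw [div_le_div_iff₀ hS (by norm_num)]; linarith
      have := mul_le_mul_of_nonneg_left h5 (show 0 ≤ A * z ^ (2 * k + 3) by positivity)
      linarith
    have e3 : Np * (5 * z ^ (2 * k + 3)) ≤ A * z ^ (2 * k + 3) / 2 := by
      have : 10 * Np ≤ A := by linarith
      nlinarith
    have e4 := mul_le_mul_of_nonneg_left hMle hvt
    rw [mul_add] at e1
    linarith
  · push Not at hcase
    have hcn : (0 : ℝ) ≤ T.card := Nat.cast_nonneg _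
    have hdiff : M + 1 / (2 * z) ≤ 1 - 1 / (2 * z) := by
      have h6 : 1 / (2 * z) + 1 / (2 * z) ≤ 1 := by linarith
      rcases le_total (1 - s / (2 * z)) 0 with h7 | h7
      · rw [hM, max_eq_left h7]; linarith
      · rw [hM, max_eq_right h7]
        have h8 : s / (2 * z) = s * (1 / (2 * z)) := by ring
        have h9 : 0 < 1 / (2 * z) := by positivity
        rw [h8]
        nlinarith
    have e1 : (T.card : ℝ) * (5 * z ^ 3 + A * (z / s) ^ (2 * k + 3))
        ≤ Cs * (5 * z ^ (2 * k + 3) + A * z ^ (2 * k + 3)) := by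
      have h10 : (z / s) ^ (2 * k + 3) ≤ z ^ (2 * k + 3) := by
        apply pow_le_pow_left₀ (by positivity)
        exact div_le_self hz0.le (by linarith)
      apply mul_le_mul hT1 _ (by positivity) hCs
      have := mul_le_mul_of_nonneg_left h10 hA0
      linarith
    have e2 : δ * z ^ (2 * k + 4) ≤ v / t ^ (k + 2) := by
      rw [le_div_iff₀ (by positivity)]
      have h11 : h ^ (k + 2) = z ^ (2 * k + 4) * t ^ (k + 2) := by
        rw [hhz, mul_pow, ← pow_mul]; ring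
      rw [h11] at hcase
      linarith
    have e3 : B * (v / t ^ (k + 2)) * (1 / (2 * z))
        ≥ Cs * (5 * z ^ (2 * k + 3) + A * z ^ (2 * k + 3)) := by
      have h12 : B * (δ * z ^ (2 * k + 4)) * (1 / (2 * z))
          = Cs * (5 * z ^ (2 * k + 3) + A * z ^ (2 * k + 3)) := by
        rw [hB, show 2 * k + 4 = (2 * k + 3) + 1 by ring, pow_succ]
        field_simp
      rw [← h12]
      exact mul_le_mul_of_nonneg_right (mul_le_mul_of_nonneg_left e2 hB0) (by positivity)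
    have e4 := mul_le_mul_of_nonneg_left hdiff hvt
    have e5 : 0 ≤ A * z ^ (2 * k + 3) := by positivity
    rw [mul_add] at e4
    linarith

/-! TARGET `budget_step`: `q = ⌊t / (4z)⌋ + 1` with `z = √(h/t) > 1`. First: `q > t/(4z)`, so `m / q + 1 ≤ h/q + 1 ≤ 4 z^3 + 1 ≤ 5 z^3`.
Second and third: `q - 1 ≤ t/(4z)`; `h' ≤ h / s^2` and `t < h'` give `√(h'/t) ≤ z / s`, so
`(t/2)(2 - 1/√(h'/t)) + t/(4z) ≤ (t/2)(2 - (s - 1/2)/z) ≤ (t/2)(2 - 1/z)`. -/

theorem budget_step (s : ℝ) (hs : 4 ≤ s) (t h : ℝ) (ht : 0 < t) (hh : t < h) :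
    ∃ q : ℕ, 1 ≤ q ∧ (∀ m : ℕ, (m : ℝ) ≤ h → ((m / q + 1 : ℕ) : ℝ) ≤ 5 * (Real.sqrt (h / t)) ^ 3) ∧
      ((q : ℝ) - 1 ≤ (t / 2) * (2 - 1 / Real.sqrt (h / t))) ∧
      (∀ h' : ℝ, t < h' → h' ≤ h / s ^ 2 →
        (t / 2) * (2 - 1 / Real.sqrt (h' / t)) + ((q : ℝ) - 1) ≤
          (t / 2) * (2 - 1 / Real.sqrt (h / t))) := by
  have hs0 : 0 < s := by linarith
  have hht : 1 < h / t := by rw [lt_div_iff₀ ht]; linarith
  set z := Real.sqrt (h / t) with hz
  have hz2 : z ^ 2 = h / t := Real.sq_sqrt (by linarith)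
  have hz1 : 1 < z := by
    rw [hz, Real.lt_sqrt (by norm_num)]; linarith
  have hz0 : 0 < z := by linarith
  have hhz : h = t * z ^ 2 := by rw [hz2]; field_simp
  have htz : 0 ≤ t / (4 * z) := by positivity
  have hfl := Nat.floor_le htz
  have hlt := Nat.lt_floor_add_one (t / (4 * z))
  refine ⟨⌊t / (4 * z)⌋₊ + 1, by omega, ?_, ?_, ?_⟩
  · intro m hm
    set q : ℕ := ⌊t / (4 * z)⌋₊ + 1 with hq
    have hqr : t / (4 * z) < (q : ℝ) := by rw [hq]; push_cast; exact hlt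
    have hq0 : (0 : ℝ) < q := lt_of_le_of_lt htz hqr
    have h1 : ((m / q : ℕ) : ℝ) ≤ (m : ℝ) / q := Nat.cast_div_le
    have h3 : (m : ℝ) / q ≤ 4 * z ^ 3 := by
      rw [div_le_iff₀ hq0]
      have h4 : t ≤ q * (4 * z) := by
        rw [div_lt_iff₀ (by positivity)] at hqr
        exact hqr.le
      calc (m : ℝ) ≤ t * z ^ 2 := by rw [← hhz]; exact hm
        _ ≤ (q * (4 * z)) * z ^ 2 := mul_le_mul_of_nonneg_right h4 (by positivity)
        _ = 4 * z ^ 3 * q := by ring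
    have h5 : 1 ≤ z ^ 3 := one_le_pow₀ hz1.le
    push_cast
    push_cast at h1
    linarith
  · push_cast
    have h1 : t / (4 * z) ≤ t / 4 := by
      rw [div_le_div_iff₀ (by positivity) (by norm_num)]
      nlinarith
    have h3 : 1 / z ≤ 1 := by rw [div_le_one hz0]; exact hz1.le
    nlinarith
  · intro h' h1 h3
    push_cast
    have hpos : 0 < h' / t := div_pos (ht.trans h1) ht
    set y := Real.sqrt (h' / t) with hy
    have hy0 : 0 < y := Real.sqrt_pos.2 hpos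
    have hyz : y ≤ z / s := by
      apply Real.sqrt_le_iff.2
      refine ⟨by positivity, ?_⟩
      rw [div_le_iff₀ ht]
      have h4 : h / s ^ 2 = (z / s) ^ 2 * t := by rw [hhz, div_pow]; ring
      linarith
    have h5 : s / z ≤ 1 / y := by
      rw [div_le_div_iff₀ hz0 hy0]
      rw [le_div_iff₀ hs0] at hyz
      linarith
    have h6 : t / (4 * z) = (t / 2) * ((1 / 2) * (1 / z)) := by field_simp; norm_num
    have h7 : s / z = s * (1 / z) := by ring
    have h8 : 0 < 1 / z := by positivity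
    have hfl' := hfl.trans h6.le
    rw [h7] at h5
    have h9 : (2 - 1 / y) + (1 / 2) * (1 / z) ≤ 2 - 1 / z := by nlinarith
    have h10 := mul_le_mul_of_nonneg_left h9 (show 0 ≤ t / 2 by positivity)
    rw [mul_add] at h10
    linarith

end Pool.Agent.H889
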