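import Pool.Agent.Helper889_Cut.Step
import Pool.Agent.Helper889_Cut.Numeric

/-! The recursion. -/

set_option autoImplicit false
open Set

namespace Pool.Agent.H889

variable {V : Type} [NormedAddCommGroup V] [NormedSpace ℝ V]

/-- open bodies are in open bodies -/
theorem recursion_obody [FiniteDimensional ℝ V] {m : ℕ} {w' w : Fin m → V} {a' b' a b : V →ᵃ[ℝ] ℝ}
    (h : Body w' a' b' ⊆ Body w a b) : OBody w' a' b' ⊆ OBody w a b := by
  rintro ⟨x, y⟩ ⟨hx, h1, h2⟩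
  have ca : Continuous a' := a'.continuous_of_finiteDimensional
  have cb : Continuous b' := b'.continuous_of_finiteDimensional
  have hx' : x ∈ Cv w' := interior_subset hx
  refine ⟨?_, ?_, ?_⟩
  · rw [mem_interior]
    refine ⟨interior (Cv w') ∩ ({z | a' z < y} ∩ {z | y < b' z}), ?_, ?_, hx, h1, h2⟩
    · rintro z ⟨hz, hz1, hz2⟩
      exact (h (show (z, y) ∈ Body w' a' b' from
        ⟨interior_subset hz, le_of_lt hz1, le_of_lt hz2⟩)).1
    · exact isOpen_interior.inter ((isOpen_lt ca continuous_const).inter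
        (isOpen_lt continuous_const cb))
  · have := (h (show (x, (a' x + y) / 2) ∈ Body w' a' b' from
      ⟨hx', by show a' x ≤ (a' x + y) / 2; simp only at h1; linarith,
        by show (a' x + y) / 2 ≤ b' x; simp only at h1 h2; linarith⟩)).2.1
    simp only at this h1 ⊢
    linarith
  · have := (h (show (x, (y + b' x) / 2) ∈ Body w' a' b' from
      ⟨hx', by show a' x ≤ (y + b' x) / 2; simp only at h1 h2; linarith,
        by show (y + b' x) / 2 ≤ b' x; simp only at h2; linarith⟩)).2.2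
    simp only at this h2 ⊢
    linarith

theorem recursion_meets [FiniteDimensional ℝ V] {D : ℕ} {ψ : Fin (D + 1) → (V →ᵃ[ℝ] ℝ)}
    {ℓ : V →ᵃ[ℝ] ℝ} {w' w : Fin (D + 1) → V} {a' b' a b : V →ᵃ[ℝ] ℝ}
    (h : Body w' a' b' ⊆ Body w a b) (hm : MeetsC ψ ℓ w' a' b') : MeetsC ψ ℓ w a b := by
  obtain ⟨x, hx, hr, h1, h2⟩ := hm
  obtain ⟨h3, h4, h5⟩ := recursion_obody h (show (x, ℓ x) ∈ OBody w' a' b' from ⟨hx, h1, h2⟩)
  exact ⟨x, h3, hr, h4, h5⟩

theorem recursion_card_le {D : ℕ} {ι : Type} [Fintype ι] {ψ : ι → Fin (D + 1) → (V →ᵃ[ℝ] ℝ)}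
    {ℓ : ι → (V →ᵃ[ℝ] ℝ)} {w : Fin (D + 1) → V} {a b : V →ᵃ[ℝ] ℝ} {I : Finset ι}
    (hI : InSh ψ ℓ w a b I) : I.card ≤ (HH ψ w I).ncard := by
  classical
  have h1 : (I : Set ι) ⊆ Prod.fst '' (HH ψ w I) := by
    intro i hi
    obtain ⟨k, x, hx, h0⟩ := hI.2 i hi
    exact ⟨(i, k), ⟨hi, x, hx, h0⟩, rfl⟩
  rw [← Set.ncard_coe_finset]
  exact (Set.ncard_le_ncard h1 (Set.toFinite _)).trans (Set.ncard_image_le (Set.toFinite _))

theorem recursion_HH_mono {D : ℕ} {ι : Type} [Fintype ι] {ψ : ι → Fin (D + 1) → (V →ᵃ[ℝ] ℝ)}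
    {w : Fin (D + 1) → V} {I J : Finset ι} (h : J ⊆ I) :
    (HH ψ w J).ncard ≤ (HH ψ w I).ncard := by
  classical
  apply Set.ncard_le_ncard _ (Set.toFinite _)
  rintro x ⟨h1, h2⟩
  exact ⟨h h1, h2⟩

theorem recursion_HH_cross {D : ℕ} {ι : Type} [Fintype ι] (ψ : ι → Fin (D + 1) → (V →ᵃ[ℝ] ℝ))
    {w τ : Fin (D + 1) → V} (I : Finset ι) (h : Cv τ ⊆ Cv w) :
    (HH ψ τ I).ncard ≤ (Cross (fun x : HH ψ w I => ψ x.1.1 x.1.2) τ).ncard := by
  classical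
  have h1 : HH ψ τ I ⊆ Subtype.val '' (Cross (fun x : HH ψ w I => ψ x.1.1 x.1.2) τ) := by
    rintro x ⟨h1, y, hy, h2⟩
    exact ⟨⟨x, h1, y, interior_mono h hy, h2⟩, ⟨y, hy, h2⟩, rfl⟩
  exact (Set.ncard_le_ncard h1 (Set.toFinite _)).trans (Set.ncard_image_le (Set.toFinite _))

theorem recursion_vert {D : ℕ} {ι : Type} [Fintype ι] (ψ : ι → Fin (D + 1) → (V →ᵃ[ℝ] ℝ))
    (w : Fin (D + 1) → V) (I : Finset ι) :
    (Vert D (fun x : HH ψ w I => ψ x.1.1 x.1.2) w).ncard ≤ (VV ψ w I).ncard := by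
  classical
  let g : (Fin D → HH ψ w I) → (Fin D → ι × Fin (D + 1)) := fun κ m => (κ m).1
  have hg : Function.Injective g := by
    intro κ κ' h
    funext m
    exact Subtype.ext (congrFun h m)
  rw [← Set.ncard_image_of_injective _ hg]
  apply Set.ncard_le_ncard _ (Set.toFinite _)
  rintro _ ⟨κ, ⟨x, hx, hz⟩, rfl⟩
  exact ⟨fun m => (κ m).2, x, hx, hz⟩

theorem recursion_VV_le {D : ℕ} {ι : Type} [Fintype ι] (ψ : ι → Fin (D + 1) → (V →ᵃ[ℝ] ℝ))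
    (w : Fin (D + 1) → V) (I : Finset ι) : (VV ψ w I).ncard ≤ (HH ψ w I).ncard ^ D := by
  classical
  let g : (Fin D → HH ψ w I) → (Fin D → ι × Fin (D + 1)) := fun κ m => (κ m).1
  have h1 : VV ψ w I ⊆ g '' Set.univ := by
    rintro κ ⟨h1, h2⟩
    exact ⟨fun m => ⟨κ m, h1 m⟩, trivial, rfl⟩
  refine (Set.ncard_le_ncard h1 (Set.toFinite _)).trans
    ((Set.ncard_image_le (Set.toFinite _)).trans ?_)
  rw [Set.ncard_univ, Nat.card_fun, Nat.card_fin, Nat.card_coe_set_eq]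

/-- the budget -/
noncomputable def recursion_Q (t h : ℝ) : ℝ :=
  if h ≤ t then 0 else (t / 2) * (2 - 1 / Real.sqrt (h / t))

theorem recursion_Q_le {t h : ℝ} (ht : 0 < t) : recursion_Q t h ≤ t := by
  unfold recursion_Q
  split_ifs
  · exact ht.le
  · have : 0 ≤ 1 / Real.sqrt (h / t) := by positivity
    nlinarith

theorem recursion_Phi_le {D : ℕ} {A B t h v : ℝ} (hA : 0 ≤ A) (hB : 0 ≤ B) (ht : 0 < t)
    (hh : 0 ≤ h) (hv : v ≤ h ^ D) (hD : 1 ≤ D) :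
    Phi D A B t h v ≤ 1 + (A + B) * (h / t) ^ D := by
  unfold Phi
  split_ifs with hc
  · have : 0 ≤ (A + B) * (h / t) ^ D := by positivity
    linarith
  · push Not at hc
    have hz1 : 1 ≤ h / t := by rw [le_div_iff₀ ht]; linarith
    have hz : 1 ≤ Real.sqrt (h / t) := by
      rw [Real.le_sqrt' one_pos]; simpa using hz1
    have h1 : (Real.sqrt (h / t)) ^ (2 * D - 1) ≤ (h / t) ^ D := by
      calc (Real.sqrt (h / t)) ^ (2 * D - 1) ≤ (Real.sqrt (h / t)) ^ (2 * D) :=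
            pow_le_pow_right₀ hz (by omega)
        _ = (h / t) ^ D := by rw [pow_mul, Real.sq_sqrt (by positivity)]
    have h2 : v / t ^ D ≤ (h / t) ^ D := by
      rw [div_pow]
      exact div_le_div_of_nonneg_right hv (by positivity)
    have h3 : 1 - 1 / (2 * Real.sqrt (h / t)) ≤ 1 := by
      have : 0 ≤ 1 / (2 * Real.sqrt (h / t)) := by positivity
      linarith
    have h4 : 0 ≤ 1 - 1 / (2 * Real.sqrt (h / t)) := by
      have : 1 / (2 * Real.sqrt (h / t)) ≤ 1 := by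
        rw [div_le_one (by positivity)]; linarith
      linarith
    have h5 : B * (v / t ^ D) * (1 - 1 / (2 * Real.sqrt (h / t))) ≤ B * (h / t) ^ D := by
      calc B * (v / t ^ D) * (1 - 1 / (2 * Real.sqrt (h / t)))
          ≤ B * (h / t) ^ D * (1 - 1 / (2 * Real.sqrt (h / t))) :=
            mul_le_mul_of_nonneg_right (mul_le_mul_of_nonneg_left h2 hB) h4
        _ ≤ B * (h / t) ^ D * 1 := mul_le_mul_of_nonneg_left h3 (by positivity)
        _ = _ := by ring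
    have h6 : A * (Real.sqrt (h / t)) ^ (2 * D - 1) ≤ A * (h / t) ^ D :=
      mul_le_mul_of_nonneg_left h1 hA
    nlinarith

theorem recursion_main (D : ℕ) (hD : 2 ≤ D) (s Cs Np δ : ℝ) (hs : 4 ≤ s)
    (A B : ℝ) (t : ℝ) (ht : 0 < t)
    (hnum : ∀ h v : ℝ, t < h → 0 ≤ v →
      ∀ (α β : Type) (T : Finset α) (L : α → Finset β) (hh vv : α → β → ℝ),
      (∀ a ∈ T, ∀ b ∈ L a, 0 ≤ hh a b ∧ 0 ≤ vv a b) →
      (∀ a ∈ T, ((L a).card : ℝ) ≤ 5 * (Real.sqrt (h / t)) ^ 3) →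
      (∀ a ∈ T, ∑ b ∈ L a, hh a b ≤ h / s ^ 2) →
      (∑ a ∈ T, ∑ b ∈ L a, vv a b ≤ v) →
      (T.card : ℝ) ≤ Cs → (v < δ * h ^ D → (T.card : ℝ) ≤ Np) →
      ∑ a ∈ T, ∑ b ∈ L a, Phi D A B t (hh a b) (vv a b) ≤ Phi D A B t h v)
    (V : Type) [NormedAddCommGroup V] [NormedSpace ℝ V] [FiniteDimensional ℝ V]
    (hV : Module.finrank ℝ V = D) (hW : WCut V D s Cs Np δ)
    (ι : Type) [Fintype ι] (ψ : ι → Fin (D + 1) → (V →ᵃ[ℝ] ℝ)) (ℓ : ι → (V →ᵃ[ℝ] ℝ))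
    (hψ : ∀ i k, (ψ i k).linear ≠ 0)
    (hnc : ∀ i j, i ≠ j → ∀ x, x ∈ Reg (ψ i) → x ∈ Reg (ψ j) → ℓ i x ≠ ℓ j x) (N : ℕ) :
    ∀ (w : Fin (D + 1) → V) (a b : V →ᵃ[ℝ] ℝ), GoodC w a b →
      ∀ I : Finset ι, InSh ψ ℓ w a b I → (HH ψ w I).ncard = N →
      ∃ C : Finset ((Fin (D + 1) → V) × (V →ᵃ[ℝ] ℝ) × (V →ᵃ[ℝ] ℝ)),
        (∀ c ∈ C, GoodC c.1 c.2.1 c.2.2) ∧
        (⋃ c ∈ C, Body c.1 c.2.1 c.2.2) = Body w a b ∧
        (∀ c ∈ C, ∀ c' ∈ C, c ≠ c' →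
          Disjoint (OBody c.1 c.2.1 c.2.2) (OBody c'.1 c'.2.1 c'.2.2)) ∧
        (∀ c ∈ C, (({i | i ∈ I ∧ MeetsC (ψ i) (ℓ i) c.1 c.2.1 c.2.2}.ncard : ℕ) : ℝ) ≤
          t + recursion_Q t N) ∧
        (C.card : ℝ) ≤ Phi D A B t N ((VV ψ w I).ncard : ℝ) := by
  classical
  induction N using Nat.strong_induction_on with
  | _ N ih =>
  intro w a b hg I hI hN
  have hIN : I.card ≤ N := by rw [← hN]; exact recursion_card_le hI
  by_cases hNt : (N : ℝ) ≤ t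
  · refine ⟨{(w, a, b)}, ?_, ?_, ?_, ?_, ?_⟩
    · intro c hc
      rw [Finset.mem_singleton] at hc
      subst hc
      exact hg
    · simp
    · intro c hc c' hc' hne
      rw [Finset.mem_singleton] at hc hc'
      exact absurd (hc.trans hc'.symm) hne
    · intro c _
      have h1 : {i | i ∈ I ∧ MeetsC (ψ i) (ℓ i) c.1 c.2.1 c.2.2}.ncard ≤ I.card := by
        rw [← Set.ncard_coe_finset]
        exact Set.ncard_le_ncard (fun i hi => hi.1) (Set.toFinite _)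
      have h2 : (({i | i ∈ I ∧ MeetsC (ψ i) (ℓ i) c.1 c.2.1 c.2.2}.ncard : ℕ) : ℝ) ≤ N := by
        exact_mod_cast h1.trans hIN
      unfold recursion_Q
      rw [if_pos hNt]
      linarith
    · unfold Phi
      rw [if_pos hNt]
      simp
  · push Not at hNt
    have hNpos : (0 : ℝ) < N := ht.trans hNt
    have hcard : Fintype.card (HH ψ w I) = N := by
      rw [← hN, ← Nat.card_eq_fintype_card]; rfl
    obtain ⟨T, hT, hT1, hT2, hT3⟩ := hW (HH ψ w I) (fun x => ψ x.1.1 x.1.2) w hg.1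
      (fun x => hψ _ _) (by rw [hcard]; exact_mod_cast hNpos)
    rw [hcard] at hT1 hT3
    obtain ⟨q, hq1, hq2, hq3, hq4⟩ := budget_step s hs t N ht hNt
    obtain ⟨Λ, J, c1, c2, c3, c4, c5, c6, c7, c8⟩ := cell_step D (by omega) hV ψ ℓ hnc w a b hg I hI
      T hT q hq1
    have hTsub : ∀ τ ∈ T, Cv τ ⊆ Cv w := by
      intro τ hτ
      rw [← hT.union]
      exact Set.subset_biUnion_of_mem (u := fun t => Cv t) hτ
    have hs2 : (N : ℝ) / s ^ 2 < N := by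
      rw [div_lt_iff₀ (by positivity)]
      have : (1 : ℝ) < s ^ 2 := by nlinarith
      nlinarith
    have hHτ : ∀ τ ∈ T, ((HH ψ τ I).ncard : ℝ) ≤ N / s ^ 2 := by
      intro τ hτ
      refine le_trans ?_ (hT1 τ hτ)
      exact_mod_cast recursion_HH_cross ψ I (hTsub τ hτ)
    have hsmall : ∀ τ ∈ T, ∀ p ∈ Λ τ, ((HH ψ τ (J τ p)).ncard : ℝ) ≤ N / s ^ 2 := by
      intro τ hτ p hp
      refine le_trans ?_ (hHτ τ hτ)
      exact_mod_cast recursion_HH_mono (c5 τ hτ p hp).1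
    have key : ∀ τ ∈ T, ∀ p ∈ Λ τ,
        ∃ C : Finset ((Fin (D + 1) → V) × (V →ᵃ[ℝ] ℝ) × (V →ᵃ[ℝ] ℝ)),
        (∀ c ∈ C, GoodC c.1 c.2.1 c.2.2) ∧
        (⋃ c ∈ C, Body c.1 c.2.1 c.2.2) = Body τ p.1 p.2 ∧
        (∀ c ∈ C, ∀ c' ∈ C, c ≠ c' →
          Disjoint (OBody c.1 c.2.1 c.2.2) (OBody c'.1 c'.2.1 c'.2.2)) ∧
        (∀ c ∈ C, (({i | i ∈ J τ p ∧ MeetsC (ψ i) (ℓ i) c.1 c.2.1 c.2.2}.ncard : ℕ) : ℝ) ≤
          t + recursion_Q t ((HH ψ τ (J τ p)).ncard : ℝ)) ∧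
        (C.card : ℝ) ≤ Phi D A B t ((HH ψ τ (J τ p)).ncard : ℝ) ((VV ψ τ (J τ p)).ncard : ℝ) := by
      intro τ hτ p hp
      have hlt : (HH ψ τ (J τ p)).ncard < N := by
        exact_mod_cast (hsmall τ hτ p hp).trans_lt hs2
      exact ih _ hlt τ p.1 p.2 (c2 τ hτ p hp) (J τ p) (c5 τ hτ p hp).2 rfl
    choose! C hC1 hC2 hC3 hC4 hC5 using key
    have hsub : ∀ τ ∈ T, ∀ p ∈ Λ τ, ∀ c ∈ C τ p,
        Body c.1 c.2.1 c.2.2 ⊆ Body τ p.1 p.2 := by
      intro τ hτ p hp c hc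
      rw [← hC2 τ hτ p hp]
      exact Set.subset_biUnion_of_mem (u := fun c => Body c.1 c.2.1 c.2.2) hc
    refine ⟨T.biUnion (fun τ => (Λ τ).biUnion (fun p => C τ p)), ?_, ?_, ?_, ?_, ?_⟩
    · intro c hc
      simp only [Finset.mem_biUnion] at hc
      obtain ⟨τ, hτ, p, hp, hc⟩ := hc
      exact hC1 τ hτ p hp c hc
    · rw [← c3]
      ext z
      simp only [Finset.mem_biUnion, Set.mem_iUnion, exists_prop]
      constructor
      · rintro ⟨c, ⟨τ, hτ, p, hp, hc⟩, hz⟩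
        exact ⟨τ, hτ, p, hp, hsub τ hτ p hp c hc hz⟩
      · rintro ⟨τ, hτ, p, hp, hz⟩
        rw [← hC2 τ hτ p hp] at hz
        simp only [Set.mem_iUnion, exists_prop] at hz
        obtain ⟨c, hc, hz⟩ := hz
        exact ⟨c, ⟨τ, hτ, p, hp, hc⟩, hz⟩
    · intro c hc c' hc' hne
      simp only [Finset.mem_biUnion] at hc hc'
      obtain ⟨τ, hτ, p, hp, hc⟩ := hc
      obtain ⟨τ', hτ', p', hp', hc'⟩ := hc'
      by_cases he : (τ, p) = (τ', p')
      · obtain ⟨rfl, rfl⟩ := Prod.mk.inj he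
        exact hC3 τ hτ p hp c hc c' hc' hne
      · exact (c4 τ hτ p hp τ' hτ' p' hp' he).mono
          (recursion_obody (hsub τ hτ p hp c hc)) (recursion_obody (hsub τ' hτ' p' hp' c' hc'))
    · intro c hc
      simp only [Finset.mem_biUnion] at hc
      obtain ⟨τ, hτ, p, hp, hc⟩ := hc
      have h1 : {i | i ∈ I ∧ MeetsC (ψ i) (ℓ i) c.1 c.2.1 c.2.2} ⊆
          {i | i ∈ J τ p ∧ MeetsC (ψ i) (ℓ i) c.1 c.2.1 c.2.2} ∪
          {i | i ∈ I ∧ i ∉ J τ p ∧ MeetsC (ψ i) (ℓ i) τ p.1 p.2} := by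
        rintro i ⟨hi, hm⟩
        by_cases hiJ : i ∈ J τ p
        · exact Or.inl ⟨hiJ, hm⟩
        · exact Or.inr ⟨hi, hiJ, recursion_meets (hsub τ hτ p hp c hc) hm⟩
      have h2 := (Set.ncard_le_ncard h1 (Set.toFinite _)).trans (Set.ncard_union_le _ _)
      have h3 := c6 τ hτ p hp
      have h4 := hC4 τ hτ p hp c hc
      have h5 : (({i | i ∈ I ∧ i ∉ J τ p ∧ MeetsC (ψ i) (ℓ i) τ p.1 p.2}.ncard : ℕ) : ℝ) ≤
          (q : ℝ) - 1 := by
        have : {i | i ∈ I ∧ i ∉ J τ p ∧ MeetsC (ψ i) (ℓ i) τ p.1 p.2}.ncard + 1 ≤ q := h3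
        have h6 : (({i | i ∈ I ∧ i ∉ J τ p ∧ MeetsC (ψ i) (ℓ i) τ p.1 p.2}.ncard : ℕ) : ℝ) + 1 ≤
            q := by exact_mod_cast this
        linarith
      have h6 : (({i | i ∈ I ∧ MeetsC (ψ i) (ℓ i) c.1 c.2.1 c.2.2}.ncard : ℕ) : ℝ) ≤
          (({i | i ∈ J τ p ∧ MeetsC (ψ i) (ℓ i) c.1 c.2.1 c.2.2}.ncard : ℕ) : ℝ) +
          (({i | i ∈ I ∧ i ∉ J τ p ∧ MeetsC (ψ i) (ℓ i) τ p.1 p.2}.ncard : ℕ) : ℝ) := by
        exact_mod_cast h2
      have h7 : recursion_Q t ((HH ψ τ (J τ p)).ncard : ℝ) + ((q : ℝ) - 1) ≤ recursion_Q t N := by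
        by_cases h8 : ((HH ψ τ (J τ p)).ncard : ℝ) ≤ t
        · unfold recursion_Q
          rw [if_pos h8, if_neg (not_le.2 hNt)]
          linarith
        · unfold recursion_Q
          rw [if_neg h8, if_neg (not_le.2 hNt)]
          exact hq4 _ (not_le.1 h8) (hsmall τ hτ p hp)
      linarith
    · have h1 : ((T.biUnion (fun τ => (Λ τ).biUnion (fun p => C τ p))).card : ℝ) ≤
          ∑ τ ∈ T, ∑ p ∈ Λ τ, ((C τ p).card : ℝ) := by
        have h2 : (T.biUnion (fun τ => (Λ τ).biUnion (fun p => C τ p))).card ≤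
            ∑ τ ∈ T, ∑ p ∈ Λ τ, (C τ p).card :=
          Finset.card_biUnion_le.trans (Finset.sum_le_sum fun τ _ => Finset.card_biUnion_le)
        exact_mod_cast h2
      have h2 : ∑ τ ∈ T, ∑ p ∈ Λ τ, ((C τ p).card : ℝ) ≤
          ∑ τ ∈ T, ∑ p ∈ Λ τ,
            Phi D A B t ((HH ψ τ (J τ p)).ncard : ℝ) ((VV ψ τ (J τ p)).ncard : ℝ) :=
        Finset.sum_le_sum fun τ hτ => Finset.sum_le_sum fun p hp => hC5 τ hτ p hp
      have h3 := hnum N ((VV ψ w I).ncard : ℝ) hNt (Nat.cast_nonneg _)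
        (Fin (D + 1) → V) ((V →ᵃ[ℝ] ℝ) × (V →ᵃ[ℝ] ℝ)) T Λ
        (fun τ p => ((HH ψ τ (J τ p)).ncard : ℝ)) (fun τ p => ((VV ψ τ (J τ p)).ncard : ℝ))
        (fun _ _ _ _ => ⟨Nat.cast_nonneg _, Nat.cast_nonneg _⟩)
        (by
          intro τ hτ
          refine le_trans ?_ (hq2 I.card (by exact_mod_cast hIN))
          exact_mod_cast c1 τ hτ)
        (by
          intro τ hτ
          refine le_trans ?_ (hHτ τ hτ)
          exact_mod_cast c7 τ hτ)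
        (by exact_mod_cast c8)
        hT2
        (by
          intro hlt
          apply hT3
          refine lt_of_le_of_lt ?_ hlt
          exact_mod_cast recursion_vert ψ w I)
      exact h1.trans (h2.trans h3)

/-! TARGET `recursion`.
Proof. `A₀, B₀` from `numeric_step`; `A = A₀ + B₀`. Show by strong induction on `N = (HH ψ w I).ncard` (`h = N` as a real, `v =
(VV ψ w I).ncard`), for all `w a b I`, the stronger statement: there is a finite set `C` of triples `(w', a', b')` with: all good, union of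
bodies `= Body w a b`, pairwise disjoint open bodies, each meets (in the sense of `MeetsC`) at most `t + Q h` members of `I`, where
`Q h = 0` if `h ≤ t` and `Q h = (t/2)(2 - 1/√(h/t)) ≤ t` otherwise, and `C.card ≤ Phi D A₀ B₀ t h v`.
If `h ≤ t`: `C = {(w, a, b)}`; `I.card ≤ N` since every `i ∈ I` has some `(i, k) ∈ HH ψ w I` (the map `Prod.fst` from `HH ψ w I` to `I` is onto).
If `h > t` (so `N > 0`): apply `WCut` to the index type `HH ψ w I` (a finite subtype) and `f x = ψ x.1.1 x.1.2`: `T`. For `τ ∈ T`,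
`interior (Cv τ) ⊆ interior (Cv w)`, so `(HH ψ τ I).ncard = (Cross f τ).ncard ≤ h / s^2` (for `x ∈ HH ψ τ I` also `x ∈ HH ψ w I`), and
`(Vert D f w).ncard = v` (or just `≤`). Take `q` from `budget_step`, apply `cell_step`. For `τ ∈ T`, `p ∈ Λ τ` the new
`h' = (HH ψ τ (J τ p)).ncard ≤ h / s^2 < h`, so the induction hypothesis gives `C τ p`; `C = ⋃ C τ p` (use `Finset.biUnion`, classical
decidability). Union of bodies clear. Disjointness: inside one `(τ, p)` by induction, for different ones because open bodies of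
members of `C τ p` are inside the interior of `Body τ p.1 p.2`, i.e. in `OBody τ p.1 p.2` (the open body is an open set contained in
`Body w' a' b' ⊆ Body τ p.1 p.2`; an open subset of `Body τ p.1 p.2` is contained in `OBody τ p.1 p.2`: the first projection is open, and
one can move up and down). A member `i ∈ I` meeting `c ∈ C τ p` is in `J τ p` (at most `t + Q h'` of these), or it meets the cell
`(τ, p)` itself (its open body contains that of `c`) and is not in `J τ p` (at most `q - 1` of these): total `≤ t + Q h' + (q - 1) ≤ t + Q h`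
by `budget_step`. Number: `∑ Phi(h', v') ≤ Phi(h, v)` by `numeric_step` with `α = Fin (D+1) → V`, `β = pairs`, using
`(Λ τ).card ≤ I.card / q + 1` and `I.card ≤ N`.
Finally `v ≤ h ^ D` (tuples with values in `HH ψ w I`), so `Phi ≤ 1 + (A₀ + B₀) (h/t)^D` (for `h > t`: `z = √(h/t) ≥ 1`,
`z^(2D-1) ≤ z^(2D) = (h/t)^D`, `v/t^D ≤ (h/t)^D`). -/

theorem recursion (D : ℕ) (hD : 2 ≤ D) (s Cs Np δ : ℝ) (hs : 4 ≤ s) (hCs : 0 ≤ Cs) (hNp : 0 ≤ Np)
    (h2 : 2 * Np ≤ s ^ (2 * D - 1)) (hδ : 0 < δ) :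
    ∃ A : ℝ, 0 ≤ A ∧ ∀ (V : Type) [NormedAddCommGroup V] [NormedSpace ℝ V]
      [FiniteDimensional ℝ V], Module.finrank ℝ V = D → WCut V D s Cs Np δ →
      ∀ (ι : Type) [Fintype ι] (ψ : ι → Fin (D + 1) → (V →ᵃ[ℝ] ℝ)) (ℓ : ι → (V →ᵃ[ℝ] ℝ)),
      (∀ i k, (ψ i k).linear ≠ 0) →
      (∀ i j, i ≠ j → ∀ x, x ∈ Reg (ψ i) → x ∈ Reg (ψ j) → ℓ i x ≠ ℓ j x) →
      ∀ t : ℝ, 0 < t → ∀ (w : Fin (D + 1) → V) (a b : V →ᵃ[ℝ] ℝ), GoodC w a b →
      ∀ I : Finset ι, InSh ψ ℓ w a b I →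
      ∃ C : Finset ((Fin (D + 1) → V) × (V →ᵃ[ℝ] ℝ) × (V →ᵃ[ℝ] ℝ)),
        (∀ c ∈ C, GoodC c.1 c.2.1 c.2.2) ∧
        (⋃ c ∈ C, Body c.1 c.2.1 c.2.2) = Body w a b ∧
        (∀ c ∈ C, ∀ c' ∈ C, c ≠ c' →
          Disjoint (OBody c.1 c.2.1 c.2.2) (OBody c'.1 c'.2.1 c'.2.2)) ∧
        (∀ c ∈ C, (({i | i ∈ I ∧ MeetsC (ψ i) (ℓ i) c.1 c.2.1 c.2.2}.ncard : ℕ) : ℝ) ≤ 2 * t) ∧
        (C.card : ℝ) ≤ 1 + A * (((HH ψ w I).ncard : ℝ) / t) ^ D := by
  obtain ⟨A, B, hA, hB, hnum⟩ := numeric_step D hD s Cs Np δ hs hCs hNp h2 hδ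
  refine ⟨A + B, by linarith, ?_⟩
  intro V _ _ _ hV hW ι _ ψ ℓ hψ hnc t ht w a b hg I hI
  obtain ⟨C, h1, h2, h3, h4, h5⟩ := recursion_main D hD s Cs Np δ hs A B t ht
    (fun h v hth hv => hnum t ht h v hth hv) V hV hW ι ψ ℓ hψ hnc _ w a b hg I hI rfl
  refine ⟨C, h1, h2, h3, ?_, ?_⟩
  · intro c hc
    have h6 := h4 c hc
    have h7 := recursion_Q_le (t := t) (h := ((HH ψ w I).ncard : ℝ)) ht
    linarith
  · refine h5.trans (recursion_Phi_le (by linarith) hB ht (Nat.cast_nonneg _) ?_ (by omega))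
    exact_mod_cast recursion_VV_le ψ w I

end Pool.Agent.H889
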