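import Pool.Agent.Helper889_Cut.Cell

/-! The root cell. -/

set_option autoImplicit false
open Set

namespace Pool.Agent.H889

variable {V : Type} [NormedAddCommGroup V] [NormedSpace ℝ V]

theorem root_cell_indep {W : Type} [NormedAddCommGroup W] [NormedSpace ℝ W] {n : ℕ} (t : Fin n → W)
    (l : Fin n → (W →ᵃ[ℝ] ℝ)) (h : ∀ i j, l i (t j) = if i = j then 1 else 0) : AffineIndependent ℝ t := by
  rw [affineIndependent_iff]
  intro s w hw hs i hi
  have h1 : ∑ j ∈ s, w j * l i (t j) = 0 := by
    have h2 : ∀ j, l i (t j) = (l i).linear (t j) + l i 0 := by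
      intro j
      have := (l i).map_vadd 0 (t j)
      simpa using this
    calc ∑ j ∈ s, w j * l i (t j) = ∑ j ∈ s, (w j * (l i).linear (t j) + w j * l i 0) :=
          Finset.sum_congr rfl fun j _ => by rw [h2 j]; ring
      _ = (l i).linear (∑ j ∈ s, w j • t j) + (∑ j ∈ s, w j) * l i 0 := by
          rw [Finset.sum_add_distrib, map_sum, Finset.sum_mul]
          congr 1
          exact Finset.sum_congr rfl fun j _ => by rw [map_smul, smul_eq_mul]
      _ = 0 := by rw [hs, hw, map_zero]; ring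
  have h3 : ∑ j ∈ s, w j * l i (t j) = w i := by
    rw [Finset.sum_eq_single i]
    · rw [h i i, if_pos rfl, mul_one]
    · intro j _ hj
      rw [h i j, if_neg (Ne.symm hj), mul_zero]
    · intro hni; exact absurd hi hni
  rw [← h3, h1]

theorem root_cell_cv {W : Type} [NormedAddCommGroup W] [NormedSpace ℝ W] {n : ℕ} (t : Fin n → W)
    (l : Fin n → (W →ᵃ[ℝ] ℝ)) (h : ∀ i j, l i (t j) = if i = j then 1 else 0)
    (hsum : ∀ x, ∑ i, l i x = 1) (hx : ∀ x, ∑ i, l i x • t i = x) : Cv t = {x | ∀ i, 0 ≤ l i x} := by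
  apply Subset.antisymm
  · apply convexHull_min
    · rintro _ ⟨j, rfl⟩ i
      rw [h i j]
      split_ifs <;> norm_num
    · have : {x | ∀ i, 0 ≤ l i x} = ⋂ i, (l i) ⁻¹' (Ici 0) := by
        ext x; simp
      rw [this]
      exact convex_iInter fun i => (convex_Ici (0 : ℝ)).affine_preimage (l i)
  · intro x hxx
    rw [← hx x]
    exact (convex_convexHull ℝ (range t)).sum_mem (fun i _ => hxx i) (hsum x)
      (fun i _ => subset_convexHull ℝ _ (mem_range_self i))

theorem root_cell_pos {W : Type} [NormedAddCommGroup W] [NormedSpace ℝ W] (C : Set W) (l : W →ᵃ[ℝ] ℝ) (w0 : W)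
    (h0 : l w0 = 1) (hC : ∀ x ∈ C, 0 ≤ l x) (x : W) (hx : x ∈ interior C) : 0 < l x := by
  have hx0 : 0 ≤ l x := hC x (interior_subset hx)
  rcases hx0.lt_or_eq with h | h
  · exact h
  exfalso
  have hcont : Continuous (fun e : ℝ => AffineMap.lineMap x w0 (-e) : ℝ → W) := by
    have : (fun e : ℝ => AffineMap.lineMap x w0 (-e) : ℝ → W) = fun e : ℝ => (-e) • (w0 - x) + x := by
      funext e
      simp [AffineMap.lineMap_apply]
    rw [this]
    fun_prop
  have hmem : (fun e : ℝ => AffineMap.lineMap x w0 (-e) : ℝ → W) 0 ∈ interior C := by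
    simpa using hx
  have hev : ∀ᶠ e in nhds (0 : ℝ), (fun e : ℝ => AffineMap.lineMap x w0 (-e) : ℝ → W) e ∈ interior C :=
    hcont.continuousAt.eventually (isOpen_interior.mem_nhds hmem)
  obtain ⟨d, hd, hball⟩ := Metric.eventually_nhds_iff.mp hev
  have h1 := hball (y := d / 2) (by rw [Real.dist_eq, sub_zero, abs_of_pos (by linarith)]; linarith)
  have h2 := hC _ (interior_subset h1)
  have h3 : l (AffineMap.lineMap x w0 (-(d / 2))) = -(d / 2) := by
    rw [AffineMap.apply_lineMap, h0, ← h, AffineMap.lineMap_apply]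
    simp
  have h4 : 0 ≤ l (AffineMap.lineMap x w0 (-(d / 2))) := h2
  rw [h3] at h4
  linarith

/-! TARGET `root_cell`. Proof. Choose an affine basis `w` of `V` with `V`-projection of the closure of `B` in the interior of
the simplex (e.g. scale a simplex with `0` in its interior). Let `lam` be the barycentric coordinate of `w 0`, positive on the
interior, so `lam ≥ ε > 0` on the compact closure of the projection of `B`; `|z| ≤ R` on `B`; choose `M` with `M ε > R` and
`a = - M lam`, `b = M lam`. The body is the simplex with the `D + 2` vertices `q = ((w 0, -M), (w 0, M), (w 1, 0), ..., (w D, 0))`: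
`(x, z)` with `x = ∑ l_i w_i` and `|z| ≤ M l_0` is the convex combination with the weights `(l_0 - z/M)/2, (l_0 + z/M)/2, l_1, ..`.
(If `B` is empty any simplex works.) -/

theorem root_cell [FiniteDimensional ℝ V] (D : ℕ) (hD : 1 ≤ D)
    (hV : Module.finrank ℝ V = D) (B : Set (V × ℝ)) (hB : Bornology.IsBounded B) :
    ∃ (w : Fin (D + 1) → V) (a b : V →ᵃ[ℝ] ℝ) (q : Fin (D + 2) → V × ℝ),
      AffineIndependent ℝ w ∧ AffineIndependent ℝ q ∧ Cv q = Body w a b ∧
      (∀ x ∈ interior (Cv w), a x < b x) ∧ B ⊆ OBody w a b := by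
  obtain ⟨C, hC⟩ := hB.exists_norm_le
  let e : Module.Basis (Fin D) ℝ V := Module.finBasisOfFinrankEq ℝ V hV
  set φ : Fin D → (V →ₗ[ℝ] ℝ) := fun i => e.coord i with hφ
  have hφe : ∀ i j, φ i (e j) = if i = j then 1 else 0 := by
    intro i j
    simp only [hφ, Module.Basis.coord_apply, Module.Basis.repr_self]
    rw [Finsupp.single_apply]
    simp only [eq_comm]
  have hφx : ∀ x, ∑ i, φ i x • e i = x := fun x => by
    simp only [hφ, Module.Basis.coord_apply]
    exact e.sum_repr x
  set K : ℝ := ∑ i, ‖LinearMap.toContinuousLinearMap (φ i)‖ * |C| with hK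
  have hK0 : 0 ≤ K := Finset.sum_nonneg fun i _ => by positivity
  have hφb : ∀ x : V, ‖x‖ ≤ C → ∀ i, |φ i x| ≤ ‖LinearMap.toContinuousLinearMap (φ i)‖ * |C| := by
    intro x hx i
    have h1 := (LinearMap.toContinuousLinearMap (φ i)).le_opNorm x
    rw [Real.norm_eq_abs] at h1
    refine le_trans h1 (mul_le_mul_of_nonneg_left (le_trans hx (le_abs_self C)) (norm_nonneg _))
  have hφK : ∀ x : V, ‖x‖ ≤ C → ∀ i, |φ i x| ≤ K := fun x hx i =>
    le_trans (hφb x hx i) (Finset.single_le_sum
      (f := fun i => ‖LinearMap.toContinuousLinearMap (φ i)‖ * |C|) (fun _ _ => by positivity) (Finset.mem_univ i))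
  have hφS : ∀ x : V, ‖x‖ ≤ C → ∑ i, φ i x ≤ K := fun x hx =>
    Finset.sum_le_sum fun i _ => le_trans (le_abs_self _) (hφb x hx i)
  set s : ℝ := K + 1 with hs
  have hs0 : 0 < s := by linarith
  set c : ℝ := s * (D + 1) with hc
  have hc0 : 0 < c := by positivity
  -- the simplex
  set w0 : V := -(s • ∑ i, e i) with hw0
  set w : Fin (D + 1) → V := Fin.cons w0 (fun i => w0 + c • e i) with hw
  set li : Fin D → (V →ᵃ[ℝ] ℝ) := fun i => (c⁻¹ • φ i).toAffineMap + AffineMap.const ℝ V (c⁻¹ * s) with hli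
  set l0 : V →ᵃ[ℝ] ℝ := (-(c⁻¹ • ∑ i, φ i)).toAffineMap + AffineMap.const ℝ V (c⁻¹ * s) with hl0
  set l : Fin (D + 1) → (V →ᵃ[ℝ] ℝ) := Fin.cons l0 li with hl
  have hlix : ∀ i x, li i x = c⁻¹ * (φ i x + s) := by
    intro i x
    simp only [hli, AffineMap.coe_add, Pi.add_apply, LinearMap.coe_toAffineMap, LinearMap.smul_apply, smul_eq_mul,
      AffineMap.coe_const, Function.const_apply]
    ring
  have hl0x : ∀ x, l0 x = c⁻¹ * (s - ∑ i, φ i x) := by
    intro x
    simp only [hl0, AffineMap.coe_add, Pi.add_apply, LinearMap.coe_toAffineMap, LinearMap.neg_apply, LinearMap.smul_apply,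
      smul_eq_mul, AffineMap.coe_const, Function.const_apply, LinearMap.coe_sum, Finset.sum_apply]
    ring
  have hφw0 : ∀ i, φ i w0 = -s := by
    intro i
    simp only [hw0, map_neg, map_smul, map_sum, hφe, Finset.sum_ite_eq, Finset.mem_univ, if_true, smul_eq_mul, mul_one]
  have hφwi : ∀ i j, φ i (w0 + c • e j) = -s + c * (if i = j then 1 else 0) := by
    intro i j
    simp only [map_add, map_smul, hφw0, hφe, smul_eq_mul]
  have hlw : ∀ i j, l i (w j) = if i = j then 1 else 0 := by
    intro i j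
    refine Fin.cases ?_ (fun i => ?_) i <;> refine Fin.cases ?_ (fun j => ?_) j
    · simp only [hl, hw, Fin.cons_zero, if_true]
      rw [hl0x]
      simp only [hφw0, Finset.sum_const, Finset.card_univ, Fintype.card_fin, nsmul_eq_mul]
      rw [hc]; field_simp; ring
    · simp only [hl, hw, Fin.cons_zero, Fin.cons_succ]
      rw [if_neg (Fin.succ_ne_zero j).symm, hl0x]
      simp only [hφwi, Finset.sum_add_distrib, Finset.sum_const, Finset.card_univ, Fintype.card_fin, nsmul_eq_mul,
        ← Finset.mul_sum, Finset.sum_ite_eq', Finset.mem_univ, if_true]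
      rw [hc]; field_simp; ring
    · simp only [hl, hw, Fin.cons_zero, Fin.cons_succ]
      rw [if_neg (Fin.succ_ne_zero i), hlix, hφw0]
      ring
    · simp only [hl, hw, Fin.cons_succ, Fin.succ_inj]
      rw [hlix, hφwi]
      split_ifs
      · field_simp; ring
      · ring
  have hlsum : ∀ x, ∑ i, l i x = 1 := by
    intro x
    rw [Fin.sum_univ_succ]
    simp only [hl, Fin.cons_zero, Fin.cons_succ, hlix, hl0x]
    rw [← Finset.mul_sum, Finset.sum_add_distrib]
    simp only [Finset.sum_const, Finset.card_univ, Fintype.card_fin, nsmul_eq_mul]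
    rw [hc]; field_simp; ring
  have hlx : ∀ x, ∑ i, l i x • w i = x := by
    intro x
    have h1 := hlsum x
    rw [Fin.sum_univ_succ] at h1 ⊢
    simp only [hl, hw, Fin.cons_zero, Fin.cons_succ] at h1 ⊢
    have h2 : ∀ i, li i x • (w0 + c • e i) = li i x • w0 + (φ i x • e i + s • e i) := by
      intro i
      rw [smul_add, smul_smul, ← add_smul]
      congr 2
      rw [hlix]; field_simp
    rw [Finset.sum_congr rfl fun i _ => h2 i, Finset.sum_add_distrib, Finset.sum_add_distrib, hφx, ← Finset.smul_sum,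
      ← Finset.sum_smul, ← add_assoc, ← add_smul, h1, one_smul, hw0]
    abel
  have hCw := root_cell_cv w l hlw hlsum hlx
  -- the body
  set M : ℝ := c * (|C| + 1) with hM
  have hM0 : 0 < M := by positivity
  set q : Fin (D + 2) → V × ℝ := Fin.cons (w0, -M) (Fin.cons (w0, M) (fun i => (w0 + c • e i, 0))) with hq
  set Fs : (V × ℝ) →ᵃ[ℝ] V := (LinearMap.fst ℝ V ℝ).toAffineMap with hFs
  set Sn : (V × ℝ) →ᵃ[ℝ] ℝ := (LinearMap.snd ℝ V ℝ).toAffineMap with hSn
  set L : Fin (D + 2) → ((V × ℝ) →ᵃ[ℝ] ℝ) := Fin.cons ((2 : ℝ)⁻¹ • (l0.comp Fs - M⁻¹ • Sn))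
    (Fin.cons ((2 : ℝ)⁻¹ • (l0.comp Fs + M⁻¹ • Sn)) (fun i => (li i).comp Fs)) with hL
  have hL0 : ∀ p, L 0 p = (l0 p.1 - M⁻¹ * p.2) / 2 := by
    intro p
    simp [hL, hFs, hSn]
    ring
  have hL1 : ∀ p, L (Fin.succ 0) p = (l0 p.1 + M⁻¹ * p.2) / 2 := by
    intro p
    simp only [hL, Fin.cons_succ, Fin.cons_zero]
    simp [hFs, hSn]
    ring
  have hLi : ∀ i p, L (Fin.succ (Fin.succ i)) p = li i p.1 := by
    intro i p
    simp only [hL, Fin.cons_succ]
    simp [hFs]
  have hl0w0 : l0 w0 = 1 := by simpa [hl, hw] using hlw 0 0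
  have hl0wi : ∀ i, l0 (w0 + c • e i) = 0 := fun i => by
    simpa [hl, hw, (Fin.succ_ne_zero i).symm] using hlw 0 (Fin.succ i)
  have hliw0 : ∀ i, li i w0 = 0 := fun i => by
    simpa [hl, hw, Fin.succ_ne_zero i] using hlw (Fin.succ i) 0
  have hliwi : ∀ i j, li i (w0 + c • e j) = if i = j then 1 else 0 := fun i j => by
    simpa [hl, hw] using hlw (Fin.succ i) (Fin.succ j)
  have hLq : ∀ i j, L i (q j) = if i = j then 1 else 0 := by
    intro i j
    have hq0 : q 0 = (w0, -M) := rfl
    have hq1 : q (Fin.succ 0) = (w0, M) := rfl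
    have hqi : ∀ i, q (Fin.succ (Fin.succ i)) = (w0 + c • e i, 0) := fun i => rfl
    have hMM : M⁻¹ * M = 1 := inv_mul_cancel₀ hM0.ne'
    refine Fin.cases ?_ (fun i => ?_) i
    · refine Fin.cases ?_ (fun j => ?_) j
      · rw [hL0, hq0, hl0w0, if_pos rfl]
        simp only [mul_neg, hMM]; norm_num
      · rw [if_neg (Fin.succ_ne_zero j).symm, hL0]
        refine Fin.cases ?_ (fun j => ?_) j
        · rw [hq1, hl0w0]; simp only [hMM]; norm_num
        · rw [hqi, hl0wi]; simp
    · refine Fin.cases ?_ (fun i => ?_) i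
      · refine Fin.cases ?_ (fun j => ?_) j
        · rw [if_neg (Fin.succ_ne_zero 0), hL1, hq0, hl0w0]
          simp only [mul_neg, hMM]; norm_num
        · refine Fin.cases ?_ (fun j => ?_) j
          · rw [hL1, hq1, hl0w0, if_pos rfl]; simp only [hMM]; norm_num
          · rw [hL1, hqi, hl0wi, if_neg]
            · simp
            · intro h
              exact Fin.succ_ne_zero j (Fin.succ_injective _ h).symm
      · rw [hLi]
        refine Fin.cases ?_ (fun j => ?_) j
        · rw [hq0, hliw0, if_neg (Fin.succ_ne_zero _)]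
        · refine Fin.cases ?_ (fun j => ?_) j
          · rw [hq1, hliw0, if_neg]
            intro h
            exact Fin.succ_ne_zero i (Fin.succ_injective _ h)
          · rw [hqi, hliwi]
            simp only [Fin.succ_inj]
  have hLsum : ∀ p, ∑ i, L i p = 1 := by
    intro p
    rw [Fin.sum_univ_succ, Fin.sum_univ_succ, hL0, hL1]
    simp only [hLi]
    have h1 := hlsum p.1
    rw [Fin.sum_univ_succ] at h1
    simp only [hl, Fin.cons_zero, Fin.cons_succ] at h1
    linarith
  have hLp : ∀ p, ∑ i, L i p • q i = p := by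
    intro p
    rw [Fin.sum_univ_succ, Fin.sum_univ_succ, hL0, hL1]
    simp only [hLi]
    have h1 := hlx p.1
    rw [Fin.sum_univ_succ] at h1
    simp only [hl, hw, Fin.cons_zero, Fin.cons_succ] at h1
    have hq0 : q 0 = (w0, -M) := rfl
    have hq1 : q (Fin.succ 0) = (w0, M) := rfl
    have hqi : ∀ i, q (Fin.succ (Fin.succ i)) = (w0 + c • e i, 0) := fun i => rfl
    simp only [hq0, hq1, hqi]
    apply Prod.ext
    · simp only [Prod.fst_add, Prod.smul_fst, Prod.fst_sum]
      rw [← add_assoc, ← add_smul]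
      have h2 : (l0 p.1 - M⁻¹ * p.2) / 2 + (l0 p.1 + M⁻¹ * p.2) / 2 = l0 p.1 := by ring
      rw [h2]
      exact h1
    · simp only [Prod.snd_add, Prod.smul_snd, Prod.snd_sum, smul_eq_mul, mul_zero, Finset.sum_const_zero, add_zero]
      field_simp
      ring
  have hCq := root_cell_cv q L hLq hLsum hLp
  refine ⟨w, -(M • l0), M • l0, q, root_cell_indep w l hlw, root_cell_indep q L hLq, ?_, ?_, ?_⟩
  · rw [hCq, Body, hCw]
    ext p
    simp only [mem_ofPred_eq, Fin.forall_fin_succ (P := fun i => 0 ≤ L i p),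
      Fin.forall_fin_succ (P := fun i => 0 ≤ L (Fin.succ i) p), Fin.forall_fin_succ (P := fun i => 0 ≤ l i p.1)]
    simp only [hL0, hL1, hLi]
    simp only [hl, Fin.cons_zero, Fin.cons_succ]
    have hna : (-(M • l0)) p.1 = -(M * l0 p.1) := by simp
    have hnb : (M • l0) p.1 = M * l0 p.1 := by simp
    rw [hna, hnb]
    have hz : M * (M⁻¹ * p.2) = p.2 := by field_simp
    constructor
    · rintro ⟨h1, h2, h3⟩
      have h4 : M⁻¹ * p.2 ≤ l0 p.1 := by linarith
      have h5 : -(l0 p.1) ≤ M⁻¹ * p.2 := by linarith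
      have h6 := mul_le_mul_of_nonneg_left h4 hM0.le
      have h7 := mul_le_mul_of_nonneg_left h5 hM0.le
      rw [hz] at h6 h7
      exact ⟨⟨by linarith, h3⟩, by linarith, h6⟩
    · rintro ⟨⟨h1, h2⟩, h3, h4⟩
      refine ⟨?_, ?_, h2⟩
      · have : M⁻¹ * p.2 ≤ M⁻¹ * (M * l0 p.1) := mul_le_mul_of_nonneg_left h4 (by positivity)
        rw [inv_mul_cancel_left₀ hM0.ne'] at this
        linarith
      · have : M⁻¹ * (-(M * l0 p.1)) ≤ M⁻¹ * p.2 := mul_le_mul_of_nonneg_left h3 (by positivity)
        rw [mul_neg, inv_mul_cancel_left₀ hM0.ne'] at this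
        linarith
  · intro x hx
    have hpos : 0 < l0 x := root_cell_pos (Cv w) l0 w0 hl0w0 (by
      intro y hy
      rw [hCw] at hy
      have := hy 0
      simpa only [hl, Fin.cons_zero] using this) x hx
    have hna : (-(M • l0)) x = -(M * l0 x) := by simp
    have hnb : (M • l0) x = M * l0 x := by simp
    rw [hna, hnb]
    have := mul_pos hM0 hpos
    linarith
  · intro p hp
    have hpC := hC p hp
    have hx : ‖p.1‖ ≤ C := le_trans (norm_fst_le p) hpC
    have hz : |p.2| ≤ |C| := by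
      have := le_trans (norm_snd_le p) hpC
      rw [Real.norm_eq_abs] at this
      exact le_trans this (le_abs_self C)
    have hl0p : c⁻¹ ≤ l0 p.1 := by
      rw [hl0x]
      have h1 := hφS p.1 hx
      have h2 : (1 : ℝ) ≤ s - ∑ i, φ i p.1 := by rw [hs]; linarith
      calc c⁻¹ = c⁻¹ * 1 := (mul_one _).symm
        _ ≤ _ := mul_le_mul_of_nonneg_left h2 (by positivity)
    have hlip : ∀ i, 0 < li i p.1 := by
      intro i
      rw [hlix]
      have h1 := (abs_le.mp (hφK p.1 hx i)).1
      have h2 : (0 : ℝ) < φ i p.1 + s := by rw [hs]; linarith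
      positivity
    have hcinv : 0 < c⁻¹ := by positivity
    have hMl : |C| + 1 ≤ M * l0 p.1 := by
      calc |C| + 1 = M * c⁻¹ := by rw [hM]; field_simp
        _ ≤ _ := mul_le_mul_of_nonneg_left hl0p hM0.le
    have hna : (-(M • l0)) p.1 = -(M * l0 p.1) := by simp
    have hnb : (M • l0) p.1 = M * l0 p.1 := by simp
    refine ⟨?_, ?_, ?_⟩
    · rw [mem_interior]
      refine ⟨{x | ∀ i, 0 < l i x}, ?_, ?_, ?_⟩
      · rw [hCw]
        intro x hx i
        exact (hx i).le
      · have : {x | ∀ i, 0 < l i x} = ⋂ i, (l i) ⁻¹' (Ioi 0) := by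
          ext x; simp
        rw [this]
        exact isOpen_iInter_of_finite fun i => isOpen_Ioi.preimage (l i).continuous_of_finiteDimensional
      · intro i
        refine Fin.cases ?_ (fun i => ?_) i
        · simp only [hl, Fin.cons_zero]
          linarith
        · simp only [hl, Fin.cons_succ]
          exact hlip i
    · rw [hna]
      have := (abs_le.mp hz).1
      linarith
    · rw [hnb]
      have := (abs_le.mp hz).2
      linarith

end Pool.Agent.H889
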