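import Pool.Agent.Helper889_Cut.WeakCut
import Pool.Agent.Helper889_Cut.Rec
import Pool.Agent.Helper889_Cut.BodyTri
import Pool.Agent.Helper889_Cut.Proj
import Pool.Agent.Helper889_Cut.Graph
import Pool.Agent.Helper889_Cut.Root

/-! The final assembly. -/

set_option autoImplicit false
open Set

namespace Pool.Agent.H889

variable {V : Type} [NormedAddCommGroup V] [NormedSpace ℝ V]

section finalaux

variable {W₁ W₂ : Type} [NormedAddCommGroup W₁] [NormedSpace ℝ W₁] [NormedAddCommGroup W₂]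
  [NormedSpace ℝ W₂]

theorem final_Cv (Φ : W₁ ≃L[ℝ] W₂) {m : ℕ} (t : Fin m → W₁) :
    Cv (fun k => Φ (t k)) = Φ '' Cv t := by
  unfold Cv
  have h := (Φ.toLinearEquiv.toLinearMap).image_convexHull (range t)
  have h2 : (range fun k => Φ (t k)) = Φ '' range t := by
    rw [← Set.range_comp]
    rfl
  rw [h2]
  exact h.symm

theorem final_int (Φ : W₁ ≃L[ℝ] W₂) (s : Set W₁) : interior (Φ '' s) = Φ '' interior s :=
  (Φ.toHomeomorph.image_interior s).symm

theorem final_aff (Φ : W₁ ≃L[ℝ] W₂) {m : ℕ} {t : Fin m → W₁} (ht : AffineIndependent ℝ t) :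
    AffineIndependent ℝ (fun k => Φ (t k)) :=
  ht.map' Φ.toLinearEquiv.toLinearMap.toAffineMap Φ.injective

end finalaux

/-- the open region of a simplex is not empty -/
theorem final_Op_ne {m : ℕ} (y : Fin (m + 1) → V) : (Op y).Nonempty := by
  refine ⟨∑ k, (1 / ((m : ℝ) + 1)) • y k, fun _ => 1 / ((m : ℝ) + 1), fun _ => by positivity, ?_, rfl⟩
  rw [Finset.sum_const, Finset.card_univ, Fintype.card_fin, nsmul_eq_mul]
  push_cast
  field_simp

theorem final_closure [FiniteDimensional ℝ V] {D : ℕ} (ψ : Fin (D + 1) → (V →ᵃ[ℝ] ℝ)) {x x0 : V}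
    (hx : ∀ k, 0 ≤ ψ k x) (hx0 : ∀ k, 0 < ψ k x0) {U : Set V} (hU : IsOpen U) (hxU : x ∈ U) :
    ∃ x' ∈ U, x' ∈ Reg ψ := by
  have h1 : Filter.Tendsto (fun θ : ℝ => AffineMap.lineMap x x0 θ) (nhdsWithin 0 (Ioi 0)) (nhds x) := by
    have h2 : Continuous (fun θ : ℝ => (AffineMap.lineMap x x0 θ : V)) := AffineMap.lineMap_continuous
    have h3 := h2.tendsto 0
    rw [AffineMap.lineMap_apply_zero] at h3
    exact h3.mono_left nhdsWithin_le_nhds
  have h4 := h1.eventually (hU.mem_nhds hxU)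
  have h5 : ∀ᶠ θ : ℝ in nhdsWithin 0 (Ioi 0), θ ∈ Ioo (0 : ℝ) 1 := Ioo_mem_nhdsGT one_pos
  obtain ⟨θ, hθ1, hθ2⟩ := (h4.and h5).exists
  refine ⟨_, hθ1, ?_⟩
  intro k
  have h6 : ψ k (AffineMap.lineMap x x0 θ) = (1 - θ) * ψ k x + θ * ψ k x0 := by
    rw [AffineMap.apply_lineMap, AffineMap.lineMap_apply]
    simp only [vsub_eq_sub, smul_eq_mul, vadd_eq_add]
    ring
  rw [h6]
  have h7 := hx k
  have h8 := hx0 k
  have h9 : 0 < θ * ψ k x0 := mul_pos hθ2.1 h8
  have h10 : 0 ≤ (1 - θ) * ψ k x := mul_nonneg (by linarith [hθ2.2]) h7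
  linarith

theorem final_short [FiniteDimensional ℝ V] {D : ℕ} (hD : 1 ≤ D) (hV : Module.finrank ℝ V = D)
    (ψ : Fin (D + 1) → (V →ᵃ[ℝ] ℝ)) (u : Fin (D + 1) → V)
    (h1 : ∀ x, (∀ k, 0 ≤ ψ k x) ↔ x ∈ Cv u) (h2 : ∀ x, (∀ k, 0 < ψ k x) ↔ x ∈ interior (Cv u)) :
    ∃ x, (∀ k, 0 ≤ ψ k x) ∧ ∃ k, ψ k x = 0 := by
  by_contra hcon
  push Not at hcon
  have hsub : Cv u ⊆ interior (Cv u) := by
    intro x hx
    rw [← h2]
    intro k
    have h3 := (h1 x).2 hx
    exact lt_of_le_of_ne (h3 k) (Ne.symm (hcon x h3 k))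
  have hopen : IsOpen (Cv u) := by
    rw [← interior_eq_iff_isOpen]
    exact Subset.antisymm interior_subset hsub
  have hcomp : IsCompact (Cv u) := (Set.finite_range u).isCompact_convexHull ℝ
  have hne : (Cv u).Nonempty := ⟨u 0, subset_convexHull ℝ _ ⟨0, rfl⟩⟩
  have hclopen : IsClopen (Cv u) := ⟨hcomp.isClosed, hopen⟩
  have huniv : Cv u = univ := hclopen.eq_univ hne
  have hnt : Nontrivial V := by
    have : 0 < Module.finrank ℝ V := by omega
    exact Module.nontrivial_of_finrank_pos this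
  have hb : Bornology.IsBounded (univ : Set V) := by
    rw [← huniv]
    exact hcomp.isBounded
  exact NormedSpace.unbounded_univ ℝ V hb

theorem final_Op {W₁ W₂ : Type} [NormedAddCommGroup W₁] [NormedSpace ℝ W₁] [NormedAddCommGroup W₂]
    [NormedSpace ℝ W₂] (Φ : W₁ ≃L[ℝ] W₂) {m : ℕ} {t : Fin m → W₁} {q : W₂}
    (hq : q ∈ Op (fun k => Φ (t k))) : Φ.symm q ∈ Op t := by
  obtain ⟨w, h1, h2, h3⟩ := hq
  refine ⟨w, h1, h2, ?_⟩
  rw [h3, map_sum]
  refine Finset.sum_congr rfl fun k _ => ?_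
  rw [map_smul, ContinuousLinearEquiv.symm_apply_apply]

theorem final_card {D n : ℕ} {c0 A r t H k Cc : ℝ} (hc0 : 0 ≤ c0) (hA : 0 ≤ A) (hr : 1 ≤ r)
    (hn : 0 < (n : ℝ)) (ht : t = (n : ℝ) / (4 * r)) (hH0 : 0 ≤ H)
    (hH : H ≤ (n : ℝ) * ((D : ℝ) + 1)) (hC : Cc ≤ 1 + A * (H / t) ^ D) (hk : k ≤ Cc * c0) :
    k ≤ (c0 * (1 + A * (4 * ((D : ℝ) + 1)) ^ D) + 1) * r ^ D := by
  have hr0 : 0 < r := by linarith
  have ht0 : 0 < t := by rw [ht]; positivity
  have h1 : H / t ≤ 4 * ((D : ℝ) + 1) * r := by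
    rw [div_le_iff₀ ht0, ht]
    refine hH.trans (le_of_eq ?_)
    field_simp
  have h2 : (H / t) ^ D ≤ (4 * ((D : ℝ) + 1)) ^ D * r ^ D := by
    rw [← mul_pow]
    exact pow_le_pow_left₀ (by positivity) h1 D
  have h3 : 1 ≤ r ^ D := one_le_pow₀ hr
  have h4 : Cc ≤ (1 + A * (4 * ((D : ℝ) + 1)) ^ D) * r ^ D := by
    have h5 : A * (H / t) ^ D ≤ A * ((4 * ((D : ℝ) + 1)) ^ D * r ^ D) :=
      mul_le_mul_of_nonneg_left h2 hA
    nlinarith
  have h6 := mul_le_mul_of_nonneg_right h4 hc0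
  nlinarith

/-! TARGET `final`: the theorem on families of simplices with pairwise disjoint relative interiors, up to a small exceptional set `X`.
Plan. `D = d - 1 ≥ 2`, write `d = D + 1`. `V = EuclideanSpace ℝ (Fin D)`. `Φ` from `good_projection`, `y i k = Φ (p i k)`, `ψ i`, `ℓ i` from
`graph_simplex` for `y i`. Index type `ι = {i : Fin n // i ∉ X}`, `I = univ`. Noncrossing: a point `x` in both regions with equal
`ℓ` gives a common point of `Op (y i)` and `Op (y j)`, and `Op (y i) = Φ '' Op (p i)`, `Op (p i) ⊆ intrinsicInterior` (`Op_subset`).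
Root cell: `root_cell` with `B = ⋃ i, Cv (y i)` (all `i : Fin n`; bounded). `InSh` for `I = univ`: inside since
`(x, ℓ i x) ∈ Op (y i) ⊆ Cv (y i) ⊆ B ⊆ OBody`; short: the compact set `Cv (fun k => (y i k).1)` is not open-and-closed (`V` is connected,
noncompact as `D ≥ 1`), or simply take the vertex `(y i 0).1`: there is `x` in it outside its interior, so some `ψ i k x = 0` and
`(x, ℓ i x) ∈ Cv (y i) ⊆ B`, so `x ∈ interior (Cv w)`. `(HH ψ w univ).ncard ≤ n (D + 1)`. Apply `recursion` with `t = n / (4 r)` to get `C`;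
`body_tri` for each `c ∈ C` gives `T c`; all simplices: `⋃ T c` (`Finset.biUnion`), mapped back by `Φ.symm`, enumerated by `Fin k`. The
enclosing simplex is `Φ.symm ∘ q`. Convex hulls, interiors, affine independence are preserved by the linear homeomorphism.
Disjoint interiors: for different `c` use `interior (Body ..) = OBody ..` and monotonicity. Conflicts: if `i ∉ X` and the interior
of a simplex of `T c` meets `conv (p i)`: after `Φ`, a point `(x, ℓ i x) ∈ OBody c` with all `ψ i k x ≥ 0`; move `x` slightly towards a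
point of the open simplex (`ψ > 0`): `OBody` is open (it is an interior), so `MeetsC`. So at most `2 t = n/(2r)` of the `i ∉ X`, and at most
`X.card ≤ n / (2 r)` others. Number: `k ≤ c₀ (1 + A ((D+1) n / t)^D) = c₀ (1 + A (4 (D+1) r)^D) ≤ C r^D` with
`C = c₀ (1 + A (4 (D+1))^D) + 1`, as `r ≥ 1`. Note `n > 0`. -/

theorem final : ∀ d : ℕ, 3 ≤ d → ∃ C : ℝ, 0 < C ∧
      ∀ n : ℕ, ∀ p : Fin n → Fin d → EuclideanSpace ℝ (Fin d),
        (∀ i, AffineIndependent ℝ (p i)) →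
        ∀ r : ℝ, 1 ≤ r → r ≤ (n : ℝ) →
        ∀ X : Finset (Fin n), (X.card : ℝ) ≤ (n : ℝ) / (2 * r) →
        (∀ i j, i ∉ X → j ∉ X → i ≠ j →
          Disjoint (intrinsicInterior ℝ (convexHull ℝ (Set.range (p i))))
            (intrinsicInterior ℝ (convexHull ℝ (Set.range (p j))))) →
        ∃ q : Fin (d + 1) → EuclideanSpace ℝ (Fin d), AffineIndependent ℝ q ∧
          (⋃ i, convexHull ℝ (Set.range (p i))) ⊆ convexHull ℝ (Set.range q) ∧
          ∃ k : ℕ, ∃ c : Fin k → Fin (d + 1) → EuclideanSpace ℝ (Fin d),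
            (∀ j, AffineIndependent ℝ (c j)) ∧
            (⋃ j, convexHull ℝ (Set.range (c j))) = convexHull ℝ (Set.range q) ∧
            (∀ j j', j ≠ j' →
              Disjoint (interior (convexHull ℝ (Set.range (c j))))
                (interior (convexHull ℝ (Set.range (c j'))))) ∧
            (∀ j, (({i : Fin n | (interior (convexHull ℝ (Set.range (c j))) ∩
                  convexHull ℝ (Set.range (p i))).Nonempty}.ncard : ℕ) : ℝ) ≤ (n : ℝ) / r) ∧
            (k : ℝ) ≤ C * r ^ (d - 1) := by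
  intro d hd
  obtain ⟨D, rfl⟩ : ∃ D, d = D + 1 := ⟨d - 1, by omega⟩
  have hD : 2 ≤ D := by omega
  have hD1 : 1 ≤ D := by omega
  obtain ⟨s, Cs, Np, δ, hs, hCs, hNp, h2, hδ, hW⟩ := wcut_exists D hD
  obtain ⟨A, hA, hrec⟩ := recursion D hD s Cs Np δ hs hCs hNp h2 hδ
  obtain ⟨c0, hbt⟩ := body_tri D hD1
  refine ⟨(c0 : ℝ) * (1 + A * (4 * ((D : ℝ) + 1)) ^ D) + 1, by positivity, ?_⟩
  intro n p hp r hr hrn X hX hdisj
  have hn : 0 < (n : ℝ) := by linarith
  have hr0 : 0 < r := by linarith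
  obtain ⟨Φ, hΦ⟩ := good_projection D hD1 p hp
  have hfin : Module.finrank ℝ (EuclideanSpace ℝ (Fin D)) = D := by simp
  have hgs := fun i => graph_simplex D hD1 hfin (fun k => Φ (p i k)) (hΦ i)
  choose ψ ℓ hlin hCv hOp hS1 hS2 using hgs
  -- noncrossing
  have hkey : ∀ (i : Fin n) (q : EuclideanSpace ℝ (Fin D) × ℝ), q ∈ Op (fun k => Φ (p i k)) →
      Φ.symm q ∈ intrinsicInterior ℝ (convexHull ℝ (Set.range (p i))) :=
    fun i q hq => Op_subset (p i) (hp i) (final_Op Φ hq)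
  have hnc : ∀ i j : {i : Fin n // i ∉ X}, i ≠ j → ∀ x, x ∈ Reg (ψ i.1) → x ∈ Reg (ψ j.1) →
      ℓ i.1 x ≠ ℓ j.1 x := by
    intro i j hij x hi hj heq
    have hq1 : (x, ℓ i.1 x) ∈ Op (fun k => Φ (p i.1 k)) := by
      rw [hOp]
      exact ⟨hi, rfl⟩
    have hq2 : (x, ℓ i.1 x) ∈ Op (fun k => Φ (p j.1 k)) := by
      rw [hOp]
      exact ⟨hj, heq⟩
    exact Set.disjoint_left.1 (hdisj i.1 j.1 i.2 j.2 (fun h => hij (Subtype.ext h)))
      (hkey _ _ hq1) (hkey _ _ hq2)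
  -- the root cell
  obtain ⟨w, a, b, q0, hw, hq0, hq0b, hab, hB⟩ := root_cell D hD1 hfin
    (⋃ i, Cv (fun k => Φ (p i k))) (by
      rw [Bornology.isBounded_iUnion]
      intro i
      exact ((Set.finite_range _).isCompact_convexHull ℝ).isBounded)
  have hin : ∀ (i : Fin n) (x : EuclideanSpace ℝ (Fin D)), (∀ k, 0 ≤ ψ i k x) →
      x ∈ interior (Cv w) ∧ a x < ℓ i x ∧ ℓ i x < b x := by
    intro i x hx
    have h3 : (x, ℓ i x) ∈ Cv (fun k => Φ (p i k)) := by
      rw [hCv]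
      exact ⟨hx, rfl⟩
    exact hB (Set.mem_iUnion.2 ⟨i, h3⟩)
  have hInSh : InSh (fun i : {i : Fin n // i ∉ X} => ψ i.1) (fun i => ℓ i.1) w a b Finset.univ := by
    constructor
    · intro i _ x _ hx
      exact (hin i.1 x (fun k => (hx k).le)).2
    · intro i _
      obtain ⟨x, hx, k, hk⟩ := final_short hD1 hfin (ψ i.1) _ (hS1 i.1) (hS2 i.1)
      exact ⟨k, x, (hin i.1 x hx).1, hk⟩
  have ht : 0 < (n : ℝ) / (4 * r) := by positivity
  obtain ⟨C, hC1, hC2, hC3, hC4, hC5⟩ := hrec _ hfin (hW _ hfin) {i : Fin n // i ∉ X}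
    (fun i => ψ i.1) (fun i => ℓ i.1) (fun i k => hlin i.1 k) hnc ((n : ℝ) / (4 * r)) ht w a b
    ⟨hw, hab⟩ Finset.univ hInSh
  have hHH : (((HH (fun i : {i : Fin n // i ∉ X} => ψ i.1) w Finset.univ).ncard : ℕ) : ℝ) ≤
      (n : ℝ) * ((D : ℝ) + 1) := by
    have h3 : (HH (fun i : {i : Fin n // i ∉ X} => ψ i.1) w Finset.univ).ncard ≤ n * (D + 1) := by
      calc (HH (fun i : {i : Fin n // i ∉ X} => ψ i.1) w Finset.univ).ncard
          ≤ (Set.univ : Set ({i : Fin n // i ∉ X} × Fin (D + 1))).ncard :=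
            Set.ncard_le_ncard (Set.subset_univ _) Set.finite_univ
        _ = Fintype.card ({i : Fin n // i ∉ X} × Fin (D + 1)) := by
            rw [Set.ncard_univ, Nat.card_eq_fintype_card]
        _ = Fintype.card {i : Fin n // i ∉ X} * (D + 1) := by
            rw [Fintype.card_prod, Fintype.card_fin]
        _ ≤ n * (D + 1) := by
            refine Nat.mul_le_mul_right _ ?_
            exact (Fintype.card_subtype_le _).trans (le_of_eq (Fintype.card_fin n))
    exact_mod_cast h3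
  -- triangulations of the cells
  have hT : ∀ c : (Fin (D + 1) → EuclideanSpace ℝ (Fin D)) ×
      (EuclideanSpace ℝ (Fin D) →ᵃ[ℝ] ℝ) × (EuclideanSpace ℝ (Fin D) →ᵃ[ℝ] ℝ),
      ∃ T : Finset (Fin (D + 2) → EuclideanSpace ℝ (Fin D) × ℝ), c ∈ C →
        interior (Body c.1 c.2.1 c.2.2) = OBody c.1 c.2.1 c.2.2 ∧
        IsTri (Body c.1 c.2.1 c.2.2) T ∧ T.card ≤ c0 := by
    intro c
    by_cases hc : c ∈ C
    · obtain ⟨g1, g2⟩ := hC1 c hc
      obtain ⟨h3, T, h4, h5⟩ := hbt _ hfin c.1 g1 c.2.1 c.2.2 g2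
      exact ⟨T, fun _ => ⟨h3, h4, h5⟩⟩
    · exact ⟨∅, fun h => absurd h hc⟩
  choose T hT using hT
  have hsubT : ∀ c ∈ C, ∀ t ∈ T c, interior (Cv t) ⊆ OBody c.1 c.2.1 c.2.2 := by
    intro c hc t ht'
    obtain ⟨h3, h4, _⟩ := hT c hc
    rw [← h3]
    refine interior_mono ?_
    rw [← h4.union]
    exact Set.subset_biUnion_of_mem (u := fun t => Cv t) ht'
  have hconf : ∀ c ∈ C, ∀ t ∈ T c, (({i : Fin n | (interior (convexHull ℝ
      (Set.range (fun m => Φ.symm (t m)))) ∩ convexHull ℝ (Set.range (p i))).Nonempty}.ncard : ℕ) : ℝ)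
      ≤ (n : ℝ) / r := by
    intro c hc t ht'
    have hsub : {i : Fin n | (interior (convexHull ℝ
        (Set.range (fun m => Φ.symm (t m)))) ∩ convexHull ℝ (Set.range (p i))).Nonempty} ⊆
        (X : Set (Fin n)) ∪ Subtype.val '' {i : {i : Fin n // i ∉ X} | i ∈ Finset.univ ∧
          MeetsC (ψ i.1) (ℓ i.1) c.1 c.2.1 c.2.2} := by
      rintro i ⟨z, hz1, hz2⟩
      by_cases hiX : i ∈ X
      · exact Or.inl hiX
      · refine Or.inr ⟨⟨i, hiX⟩, ⟨Finset.mem_univ _, ?_⟩, rfl⟩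
        have e1 : convexHull ℝ (Set.range (fun m => Φ.symm (t m))) = Φ.symm '' Cv t :=
          final_Cv Φ.symm t
        rw [e1, final_int] at hz1
        obtain ⟨u, hu, rfl⟩ := hz1
        have hu2 : u ∈ Cv (fun k => Φ (p i k)) := by
          rw [final_Cv]
          exact ⟨_, hz2, by rw [ContinuousLinearEquiv.apply_symm_apply]⟩
        rw [hCv] at hu2
        obtain ⟨hu3, hu4⟩ := hu2
        have hu5 := hsubT c hc t ht' hu
        obtain ⟨v, hv⟩ := final_Op_ne (fun k => Φ (p i k))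
        rw [hOp] at hv
        have hopen : IsOpen (interior (Cv c.1) ∩ {x | c.2.1 x < ℓ i x ∧ ℓ i x < c.2.2 x}) := by
          refine isOpen_interior.inter ?_
          have k1 : Continuous (c.2.1) := AffineMap.continuous_of_finiteDimensional _
          have k2 : Continuous (c.2.2) := AffineMap.continuous_of_finiteDimensional _
          have k3 : Continuous (ℓ i) := AffineMap.continuous_of_finiteDimensional _
          exact (isOpen_lt k1 k3).inter (isOpen_lt k3 k2)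
        obtain ⟨x', hx1, hx2⟩ := final_closure (ψ i) (x := u.1) (x0 := v.1) hu3 hv.1 hopen
          ⟨hu5.1, by rw [← hu4]; exact hu5.2.1, by rw [← hu4]; exact hu5.2.2⟩
        exact ⟨x', hx1.1, hx2, hx1.2.1, hx1.2.2⟩
    have h3 : ({i : Fin n | (interior (convexHull ℝ
        (Set.range (fun m => Φ.symm (t m)))) ∩ convexHull ℝ (Set.range (p i))).Nonempty}).ncard ≤
        X.card + ({i : {i : Fin n // i ∉ X} | i ∈ Finset.univ ∧
          MeetsC (ψ i.1) (ℓ i.1) c.1 c.2.1 c.2.2}).ncard := by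
      refine (Set.ncard_le_ncard hsub (Set.toFinite _)).trans ((Set.ncard_union_le _ _).trans ?_)
      rw [Set.ncard_coe_finset]
      exact Nat.add_le_add_left (Set.ncard_image_le (Set.toFinite _)) _
    have h4 := hC4 c hc
    have h5 : ((({i : Fin n | (interior (convexHull ℝ
        (Set.range (fun m => Φ.symm (t m)))) ∩ convexHull ℝ (Set.range (p i))).Nonempty}).ncard : ℕ) : ℝ) ≤
        (X.card : ℝ) + (({i : {i : Fin n // i ∉ X} | i ∈ Finset.univ ∧
          MeetsC (ψ i.1) (ℓ i.1) c.1 c.2.1 c.2.2}.ncard : ℕ) : ℝ) := by exact_mod_cast h3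
    have h6 : (n : ℝ) / (2 * r) + 2 * ((n : ℝ) / (4 * r)) = (n : ℝ) / r := by
      field_simp
      ring
    linarith
  classical
  -- all simplices
  set TT : Finset (Fin (D + 2) → EuclideanSpace ℝ (Fin D) × ℝ) := C.biUnion T with hTT
  have hTTm : ∀ t, t ∈ TT ↔ ∃ c ∈ C, t ∈ T c := fun t => Finset.mem_biUnion
  have hTTu : (⋃ t ∈ TT, Cv t) = Body w a b := by
    rw [← hC2]
    ext z
    simp only [Set.mem_iUnion, hTTm]
    constructor
    · rintro ⟨t, ⟨c, hc, ht'⟩, hz⟩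
      refine ⟨c, hc, ?_⟩
      rw [← (hT c hc).2.1.union]
      exact Set.mem_biUnion ht' hz
    · rintro ⟨c, hc, hz⟩
      rw [← (hT c hc).2.1.union] at hz
      simp only [Set.mem_iUnion] at hz
      obtain ⟨t, ht', hz⟩ := hz
      exact ⟨t, ⟨c, hc, ht'⟩, hz⟩
  have hTTc : (TT.card : ℝ) ≤ (C.card : ℝ) * (c0 : ℝ) := by
    have h3 : TT.card ≤ C.card * c0 := Finset.card_biUnion_le_card_mul _ _ _ fun c hc => (hT c hc).2.2
    exact_mod_cast h3
  refine ⟨fun m => Φ.symm (q0 m), final_aff Φ.symm hq0, ?_, TT.card,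
    fun j m => Φ.symm (((TT.equivFin).symm j).1 m), ?_, ?_, ?_, ?_, ?_⟩
  · have e1 : convexHull ℝ (Set.range (fun m => Φ.symm (q0 m))) = Φ.symm '' Cv q0 :=
      final_Cv Φ.symm q0
    rw [e1, hq0b]
    intro z hz
    obtain ⟨i, hi⟩ := Set.mem_iUnion.1 hz
    have h3 : Φ z ∈ Cv (fun k => Φ (p i k)) := by
      rw [final_Cv]
      exact ⟨z, hi, rfl⟩
    have h4 := hB (Set.mem_iUnion.2 ⟨i, h3⟩)
    exact ⟨Φ z, ⟨interior_subset h4.1, h4.2.1.le, h4.2.2.le⟩, by
      rw [ContinuousLinearEquiv.symm_apply_apply]⟩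
  · intro j
    obtain ⟨c, hc, ht'⟩ := (hTTm _).1 ((TT.equivFin).symm j).2
    exact final_aff Φ.symm ((hT c hc).2.1.indep _ ht')
  · have e1 : convexHull ℝ (Set.range (fun m => Φ.symm (q0 m))) = Φ.symm '' Cv q0 :=
      final_Cv Φ.symm q0
    rw [e1, hq0b, ← hTTu, Set.image_iUnion₂]
    ext z
    simp only [Set.mem_iUnion]
    constructor
    · rintro ⟨j, hj⟩
      refine ⟨((TT.equivFin).symm j).1, ((TT.equivFin).symm j).2, ?_⟩
      rw [← final_Cv]
      exact hj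
    · rintro ⟨t, ht', hz⟩
      refine ⟨TT.equivFin ⟨t, ht'⟩, ?_⟩
      rw [← final_Cv] at hz
      rw [Equiv.symm_apply_apply]
      exact hz
  · intro j j' hjj
    have e1 : ∀ t : Fin (D + 2) → EuclideanSpace ℝ (Fin D) × ℝ,
        interior (convexHull ℝ (Set.range (fun m => Φ.symm (t m)))) = Φ.symm '' interior (Cv t) := by
      intro t
      have e2 : convexHull ℝ (Set.range (fun m => Φ.symm (t m))) = Φ.symm '' Cv t :=
        final_Cv Φ.symm t
      rw [e2, final_int]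
    have hne : ((TT.equivFin).symm j).1 ≠ ((TT.equivFin).symm j').1 := by
      intro h
      exact hjj ((TT.equivFin).symm.injective (Subtype.ext h))
    obtain ⟨c, hc, ht1⟩ := (hTTm _).1 ((TT.equivFin).symm j).2
    obtain ⟨c', hc', ht2⟩ := (hTTm _).1 ((TT.equivFin).symm j').2
    rw [e1, e1]
    refine (Set.disjoint_image_iff Φ.symm.injective).2 ?_
    by_cases hcc : c = c'
    · subst hcc
      exact (hT c hc).2.1.disj _ ht1 _ ht2 hne
    · exact (hC3 c hc c' hc' hcc).mono (hsubT c hc _ ht1) (hsubT c' hc' _ ht2)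
  · intro j
    obtain ⟨c, hc, ht'⟩ := (hTTm _).1 ((TT.equivFin).symm j).2
    exact hconf c hc _ ht'
  · have h3 := final_card (D := D) (n := n) (c0 := (c0 : ℝ)) (A := A) (r := r)
      (t := (n : ℝ) / (4 * r)) (Nat.cast_nonneg c0) hA hr hn rfl (Nat.cast_nonneg _) hHH hC5 hTTc
    rw [Nat.add_sub_cancel]
    exact h3

end Pool.Agent.H889
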