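import Pool.Agent.Helper889_Cut.Defs

/-! A linear projection along a direction. -/

set_option autoImplicit false
open Set

namespace Pool.Agent.H889

variable {V : Type} [NormedAddCommGroup V] [NormedSpace ℝ V]

/-! TARGET `proj_dir`: a linear projection along `u`. Proof. Let `W = (span {u})ᗮ` or take any linear isomorphism: extend `u` to a basis;
there is a linear equivalence `Φ : ℝ^(D+1) ≃ ℝ^D × ℝ` with `(Φ u).1 = 0` (e.g. `ℝ ∙ u` has dimension `1` and its orthogonal complement `W` has
dimension `D`, `x ↦ (orthogonal projection to W, ⟪u, x⟫)`, composed with a linear isomorphism `W ≃ ℝ^D`); a linear equivalence of finite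
dimensional spaces is continuous. The kernel of `x ↦ (Φ x).1` is exactly the span of `u` (dimension count, or directly: `(Φ x).1 = 0` and
`c = (Φ x).2 / (Φ u).2` give `Φ x = Φ (c u)`). If `p` is affinely independent and `u ∉ vectorSpan (range p)`: the vectors `p k - p 0`
(`k ≠ 0`) are linearly independent and span `vectorSpan`, which meets the kernel only in `0`, so their images are linearly independent.
If `u ∈ vectorSpan (range p)` (dimension `D`), the image of `vectorSpan` under `x ↦ (Φ x).1` has dimension `≤ D - 1 < D`, so there is a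
nonzero linear functional `φ` vanishing on it (`Submodule.exists_le_ker_of_lt_top` or `Submodule.exists_dual_map_eq_bot...`); take
`χ x = φ (x - (Φ (p 0)).1)`. (For `D = 0` the second case is impossible: `vectorSpan` is `0` and `u ≠ 0`.) -/

theorem proj_dir_aux {n D : ℕ} (hn : n = D + 1) (u : EuclideanSpace ℝ (Fin n)) (hu : u ≠ 0) :
    ∃ Φ : EuclideanSpace ℝ (Fin n) ≃L[ℝ] (EuclideanSpace ℝ (Fin D) × ℝ),
      ∀ x, (Φ x).1 = 0 → ∃ c : ℝ, x = c • u := by
  classical
  have hK : Module.finrank ℝ (EuclideanSpace ℝ (Fin n) ⧸ (Submodule.span ℝ {u})) = D := by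
    have h1 := Submodule.finrank_quotient_add_finrank (Submodule.span ℝ {u})
    have h2 : Module.finrank ℝ (Submodule.span ℝ {u}) = 1 := finrank_span_singleton hu
    have h3 : Module.finrank ℝ (EuclideanSpace ℝ (Fin n)) = n := finrank_euclideanSpace_fin
    omega
  have e : (EuclideanSpace ℝ (Fin n) ⧸ (Submodule.span ℝ {u})) ≃ₗ[ℝ] EuclideanSpace ℝ (Fin D) :=
    LinearEquiv.ofFinrankEq _ _ (by rw [hK, finrank_euclideanSpace_fin])
  obtain ⟨f, hf⟩ : ∃ f : EuclideanSpace ℝ (Fin n) →ₗ[ℝ] ℝ, f u ≠ 0 := by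
    by_contra h
    push Not at h
    exact hu ((Module.forall_dual_apply_eq_zero_iff ℝ u).1 h)
  let g : EuclideanSpace ℝ (Fin n) →ₗ[ℝ] (EuclideanSpace ℝ (Fin D) × ℝ) :=
    LinearMap.prod (e.toLinearMap ∘ₗ (Submodule.mkQ (Submodule.span ℝ {u}))) f
  have hg1 : ∀ x, (g x).1 = 0 → ∃ c : ℝ, x = c • u := by
    intro x hx
    have h1 : e (Submodule.mkQ (Submodule.span ℝ {u}) x) = 0 := hx
    have h2 : Submodule.mkQ (Submodule.span ℝ {u}) x = 0 := by
      simpa using h1
    have h3 : x ∈ Submodule.span ℝ {u} := by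
      simpa using h2
    obtain ⟨c, hc⟩ := Submodule.mem_span_singleton.1 h3
    exact ⟨c, hc.symm⟩
  have hinj : Function.Injective g := by
    rw [← LinearMap.ker_eq_bot, LinearMap.ker_eq_bot']
    intro x hx
    obtain ⟨c, hc⟩ := hg1 x (by rw [hx]; rfl)
    have h4 : f x = 0 := by
      have : (g x).2 = 0 := by rw [hx]; rfl
      exact this
    rw [hc, map_smul, smul_eq_mul] at h4
    rcases mul_eq_zero.1 h4 with h | h
    · rw [hc, h, zero_smul]
    · exact absurd h hf
  have hfr : Module.finrank ℝ (EuclideanSpace ℝ (Fin n)) =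
      Module.finrank ℝ (EuclideanSpace ℝ (Fin D) × ℝ) := by
    rw [Module.finrank_prod, finrank_euclideanSpace_fin, finrank_euclideanSpace_fin, Module.finrank_self]
    exact hn
  let G : EuclideanSpace ℝ (Fin n) ≃ₗ[ℝ] (EuclideanSpace ℝ (Fin D) × ℝ) :=
    LinearEquiv.ofBijective g ⟨hinj, (LinearMap.injective_iff_surjective_of_finrank_eq_finrank hfr).1 hinj⟩
  refine ⟨G.toContinuousLinearEquiv, ?_⟩
  intro x hx
  exact hg1 x hx

theorem proj_dir (D : ℕ) (u : EuclideanSpace ℝ (Fin (D + 1))) (hu : u ≠ 0) :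
    ∃ Φ : EuclideanSpace ℝ (Fin (D + 1)) ≃L[ℝ] (EuclideanSpace ℝ (Fin D) × ℝ),
      ∀ p : Fin (D + 1) → EuclideanSpace ℝ (Fin (D + 1)), AffineIndependent ℝ p →
        (u ∉ vectorSpan ℝ (Set.range p) → AffineIndependent ℝ (fun k => (Φ (p k)).1)) ∧
        (u ∈ vectorSpan ℝ (Set.range p) → ∃ χ : EuclideanSpace ℝ (Fin D) →ᵃ[ℝ] ℝ,
          χ.linear ≠ 0 ∧ ∀ k, χ (Φ (p k)).1 = 0) := by
  classical
  obtain ⟨Φ, hΦ⟩ := proj_dir_aux (D := D) rfl u hu
  refine ⟨Φ, ?_⟩
  intro p hp
  let g : EuclideanSpace ℝ (Fin (D + 1)) →ₗ[ℝ] EuclideanSpace ℝ (Fin D) :=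
    (LinearMap.fst ℝ (EuclideanSpace ℝ (Fin D)) ℝ) ∘ₗ Φ.toLinearEquiv.toLinearMap
  have hg : ∀ x, g x = (Φ x).1 := fun x => rfl
  have hker : ∀ x, g x = 0 → ∃ c : ℝ, x = c • u := fun x hx => hΦ x hx
  constructor
  · intro hnu
    have h1 := (affineIndependent_iff_linearIndependent_vsub ℝ p 0).1 hp
    rw [affineIndependent_iff_linearIndependent_vsub ℝ (fun k => (Φ (p k)).1) 0]
    have h2 : LinearIndependent ℝ (g ∘ (fun i : { x // x ≠ (0 : Fin (D + 1)) } => (p i -ᵥ p 0 :
        EuclideanSpace ℝ (Fin (D + 1))))) := by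
      refine h1.map ?_
      rw [Submodule.disjoint_def]
      intro x hx hx0
      obtain ⟨c, hc⟩ := hker x hx0
      by_contra hne
      have hc0 : c ≠ 0 := by
        rintro rfl
        exact hne (by rw [hc, zero_smul])
      apply hnu
      have hx2 : x ∈ vectorSpan ℝ (Set.range p) := by
        refine (Submodule.span_le.2 ?_) hx
        rintro _ ⟨i, rfl⟩
        exact vsub_mem_vectorSpan ℝ (Set.mem_range_self _) (Set.mem_range_self _)
      have hu2 : u = c⁻¹ • x := by
        rw [hc, smul_smul, inv_mul_cancel₀ hc0, one_smul]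
      rw [hu2]
      exact Submodule.smul_mem _ _ hx2
    have h3 : (g ∘ (fun i : { x // x ≠ (0 : Fin (D + 1)) } => (p i -ᵥ p 0 :
        EuclideanSpace ℝ (Fin (D + 1))))) = (fun i : { x // x ≠ (0 : Fin (D + 1)) } =>
        ((Φ (p i)).1 -ᵥ (Φ (p 0)).1 : EuclideanSpace ℝ (Fin D))) := by
      funext i
      simp only [Function.comp, vsub_eq_sub, map_sub, hg]
      rfl
    rw [h3] at h2
    exact h2
  · intro hu2
    have hne : (vectorSpan ℝ (Set.range p)).map g < ⊤ := by
      rw [lt_top_iff_ne_top]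
      intro htop
      have hW : vectorSpan ℝ (Set.range p) = ⊤ := by
        rw [eq_top_iff]
        intro x _
        have hx : g x ∈ (vectorSpan ℝ (Set.range p)).map g := by rw [htop]; trivial
        obtain ⟨w, hw, hwx⟩ := Submodule.mem_map.1 hx
        obtain ⟨c, hc⟩ := hker (x - w) (by rw [map_sub, hwx, sub_self])
        have : x = c • u + w := by rw [← hc]; abel
        rw [this]
        exact Submodule.add_mem _ (Submodule.smul_mem _ _ hu2) hw
      have hfin : Module.finrank ℝ (vectorSpan ℝ (Set.range p)) = D :=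
        hp.finrank_vectorSpan (by simp)
      rw [hW, finrank_top, finrank_euclideanSpace_fin] at hfin
      omega
    obtain ⟨f, hf0, hf⟩ := Submodule.exists_le_ker_of_lt_top _ hne
    refine ⟨f.toAffineMap - AffineMap.const ℝ _ (f (g (p 0))), ?_, ?_⟩
    · simpa using hf0
    · intro k
      have h5 : g (p k -ᵥ p 0) ∈ (vectorSpan ℝ (Set.range p)).map g :=
        Submodule.mem_map_of_mem
          (vsub_mem_vectorSpan ℝ (Set.mem_range_self _) (Set.mem_range_self _))
      have h6 := hf h5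
      rw [LinearMap.mem_ker, vsub_eq_sub, map_sub, map_sub] at h6
      simpa [hg] using h6

end Pool.Agent.H889
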