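import Pool.Agent.Helper889_Cut.Step2
import Pool.Agent.Helper889_Cut.Numeric

/-! The recursion, for members which may cross. -/

set_option autoImplicit false
open Set

namespace Pool.Agent.H889

variable {V : Type} [NormedAddCommGroup V] [NormedSpace ℝ V]

/-- open bodies are in open bodies -/
theorem recursion2_obody [FiniteDimensional ℝ V] {m : ℕ} {w' w : Fin m → V} {a' b' a b : V →ᵃ[ℝ] ℝ}
    (h : Body w' a' b' ⊆ Body w a b) : OBody w' a' b' ⊆ OBody w a b := by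
  rintro ⟨x, y⟩ ⟨hx, h1, h2⟩
  have ca : Continuous a' := a'.continuous_of_finiteDimensional
  have cb : Continuous b' := b'.continuous_of_finiteDimensional
  have hx' : x ∈ Cv w' := interior_subset hx
  refine ⟨?_, ?_, ?_⟩
  · rw [mem_interior]
    refine ⟨interior (Cv w') ∩ ({z | a' z < y} ∩ {z | y < b' z}), ?_, ?_, hx, h1, h2⟩
    · rintro z ⟨hz, hz1, hz2⟩
      exact (h (show (z, y) ∈ Body w' a' b' from
        ⟨interior_subset hz, le_of_lt hz1, le_of_lt hz2⟩)).1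
    · exact isOpen_interior.inter ((isOpen_lt ca continuous_const).inter
        (isOpen_lt continuous_const cb))
  · have := (h (show (x, (a' x + y) / 2) ∈ Body w' a' b' from
      ⟨hx', by show a' x ≤ (a' x + y) / 2; simp only at h1; linarith,
        by show (a' x + y) / 2 ≤ b' x; simp only at h1 h2; linarith⟩)).2.1
    simp only at this h1 ⊢
    linarith
  · have := (h (show (x, (y + b' x) / 2) ∈ Body w' a' b' from
      ⟨hx', by show a' x ≤ (y + b' x) / 2; simp only at h1 h2; linarith,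
        by show (y + b' x) / 2 ≤ b' x; simp only at h2; linarith⟩)).2.2
    simp only at this h2 ⊢
    linarith

theorem recursion2_meets [FiniteDimensional ℝ V] {D : ℕ} {M : Set (V × ℝ)}
    {w' w : Fin (D + 1) → V} {a' b' a b : V →ᵃ[ℝ] ℝ}
    (h : Body w' a' b' ⊆ Body w a b) (hm : (M ∩ OBody w' a' b').Nonempty) :
    (M ∩ OBody w a b).Nonempty := by
  obtain ⟨p, hp, h1⟩ := hm
  exact ⟨p, hp, recursion2_obody h h1⟩

theorem recursion2_card_le {D : ℕ} {ι : Type} [Fintype ι] {M : ι → Set (V × ℝ)}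
    {ψ : ι → Fin (D + 1) → (V →ᵃ[ℝ] ℝ)}
    {w : Fin (D + 1) → V} {a b : V →ᵃ[ℝ] ℝ} {I : Finset ι}
    (hI : InShM M ψ w a b I) : I.card ≤ (HH ψ w I).ncard := by
  classical
  have h1 : (I : Set ι) ⊆ Prod.fst '' (HH ψ w I) := by
    intro i hi
    obtain ⟨k, x, hx, h0⟩ := hI.2 i hi
    exact ⟨(i, k), ⟨hi, x, hx, h0⟩, rfl⟩
  rw [← Set.ncard_coe_finset]
  exact (Set.ncard_le_ncard h1 (Set.toFinite _)).trans (Set.ncard_image_le (Set.toFinite _))

theorem recursion2_HH_mono {D : ℕ} {ι : Type} [Fintype ι] {ψ : ι → Fin (D + 1) → (V →ᵃ[ℝ] ℝ)}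
    {w : Fin (D + 1) → V} {I J : Finset ι} (h : J ⊆ I) :
    (HH ψ w J).ncard ≤ (HH ψ w I).ncard := by
  classical
  apply Set.ncard_le_ncard _ (Set.toFinite _)
  rintro x ⟨h1, h2⟩
  exact ⟨h h1, h2⟩

theorem recursion2_HH_cross {D : ℕ} {ι : Type} [Fintype ι] (ψ : ι → Fin (D + 1) → (V →ᵃ[ℝ] ℝ))
    {w τ : Fin (D + 1) → V} (I : Finset ι) (h : Cv τ ⊆ Cv w) :
    (HH ψ τ I).ncard ≤ (Cross (fun x : HH ψ w I => ψ x.1.1 x.1.2) τ).ncard := by
  classical
  have h1 : HH ψ τ I ⊆ Subtype.val '' (Cross (fun x : HH ψ w I => ψ x.1.1 x.1.2) τ) := by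
    rintro x ⟨h1, y, hy, h2⟩
    exact ⟨⟨x, h1, y, interior_mono h hy, h2⟩, ⟨y, hy, h2⟩, rfl⟩
  exact (Set.ncard_le_ncard h1 (Set.toFinite _)).trans (Set.ncard_image_le (Set.toFinite _))

theorem recursion2_vert {D : ℕ} {ι : Type} [Fintype ι] (ψ : ι → Fin (D + 1) → (V →ᵃ[ℝ] ℝ))
    (w : Fin (D + 1) → V) (I : Finset ι) :
    (Vert D (fun x : HH ψ w I => ψ x.1.1 x.1.2) w).ncard ≤ (VV ψ w I).ncard := by
  classical
  let g : (Fin D → HH ψ w I) → (Fin D → ι × Fin (D + 1)) := fun κ m => (κ m).1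
  have hg : Function.Injective g := by
    intro κ κ' h
    funext m
    exact Subtype.ext (congrFun h m)
  rw [← Set.ncard_image_of_injective _ hg]
  apply Set.ncard_le_ncard _ (Set.toFinite _)
  rintro _ ⟨κ, ⟨x, hx, hz⟩, rfl⟩
  exact ⟨fun m => (κ m).2, x, hx, hz⟩

theorem recursion2_VV_le {D : ℕ} {ι : Type} [Fintype ι] (ψ : ι → Fin (D + 1) → (V →ᵃ[ℝ] ℝ))
    (w : Fin (D + 1) → V) (I : Finset ι) : (VV ψ w I).ncard ≤ (HH ψ w I).ncard ^ D := by
  classical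
  let g : (Fin D → HH ψ w I) → (Fin D → ι × Fin (D + 1)) := fun κ m => (κ m).1
  have h1 : VV ψ w I ⊆ g '' Set.univ := by
    rintro κ ⟨h1, h2⟩
    exact ⟨fun m => ⟨κ m, h1 m⟩, trivial, rfl⟩
  refine (Set.ncard_le_ncard h1 (Set.toFinite _)).trans
    ((Set.ncard_image_le (Set.toFinite _)).trans ?_)
  rw [Set.ncard_univ, Nat.card_fun, Nat.card_fin, Nat.card_coe_set_eq]

/-- the budget -/
noncomputable def recursion2_Q (t h : ℝ) : ℝ :=
  if h ≤ t then 0 else (t / 2) * (2 - 1 / Real.sqrt (h / t))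

theorem recursion2_Q_le {t h : ℝ} (ht : 0 < t) : recursion2_Q t h ≤ t := by
  unfold recursion2_Q
  split_ifs
  · exact ht.le
  · have : 0 ≤ 1 / Real.sqrt (h / t) := by positivity
    nlinarith

/-- the extra budget for crossings -/
noncomputable def recursion2_E (Δ : ℕ) (t h : ℝ) : ℝ :=
  if h ≤ t then 0 else 2 * Δ * (1 + Real.log (h / t))

theorem recursion2_E_nonneg {Δ : ℕ} {t h : ℝ} (ht : 0 < t) : 0 ≤ recursion2_E Δ t h := by
  unfold recursion2_E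
  split_ifs with hc
  · exact le_refl _
  · push Not at hc
    have h1 : 1 ≤ h / t := by rw [le_div_iff₀ ht]; linarith
    have h2 := Real.log_nonneg h1
    positivity

theorem recursion2_E_le {Δ : ℕ} {t h : ℝ} (ht : 0 < t) (hh : 0 ≤ h) :
    recursion2_E Δ t h ≤ 2 * Δ * (1 + Real.log (1 + h / t)) := by
  have h0 : 0 ≤ h / t := by positivity
  unfold recursion2_E
  split_ifs with hc
  · have h2 : 0 ≤ Real.log (1 + h / t) := Real.log_nonneg (by linarith)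
    positivity
  · push Not at hc
    have h1 : 1 ≤ h / t := by rw [le_div_iff₀ ht]; linarith
    have h2 : Real.log (h / t) ≤ Real.log (1 + h / t) :=
      Real.log_le_log (by linarith) (by linarith)
    have h3 : (0 : ℝ) ≤ 2 * Δ := by positivity
    nlinarith

theorem recursion2_E_step {Δ : ℕ} {s t h h' : ℝ} (hs : 4 ≤ s) (ht : 0 < t) (hh : t < h)
    (h1 : h' ≤ h / s ^ 2) : recursion2_E Δ t h' + 2 * Δ ≤ recursion2_E Δ t h := by
  have hd : (0 : ℝ) ≤ 2 * Δ := by positivity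
  have hz : 1 ≤ h / t := by rw [le_div_iff₀ ht]; linarith
  have hl := Real.log_nonneg hz
  unfold recursion2_E
  rw [if_neg (not_le.2 hh)]
  split_ifs with hc
  · nlinarith
  · push Not at hc
    have h0' : 0 < h' := ht.trans hc
    have h2 : h' / t ≤ (h / t) / 16 := by
      have h3 : h / s ^ 2 ≤ h / 16 :=
        div_le_div_of_nonneg_left (by linarith) (by norm_num) (by nlinarith)
      have h4 : h' ≤ h / 16 := h1.trans h3
      calc h' / t ≤ (h / 16) / t := div_le_div_of_nonneg_right h4 ht.le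
        _ = (h / t) / 16 := by ring
    have h5 : Real.log (h' / t) ≤ Real.log ((h / t) / 16) :=
      Real.log_le_log (by positivity) h2
    have h10 : Real.log ((h / t) / 16) = Real.log (h / t) - Real.log 16 :=
      Real.log_div (by linarith) (by norm_num)
    rw [h10] at h5
    have h6 : (1 : ℝ) ≤ Real.log 16 := by
      have h7 : Real.log 16 = 4 * Real.log 2 := by
        rw [show (16 : ℝ) = 2 ^ 4 by norm_num, Real.log_pow]; norm_num
      have h8 := Real.log_two_gt_d9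
      rw [h7]; linarith
    have h9 : Real.log (h' / t) + 1 ≤ Real.log (h / t) := by linarith
    nlinarith

theorem recursion2_Phi_le {D : ℕ} {A B t h v : ℝ} (hA : 0 ≤ A) (hB : 0 ≤ B) (ht : 0 < t)
    (hh : 0 ≤ h) (hv : v ≤ h ^ D) (hD : 1 ≤ D) :
    Phi D A B t h v ≤ 1 + (A + B) * (h / t) ^ D := by
  unfold Phi
  split_ifs with hc
  · have : 0 ≤ (A + B) * (h / t) ^ D := by positivity
    linarith
  · push Not at hc
    have hz1 : 1 ≤ h / t := by rw [le_div_iff₀ ht]; linarith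
    have hz : 1 ≤ Real.sqrt (h / t) := by
      rw [Real.le_sqrt' one_pos]; simpa using hz1
    have h1 : (Real.sqrt (h / t)) ^ (2 * D - 1) ≤ (h / t) ^ D := by
      calc (Real.sqrt (h / t)) ^ (2 * D - 1) ≤ (Real.sqrt (h / t)) ^ (2 * D) :=
            pow_le_pow_right₀ hz (by omega)
        _ = (h / t) ^ D := by rw [pow_mul, Real.sq_sqrt (by positivity)]
    have h2 : v / t ^ D ≤ (h / t) ^ D := by
      rw [div_pow]
      exact div_le_div_of_nonneg_right hv (by positivity)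
    have h3 : 1 - 1 / (2 * Real.sqrt (h / t)) ≤ 1 := by
      have : 0 ≤ 1 / (2 * Real.sqrt (h / t)) := by positivity
      linarith
    have h4 : 0 ≤ 1 - 1 / (2 * Real.sqrt (h / t)) := by
      have : 1 / (2 * Real.sqrt (h / t)) ≤ 1 := by
        rw [div_le_one (by positivity)]; linarith
      linarith
    have h5 : B * (v / t ^ D) * (1 - 1 / (2 * Real.sqrt (h / t))) ≤ B * (h / t) ^ D := by
      calc B * (v / t ^ D) * (1 - 1 / (2 * Real.sqrt (h / t)))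
          ≤ B * (h / t) ^ D * (1 - 1 / (2 * Real.sqrt (h / t))) :=
            mul_le_mul_of_nonneg_right (mul_le_mul_of_nonneg_left h2 hB) h4
        _ ≤ B * (h / t) ^ D * 1 := mul_le_mul_of_nonneg_left h3 (by positivity)
        _ = _ := by ring
    have h6 : A * (Real.sqrt (h / t)) ^ (2 * D - 1) ≤ A * (h / t) ^ D :=
      mul_le_mul_of_nonneg_left h1 hA
    nlinarith

theorem recursion2_main (D : ℕ) (hD : 2 ≤ D) (s Cs Np δ : ℝ) (hs : 4 ≤ s)
    (A B : ℝ) (t : ℝ) (ht : 0 < t)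
    (hnum : ∀ h v : ℝ, t < h → 0 ≤ v →
      ∀ (α β : Type) (T : Finset α) (L : α → Finset β) (hh vv : α → β → ℝ),
      (∀ a ∈ T, ∀ b ∈ L a, 0 ≤ hh a b ∧ 0 ≤ vv a b) →
      (∀ a ∈ T, ((L a).card : ℝ) ≤ 5 * (Real.sqrt (h / t)) ^ 3) →
      (∀ a ∈ T, ∑ b ∈ L a, hh a b ≤ h / s ^ 2) →
      (∑ a ∈ T, ∑ b ∈ L a, vv a b ≤ v) →
      (T.card : ℝ) ≤ Cs → (v < δ * h ^ D → (T.card : ℝ) ≤ Np) →
      ∑ a ∈ T, ∑ b ∈ L a, Phi D A B t (hh a b) (vv a b) ≤ Phi D A B t h v)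
    (V : Type) [NormedAddCommGroup V] [NormedSpace ℝ V] [FiniteDimensional ℝ V]
    (hV : Module.finrank ℝ V = D) (hW : WCut V D s Cs Np δ)
    (ι : Type) [Fintype ι] (M : ι → Set (V × ℝ)) (ψ : ι → Fin (D + 1) → (V →ᵃ[ℝ] ℝ))
    (ℓ : ι → (V →ᵃ[ℝ] ℝ)) (Δ : ℕ) (hM : ∀ i, IsMem (M i) (ψ i) (ℓ i)) (hdeg : DegLe M ℓ Δ)
    (N : ℕ) :
    ∀ (w : Fin (D + 1) → V) (a b : V →ᵃ[ℝ] ℝ), GoodC w a b →
      ∀ I : Finset ι, InShM M ψ w a b I → (HH ψ w I).ncard = N →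
      ∃ C : Finset ((Fin (D + 1) → V) × (V →ᵃ[ℝ] ℝ) × (V →ᵃ[ℝ] ℝ)),
        (∀ c ∈ C, GoodC c.1 c.2.1 c.2.2) ∧
        (⋃ c ∈ C, Body c.1 c.2.1 c.2.2) = Body w a b ∧
        (∀ c ∈ C, ∀ c' ∈ C, c ≠ c' →
          Disjoint (OBody c.1 c.2.1 c.2.2) (OBody c'.1 c'.2.1 c'.2.2)) ∧
        (∀ c ∈ C, (({i | i ∈ I ∧ (M i ∩ OBody c.1 c.2.1 c.2.2).Nonempty}.ncard : ℕ) : ℝ) ≤
          t + recursion2_Q t N + recursion2_E Δ t N) ∧
        (C.card : ℝ) ≤ Phi D A B t N ((VV ψ w I).ncard : ℝ) := by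
  classical
  induction N using Nat.strong_induction_on with
  | _ N ih =>
  intro w a b hg I hI hN
  have hIN : I.card ≤ N := by rw [← hN]; exact recursion2_card_le hI
  by_cases hNt : (N : ℝ) ≤ t
  · refine ⟨{(w, a, b)}, ?_, ?_, ?_, ?_, ?_⟩
    · intro c hc
      rw [Finset.mem_singleton] at hc
      subst hc
      exact hg
    · simp
    · intro c hc c' hc' hne
      rw [Finset.mem_singleton] at hc hc'
      exact absurd (hc.trans hc'.symm) hne
    · intro c _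
      have h1 : {i | i ∈ I ∧ (M i ∩ OBody c.1 c.2.1 c.2.2).Nonempty}.ncard ≤ I.card := by
        rw [← Set.ncard_coe_finset]
        exact Set.ncard_le_ncard (fun i hi => hi.1) (Set.toFinite _)
      have h2 : (({i | i ∈ I ∧ (M i ∩ OBody c.1 c.2.1 c.2.2).Nonempty}.ncard : ℕ) : ℝ) ≤ N := by
        exact_mod_cast h1.trans hIN
      have h3 : 0 ≤ recursion2_E Δ t N := recursion2_E_nonneg ht
      unfold recursion2_Q
      rw [if_pos hNt]
      linarith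
    · unfold Phi
      rw [if_pos hNt]
      simp
  · push Not at hNt
    have hNpos : (0 : ℝ) < N := ht.trans hNt
    have hcard : Fintype.card (HH ψ w I) = N := by
      rw [← hN, ← Nat.card_eq_fintype_card]; rfl
    obtain ⟨T, hT, hT1, hT2, hT3⟩ := hW (HH ψ w I) (fun x => ψ x.1.1 x.1.2) w hg.1
      (fun x => (hM _).lin _) (by rw [hcard]; exact_mod_cast hNpos)
    rw [hcard] at hT1 hT3
    obtain ⟨q, hq1, hq2, hq3, hq4⟩ := budget_step s hs t N ht hNt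
    obtain ⟨Λ, J, c1, c2, c3, c4, c5, c6, c7, c8⟩ := cell_step2 D (by omega) hV M ψ ℓ Δ hM hdeg w a b hg
      I hI T hT q hq1
    have hTsub : ∀ τ ∈ T, Cv τ ⊆ Cv w := by
      intro τ hτ
      rw [← hT.union]
      exact Set.subset_biUnion_of_mem (u := fun t => Cv t) hτ
    have hs2 : (N : ℝ) / s ^ 2 < N := by
      rw [div_lt_iff₀ (by positivity)]
      have : (1 : ℝ) < s ^ 2 := by nlinarith
      nlinarith
    have hHτ : ∀ τ ∈ T, ((HH ψ τ I).ncard : ℝ) ≤ N / s ^ 2 := by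
      intro τ hτ
      refine le_trans ?_ (hT1 τ hτ)
      exact_mod_cast recursion2_HH_cross ψ I (hTsub τ hτ)
    have hsmall : ∀ τ ∈ T, ∀ p ∈ Λ τ, ((HH ψ τ (J τ p)).ncard : ℝ) ≤ N / s ^ 2 := by
      intro τ hτ p hp
      refine le_trans ?_ (hHτ τ hτ)
      exact_mod_cast recursion2_HH_mono (c5 τ hτ p hp).1
    have key : ∀ τ ∈ T, ∀ p ∈ Λ τ,
        ∃ C : Finset ((Fin (D + 1) → V) × (V →ᵃ[ℝ] ℝ) × (V →ᵃ[ℝ] ℝ)),
        (∀ c ∈ C, GoodC c.1 c.2.1 c.2.2) ∧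
        (⋃ c ∈ C, Body c.1 c.2.1 c.2.2) = Body τ p.1 p.2 ∧
        (∀ c ∈ C, ∀ c' ∈ C, c ≠ c' →
          Disjoint (OBody c.1 c.2.1 c.2.2) (OBody c'.1 c'.2.1 c'.2.2)) ∧
        (∀ c ∈ C, (({i | i ∈ J τ p ∧ (M i ∩ OBody c.1 c.2.1 c.2.2).Nonempty}.ncard : ℕ) : ℝ) ≤
          t + recursion2_Q t ((HH ψ τ (J τ p)).ncard : ℝ) +
            recursion2_E Δ t ((HH ψ τ (J τ p)).ncard : ℝ)) ∧
        (C.card : ℝ) ≤ Phi D A B t ((HH ψ τ (J τ p)).ncard : ℝ) ((VV ψ τ (J τ p)).ncard : ℝ) := by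
      intro τ hτ p hp
      have hlt : (HH ψ τ (J τ p)).ncard < N := by
        exact_mod_cast (hsmall τ hτ p hp).trans_lt hs2
      exact ih _ hlt τ p.1 p.2 (c2 τ hτ p hp) (J τ p) (c5 τ hτ p hp).2 rfl
    choose! C hC1 hC2 hC3 hC4 hC5 using key
    have hsub : ∀ τ ∈ T, ∀ p ∈ Λ τ, ∀ c ∈ C τ p,
        Body c.1 c.2.1 c.2.2 ⊆ Body τ p.1 p.2 := by
      intro τ hτ p hp c hc
      rw [← hC2 τ hτ p hp]
      exact Set.subset_biUnion_of_mem (u := fun c => Body c.1 c.2.1 c.2.2) hc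
    refine ⟨T.biUnion (fun τ => (Λ τ).biUnion (fun p => C τ p)), ?_, ?_, ?_, ?_, ?_⟩
    · intro c hc
      simp only [Finset.mem_biUnion] at hc
      obtain ⟨τ, hτ, p, hp, hc⟩ := hc
      exact hC1 τ hτ p hp c hc
    · rw [← c3]
      ext z
      simp only [Finset.mem_biUnion, Set.mem_iUnion, exists_prop]
      constructor
      · rintro ⟨c, ⟨τ, hτ, p, hp, hc⟩, hz⟩
        exact ⟨τ, hτ, p, hp, hsub τ hτ p hp c hc hz⟩
      · rintro ⟨τ, hτ, p, hp, hz⟩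
        rw [← hC2 τ hτ p hp] at hz
        simp only [Set.mem_iUnion, exists_prop] at hz
        obtain ⟨c, hc, hz⟩ := hz
        exact ⟨c, ⟨τ, hτ, p, hp, hc⟩, hz⟩
    · intro c hc c' hc' hne
      simp only [Finset.mem_biUnion] at hc hc'
      obtain ⟨τ, hτ, p, hp, hc⟩ := hc
      obtain ⟨τ', hτ', p', hp', hc'⟩ := hc'
      by_cases he : (τ, p) = (τ', p')
      · obtain ⟨rfl, rfl⟩ := Prod.mk.inj he
        exact hC3 τ hτ p hp c hc c' hc' hne
      · exact (c4 τ hτ p hp τ' hτ' p' hp' he).mono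
          (recursion2_obody (hsub τ hτ p hp c hc)) (recursion2_obody (hsub τ' hτ' p' hp' c' hc'))
    · intro c hc
      simp only [Finset.mem_biUnion] at hc
      obtain ⟨τ, hτ, p, hp, hc⟩ := hc
      have h1 : {i | i ∈ I ∧ (M i ∩ OBody c.1 c.2.1 c.2.2).Nonempty} ⊆
          {i | i ∈ J τ p ∧ (M i ∩ OBody c.1 c.2.1 c.2.2).Nonempty} ∪
          {i | i ∈ I ∧ i ∉ J τ p ∧ (M i ∩ OBody τ p.1 p.2).Nonempty} := by
        rintro i ⟨hi, hm⟩
        by_cases hiJ : i ∈ J τ p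
        · exact Or.inl ⟨hiJ, hm⟩
        · exact Or.inr ⟨hi, hiJ, recursion2_meets (hsub τ hτ p hp c hc) hm⟩
      have h2 := (Set.ncard_le_ncard h1 (Set.toFinite _)).trans (Set.ncard_union_le _ _)
      have h3 := c6 τ hτ p hp
      have h4 := hC4 τ hτ p hp c hc
      have h5 : (({i | i ∈ I ∧ i ∉ J τ p ∧ (M i ∩ OBody τ p.1 p.2).Nonempty}.ncard : ℕ) : ℝ) ≤
          (q : ℝ) - 1 + 2 * Δ := by
        have : {i | i ∈ I ∧ i ∉ J τ p ∧ (M i ∩ OBody τ p.1 p.2).Nonempty}.ncard + 1 ≤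
          q + 2 * Δ := h3
        have h6 : (({i | i ∈ I ∧ i ∉ J τ p ∧ (M i ∩ OBody τ p.1 p.2).Nonempty}.ncard : ℕ) : ℝ) + 1 ≤
            q + 2 * Δ := by exact_mod_cast this
        linarith
      have h6 : (({i | i ∈ I ∧ (M i ∩ OBody c.1 c.2.1 c.2.2).Nonempty}.ncard : ℕ) : ℝ) ≤
          (({i | i ∈ J τ p ∧ (M i ∩ OBody c.1 c.2.1 c.2.2).Nonempty}.ncard : ℕ) : ℝ) +
          (({i | i ∈ I ∧ i ∉ J τ p ∧ (M i ∩ OBody τ p.1 p.2).Nonempty}.ncard : ℕ) : ℝ) := by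
        exact_mod_cast h2
      have h7 : recursion2_Q t ((HH ψ τ (J τ p)).ncard : ℝ) + ((q : ℝ) - 1) ≤ recursion2_Q t N := by
        by_cases h8 : ((HH ψ τ (J τ p)).ncard : ℝ) ≤ t
        · unfold recursion2_Q
          rw [if_pos h8, if_neg (not_le.2 hNt)]
          linarith
        · unfold recursion2_Q
          rw [if_neg h8, if_neg (not_le.2 hNt)]
          exact hq4 _ (not_le.1 h8) (hsmall τ hτ p hp)
      have h9 := recursion2_E_step (Δ := Δ) hs ht hNt (hsmall τ hτ p hp)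
      linarith
    · have h1 : ((T.biUnion (fun τ => (Λ τ).biUnion (fun p => C τ p))).card : ℝ) ≤
          ∑ τ ∈ T, ∑ p ∈ Λ τ, ((C τ p).card : ℝ) := by
        have h2 : (T.biUnion (fun τ => (Λ τ).biUnion (fun p => C τ p))).card ≤
            ∑ τ ∈ T, ∑ p ∈ Λ τ, (C τ p).card :=
          Finset.card_biUnion_le.trans (Finset.sum_le_sum fun τ _ => Finset.card_biUnion_le)
        exact_mod_cast h2
      have h2 : ∑ τ ∈ T, ∑ p ∈ Λ τ, ((C τ p).card : ℝ) ≤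
          ∑ τ ∈ T, ∑ p ∈ Λ τ,
            Phi D A B t ((HH ψ τ (J τ p)).ncard : ℝ) ((VV ψ τ (J τ p)).ncard : ℝ) :=
        Finset.sum_le_sum fun τ hτ => Finset.sum_le_sum fun p hp => hC5 τ hτ p hp
      have h3 := hnum N ((VV ψ w I).ncard : ℝ) hNt (Nat.cast_nonneg _)
        (Fin (D + 1) → V) ((V →ᵃ[ℝ] ℝ) × (V →ᵃ[ℝ] ℝ)) T Λ
        (fun τ p => ((HH ψ τ (J τ p)).ncard : ℝ)) (fun τ p => ((VV ψ τ (J τ p)).ncard : ℝ))
        (fun _ _ _ _ => ⟨Nat.cast_nonneg _, Nat.cast_nonneg _⟩)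
        (by
          intro τ hτ
          refine le_trans ?_ (hq2 I.card (by exact_mod_cast hIN))
          exact_mod_cast c1 τ hτ)
        (by
          intro τ hτ
          refine le_trans ?_ (hHτ τ hτ)
          exact_mod_cast c7 τ hτ)
        (by exact_mod_cast c8)
        hT2
        (by
          intro hlt
          apply hT3
          refine lt_of_le_of_lt ?_ hlt
          exact_mod_cast recursion2_vert ψ w I)
      exact h1.trans (h2.trans h3)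

/-! TARGET `recursion2`. This is a variant of the theorem `recursion` of job 2069 (done; get its full proof by
`SELECT result FROM jobs WHERE id=2069`) and the proof is the same with small changes: `InSh` is replaced by `InShM`, `MeetsC` by
`(M i ∩ OBody ..).Nonempty`, the noncrossing hypothesis by `hM` and `DegLe M ℓ Δ`, and `cell_step` by `cell_step2`, where the members which
are dropped at one step are fewer than `q + 2 * Δ` (instead of `q`). So in `recursion_main` the conflict bound `t + recursion_Q t N` becomes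
`t + recursion_Q t N + E Δ t N` with `E Δ t h = if h ≤ t then 0 else 2 * Δ * (1 + Real.log (h / t))`; the induction step needs
`E Δ t h' + 2 * Δ ≤ E Δ t h` for `t < h`, `h' ≤ h / s ^ 2` (`s ≥ 4`, so `log (h' / t) ≤ log (h / t) - log 16 ≤ log (h / t) - 1`, as `log 16 = 4 log 2 ≥ 1`;
if `h' ≤ t` it is `2 * Δ ≤ 2 * Δ * (1 + log (h / t))`). At the end `E Δ t h ≤ 2 * Δ * (1 + Real.log (1 + h / t))` and `recursion_Q ≤ t`. A member meeting a
smaller body meets the larger one (`recursion_obody`: open bodies are in open bodies). Reuse the auxiliary lemmas of that proof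
(renamed). The linear parts of the `ψ i k` are nonzero by `(hM i).lin`. -/

theorem recursion2 (D : ℕ) (hD : 2 ≤ D) (s Cs Np δ : ℝ) (hs : 4 ≤ s) (hCs : 0 ≤ Cs) (hNp : 0 ≤ Np)
    (h2 : 2 * Np ≤ s ^ (2 * D - 1)) (hδ : 0 < δ) :
    ∃ A : ℝ, 0 ≤ A ∧ ∀ (V : Type) [NormedAddCommGroup V] [NormedSpace ℝ V]
      [FiniteDimensional ℝ V], Module.finrank ℝ V = D → WCut V D s Cs Np δ →
      ∀ (ι : Type) [Fintype ι] (M : ι → Set (V × ℝ)) (ψ : ι → Fin (D + 1) → (V →ᵃ[ℝ] ℝ))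
      (ℓ : ι → (V →ᵃ[ℝ] ℝ)) (Δ : ℕ), (∀ i, IsMem (M i) (ψ i) (ℓ i)) → DegLe M ℓ Δ →
      ∀ t : ℝ, 0 < t → ∀ (w : Fin (D + 1) → V) (a b : V →ᵃ[ℝ] ℝ), GoodC w a b →
      ∀ I : Finset ι, InShM M ψ w a b I →
      ∃ C : Finset ((Fin (D + 1) → V) × (V →ᵃ[ℝ] ℝ) × (V →ᵃ[ℝ] ℝ)),
        (∀ c ∈ C, GoodC c.1 c.2.1 c.2.2) ∧
        (⋃ c ∈ C, Body c.1 c.2.1 c.2.2) = Body w a b ∧
        (∀ c ∈ C, ∀ c' ∈ C, c ≠ c' →
          Disjoint (OBody c.1 c.2.1 c.2.2) (OBody c'.1 c'.2.1 c'.2.2)) ∧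
        (∀ c ∈ C, (({i | i ∈ I ∧ (M i ∩ OBody c.1 c.2.1 c.2.2).Nonempty}.ncard : ℕ) : ℝ) ≤
          2 * t + 2 * Δ * (1 + Real.log (1 + ((HH ψ w I).ncard : ℝ) / t))) ∧
        (C.card : ℝ) ≤ 1 + A * (((HH ψ w I).ncard : ℝ) / t) ^ D := by
  obtain ⟨A, B, hA, hB, hnum⟩ := numeric_step D hD s Cs Np δ hs hCs hNp h2 hδ
  refine ⟨A + B, by linarith, ?_⟩
  intro V _ _ _ hV hW ι _ M ψ ℓ Δ hM hdeg t ht w a b hg I hI
  obtain ⟨C, h1, h2, h3, h4, h5⟩ := recursion2_main D hD s Cs Np δ hs A B t ht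
    (fun h v hth hv => hnum t ht h v hth hv) V hV hW ι M ψ ℓ Δ hM hdeg _ w a b hg I hI rfl
  refine ⟨C, h1, h2, h3, ?_, ?_⟩
  · intro c hc
    have h6 := h4 c hc
    have h7 := recursion2_Q_le (t := t) (h := ((HH ψ w I).ncard : ℝ)) ht
    have h8 := recursion2_E_le (Δ := Δ) (t := t) (h := ((HH ψ w I).ncard : ℝ)) ht
      (Nat.cast_nonneg _)
    linarith
  · refine h5.trans (recursion2_Phi_le (by linarith) hB ht (Nat.cast_nonneg _) ?_ (by omega))
    exact_mod_cast recursion2_VV_le ψ w I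

end Pool.Agent.H889
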