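import Pool.Agent.Helper889_Cut.WeakCut
import Pool.Agent.Helper889_Cut.Rec2
import Pool.Agent.Helper889_Cut.BodyTri
import Pool.Agent.Helper889_Cut.ProjDir
import Pool.Agent.Helper889_Cut.Graph
import Pool.Agent.Helper889_Cut.Root

/-! The final assembly, for members which may cross. -/

set_option autoImplicit false
open Set

namespace Pool.Agent.H889

variable {V : Type} [NormedAddCommGroup V] [NormedSpace ℝ V]

section final2aux

variable {W₁ W₂ : Type} [NormedAddCommGroup W₁] [NormedSpace ℝ W₁] [NormedAddCommGroup W₂]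
  [NormedSpace ℝ W₂]

theorem final2_Cv (Φ : W₁ ≃L[ℝ] W₂) {m : ℕ} (t : Fin m → W₁) :
    Cv (fun k => Φ (t k)) = Φ '' Cv t := by
  unfold Cv
  have h := (Φ.toLinearEquiv.toLinearMap).image_convexHull (range t)
  have h2 : (range fun k => Φ (t k)) = Φ '' range t := by
    rw [← Set.range_comp]
    rfl
  rw [h2]
  exact h.symm

theorem final2_int (Φ : W₁ ≃L[ℝ] W₂) (s : Set W₁) : interior (Φ '' s) = Φ '' interior s :=
  (Φ.toHomeomorph.image_interior s).symm

theorem final2_aff (Φ : W₁ ≃L[ℝ] W₂) {m : ℕ} {t : Fin m → W₁} (ht : AffineIndependent ℝ t) :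
    AffineIndependent ℝ (fun k => Φ (t k)) :=
  ht.map' Φ.toLinearEquiv.toLinearMap.toAffineMap Φ.injective

end final2aux

/-- the open region of a simplex is not empty -/
theorem final2_Op_ne {m : ℕ} (y : Fin (m + 1) → V) : (Op y).Nonempty := by
  refine ⟨∑ k, (1 / ((m : ℝ) + 1)) • y k, fun _ => 1 / ((m : ℝ) + 1), fun _ => by positivity, ?_, rfl⟩
  rw [Finset.sum_const, Finset.card_univ, Fintype.card_fin, nsmul_eq_mul]
  push_cast
  field_simp

theorem final2_short [FiniteDimensional ℝ V] {D : ℕ} (hD : 1 ≤ D) (hV : Module.finrank ℝ V = D)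
    (ψ : Fin (D + 1) → (V →ᵃ[ℝ] ℝ)) (u : Fin (D + 1) → V)
    (h1 : ∀ x, (∀ k, 0 ≤ ψ k x) ↔ x ∈ Cv u) (h2 : ∀ x, (∀ k, 0 < ψ k x) ↔ x ∈ interior (Cv u)) :
    ∃ x, (∀ k, 0 ≤ ψ k x) ∧ ∃ k, ψ k x = 0 := by
  by_contra hcon
  push Not at hcon
  have hsub : Cv u ⊆ interior (Cv u) := by
    intro x hx
    rw [← h2]
    intro k
    have h3 := (h1 x).2 hx
    exact lt_of_le_of_ne (h3 k) (Ne.symm (hcon x h3 k))
  have hopen : IsOpen (Cv u) := by
    rw [← interior_eq_iff_isOpen]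
    exact Subset.antisymm interior_subset hsub
  have hcomp : IsCompact (Cv u) := (Set.finite_range u).isCompact_convexHull ℝ
  have hne : (Cv u).Nonempty := ⟨u 0, subset_convexHull ℝ _ ⟨0, rfl⟩⟩
  have hclopen : IsClopen (Cv u) := ⟨hcomp.isClosed, hopen⟩
  have huniv : Cv u = univ := hclopen.eq_univ hne
  have hnt : Nontrivial V := by
    have : 0 < Module.finrank ℝ V := by omega
    exact Module.nontrivial_of_finrank_pos this
  have hb : Bornology.IsBounded (univ : Set V) := by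
    rw [← huniv]
    exact hcomp.isBounded
  exact NormedSpace.unbounded_univ ℝ V hb

theorem final2_Op {W₁ W₂ : Type} [NormedAddCommGroup W₁] [NormedSpace ℝ W₁] [NormedAddCommGroup W₂]
    [NormedSpace ℝ W₂] (Φ : W₁ ≃L[ℝ] W₂) {m : ℕ} {t : Fin m → W₁} {q : W₂}
    (hq : q ∈ Op (fun k => Φ (t k))) : Φ.symm q ∈ Op t := by
  obtain ⟨w, h1, h2, h3⟩ := hq
  refine ⟨w, h1, h2, ?_⟩
  rw [h3, map_sum]
  refine Finset.sum_congr rfl fun k _ => ?_
  rw [map_smul, ContinuousLinearEquiv.symm_apply_apply]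

theorem final2_card {D n : ℕ} {c0 A r t H k Cc : ℝ} (hc0 : 0 ≤ c0) (hA : 0 ≤ A) (hr : 1 ≤ r)
    (hn : 0 < (n : ℝ)) (ht : t = (n : ℝ) / (8 * r)) (hH0 : 0 ≤ H)
    (hH : H ≤ (n : ℝ) * ((D : ℝ) + 1)) (hC : Cc ≤ 1 + A * (H / t) ^ D) (hk : k ≤ Cc * c0) :
    k ≤ (c0 * (1 + A * (8 * ((D : ℝ) + 1)) ^ D) + 1) * r ^ D := by
  have hr0 : 0 < r := by linarith
  have ht0 : 0 < t := by rw [ht]; positivity
  have h1 : H / t ≤ 8 * ((D : ℝ) + 1) * r := by
    rw [div_le_iff₀ ht0, ht]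
    refine hH.trans (le_of_eq ?_)
    field_simp
  have h2 : (H / t) ^ D ≤ (8 * ((D : ℝ) + 1)) ^ D * r ^ D := by
    rw [← mul_pow]
    exact pow_le_pow_left₀ (by positivity) h1 D
  have h3 : 1 ≤ r ^ D := one_le_pow₀ hr
  have h4 : Cc ≤ (1 + A * (8 * ((D : ℝ) + 1)) ^ D) * r ^ D := by
    have h5 : A * (H / t) ^ D ≤ A * ((8 * ((D : ℝ) + 1)) ^ D * r ^ D) :=
      mul_le_mul_of_nonneg_left h2 hA
    nlinarith
  have h6 := mul_le_mul_of_nonneg_right h4 hc0
  nlinarith

theorem final2_Op_convex {m : ℕ} (t : Fin m → V) : Convex ℝ (Op t) := by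
  rintro x ⟨w, hw1, hw2, rfl⟩ z ⟨w', hw1', hw2', rfl⟩ a b ha hb hab
  refine ⟨fun k => a * w k + b * w' k, ?_, ?_, ?_⟩
  · intro k
    have h1 : 0 ≤ a * w k := mul_nonneg ha (hw1 k).le
    have h2 : 0 ≤ b * w' k := mul_nonneg hb (hw1' k).le
    rcases ha.lt_or_eq with h | h
    · have := mul_pos h (hw1 k)
      linarith
    · have hb' : 0 < b := by linarith
      have := mul_pos hb' (hw1' k)
      linarith
  · rw [Finset.sum_add_distrib, ← Finset.mul_sum, ← Finset.mul_sum, hw2, hw2', mul_one, mul_one, hab]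
  · rw [Finset.smul_sum, Finset.smul_sum, ← Finset.sum_add_distrib]
    refine Finset.sum_congr rfl fun k _ => ?_
    rw [smul_smul, smul_smul, add_smul]

theorem final2_Op_sub_Cv {m : ℕ} (t : Fin m → V) : Op t ⊆ Cv t := by
  rintro x ⟨w, hw1, hw2, rfl⟩
  exact (convex_convexHull ℝ (range t)).sum_mem (fun k _ => (hw1 k).le) hw2
    (fun k _ => subset_convexHull ℝ _ ⟨k, rfl⟩)

theorem final2_mix {m : ℕ} (t : Fin m → V) {x x0 : V} (hx : x ∈ Cv t) (hx0 : x0 ∈ Op t) {θ : ℝ}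
    (h0 : 0 < θ) (h1 : θ < 1) : (1 - θ) • x + θ • x0 ∈ Op t := by
  have hsub : Cv t ⊆ {x : V | (1 - θ) • x + θ • x0 ∈ Op t} := by
    refine convexHull_min ?_ ?_
    · rintro _ ⟨k, rfl⟩
      obtain ⟨w, hw1, hw2, rfl⟩ := hx0
      refine ⟨fun j => (if j = k then (1 - θ) else 0) + θ * w j, ?_, ?_, ?_⟩
      · intro j
        have h2 := mul_pos h0 (hw1 j)
        dsimp only
        split_ifs
        · linarith
        · linarith
      · rw [Finset.sum_add_distrib, ← Finset.mul_sum, hw2]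
        simp
      · rw [Finset.smul_sum]
        simp_rw [add_smul]
        rw [Finset.sum_add_distrib]
        congr 1
        · simp [ite_smul]
        · refine Finset.sum_congr rfl fun j _ => ?_
          rw [smul_smul]
    · intro y hy z hz a b ha hb hab
      have h2 := final2_Op_convex t hy hz ha hb hab
      have e : (1 - θ) • (a • y + b • z) + θ • x0 =
          a • ((1 - θ) • y + θ • x0) + b • ((1 - θ) • z + θ • x0) := by
        have e1 : θ • x0 = a • θ • x0 + b • θ • x0 := by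
          rw [← add_smul, hab, one_smul]
        rw [smul_add, smul_add, smul_add, smul_comm (1 - θ) a, smul_comm (1 - θ) b]
        nth_rewrite 1 [e1]
        abel
      show (1 - θ) • (a • y + b • z) + θ • x0 ∈ Op t
      rw [e]
      exact h2
  exact hsub hx

theorem final2_near {m : ℕ} (t : Fin m → V) {x x0 : V} (hx : x ∈ Cv t) (hx0 : x0 ∈ Op t) {U : Set V}
    (hU : IsOpen U) (hxU : x ∈ U) : (Op t ∩ U).Nonempty := by
  have h1 : Filter.Tendsto (fun θ : ℝ => (1 - θ) • x + θ • x0) (nhdsWithin 0 (Ioi 0)) (nhds x) := by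
    have h2 : Continuous (fun θ : ℝ => (1 - θ) • x + θ • x0) := by fun_prop
    have h3 := h2.tendsto 0
    simp only [sub_zero, one_smul, zero_smul, add_zero] at h3
    exact h3.mono_left nhdsWithin_le_nhds
  have h4 := h1.eventually (hU.mem_nhds hxU)
  have h5 : ∀ᶠ θ : ℝ in nhdsWithin 0 (Ioi 0), θ ∈ Ioo (0 : ℝ) 1 := Ioo_mem_nhdsGT one_pos
  obtain ⟨θ, hθ1, hθ2⟩ := (h4.and h5).exists
  exact ⟨_, final2_mix t hx hx0 hθ2.1 hθ2.2, hθ1⟩

/-- an affine function without zeros on a convex set has constant sign -/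
theorem final2_sign (g : V →ᵃ[ℝ] ℝ) {G : Set V} (hG : Convex ℝ G) (h0 : ∀ x ∈ G, g x ≠ 0) {x x' : V}
    (hx : x ∈ G) (hx' : x' ∈ G) (hneg : g x < 0) : g x' < 0 := by
  by_contra hcon
  have hpos : 0 < g x' := lt_of_le_of_ne (not_lt.1 hcon) (Ne.symm (h0 x' hx'))
  have hd : 0 < g x' - g x := by linarith
  have hmem : (g x' / (g x' - g x)) • x + (-g x / (g x' - g x)) • x' ∈ G :=
    hG hx hx' (div_nonneg hpos.le hd.le) (div_nonneg (by linarith) hd.le) (by field_simp; ring)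
  refine h0 _ hmem ?_
  rw [Convex.combo_affine_apply (by field_simp; ring)]
  simp only [smul_eq_mul]
  field_simp
  ring

theorem final2_lin (g : V →ᵃ[ℝ] ℝ) {G : Set V} (hG : IsOpen G) (hne : G.Nonempty)
    (h0 : ∀ x ∈ G, g x = 0) : g.linear = 0 := by
  obtain ⟨x0, hx0⟩ := hne
  ext v
  have h1 : Filter.Tendsto (fun θ : ℝ => x0 + θ • v) (nhdsWithin 0 (Ioi 0)) (nhds x0) := by
    have h2 : Continuous (fun θ : ℝ => x0 + θ • v) := by fun_prop
    have h3 := h2.tendsto 0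
    simp only [zero_smul, add_zero] at h3
    exact h3.mono_left nhdsWithin_le_nhds
  have h4 := h1.eventually (hG.mem_nhds hx0)
  have h5 : ∀ᶠ θ : ℝ in nhdsWithin 0 (Ioi 0), θ ∈ Ioo (0 : ℝ) 1 := Ioo_mem_nhdsGT one_pos
  obtain ⟨θ, hθ1, hθ2⟩ := (h4.and h5).exists
  have h6 := h0 _ hθ1
  have h7 := h0 _ hx0
  have h8 : g (x0 + θ • v) = θ * g.linear v + g x0 := by
    have := g.map_vadd x0 (θ • v)
    rw [vadd_eq_add, vadd_eq_add, add_comm (θ • v) x0, map_smul, smul_eq_mul] at this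
    exact this
  rw [h8, h7, add_zero] at h6
  have h9 : θ ≠ 0 := hθ2.1.ne'
  rcases mul_eq_zero.1 h6 with h | h
  · exact absurd h h9
  · simpa using h

theorem final2_logs {D n : ℕ} {c' C r t H Δ : ℝ} (hr : 1 ≤ r) (hn : 0 < (n : ℝ))
    (ht : t = (n : ℝ) / (8 * r)) (hH0 : 0 ≤ H) (hH : H ≤ (n : ℝ) * ((D : ℝ) + 1))
    (hc' : c' = 1 + Real.log (1 + 8 * ((D : ℝ) + 1))) (hC : 4 * c' ≤ C) (hΔ0 : 0 ≤ Δ)
    (hΔ : Δ ≤ (n : ℝ) / (C * r * (1 + Real.log r))) :
    (n : ℝ) / (4 * r) + (2 * t + 2 * Δ * (1 + Real.log (1 + H / t))) ≤ (n : ℝ) / r := by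
  have hr0 : 0 < r := by linarith
  have ht0 : 0 < t := by rw [ht]; positivity
  have hD0 : (0 : ℝ) ≤ D := Nat.cast_nonneg D
  have hlr : 0 ≤ Real.log r := Real.log_nonneg hr
  have hc1 : 1 ≤ c' := by
    rw [hc']
    have : 0 ≤ Real.log (1 + 8 * ((D : ℝ) + 1)) := Real.log_nonneg (by nlinarith)
    linarith
  have hC0 : 0 < C := by linarith
  have h1 : H / t ≤ 8 * ((D : ℝ) + 1) * r := by
    rw [div_le_iff₀ ht0, ht]
    refine hH.trans (le_of_eq ?_)
    field_simp
  have hHt : 0 ≤ H / t := div_nonneg hH0 ht0.le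
  have h2 : 1 + H / t ≤ (1 + 8 * ((D : ℝ) + 1)) * r := by nlinarith
  have h3 : Real.log (1 + H / t) ≤ Real.log (1 + 8 * ((D : ℝ) + 1)) + Real.log r := by
    rw [← Real.log_mul (by positivity) hr0.ne']
    exact Real.log_le_log (by linarith) h2
  have h4 : 1 + Real.log (1 + H / t) ≤ c' * (1 + Real.log r) := by
    have : c' * (1 + Real.log r) = c' + c' * Real.log r := by ring
    rw [this]
    have h5 : Real.log r ≤ c' * Real.log r := by nlinarith
    have : c' = 1 + Real.log (1 + 8 * ((D : ℝ) + 1)) := hc'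
    linarith
  have h6 : 2 * Δ * (1 + Real.log (1 + H / t)) ≤ (n : ℝ) / (2 * r) := by
    calc 2 * Δ * (1 + Real.log (1 + H / t)) ≤ 2 * Δ * (c' * (1 + Real.log r)) :=
          mul_le_mul_of_nonneg_left h4 (by positivity)
      _ ≤ 2 * ((n : ℝ) / (C * r * (1 + Real.log r))) * (c' * (1 + Real.log r)) := by
          apply mul_le_mul_of_nonneg_right _ (by positivity)
          linarith
      _ = 2 * c' * (n : ℝ) / (C * r) := by
          have : 1 + Real.log r ≠ 0 := by positivity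
          field_simp
      _ ≤ (n : ℝ) / (2 * r) := by
          rw [div_le_div_iff₀ (by positivity) (by positivity)]
          have : 4 * c' * ((n : ℝ) * r) ≤ C * ((n : ℝ) * r) :=
            mul_le_mul_of_nonneg_right hC (by positivity)
          nlinarith
  have h7 : (n : ℝ) / (4 * r) + 2 * t + (n : ℝ) / (2 * r) = (n : ℝ) / r := by
    rw [ht]
    field_simp
    ring
  linarith

/-! TARGET `final2`. This is a variant of the theorem `final` of job 2103 (done; get its full proof by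
`SELECT result FROM jobs WHERE id=2103`), and the proof follows it closely. Differences:
* `Φ` from `proj_dir` for the given direction `u`. `y i k = Φ (p i k)`, `M i = Op (y i)` (for `i : {i // i ∉ X}`, all `i` in the root cell).
 If `u ∉ vectorSpan` (call `i` upright): `ψ i, ℓ i` from `graph_simplex`. If `u ∈ vectorSpan`: `ψ i k = χ` for all `k`, `ℓ i = 0`; then
 `χ (z.1) = 0` for all `z ∈ Cv (y i)`.
* `IsMem`: `Op` of any family is convex (weights), `lin` clear. `graph`: `i` upright: if some `ψ k` is negative at a point of `G` it is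
 negative on `G` (convex, no zeros) and no point of `M` is over `G`; otherwise all are positive on `G` (if `G` is empty either is trivial)
 and `M` is the graph over `G` by the description of `Op y`. `i` not upright: points of `M` have `χ = 0`, so they are not over `G`.
* `DegLe M ℓ Δ` with `Δ = ⌊n / (C r (1 + log r))⌋₊`: if `M j` is a graph over the nonempty open set `G` then `j` is upright (otherwise `χ = 0` on `G`,
 so `χ.linear = 0`), and `M i ∩ M j` nonempty gives a common point of the relative interiors by `Φ.symm` and `Op_subset`.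
* `InShM` for `I = univ`: inside as before (`Op (y i) ⊆ Cv (y i) ⊆ B ⊆ OBody w a b`); short: upright as before (`final_short`), not upright:
 the point `(y i 0).1 ∈ interior (Cv w)` is a zero of `χ`.
* conflicts: the interior of a simplex of `T c` is in `OBody c`, which is open (as `interior (Body ..)`); if it meets `Cv (y i)` it meets
 `Op (y i)`: for `x ∈ Cv t` and `x0 ∈ Op t`, `(1 - θ) x + θ x0 ∈ Op t` for `0 < θ ≤ 1` (weights; `x ∈ Cv t` has nonnegative weights).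
 So `M i ∩ OBody c` is nonempty.
* constants: `t = n / (8 r)`, `N = (HH ..).ncard ≤ n (D + 1)`, `N / t ≤ 8 (D + 1) r`, so
 `1 + log (1 + N / t) ≤ c' (1 + log r)` with `c' = 1 + log (1 + 8 (D + 1))` (as `1 + 8 (D + 1) r ≤ (1 + 8 (D + 1)) r`), and the number of
 conflicts of a cell is at most `X.card + 2 t + 2 Δ c' (1 + log r) ≤ n / (4 r) + n / (4 r) + 2 c' n / (C r) ≤ n / r` if `C ≥ 4 c'`.
 Number: `k ≤ c₀ (1 + A (8 (D + 1) r) ^ D) ≤ C r ^ D`. So `C = 4 c' + c₀ (1 + A (8 (D + 1)) ^ D) + 1` will do. -/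

theorem final2 : ∀ d : ℕ, 3 ≤ d → ∃ C : ℝ, 0 < C ∧
      ∀ n : ℕ, ∀ p : Fin n → Fin d → EuclideanSpace ℝ (Fin d),
        (∀ i, AffineIndependent ℝ (p i)) →
        ∀ r : ℝ, 1 ≤ r → r ≤ (n : ℝ) →
        ∀ X : Finset (Fin n), (X.card : ℝ) ≤ (n : ℝ) / (4 * r) →
        ∀ u : EuclideanSpace ℝ (Fin d), u ≠ 0 →
        (∀ i, i ∉ X → u ∉ vectorSpan ℝ (Set.range (p i)) →
          (({j : Fin n | j ∉ X ∧ j ≠ i ∧
            ¬ Disjoint (intrinsicInterior ℝ (convexHull ℝ (Set.range (p i))))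
              (intrinsicInterior ℝ (convexHull ℝ (Set.range (p j))))}.ncard : ℕ) : ℝ) ≤
            (n : ℝ) / (C * r * (1 + Real.log r))) →
        ∃ q : Fin (d + 1) → EuclideanSpace ℝ (Fin d), AffineIndependent ℝ q ∧
          (⋃ i, convexHull ℝ (Set.range (p i))) ⊆ convexHull ℝ (Set.range q) ∧
          ∃ k : ℕ, ∃ c : Fin k → Fin (d + 1) → EuclideanSpace ℝ (Fin d),
            (∀ j, AffineIndependent ℝ (c j)) ∧
            (⋃ j, convexHull ℝ (Set.range (c j))) = convexHull ℝ (Set.range q) ∧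
            (∀ j j', j ≠ j' →
              Disjoint (interior (convexHull ℝ (Set.range (c j))))
                (interior (convexHull ℝ (Set.range (c j'))))) ∧
            (∀ j, (({i : Fin n | (interior (convexHull ℝ (Set.range (c j))) ∩
                  convexHull ℝ (Set.range (p i))).Nonempty}.ncard : ℕ) : ℝ) ≤ (n : ℝ) / r) ∧
            (k : ℝ) ≤ C * r ^ (d - 1) := by
  intro d hd
  obtain ⟨D, rfl⟩ : ∃ D, d = D + 1 := ⟨d - 1, by omega⟩
  have hD : 2 ≤ D := by omega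
  have hD1 : 1 ≤ D := by omega
  obtain ⟨s, Cs, Np, δ, hs, hCs, hNp, h2, hδ, hW⟩ := wcut_exists D hD
  obtain ⟨A, hA, hrec⟩ := recursion2 D hD s Cs Np δ hs hCs hNp h2 hδ
  obtain ⟨c0, hbt⟩ := body_tri D hD1
  have hD0 : (0 : ℝ) ≤ D := Nat.cast_nonneg D
  set c' : ℝ := 1 + Real.log (1 + 8 * ((D : ℝ) + 1)) with hc'
  have hlog0 : 0 ≤ Real.log (1 + 8 * ((D : ℝ) + 1)) := Real.log_nonneg (by nlinarith)
  have hc'0 : 0 < c' := by rw [hc']; linarith
  set K : ℝ := 4 * c' + ((c0 : ℝ) * (1 + A * (8 * ((D : ℝ) + 1)) ^ D) + 1) with hK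
  have hK1 : 0 ≤ (c0 : ℝ) * (1 + A * (8 * ((D : ℝ) + 1)) ^ D) := by positivity
  have hK0 : 0 < K := by rw [hK]; linarith
  refine ⟨K, hK0, ?_⟩
  intro n p hp r hr hrn X hX u hu hdeg
  have hn : 0 < (n : ℝ) := by linarith
  have hr0 : 0 < r := by linarith
  obtain ⟨Φ, hΦ⟩ := proj_dir D u hu
  have hfin : Module.finrank ℝ (EuclideanSpace ℝ (Fin D)) = D := by simp
  have hgs : ∀ i : Fin n, ∃ (ψ : Fin (D + 1) → (EuclideanSpace ℝ (Fin D) →ᵃ[ℝ] ℝ))
      (ℓ : EuclideanSpace ℝ (Fin D) →ᵃ[ℝ] ℝ), (∀ k, (ψ k).linear ≠ 0) ∧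
      ((u ∉ vectorSpan ℝ (Set.range (p i)) ∧
        (Cv (fun k => Φ (p i k)) = {q | (∀ k, 0 ≤ ψ k q.1) ∧ q.2 = ℓ q.1}) ∧
        (Op (fun k => Φ (p i k)) = {q | (∀ k, 0 < ψ k q.1) ∧ q.2 = ℓ q.1}) ∧
        (∀ x, (∀ k, 0 ≤ ψ k x) ↔ x ∈ Cv (fun k => (Φ (p i k)).1)) ∧
        (∀ x, (∀ k, 0 < ψ k x) ↔ x ∈ interior (Cv (fun k => (Φ (p i k)).1)))) ∨
      (∀ q ∈ Cv (fun k => Φ (p i k)), ∀ k, ψ k q.1 = 0)) := by
    intro i
    by_cases hui : u ∈ vectorSpan ℝ (Set.range (p i))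
    · obtain ⟨χ, hχ1, hχ2⟩ := (hΦ (p i) (hp i)).2 hui
      refine ⟨fun _ => χ, 0, fun _ => hχ1, Or.inr ?_⟩
      have hsub : Cv (fun k => Φ (p i k)) ⊆
          {q : EuclideanSpace ℝ (Fin D) × ℝ | χ q.1 = 0} := by
        refine convexHull_min ?_ ?_
        · rintro _ ⟨k, rfl⟩
          exact hχ2 k
        · intro y hy z hz a b ha hb hab
          show χ (a • y + b • z).1 = 0
          have e : (a • y + b • z).1 = a • y.1 + b • z.1 := rfl
          rw [e, Convex.combo_affine_apply hab]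
          have h3 : χ y.1 = 0 := hy
          have h4 : χ z.1 = 0 := hz
          rw [h3, h4]
          simp
      intro q hq k
      exact hsub hq
    · obtain ⟨ψ, ℓ, g1, g2, g3, g4, g5⟩ := graph_simplex D hD1 hfin (fun k => Φ (p i k))
        ((hΦ (p i) (hp i)).1 hui)
      exact ⟨ψ, ℓ, g1, Or.inl ⟨hui, g2, g3, g4, g5⟩⟩
  choose ψ ℓ hlin hcase using hgs
  have hkey : ∀ (i : Fin n) (q : EuclideanSpace ℝ (Fin D) × ℝ), q ∈ Op (fun k => Φ (p i k)) →
      Φ.symm q ∈ intrinsicInterior ℝ (convexHull ℝ (Set.range (p i))) :=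
    fun i q hq => Op_subset (p i) (hp i) (final2_Op Φ hq)
  -- members
  have hmem : ∀ i : {i : Fin n // i ∉ X},
      IsMem (Op (fun k => Φ (p i.1 k))) (ψ i.1) (ℓ i.1) := by
    intro i
    refine ⟨final2_Op_convex _, hlin i.1, ?_⟩
    intro G hG h0
    rcases hcase i.1 with ⟨_, _, hOp, _, _⟩ | hz
    · by_cases hneg : ∃ k, ∃ x ∈ G, ψ i.1 k x < 0
      · obtain ⟨k, x, hx, hkx⟩ := hneg
        refine Or.inl ?_
        intro q hq hqG
        have h3 := final2_sign (ψ i.1 k) hG (h0 k) hx hqG hkx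
        rw [hOp] at hq
        have h4 := hq.1 k
        linarith
      · push Not at hneg
        refine Or.inr ?_
        intro q hqG
        rw [hOp]
        constructor
        · intro h; exact h.2
        · intro h
          exact ⟨fun k => lt_of_le_of_ne (hneg k q.1 hqG) (Ne.symm (h0 k q.1 hqG)), h⟩
    · refine Or.inl ?_
      intro q hq hqG
      exact h0 0 q.1 hqG (hz q (final2_Op_sub_Cv _ hq) 0)
  -- degrees
  set Δ : ℕ := ⌊(n : ℝ) / (K * r * (1 + Real.log r))⌋₊ with hΔ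
  have hlr : 0 ≤ Real.log r := Real.log_nonneg hr
  have hΔ1 : (Δ : ℝ) ≤ (n : ℝ) / (K * r * (1 + Real.log r)) := Nat.floor_le (by positivity)
  have hdegle : DegLe (fun i : {i : Fin n // i ∉ X} => Op (fun k => Φ (p i.1 k)))
      (fun i => ℓ i.1) Δ := by
    intro j G hG hGne hgr
    have hup : u ∉ vectorSpan ℝ (Set.range (p j.1)) := by
      rcases hcase j.1 with ⟨h, _⟩ | hz
      · exact h
      · exfalso
        refine hlin j.1 0 (final2_lin (ψ j.1 0) hG hGne ?_)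
        intro x hx
        have h3 : ((x, ℓ j.1 x) : EuclideanSpace ℝ (Fin D) × ℝ) ∈ Op (fun k => Φ (p j.1 k)) :=
          (hgr (x, ℓ j.1 x) hx).2 rfl
        exact hz _ (final2_Op_sub_Cv _ h3) 0
    have h3 := hdeg j.1 j.2 hup
    apply Nat.le_floor
    refine le_trans ?_ h3
    have h4 : Subtype.val '' {i : {i : Fin n // i ∉ X} | i ≠ j ∧
        (Op (fun k => Φ (p i.1 k)) ∩ Op (fun k => Φ (p j.1 k))).Nonempty} ⊆
        {j' : Fin n | j' ∉ X ∧ j' ≠ j.1 ∧
            ¬ Disjoint (intrinsicInterior ℝ (convexHull ℝ (Set.range (p j.1))))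
              (intrinsicInterior ℝ (convexHull ℝ (Set.range (p j'))))} := by
      rintro _ ⟨i, ⟨hij, ⟨q, hq1, hq2⟩⟩, rfl⟩
      refine ⟨i.2, fun h => hij (Subtype.ext h), ?_⟩
      intro hd
      exact Set.disjoint_left.1 hd (hkey _ _ hq2) (hkey _ _ hq1)
    have h5 := Set.ncard_le_ncard h4 (Set.toFinite _)
    rw [Set.ncard_image_of_injective _ Subtype.val_injective] at h5
    exact_mod_cast h5
  -- the root cell
  obtain ⟨w, a, b, q0, hw, hq0, hq0b, hab, hB⟩ := root_cell D hD1 hfin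
    (⋃ i, Cv (fun k => Φ (p i k))) (by
      rw [Bornology.isBounded_iUnion]
      intro i
      exact ((Set.finite_range _).isCompact_convexHull ℝ).isBounded)
  have hin : ∀ (i : Fin n) (q : EuclideanSpace ℝ (Fin D) × ℝ), q ∈ Cv (fun k => Φ (p i k)) →
      q ∈ OBody w a b := fun i q hq => hB (Set.mem_iUnion.2 ⟨i, hq⟩)
  have hInSh : InShM (fun i : {i : Fin n // i ∉ X} => Op (fun k => Φ (p i.1 k)))
      (fun i => ψ i.1) w a b Finset.univ := by
    constructor
    · intro i _ q hq _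
      exact hin i.1 q (final2_Op_sub_Cv _ hq)
    · intro i _
      rcases hcase i.1 with ⟨_, hCv, _, hS1, hS2⟩ | hz
      · obtain ⟨x, hx, k, hk⟩ := final2_short hD1 hfin (ψ i.1) _ hS1 hS2
        have h3 : ((x, ℓ i.1 x) : EuclideanSpace ℝ (Fin D) × ℝ) ∈ Cv (fun k => Φ (p i.1 k)) := by
          rw [hCv]
          exact ⟨hx, rfl⟩
        exact ⟨k, x, (hin i.1 _ h3).1, hk⟩
      · have h3 : Φ (p i.1 0) ∈ Cv (fun k => Φ (p i.1 k)) := subset_convexHull ℝ _ ⟨0, rfl⟩
        exact ⟨0, (Φ (p i.1 0)).1, (hin i.1 _ h3).1, hz _ h3 0⟩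
  have ht : 0 < (n : ℝ) / (8 * r) := by positivity
  obtain ⟨C, hC1, hC2, hC3, hC4, hC5⟩ := hrec _ hfin (hW _ hfin) {i : Fin n // i ∉ X}
    (fun i => Op (fun k => Φ (p i.1 k))) (fun i => ψ i.1) (fun i => ℓ i.1) Δ hmem hdegle
    ((n : ℝ) / (8 * r)) ht w a b ⟨hw, hab⟩ Finset.univ hInSh
  have hHH : (((HH (fun i : {i : Fin n // i ∉ X} => ψ i.1) w Finset.univ).ncard : ℕ) : ℝ) ≤
      (n : ℝ) * ((D : ℝ) + 1) := by
    have h3 : (HH (fun i : {i : Fin n // i ∉ X} => ψ i.1) w Finset.univ).ncard ≤ n * (D + 1) := by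
      calc (HH (fun i : {i : Fin n // i ∉ X} => ψ i.1) w Finset.univ).ncard
          ≤ (Set.univ : Set ({i : Fin n // i ∉ X} × Fin (D + 1))).ncard :=
            Set.ncard_le_ncard (Set.subset_univ _) Set.finite_univ
        _ = Fintype.card ({i : Fin n // i ∉ X} × Fin (D + 1)) := by
            rw [Set.ncard_univ, Nat.card_eq_fintype_card]
        _ = Fintype.card {i : Fin n // i ∉ X} * (D + 1) := by
            rw [Fintype.card_prod, Fintype.card_fin]
        _ ≤ n * (D + 1) := by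
            refine Nat.mul_le_mul_right _ ?_
            exact (Fintype.card_subtype_le _).trans (le_of_eq (Fintype.card_fin n))
    exact_mod_cast h3
  -- triangulations of the cells
  have hT : ∀ c : (Fin (D + 1) → EuclideanSpace ℝ (Fin D)) ×
      (EuclideanSpace ℝ (Fin D) →ᵃ[ℝ] ℝ) × (EuclideanSpace ℝ (Fin D) →ᵃ[ℝ] ℝ),
      ∃ T : Finset (Fin (D + 2) → EuclideanSpace ℝ (Fin D) × ℝ), c ∈ C →
        interior (Body c.1 c.2.1 c.2.2) = OBody c.1 c.2.1 c.2.2 ∧
        IsTri (Body c.1 c.2.1 c.2.2) T ∧ T.card ≤ c0 := by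
    intro c
    by_cases hc : c ∈ C
    · obtain ⟨g1, g2⟩ := hC1 c hc
      obtain ⟨h3, T, h4, h5⟩ := hbt _ hfin c.1 g1 c.2.1 c.2.2 g2
      exact ⟨T, fun _ => ⟨h3, h4, h5⟩⟩
    · exact ⟨∅, fun h => absurd h hc⟩
  choose T hT using hT
  have hsubT : ∀ c ∈ C, ∀ t ∈ T c, interior (Cv t) ⊆ OBody c.1 c.2.1 c.2.2 := by
    intro c hc t ht'
    obtain ⟨h3, h4, _⟩ := hT c hc
    rw [← h3]
    refine interior_mono ?_
    rw [← h4.union]
    exact Set.subset_biUnion_of_mem (u := fun t => Cv t) ht'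
  have hconf : ∀ c ∈ C, ∀ t ∈ T c, (({i : Fin n | (interior (convexHull ℝ
      (Set.range (fun m => Φ.symm (t m)))) ∩ convexHull ℝ (Set.range (p i))).Nonempty}.ncard : ℕ) : ℝ)
      ≤ (n : ℝ) / r := by
    intro c hc t ht'
    have hopen : IsOpen (OBody c.1 c.2.1 c.2.2) := by
      rw [← (hT c hc).1]
      exact isOpen_interior
    have hsub : {i : Fin n | (interior (convexHull ℝ
        (Set.range (fun m => Φ.symm (t m)))) ∩ convexHull ℝ (Set.range (p i))).Nonempty} ⊆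
        (X : Set (Fin n)) ∪ Subtype.val '' {i : {i : Fin n // i ∉ X} | i ∈ Finset.univ ∧
          (Op (fun k => Φ (p i.1 k)) ∩ OBody c.1 c.2.1 c.2.2).Nonempty} := by
      rintro i ⟨z, hz1, hz2⟩
      by_cases hiX : i ∈ X
      · exact Or.inl hiX
      · refine Or.inr ⟨⟨i, hiX⟩, ⟨Finset.mem_univ _, ?_⟩, rfl⟩
        have e1 : convexHull ℝ (Set.range (fun m => Φ.symm (t m))) = Φ.symm '' Cv t :=
          final2_Cv Φ.symm t
        rw [e1, final2_int] at hz1
        obtain ⟨v, hv, rfl⟩ := hz1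
        have hv2 : v ∈ Cv (fun k => Φ (p i k)) := by
          rw [final2_Cv]
          exact ⟨_, hz2, by rw [ContinuousLinearEquiv.apply_symm_apply]⟩
        have hv5 := hsubT c hc t ht' hv
        obtain ⟨v0, hv0⟩ := final2_Op_ne (fun k => Φ (p i k))
        exact final2_near _ hv2 hv0 hopen hv5
    have h3 : ({i : Fin n | (interior (convexHull ℝ
        (Set.range (fun m => Φ.symm (t m)))) ∩ convexHull ℝ (Set.range (p i))).Nonempty}).ncard ≤
        X.card + ({i : {i : Fin n // i ∉ X} | i ∈ Finset.univ ∧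
          (Op (fun k => Φ (p i.1 k)) ∩ OBody c.1 c.2.1 c.2.2).Nonempty}).ncard := by
      refine (Set.ncard_le_ncard hsub (Set.toFinite _)).trans ((Set.ncard_union_le _ _).trans ?_)
      rw [Set.ncard_coe_finset]
      exact Nat.add_le_add_left (Set.ncard_image_le (Set.toFinite _)) _
    have h4 := hC4 c hc
    have h5 : ((({i : Fin n | (interior (convexHull ℝ
        (Set.range (fun m => Φ.symm (t m)))) ∩ convexHull ℝ (Set.range (p i))).Nonempty}).ncard : ℕ) : ℝ) ≤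
        (X.card : ℝ) + (({i : {i : Fin n // i ∉ X} | i ∈ Finset.univ ∧
          (Op (fun k => Φ (p i.1 k)) ∩ OBody c.1 c.2.1 c.2.2).Nonempty}.ncard : ℕ) : ℝ) := by
      exact_mod_cast h3
    have h6 := final2_logs (D := D) (n := n) (c' := c') (C := K) (r := r)
      (t := (n : ℝ) / (8 * r)) (Δ := (Δ : ℝ)) hr hn rfl (Nat.cast_nonneg _) hHH hc'
      (by rw [hK]; linarith) (Nat.cast_nonneg _) hΔ1
    linarith
  classical
  -- all simplices
  set TT : Finset (Fin (D + 2) → EuclideanSpace ℝ (Fin D) × ℝ) := C.biUnion T with hTT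
  have hTTm : ∀ t, t ∈ TT ↔ ∃ c ∈ C, t ∈ T c := fun t => Finset.mem_biUnion
  have hTTu : (⋃ t ∈ TT, Cv t) = Body w a b := by
    rw [← hC2]
    ext z
    simp only [Set.mem_iUnion, hTTm]
    constructor
    · rintro ⟨t, ⟨c, hc, ht'⟩, hz⟩
      refine ⟨c, hc, ?_⟩
      rw [← (hT c hc).2.1.union]
      exact Set.mem_biUnion ht' hz
    · rintro ⟨c, hc, hz⟩
      rw [← (hT c hc).2.1.union] at hz
      simp only [Set.mem_iUnion] at hz
      obtain ⟨t, ht', hz⟩ := hz
      exact ⟨t, ⟨c, hc, ht'⟩, hz⟩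
  have hTTc : (TT.card : ℝ) ≤ (C.card : ℝ) * (c0 : ℝ) := by
    have h3 : TT.card ≤ C.card * c0 := Finset.card_biUnion_le_card_mul _ _ _ fun c hc => (hT c hc).2.2
    exact_mod_cast h3
  refine ⟨fun m => Φ.symm (q0 m), final2_aff Φ.symm hq0, ?_, TT.card,
    fun j m => Φ.symm (((TT.equivFin).symm j).1 m), ?_, ?_, ?_, ?_, ?_⟩
  · have e1 : convexHull ℝ (Set.range (fun m => Φ.symm (q0 m))) = Φ.symm '' Cv q0 :=
      final2_Cv Φ.symm q0
    rw [e1, hq0b]
    intro z hz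
    obtain ⟨i, hi⟩ := Set.mem_iUnion.1 hz
    have h3 : Φ z ∈ Cv (fun k => Φ (p i k)) := by
      rw [final2_Cv]
      exact ⟨z, hi, rfl⟩
    have h4 := hB (Set.mem_iUnion.2 ⟨i, h3⟩)
    exact ⟨Φ z, ⟨interior_subset h4.1, h4.2.1.le, h4.2.2.le⟩, by
      rw [ContinuousLinearEquiv.symm_apply_apply]⟩
  · intro j
    obtain ⟨c, hc, ht'⟩ := (hTTm _).1 ((TT.equivFin).symm j).2
    exact final2_aff Φ.symm ((hT c hc).2.1.indep _ ht')
  · have e1 : convexHull ℝ (Set.range (fun m => Φ.symm (q0 m))) = Φ.symm '' Cv q0 :=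
      final2_Cv Φ.symm q0
    rw [e1, hq0b, ← hTTu, Set.image_iUnion₂]
    ext z
    simp only [Set.mem_iUnion]
    constructor
    · rintro ⟨j, hj⟩
      refine ⟨((TT.equivFin).symm j).1, ((TT.equivFin).symm j).2, ?_⟩
      rw [← final2_Cv]
      exact hj
    · rintro ⟨t, ht', hz⟩
      refine ⟨TT.equivFin ⟨t, ht'⟩, ?_⟩
      rw [← final2_Cv] at hz
      rw [Equiv.symm_apply_apply]
      exact hz
  · intro j j' hjj
    have e1 : ∀ t : Fin (D + 2) → EuclideanSpace ℝ (Fin D) × ℝ,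
        interior (convexHull ℝ (Set.range (fun m => Φ.symm (t m)))) = Φ.symm '' interior (Cv t) := by
      intro t
      have e2 : convexHull ℝ (Set.range (fun m => Φ.symm (t m))) = Φ.symm '' Cv t :=
        final2_Cv Φ.symm t
      rw [e2, final2_int]
    have hne : ((TT.equivFin).symm j).1 ≠ ((TT.equivFin).symm j').1 := by
      intro h
      exact hjj ((TT.equivFin).symm.injective (Subtype.ext h))
    obtain ⟨c, hc, ht1⟩ := (hTTm _).1 ((TT.equivFin).symm j).2
    obtain ⟨c', hc', ht2⟩ := (hTTm _).1 ((TT.equivFin).symm j').2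
    rw [e1, e1]
    refine (Set.disjoint_image_iff Φ.symm.injective).2 ?_
    by_cases hcc : c = c'
    · subst hcc
      exact (hT c hc).2.1.disj _ ht1 _ ht2 hne
    · exact (hC3 c hc c' hc' hcc).mono (hsubT c hc _ ht1) (hsubT c' hc' _ ht2)
  · intro j
    obtain ⟨c, hc, ht'⟩ := (hTTm _).1 ((TT.equivFin).symm j).2
    exact hconf c hc _ ht'
  · have h3 := final2_card (D := D) (n := n) (c0 := (c0 : ℝ)) (A := A) (r := r)
      (t := (n : ℝ) / (8 * r)) (Nat.cast_nonneg c0) hA hr hn rfl (Nat.cast_nonneg _) hHH hC5 hTTc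
    rw [Nat.add_sub_cancel]
    refine h3.trans (mul_le_mul_of_nonneg_right ?_ (by positivity))
    rw [hK]
    linarith

end Pool.Agent.H889
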