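import Pool.Agent.Helper889_Cut.Cell4
import Pool.Agent.Helper889_Cut.Graph

/-! The pairs of crossing simplices. -/

set_option autoImplicit false
open Set

namespace Pool.Agent.H889

variable {V : Type} [NormedAddCommGroup V] [NormedSpace ℝ V]

theorem final4_pairs_Op {W₁ W₂ : Type} [NormedAddCommGroup W₁] [NormedSpace ℝ W₁] [NormedAddCommGroup W₂]
    [NormedSpace ℝ W₂] (Φ : W₁ ≃L[ℝ] W₂) {m : ℕ} {t : Fin m → W₁} {q : W₂}
    (hq : q ∈ Op (fun k => Φ (t k))) : Φ.symm q ∈ Op t := by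
  obtain ⟨w, h1, h2, h3⟩ := hq
  refine ⟨w, h1, h2, ?_⟩
  rw [h3, map_sum]
  refine Finset.sum_congr rfl fun k _ => ?_
  rw [map_smul, ContinuousLinearEquiv.symm_apply_apply]

theorem final4_pairs_Op_sub_Cv {m : ℕ} (t : Fin m → V) : Op t ⊆ Cv t := by
  rintro x ⟨w, hw1, hw2, rfl⟩
  exact (convex_convexHull ℝ (range t)).sum_mem (fun k _ => (hw1 k).le) hw2
    (fun k _ => subset_convexHull ℝ _ ⟨k, rfl⟩)

theorem final4_pairs_lin (g : V →ᵃ[ℝ] ℝ) {G : Set V} (hG : IsOpen G) (hne : G.Nonempty)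
    (h0 : ∀ x ∈ G, g x = 0) : g.linear = 0 := by
  obtain ⟨x0, hx0⟩ := hne
  ext v
  have h1 : Filter.Tendsto (fun θ : ℝ => x0 + θ • v) (nhdsWithin 0 (Ioi 0)) (nhds x0) := by
    have h2 : Continuous (fun θ : ℝ => x0 + θ • v) := by fun_prop
    have h3 := h2.tendsto 0
    simp only [zero_smul, add_zero] at h3
    exact h3.mono_left nhdsWithin_le_nhds
  have h4 := h1.eventually (hG.mem_nhds hx0)
  have h5 : ∀ᶠ θ : ℝ in nhdsWithin 0 (Ioi 0), θ ∈ Ioo (0 : ℝ) 1 := Ioo_mem_nhdsGT one_pos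
  obtain ⟨θ, hθ1, hθ2⟩ := (h4.and h5).exists
  have h6 := h0 _ hθ1
  have h7 := h0 _ hx0
  have h8 : g (x0 + θ • v) = θ * g.linear v + g x0 := by
    have := g.map_vadd x0 (θ • v)
    rw [vadd_eq_add, vadd_eq_add, add_comm (θ • v) x0, map_smul, smul_eq_mul] at this
    exact this
  rw [h8, h7, add_zero] at h6
  have h9 : θ ≠ 0 := hθ2.1.ne'
  rcases mul_eq_zero.1 h6 with h | h
  · exact absurd h h9
  · simpa using h

theorem final4_pairs_zero (g : V →ᵃ[ℝ] ℝ) (h : g.linear = 0) {x0 : V} (h0 : g x0 = 0) (x : V) : g x = 0 := by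
  have h1 := g.map_vadd x0 (x - x0)
  rw [vadd_eq_add, vadd_eq_add, sub_add_cancel, h, h0, add_zero] at h1
  simpa using h1

theorem final4_pairs_sub (f g : V →ᵃ[ℝ] ℝ) (x : V) : (f - g) x = f x - g x := rfl

theorem final4_pairs_eq (f g : V →ᵃ[ℝ] ℝ) (h : (f - g).linear = 0) {x0 : V} (h0 : f x0 = g x0) : f = g := by
  ext x
  have h1 := final4_pairs_zero (f - g) h (x0 := x0) (by rw [final4_pairs_sub, h0, sub_self]) x
  rw [final4_pairs_sub] at h1
  linarith

/-! TARGET `final4_pairs`. Write `y i k = Φ (p i k)`, `M i = Op (y i)`; call `i` upright if `u ∉ vectorSpan ℝ (range (p i))` (first case of `hcase`).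
`P` = the pairs `e = (i, j)` with `i ≠ j`, `j` upright, `(M i ∩ M j).Nonempty`, and not (`i` upright and `ℓ i = ℓ j`);
`π (i, j) = ψ i 0` if `i` is not upright, and `ℓ i - ℓ j` otherwise.
* `lin`: not upright: `hlin`. Upright: a common point `z` gives `ℓ i z.1 = z.2 = ℓ j z.1`; if `(ℓ i - ℓ j).linear = 0` the difference is constant, so `0`, and
  `ℓ i = ℓ j`.
* `zero`: clear (`Op ⊆ Cv`; in the not upright case the second case of `hcase`).
* `full`: `M j` is the graph of `ℓ j` over an open nonempty `G`; then `j` is upright: otherwise `ψ j 0` vanishes on `G` (the points `(x, ℓ j x)` are in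
  `Op ⊆ Cv`), which forces `(ψ j 0).linear = 0` (this is `final2_lin` in the result of job 3316, copy it). `i ≠ j` since
  `z' ∈ M j` would give `z'.2 = ℓ j z'.1`; the same argument shows that not (`i` upright and `ℓ i = ℓ j`).
* count: map `e = (i, j) ∈ P` to the pair `(i.1, j.1)` or `(j.1, i.1)`, whichever is increasing (`i ≠ j`); fibres have at most 2 elements. It is in the set on
  the right: `e.1, e.2 ∉ X`, `j` is upright, the relative interiors meet: a common point `z` of `Op (y i)`, `Op (y j)` gives the point `Φ.symm z` in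
  `Op (p i) ∩ Op (p j)` (`final2_Op` in the same result), and `Op_subset`. Different affine spans: suppose
  `affineSpan ℝ (range (p i)) = affineSpan ℝ (range (p j))`. Then the vector spans are equal (directions), so `i` is upright. All points `y i k` are in the
  affine span of `range (y j)` (image under `Φ` of the equality, or: `{x | (Φ x).2 = ℓ j (Φ x).1}` is an affine subspace containing all `p j k`,
  hence all `p i k`), so `(y i k).2 = ℓ j (y i k).1`, and also `(y i k).2 = ℓ i (y i k).1` (as `y i k ∈ Cv (y i)`). So `ℓ i - ℓ j` vanishes at all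
  `(y i k).1`, so on `Cv (fun k => (y i k).1)`, whose interior is nonempty (it contains `z.1` for `z ∈ Op (y i)`, which is nonempty), so
  `(ℓ i - ℓ j).linear = 0` and `ℓ i = ℓ j`: contradiction to `e ∈ P`.
`Disjoint` is symmetric, as are the other conditions, which handles the order. -/

theorem final4_pairs (D n : ℕ) (hD : 1 ≤ D)
    (p : Fin n → Fin (D + 1) → EuclideanSpace ℝ (Fin (D + 1)))
    (hp : ∀ i, AffineIndependent ℝ (p i)) (X : Finset (Fin n)) (u : EuclideanSpace ℝ (Fin (D + 1)))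
    (Φ : EuclideanSpace ℝ (Fin (D + 1)) ≃L[ℝ] (EuclideanSpace ℝ (Fin D) × ℝ))
    (ψ : Fin n → Fin (D + 1) → (EuclideanSpace ℝ (Fin D) →ᵃ[ℝ] ℝ))
    (ℓ : Fin n → (EuclideanSpace ℝ (Fin D) →ᵃ[ℝ] ℝ)) (hlin : ∀ i k, (ψ i k).linear ≠ 0)
    (hcase : ∀ i, (u ∉ vectorSpan ℝ (Set.range (p i)) ∧
        (Cv (fun k => Φ (p i k)) = {q | (∀ k, 0 ≤ ψ i k q.1) ∧ q.2 = ℓ i q.1}) ∧
        (Op (fun k => Φ (p i k)) = {q | (∀ k, 0 < ψ i k q.1) ∧ q.2 = ℓ i q.1}) ∧
        (∀ x, (∀ k, 0 ≤ ψ i k x) ↔ x ∈ Cv (fun k => (Φ (p i k)).1)) ∧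
        (∀ x, (∀ k, 0 < ψ i k x) ↔ x ∈ interior (Cv (fun k => (Φ (p i k)).1)))) ∨
      (u ∈ vectorSpan ℝ (Set.range (p i)) ∧ ∀ q ∈ Cv (fun k => Φ (p i k)), ∀ k, ψ i k q.1 = 0)) :
    ∃ (P : Finset ({i : Fin n // i ∉ X} × {i : Fin n // i ∉ X}))
      (π : {i : Fin n // i ∉ X} × {i : Fin n // i ∉ X} → (EuclideanSpace ℝ (Fin D) →ᵃ[ℝ] ℝ)),
      PairSys (fun i : {i : Fin n // i ∉ X} => Op (fun k => Φ (p i.1 k))) (fun i => ℓ i.1) P π ∧
      P.card ≤ 2 * {e : Fin n × Fin n | e.1 ∉ X ∧ e.2 ∉ X ∧ e.1 < e.2 ∧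
        ¬ (u ∈ vectorSpan ℝ (Set.range (p e.1)) ∧ u ∈ vectorSpan ℝ (Set.range (p e.2))) ∧
        affineSpan ℝ (Set.range (p e.1)) ≠ affineSpan ℝ (Set.range (p e.2)) ∧
        ¬ Disjoint (intrinsicInterior ℝ (convexHull ℝ (Set.range (p e.1))))
          (intrinsicInterior ℝ (convexHull ℝ (Set.range (p e.2))))}.ncard := by
  classical
  -- upright: points of `Op` and of `Cv` are on the graph
  have hup : ∀ i, u ∉ vectorSpan ℝ (Set.range (p i)) → ∀ q ∈ Cv (fun k => Φ (p i k)), q.2 = ℓ i q.1 := by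
    intro i hi q hq
    rcases hcase i with h | h
    · rw [h.2.1] at hq
      exact hq.2
    · exact absurd h.1 hi
  have hnot : ∀ i, ¬ u ∉ vectorSpan ℝ (Set.range (p i)) → ∀ q ∈ Cv (fun k => Φ (p i k)), ψ i 0 q.1 = 0 := by
    intro i hi q hq
    rcases hcase i with h | h
    · exact absurd h.1 hi
    · exact h.2 q hq 0
  let I := {i : Fin n // i ∉ X}
  let P : Finset (I × I) := Finset.univ.filter (fun e => e.1 ≠ e.2 ∧
    u ∉ vectorSpan ℝ (Set.range (p e.2.1)) ∧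
    (Op (fun k => Φ (p e.1.1 k)) ∩ Op (fun k => Φ (p e.2.1 k))).Nonempty ∧
    ¬ (u ∉ vectorSpan ℝ (Set.range (p e.1.1)) ∧ ℓ e.1.1 = ℓ e.2.1))
  let π : I × I → (EuclideanSpace ℝ (Fin D) →ᵃ[ℝ] ℝ) := fun e =>
    if u ∉ vectorSpan ℝ (Set.range (p e.1.1)) then ℓ e.1.1 - ℓ e.2.1 else ψ e.1.1 0
  have hPmem : ∀ e : I × I, e ∈ P ↔ (e.1 ≠ e.2 ∧
    u ∉ vectorSpan ℝ (Set.range (p e.2.1)) ∧
    (Op (fun k => Φ (p e.1.1 k)) ∩ Op (fun k => Φ (p e.2.1 k))).Nonempty ∧
    ¬ (u ∉ vectorSpan ℝ (Set.range (p e.1.1)) ∧ ℓ e.1.1 = ℓ e.2.1)) := by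
    intro e
    simp only [P, Finset.mem_filter, Finset.mem_univ, true_and]
  -- the set on the right
  let S : Set (Fin n × Fin n) := {e : Fin n × Fin n | e.1 ∉ X ∧ e.2 ∉ X ∧ e.1 < e.2 ∧
        ¬ (u ∈ vectorSpan ℝ (Set.range (p e.1)) ∧ u ∈ vectorSpan ℝ (Set.range (p e.2))) ∧
        affineSpan ℝ (Set.range (p e.1)) ≠ affineSpan ℝ (Set.range (p e.2)) ∧
        ¬ Disjoint (intrinsicInterior ℝ (convexHull ℝ (Set.range (p e.1))))
          (intrinsicInterior ℝ (convexHull ℝ (Set.range (p e.2))))}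
  have hSfin : S.Finite := Set.toFinite S
  -- geometric facts for pairs in P
  have hmeet : ∀ e ∈ P, ∃ w, w ∈ intrinsicInterior ℝ (convexHull ℝ (Set.range (p e.1.1))) ∧
      w ∈ intrinsicInterior ℝ (convexHull ℝ (Set.range (p e.2.1))) := by
    intro e he
    obtain ⟨-, -, ⟨z, hz1, hz2⟩, -⟩ := (hPmem e).1 he
    exact ⟨Φ.symm z, Op_subset _ (hp _) (final4_pairs_Op Φ hz1), Op_subset _ (hp _) (final4_pairs_Op Φ hz2)⟩
  have hspan : ∀ e ∈ P, affineSpan ℝ (Set.range (p e.1.1)) ≠ affineSpan ℝ (Set.range (p e.2.1)) := by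
    intro e he heq
    obtain ⟨-, hu2, ⟨z, hz1, hz2⟩, hn⟩ := (hPmem e).1 he
    have hvs : vectorSpan ℝ (Set.range (p e.1.1)) = vectorSpan ℝ (Set.range (p e.2.1)) := by
      rw [← direction_affineSpan, ← direction_affineSpan, heq]
    have hu1 : u ∉ vectorSpan ℝ (Set.range (p e.1.1)) := by
      rw [hvs]
      exact hu2
    refine hn ⟨hu1, ?_⟩
    -- all points of range (p j) satisfy the equation
    let F : EuclideanSpace ℝ (Fin (D + 1)) →ᵃ[ℝ] ℝ :=
      (LinearMap.snd ℝ (EuclideanSpace ℝ (Fin D)) ℝ).toAffineMap.comp Φ.toLinearEquiv.toLinearMap.toAffineMap -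
      (ℓ e.2.1).comp ((LinearMap.fst ℝ (EuclideanSpace ℝ (Fin D)) ℝ).toAffineMap.comp
        Φ.toLinearEquiv.toLinearMap.toAffineMap)
    have hF : ∀ x, F x = (Φ x).2 - ℓ e.2.1 (Φ x).1 := by
      intro x
      rfl
    have hsub : affineSpan ℝ (Set.range (p e.2.1)) ≤ (AffineSubspace.mk' (0 : ℝ) ⊥).comap F := by
      rw [affineSpan_le]
      rintro _ ⟨k, rfl⟩
      simp only [AffineSubspace.coe_comap, Set.mem_preimage, SetLike.mem_coe,
        AffineSubspace.mem_mk', Submodule.mem_bot, vsub_eq_sub, sub_zero]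
      rw [hF, hup e.2.1 hu2 (Φ (p e.2.1 k)) (subset_convexHull ℝ _ ⟨k, rfl⟩), sub_self]
    have hi : ∀ k, F (p e.1.1 k) = 0 := by
      intro k
      have h1 : p e.1.1 k ∈ affineSpan ℝ (Set.range (p e.2.1)) := by
        rw [← heq]
        exact subset_affineSpan ℝ _ ⟨k, rfl⟩
      have h2 := hsub h1
      simpa only [AffineSubspace.mem_comap,
        AffineSubspace.mem_mk', Submodule.mem_bot, vsub_eq_sub, sub_zero] using h2
    have hd : ∀ k, (ℓ e.1.1 - ℓ e.2.1) (Φ (p e.1.1 k)).1 = 0 := by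
      intro k
      have h1 := hi k
      rw [hF, hup e.1.1 hu1 (Φ (p e.1.1 k)) (subset_convexHull ℝ _ ⟨k, rfl⟩)] at h1
      rw [final4_pairs_sub]
      exact h1
    have hcv : ∀ x ∈ Cv (fun k => (Φ (p e.1.1 k)).1), (ℓ e.1.1 - ℓ e.2.1) x = 0 := by
      intro x hx
      have h1 : Cv (fun k => (Φ (p e.1.1 k)).1) ⊆ {x | (ℓ e.1.1 - ℓ e.2.1) x = 0} := by
        refine convexHull_min ?_ ?_
        · rintro _ ⟨k, rfl⟩
          exact hd k
        · intro x hx y hy a b ha hb hab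
          show (ℓ e.1.1 - ℓ e.2.1) (a • x + b • y) = 0
          rw [Convex.combo_affine_apply hab]
          rw [show (ℓ e.1.1 - ℓ e.2.1) x = 0 from hx, show (ℓ e.1.1 - ℓ e.2.1) y = 0 from hy]
          simp
      exact h1 hx
    rcases hcase e.1.1 with h | h
    · have hz1' := hz1
      rw [h.2.2.1] at hz1'
      have hint : z.1 ∈ interior (Cv (fun k => (Φ (p e.1.1 k)).1)) := (h.2.2.2.2 z.1).1 hz1'.1
      have hlin0 := final4_pairs_lin (ℓ e.1.1 - ℓ e.2.1) isOpen_interior ⟨z.1, hint⟩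
        (fun x hx => hcv x (interior_subset hx))
      refine final4_pairs_eq _ _ hlin0 (x0 := z.1) ?_
      have h3 := hcv z.1 (interior_subset hint)
      rw [final4_pairs_sub] at h3
      linarith
    · exact absurd h.1 hu1
  refine ⟨P, π, ⟨?_, ?_, ?_⟩, ?_⟩
  · intro e he
    obtain ⟨-, hu2, ⟨z, hz1, hz2⟩, hn⟩ := (hPmem e).1 he
    by_cases hu1 : u ∉ vectorSpan ℝ (Set.range (p e.1.1))
    · have hπ : π e = ℓ e.1.1 - ℓ e.2.1 := if_pos hu1
      rw [hπ]
      intro h0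
      refine hn ⟨hu1, final4_pairs_eq _ _ h0 (x0 := z.1) ?_⟩
      rw [← hup _ hu1 z (final4_pairs_Op_sub_Cv _ hz1), ← hup _ hu2 z (final4_pairs_Op_sub_Cv _ hz2)]
    · have hπ : π e = ψ e.1.1 0 := if_neg hu1
      rw [hπ]
      exact hlin _ _
  · intro e he z hz1 hz2
    obtain ⟨-, hu2, -, hn⟩ := (hPmem e).1 he
    by_cases hu1 : u ∉ vectorSpan ℝ (Set.range (p e.1.1))
    · have hπ : π e = ℓ e.1.1 - ℓ e.2.1 := if_pos hu1
      rw [hπ, final4_pairs_sub,
        ← hup _ hu1 z (final4_pairs_Op_sub_Cv _ hz1), ← hup _ hu2 z (final4_pairs_Op_sub_Cv _ hz2), sub_self]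
    · have hπ : π e = ψ e.1.1 0 := if_neg hu1
      rw [hπ]
      exact hnot _ hu1 z (final4_pairs_Op_sub_Cv _ hz1)
  · intro i j G hG hGne hgr z hz1 hz2 z' hz' hne'
    have huj : u ∉ vectorSpan ℝ (Set.range (p j.1)) := by
      intro huj
      have h1 : ∀ x ∈ G, ψ j.1 0 x = 0 := by
        intro x hx
        have h2 := (hgr (x, ℓ j.1 x) hx).2 rfl
        exact hnot j.1 (fun h => h huj) _ (final4_pairs_Op_sub_Cv _ h2)
      exact hlin j.1 0 (final4_pairs_lin _ hG hGne h1)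
    rw [hPmem]
    refine ⟨?_, huj, ⟨z, hz1, hz2⟩, ?_⟩
    · intro hij
      have hij' : i = j := hij
      subst hij'
      exact hne' (hup _ huj z' (final4_pairs_Op_sub_Cv _ hz'))
    · rintro ⟨hui, hl⟩
      refine hne' ?_
      have h3 := hup _ hui z' (final4_pairs_Op_sub_Cv _ hz')
      have hl' : ℓ i.1 = ℓ j.1 := hl
      rw [← hl']
      exact h3
  · show P.card ≤ 2 * S.ncard
    rw [Set.ncard_eq_toFinset_card S hSfin]
    have hsplit : P = P.filter (fun e => e.1.1 < e.2.1) ∪ P.filter (fun e => ¬ e.1.1 < e.2.1) := by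
      rw [Finset.filter_union_filter_not_eq]
    have h1 : (P.filter (fun e => e.1.1 < e.2.1)).card ≤ hSfin.toFinset.card := by
      refine Finset.card_le_card_of_injOn (fun e => (e.1.1, e.2.1)) ?_ ?_
      · intro e he
        rw [Finset.mem_coe, Finset.mem_filter] at he
        rw [Finset.mem_coe, Set.Finite.mem_toFinset]
        obtain ⟨w, hw1, hw2⟩ := hmeet e he.1
        exact ⟨e.1.2, e.2.2, he.2, fun h => ((hPmem e).1 he.1).2.1 h.2, hspan e he.1,
          fun h => (Set.disjoint_left.1 h hw1 hw2)⟩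
      · intro e _ e' _ h
        have h' : (e.1.1, e.2.1) = (e'.1.1, e'.2.1) := h
        rw [Prod.mk.injEq] at h'
        exact Prod.ext (Subtype.ext h'.1) (Subtype.ext h'.2)
    have h2 : (P.filter (fun e => ¬ e.1.1 < e.2.1)).card ≤ hSfin.toFinset.card := by
      refine Finset.card_le_card_of_injOn (fun e => (e.2.1, e.1.1)) ?_ ?_
      · intro e he
        rw [Finset.mem_coe, Finset.mem_filter] at he
        rw [Finset.mem_coe, Set.Finite.mem_toFinset]
        obtain ⟨w, hw1, hw2⟩ := hmeet e he.1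
        have hlt : e.2.1 < e.1.1 := by
          rcases lt_trichotomy e.1.1 e.2.1 with h | h | h
          · exact absurd h he.2
          · exact absurd (Subtype.ext h) ((hPmem e).1 he.1).1
          · exact h
        exact ⟨e.2.2, e.1.2, hlt, fun h => ((hPmem e).1 he.1).2.1 h.1, fun h => hspan e he.1 h.symm,
          fun h => (Set.disjoint_left.1 h hw2 hw1)⟩
      · intro e _ e' _ h
        have h' : (e.2.1, e.1.1) = (e'.2.1, e'.1.1) := h
        rw [Prod.mk.injEq] at h'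
        exact Prod.ext (Subtype.ext h'.2) (Subtype.ext h'.1)
    calc P.card = (P.filter (fun e => e.1.1 < e.2.1) ∪ P.filter (fun e => ¬ e.1.1 < e.2.1)).card := by
          rw [← hsplit]
      _ ≤ (P.filter (fun e => e.1.1 < e.2.1)).card + (P.filter (fun e => ¬ e.1.1 < e.2.1)).card :=
          Finset.card_union_le _ _
      _ ≤ 2 * hSfin.toFinset.card := by omega

end Pool.Agent.H889
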