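import Pool.Agent.Helper889_Cut.Cell

/-! The numerics of the recursion, with crossing pairs. -/

set_option autoImplicit false
open Set

namespace Pool.Agent.H889

variable {V : Type} [NormedAddCommGroup V] [NormedSpace ℝ V]

/-! TARGET `numeric_step4`. Pure inequalities; a variant of `numeric_step` (job 2067: `SELECT result FROM jobs WHERE id=2067`; a full Lean proof of that
variant is there and in `Pool/Agent/Helper889_Cut/Numeric.lean` on origin/main, and adapts).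
Choice: `κ = 10 Cs / δ + 1`, `ε = min (1 / (κ (E + 1))) (1 / (20 D))`, `A = 8 Np / ε + 2 / ε + 1`, `B = κ A`. Then `κ E ε ≤ 1`, `5 ε D ≤ 1/4`,
`ε ≤ 1/40`. Let `z = √(h/t) > 1`.
A child `b` with `hh a b ≤ t` contributes `1`. Let `hh a b > t`, `x = hh a b / t > 1`, `y = √x > 1`, `k = kk a b / t`. Then `x ≤ k + 5 ε`, so
`x (1 - 5 ε) ≤ k ≤ (z/s)^2` (the last by the sum condition, all `kk ≥ 0`). With `u = y √(1 - 5 ε)` we have `u^2 = x (1 - 5 ε) ≤ k`,
`u ≤ z / s`, so `u^(2D-1) = u^2 u^(2D-3) ≤ k (z/s)^(2D-3)`, and `(√(1 - 5 ε))^(2D-1) ≥ (√(1 - 5 ε))^(2D) = (1 - 5 ε)^D ≥ 1 - 5 ε D ≥ 1/2`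
(Bernoulli), so `y^(2D-1) ≤ 2 k (z/s)^(2D-3)`. Moreover `x ≤ k + 5 ε ≤ z²/16 + 1/8 ≤ z²/4`, so `y ≤ z/2`, `1/(2y) ≥ 1/z` and
`0 ≤ 1 - 1/(2y) ≤ 1 - 1/z`, also `≤ 1`. So
`Phi (hh a b) (vv a b) ≤ A y^(2D-1) + B (vk a b / t^D) (1 - 1/z) + B E ε y^(2D-2)` (as `t (hh a b)^(D-1) / t^D = x^(D-1) = y^(2D-2) ≤ y^(2D-1)`)
`≤ 2 A y^(2D-1) + B (vk a b / t^D) (1 - 1/z)` (as `B E ε = κ A E ε ≤ A`) `≤ 4 A k (z/s)^(2D-3) + B (vk a b / t^D) (1 - 1/z)`.
So in both cases `Phi (hh a b) (vv a b) ≤ 1 + 4 A (kk a b / t) (z/s)^(2D-3) + B (vk a b / t^D) (1 - 1/z)`. Sum over `b`, then over `a`: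
total `≤ T.card (2 z^2/ε + 4 A (z/s)^(2D-1)) + B (v/t^D) (1 - 1/z)`, and `Phi D A B t h v = A z^(2D-1) + B (v/t^D) (1 - 1/(2z))`.
Case `v < δ h^D`: `T.card ≤ Np`; `Np 2 z^2/ε ≤ (A/4) z^(2D-1)` (as `A ≥ 8 Np/ε`, `2D-1 ≥ 2`), `Np 4 A (z/s)^(2D-1) ≤ (A/2) z^(2D-1)`
(as `8 Np ≤ s^(2D-1)`); done, as `1 - 1/z ≤ 1 - 1/(2z)`.
Case `v ≥ δ h^D = δ t^D z^(2D)`: `T.card ≤ Cs`; `Cs (2 z^2/ε + 4 A (z/s)^(2D-1)) ≤ 5 Cs A z^(2D-1)` (as `A ≥ 2/ε`, `s ≥ 1`) and
`B (v/t^D) (1/(2z)) ≥ B δ z^(2D-1)/2 ≥ 5 Cs A z^(2D-1)` (as `B ≥ 10 Cs A/δ`). -/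

theorem numeric_step4_term (k : ℕ) {A B ε E κ t s z x0 w kk vk : ℝ} (hA : 0 ≤ A) (hκ : 0 ≤ κ)
    (hB : B = κ * A) (hE : 0 ≤ E) (hε0 : 0 < ε) (hε : 5 * ε * ((k : ℝ) + 2) ≤ 1 / 4)
    (hε2 : ε ≤ 1 / 40) (hκE : κ * E * ε ≤ 1) (ht : 0 < t)
    (hs : 4 ≤ s) (hz : 1 < z) (hx0 : 0 ≤ x0) (hw : 0 ≤ w) (hkk : 0 ≤ kk) (hvk : 0 ≤ vk)
    (hx : x0 ≤ kk + 5 * ε * t) (hwv : w ≤ vk + E * ε * t * x0 ^ (k + 1))
    (hkz : kk ≤ t * (z / s) ^ 2) :
    Phi (k + 2) A B t x0 w ≤ 1 + 4 * A * ((kk / t) * (z / s) ^ (2 * k + 1)) +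
      B * (vk / t ^ (k + 2)) * (1 - 1 / z) := by
  have hB0 : 0 ≤ B := by rw [hB]; positivity
  have hz0 : 0 < z := by linarith
  have hs0 : 0 < s := by linarith
  have h1z : 0 ≤ 1 - 1 / z := by
    have : 1 / z ≤ 1 := by rw [div_le_one hz0]; exact hz.le
    linarith
  unfold Phi
  split_ifs with h
  · have h1 : 0 ≤ 4 * A * ((kk / t) * (z / s) ^ (2 * k + 1)) := by positivity
    have h2 : 0 ≤ B * (vk / t ^ (k + 2)) * (1 - 1 / z) := by positivity
    linarith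
  · have h' : t < x0 := not_le.mp h
    set x := x0 / t with hxdef
    have hx1 : 1 < x := by rw [hxdef, lt_div_iff₀ ht]; linarith
    set q := kk / t with hq
    have hq0 : 0 ≤ q := by positivity
    have hqz : q ≤ (z / s) ^ 2 := by
      rw [hq, div_le_iff₀ ht]; linarith
    have hxq : x ≤ q + 5 * ε := by
      rw [hxdef, hq, div_add' _ _ _ ht.ne']
      exact div_le_div_of_nonneg_right hx ht.le
    have hx5 : x * (1 - 5 * ε) ≤ q := by nlinarith
    set y := Real.sqrt x with hy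
    have hy2 : y ^ 2 = x := Real.sq_sqrt (by linarith)
    have hy1 : 1 < y := by rw [hy, Real.lt_sqrt (by norm_num)]; linarith
    have hy0 : 0 < y := by linarith
    have he1 : 0 ≤ 1 - 5 * ε := by linarith
    set c := Real.sqrt (1 - 5 * ε) with hc
    have hc2 : c ^ 2 = 1 - 5 * ε := Real.sq_sqrt he1
    have hc0 : 0 ≤ c := Real.sqrt_nonneg _
    have hc1 : c ≤ 1 := by
      rw [hc]; exact Real.sqrt_le_iff.mpr ⟨by norm_num, by linarith⟩
    have huz : y * c ≤ z / s := by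
      apply le_of_sq_le_sq _ (by positivity)
      rw [mul_pow, hy2, hc2]
      exact hx5.trans hqz
    have hu0 : 0 ≤ y * c := by positivity
    have hupow : (y * c) ^ (2 * k + 3) ≤ q * (z / s) ^ (2 * k + 1) := by
      have e : (y * c) ^ (2 * k + 3) = (x * (1 - 5 * ε)) * (y * c) ^ (2 * k + 1) := by
        rw [← hy2, ← hc2]; ring
      rw [e]
      exact mul_le_mul hx5 (pow_le_pow_left₀ hu0 huz _) (by positivity) hq0
    have hcpow : 1 / 2 ≤ c ^ (2 * k + 3) := by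
      have e1 : c ^ (2 * k + 4) ≤ c ^ (2 * k + 3) := pow_le_pow_of_le_one hc0 hc1 (by omega)
      have e2 : c ^ (2 * k + 4) = (1 + -(5 * ε)) ^ (k + 2) := by
        have : (1 + -(5 * ε)) = c ^ 2 := by rw [hc2]; ring
        rw [this, ← pow_mul]; congr 1
      have e3 := one_add_mul_le_pow (show (-2 : ℝ) ≤ -(5 * ε) by linarith) (k + 2)
      push_cast at e3
      rw [e2] at e1
      nlinarith
    have hypow : y ^ (2 * k + 3) ≤ 2 * (q * (z / s) ^ (2 * k + 1)) := by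
      rw [mul_pow] at hupow
      have hyp : 0 < y ^ (2 * k + 3) := by positivity
      nlinarith
    have hyz : y ≤ z / 2 := by
      apply le_of_sq_le_sq _ (by positivity)
      rw [hy2]
      have e1 : (z / s) ^ 2 ≤ z ^ 2 / 16 := by
        rw [div_pow]
        apply div_le_div_of_nonneg_left (by positivity) (by norm_num)
        have h16 : (4 : ℝ) ^ 2 ≤ s ^ 2 := pow_le_pow_left₀ (by norm_num) hs 2
        linarith
      have e2 : 1 ≤ z ^ 2 := one_le_pow₀ hz.le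
      have e3 : (z / 2) ^ 2 = z ^ 2 / 4 := by ring
      rw [e3]
      linarith
    have hinv : 1 / z ≤ 1 / (2 * y) := by
      apply one_div_le_one_div_of_le (by positivity)
      linarith
    have hinv1 : 1 / (2 * y) ≤ 1 := by
      rw [div_le_one (by positivity)]; linarith
    have hinv0 : 0 < 1 / (2 * y) := by positivity
    have hodd : 2 * (k + 2) - 1 = 2 * k + 3 := by omega
    rw [hodd]
    have hwt : w / t ^ (k + 2) ≤ vk / t ^ (k + 2) + E * ε * y ^ (2 * k + 3) := by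
      have e1 : w / t ^ (k + 2) ≤ (vk + E * ε * t * x0 ^ (k + 1)) / t ^ (k + 2) :=
        div_le_div_of_nonneg_right hwv (by positivity)
      have e2 : (vk + E * ε * t * x0 ^ (k + 1)) / t ^ (k + 2) =
          vk / t ^ (k + 2) + E * ε * x ^ (k + 1) := by
        rw [hxdef, div_pow]
        have : t ≠ 0 := ht.ne'
        field_simp
        ring
      have e3 : x ^ (k + 1) ≤ y ^ (2 * k + 3) := by
        rw [← hy2, ← pow_mul]
        exact pow_le_pow_right₀ hy1.le (by omega)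
      have e4 : E * ε * x ^ (k + 1) ≤ E * ε * y ^ (2 * k + 3) :=
        mul_le_mul_of_nonneg_left e3 (by positivity)
      linarith
    have hY : 0 < y ^ (2 * k + 3) := by positivity
    have hV : 0 ≤ vk / t ^ (k + 2) := by positivity
    have m1 : B * (w / t ^ (k + 2)) * (1 - 1 / (2 * y)) ≤
        B * (vk / t ^ (k + 2) + E * ε * y ^ (2 * k + 3)) * (1 - 1 / (2 * y)) :=
      mul_le_mul_of_nonneg_right (mul_le_mul_of_nonneg_left hwt hB0) (by linarith)
    have m2 : B * (vk / t ^ (k + 2)) * (1 - 1 / (2 * y)) ≤ B * (vk / t ^ (k + 2)) * (1 - 1 / z) :=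
      mul_le_mul_of_nonneg_left (by linarith) (by positivity)
    have m3 : B * (E * ε * y ^ (2 * k + 3)) * (1 - 1 / (2 * y)) ≤ A * y ^ (2 * k + 3) := by
      have e1 : B * (E * ε * y ^ (2 * k + 3)) = (κ * E * ε) * (A * y ^ (2 * k + 3)) := by
        rw [hB]; ring
      have e2 : (κ * E * ε) * (A * y ^ (2 * k + 3)) ≤ 1 * (A * y ^ (2 * k + 3)) :=
        mul_le_mul_of_nonneg_right hκE (by positivity)
      have e3 : 0 ≤ B * (E * ε * y ^ (2 * k + 3)) := by positivity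
      have e4 : B * (E * ε * y ^ (2 * k + 3)) * (1 - 1 / (2 * y)) ≤
          B * (E * ε * y ^ (2 * k + 3)) * 1 :=
        mul_le_mul_of_nonneg_left (by linarith) e3
      linarith
    have m4 : A * y ^ (2 * k + 3) ≤ A * (2 * (q * (z / s) ^ (2 * k + 1))) :=
      mul_le_mul_of_nonneg_left hypow hA
    have m5 : B * (vk / t ^ (k + 2) + E * ε * y ^ (2 * k + 3)) * (1 - 1 / (2 * y)) =
        B * (vk / t ^ (k + 2)) * (1 - 1 / (2 * y)) +
        B * (E * ε * y ^ (2 * k + 3)) * (1 - 1 / (2 * y)) := by ring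
    linarith

theorem numeric_step4 (D : ℕ) (hD : 2 ≤ D) (s Cs Np δ E : ℝ) (hs : 4 ≤ s) (hCs : 0 ≤ Cs) (hNp : 0 ≤ Np)
    (h2 : 8 * Np ≤ s ^ (2 * D - 1)) (hδ : 0 < δ) (hE : 0 ≤ E) :
    ∃ A B ε : ℝ, 1 ≤ A ∧ 0 ≤ B ∧ 0 < ε ∧ ε ≤ 1 / 40 ∧ ∀ t : ℝ, 0 < t → ∀ h v : ℝ, t < h → 0 ≤ v →
      ∀ (α β : Type) (T : Finset α) (L : α → Finset β) (hh vv kk vk : α → β → ℝ),
      (∀ a ∈ T, ∀ b ∈ L a, 0 ≤ hh a b ∧ 0 ≤ vv a b ∧ 0 ≤ kk a b ∧ 0 ≤ vk a b) →
      (∀ a ∈ T, ∀ b ∈ L a, hh a b ≤ kk a b + 5 * ε * t) →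
      (∀ a ∈ T, ∀ b ∈ L a, vv a b ≤ vk a b + E * ε * t * (hh a b) ^ (D - 1)) →
      (∀ a ∈ T, ((L a).card : ℝ) ≤ 2 * (h / t) / ε) →
      (∀ a ∈ T, ∑ b ∈ L a, kk a b ≤ h / s ^ 2) →
      (∑ a ∈ T, ∑ b ∈ L a, vk a b ≤ v) →
      (T.card : ℝ) ≤ Cs → (v < δ * h ^ D → (T.card : ℝ) ≤ Np) →
      ∑ a ∈ T, ∑ b ∈ L a, Phi D A B t (hh a b) (vv a b) ≤ Phi D A B t h v := by
  obtain ⟨k, rfl⟩ : ∃ k, D = k + 2 := ⟨D - 2, by omega⟩
  set κ : ℝ := 10 * Cs / δ + 1 with hκ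
  have hκ1 : 1 ≤ κ := by
    have : 0 ≤ 10 * Cs / δ := by positivity
    linarith
  have hκ0 : 0 < κ := by linarith
  set ε : ℝ := min (1 / (κ * (E + 1))) (1 / (20 * ((k : ℝ) + 2))) with hε
  have hk0 : (0 : ℝ) ≤ (k : ℝ) := Nat.cast_nonneg k
  have hε0 : 0 < ε := lt_min (by positivity) (by positivity)
  have hεD : ε * (20 * ((k : ℝ) + 2)) ≤ 1 := by
    have h1 : ε ≤ 1 / (20 * ((k : ℝ) + 2)) := min_le_right _ _
    rwa [le_div_iff₀ (by positivity)] at h1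
  have hεκ : ε * (κ * (E + 1)) ≤ 1 := by
    have h1 : ε ≤ 1 / (κ * (E + 1)) := min_le_left _ _
    rwa [le_div_iff₀ (by positivity)] at h1
  have hε5 : 5 * ε * ((k : ℝ) + 2) ≤ 1 / 4 := by linarith
  have hε40 : ε ≤ 1 / 40 := by nlinarith
  have hκE : κ * E * ε ≤ 1 := by nlinarith [mul_pos hε0 hκ0]
  set A : ℝ := 8 * Np / ε + 2 / ε + 1 with hA
  have hNe : 0 ≤ 8 * Np / ε := by positivity
  have h2e : 0 ≤ 2 / ε := by positivity
  have hA1 : 1 ≤ A := by linarith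
  have hA0 : 0 ≤ A := by linarith
  set B : ℝ := κ * A with hB
  have hB0 : 0 ≤ B := by positivity
  refine ⟨A, B, ε, hA1, hB0, hε0, hε40, ?_⟩
  intro t ht h v hth hv α β T L hh vv kk vk hnn hhk hvvk hcard hsum hvs hT1 hT2
  have hs0 : 0 < s := by linarith
  have hht : 1 < h / t := by rw [lt_div_iff₀ ht]; linarith
  set z := Real.sqrt (h / t) with hz
  have hz2 : z ^ 2 = h / t := Real.sq_sqrt (by linarith)
  have hz1 : 1 < z := by
    rw [hz, Real.lt_sqrt (by norm_num)]; linarith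
  have hz0 : 0 < z := by linarith
  have hhz : h = t * z ^ 2 := by rw [hz2]; field_simp
  have hhs : h / s ^ 2 = t * (z / s) ^ 2 := by rw [hhz, div_pow]; ring
  have hodd : 2 * (k + 2) - 1 = 2 * k + 3 := by omega
  have hsub : k + 2 - 1 = k + 1 := by omega
  rw [hodd] at h2
  rw [hsub] at hvvk
  have h1z : 0 ≤ 1 - 1 / z := by
    have : 1 / z ≤ 1 := by rw [div_le_one hz0]; exact hz1.le
    linarith
  -- one `a`
  have hone : ∀ a ∈ T, ∑ b ∈ L a, Phi (k + 2) A B t (hh a b) (vv a b)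
      ≤ (2 * z ^ 2 / ε + 4 * A * (z / s) ^ (2 * k + 3)) +
        B * ((∑ b ∈ L a, vk a b) / t ^ (k + 2)) * (1 - 1 / z) := by
    intro a ha
    have hle : ∀ b ∈ L a, kk a b ≤ t * (z / s) ^ 2 := by
      intro b hb
      have h1 : kk a b ≤ ∑ b ∈ L a, kk a b :=
        Finset.single_le_sum (f := fun b => kk a b) (fun b hb => (hnn a ha b hb).2.2.1) hb
      linarith [hsum a ha]
    calc ∑ b ∈ L a, Phi (k + 2) A B t (hh a b) (vv a b)
        ≤ ∑ b ∈ L a, (1 + 4 * A * ((kk a b / t) * (z / s) ^ (2 * k + 1)) +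
            B * (vk a b / t ^ (k + 2)) * (1 - 1 / z)) :=
          Finset.sum_le_sum fun b hb => numeric_step4_term k hA0 hκ0.le hB hE hε0 hε5 hε40 hκE ht
            hs hz1 (hnn a ha b hb).1 (hnn a ha b hb).2.1 (hnn a ha b hb).2.2.1
            (hnn a ha b hb).2.2.2 (hhk a ha b hb) (hvvk a ha b hb) (hle b hb)
      _ = (L a).card + 4 * A * (((∑ b ∈ L a, kk a b) / t) * (z / s) ^ (2 * k + 1))
            + B * ((∑ b ∈ L a, vk a b) / t ^ (k + 2)) * (1 - 1 / z) := by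
          rw [Finset.sum_add_distrib, Finset.sum_add_distrib, Finset.sum_const, nsmul_eq_mul,
            mul_one, ← Finset.mul_sum, ← Finset.sum_mul, ← Finset.sum_div, ← Finset.sum_mul,
            ← Finset.mul_sum, ← Finset.sum_div]
      _ ≤ _ := by
          have h1 := hcard a ha
          rw [← hz2] at h1
          have h3 : (∑ b ∈ L a, kk a b) / t ≤ (z / s) ^ 2 := by
            rw [div_le_iff₀ ht]
            linarith [hsum a ha]
          have h4 : 4 * A * (((∑ b ∈ L a, kk a b) / t) * (z / s) ^ (2 * k + 1))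
              ≤ 4 * A * (z / s) ^ (2 * k + 3) := by
            apply mul_le_mul_of_nonneg_left _ (by positivity)
            have h5 : (z / s) ^ (2 * k + 3) = (z / s) ^ 2 * (z / s) ^ (2 * k + 1) := by
              rw [← pow_add]; congr 1; ring
            rw [h5]
            exact mul_le_mul_of_nonneg_right h3 (by positivity)
          linarith
  have htot : ∑ a ∈ T, ∑ b ∈ L a, Phi (k + 2) A B t (hh a b) (vv a b)
      ≤ T.card * (2 * z ^ 2 / ε + 4 * A * (z / s) ^ (2 * k + 3)) +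
        B * (v / t ^ (k + 2)) * (1 - 1 / z) := by
    calc _ ≤ ∑ a ∈ T, ((2 * z ^ 2 / ε + 4 * A * (z / s) ^ (2 * k + 3))
            + B * ((∑ b ∈ L a, vk a b) / t ^ (k + 2)) * (1 - 1 / z)) := Finset.sum_le_sum hone
      _ = T.card * (2 * z ^ 2 / ε + 4 * A * (z / s) ^ (2 * k + 3))
            + B * ((∑ a ∈ T, ∑ b ∈ L a, vk a b) / t ^ (k + 2)) * (1 - 1 / z) := by
          rw [Finset.sum_add_distrib, Finset.sum_const, nsmul_eq_mul, ← Finset.sum_mul,
            ← Finset.mul_sum, ← Finset.sum_div]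
      _ ≤ _ := by
          have h1 : (∑ a ∈ T, ∑ b ∈ L a, vk a b) / t ^ (k + 2) ≤ v / t ^ (k + 2) :=
            div_le_div_of_nonneg_right hvs (by positivity)
          have h3 : B * ((∑ a ∈ T, ∑ b ∈ L a, vk a b) / t ^ (k + 2)) * (1 - 1 / z)
              ≤ B * (v / t ^ (k + 2)) * (1 - 1 / z) :=
            mul_le_mul_of_nonneg_right (mul_le_mul_of_nonneg_left h1 hB0) h1z
          linarith
  have hPhi : Phi (k + 2) A B t h v = A * z ^ (2 * k + 3)
      + B * (v / t ^ (k + 2)) * (1 - 1 / (2 * z)) := by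
    unfold Phi
    rw [if_neg (not_le.2 hth), hodd]
  rw [hPhi]
  refine htot.trans ?_
  have hz3 : z ^ 2 ≤ z ^ (2 * k + 3) := pow_le_pow_right₀ hz1.le (by omega)
  have hzs : (z / s) ^ (2 * k + 3) = z ^ (2 * k + 3) / s ^ (2 * k + 3) := div_pow _ _ _
  have hZ : 0 < z ^ (2 * k + 3) := by positivity
  have hS : 0 < s ^ (2 * k + 3) := by positivity
  have hvt : 0 ≤ v / t ^ (k + 2) := by positivity
  have hBv : 0 ≤ B * (v / t ^ (k + 2)) := by positivity
  have hhalf : 1 / z = 1 / (2 * z) + 1 / (2 * z) := by field_simp; norm_num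
  have h2z : 0 < 1 / (2 * z) := by positivity
  have hcn : (0 : ℝ) ≤ T.card := Nat.cast_nonneg _
  by_cases hcase : v < δ * h ^ (k + 2)
  · have hc := hT2 hcase
    have e1 : (T.card : ℝ) * (2 * z ^ 2 / ε + 4 * A * (z / s) ^ (2 * k + 3))
        ≤ Np * (2 * z ^ (2 * k + 3) / ε + 4 * A * (z ^ (2 * k + 3) / s ^ (2 * k + 3))) := by
      rw [hzs]
      apply mul_le_mul hc _ (by positivity) hNp
      have : 2 * z ^ 2 / ε ≤ 2 * z ^ (2 * k + 3) / ε :=
        div_le_div_of_nonneg_right (by linarith) hε0.le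
      linarith
    have e2 : Np * (4 * A * (z ^ (2 * k + 3) / s ^ (2 * k + 3))) ≤ A * z ^ (2 * k + 3) / 2 := by
      have : Np * (4 * A * (z ^ (2 * k + 3) / s ^ (2 * k + 3)))
          = (4 * (A * z ^ (2 * k + 3))) * (Np / s ^ (2 * k + 3)) := by ring
      rw [this]
      have h5 : Np / s ^ (2 * k + 3) ≤ 1 / 8 := by
        rw [div_le_div_iff₀ hS (by norm_num)]; linarith
      have := mul_le_mul_of_nonneg_left h5 (show 0 ≤ 4 * (A * z ^ (2 * k + 3)) by positivity)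
      linarith
    have e3 : Np * (2 * z ^ (2 * k + 3) / ε) ≤ A * z ^ (2 * k + 3) / 4 := by
      have h6 : Np * (2 * z ^ (2 * k + 3) / ε) = (8 * Np / ε) * z ^ (2 * k + 3) / 4 := by
        field_simp; ring
      rw [h6]
      have h7 : 8 * Np / ε ≤ A := by linarith
      have := mul_le_mul_of_nonneg_right h7 hZ.le
      linarith
    have e4 : B * (v / t ^ (k + 2)) * (1 - 1 / z) ≤ B * (v / t ^ (k + 2)) * (1 - 1 / (2 * z)) :=
      mul_le_mul_of_nonneg_left (by linarith) hBv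
    have e5 : 0 ≤ A * z ^ (2 * k + 3) := by positivity
    rw [mul_add] at e1
    linarith
  · have hcase' : δ * h ^ (k + 2) ≤ v := not_lt.mp hcase
    have e1 : (T.card : ℝ) * (2 * z ^ 2 / ε + 4 * A * (z / s) ^ (2 * k + 3))
        ≤ Cs * (A * z ^ (2 * k + 3) + 4 * A * z ^ (2 * k + 3)) := by
      have h10 : (z / s) ^ (2 * k + 3) ≤ z ^ (2 * k + 3) := by
        apply pow_le_pow_left₀ (by positivity)
        exact div_le_self hz0.le (by linarith)
      apply mul_le_mul hT1 _ (by positivity) hCs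
      have h11 := mul_le_mul_of_nonneg_left h10 (show 0 ≤ 4 * A by positivity)
      have h12 : 2 * z ^ 2 / ε ≤ A * z ^ (2 * k + 3) := by
        have h13 : 2 * z ^ 2 / ε = (2 / ε) * z ^ 2 := by ring
        rw [h13]
        exact mul_le_mul (by linarith) hz3 (by positivity) hA0
      linarith
    have e2 : δ * z ^ (2 * k + 4) ≤ v / t ^ (k + 2) := by
      rw [le_div_iff₀ (by positivity)]
      have h11 : h ^ (k + 2) = z ^ (2 * k + 4) * t ^ (k + 2) := by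
        rw [hhz, mul_pow, ← pow_mul]; ring
      rw [h11] at hcase'
      linarith
    have e3 : Cs * (A * z ^ (2 * k + 3) + 4 * A * z ^ (2 * k + 3)) ≤
        B * (v / t ^ (k + 2)) * (1 / (2 * z)) := by
      have h12 : B * (δ * z ^ (2 * k + 4)) * (1 / (2 * z))
          = (κ * δ) * A * z ^ (2 * k + 3) / 2 := by
        rw [hB, show 2 * k + 4 = (2 * k + 3) + 1 by ring, pow_succ]
        field_simp
      have h13 : 10 * Cs ≤ κ * δ := by
        have : κ * δ = 10 * Cs + δ := by rw [hκ]; field_simp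
        linarith
      have h14 : B * (δ * z ^ (2 * k + 4)) * (1 / (2 * z)) ≤
          B * (v / t ^ (k + 2)) * (1 / (2 * z)) :=
        mul_le_mul_of_nonneg_right (mul_le_mul_of_nonneg_left e2 hB0) (by positivity)
      refine le_trans ?_ h14
      rw [h12]
      have h15 := mul_le_mul_of_nonneg_right h13 (show 0 ≤ A * z ^ (2 * k + 3) by positivity)
      linarith
    have e4 : B * (v / t ^ (k + 2)) * (1 - 1 / (2 * z)) =
        B * (v / t ^ (k + 2)) * (1 - 1 / z) + B * (v / t ^ (k + 2)) * (1 / (2 * z)) := by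
      rw [hhalf]; ring
    have e5 : 0 ≤ A * z ^ (2 * k + 3) := by positivity
    rw [e4]
    linarith

end Pool.Agent.H889
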