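import Pool.Agent.Helper889_Cut.Step4
import Pool.Agent.Helper889_Cut.Numeric4

/-! The recursion, with crossing pairs. -/

set_option autoImplicit false
open Set

namespace Pool.Agent.H889

variable {V : Type} [NormedAddCommGroup V] [NormedSpace ℝ V]

/-- open bodies are in open bodies -/
theorem recursion4_obody [FiniteDimensional ℝ V] {m : ℕ} {w' w : Fin m → V} {a' b' a b : V →ᵃ[ℝ] ℝ}
    (h : Body w' a' b' ⊆ Body w a b) : OBody w' a' b' ⊆ OBody w a b := by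
  rintro ⟨x, y⟩ ⟨hx, h1, h2⟩
  have ca : Continuous a' := a'.continuous_of_finiteDimensional
  have cb : Continuous b' := b'.continuous_of_finiteDimensional
  have hx' : x ∈ Cv w' := interior_subset hx
  refine ⟨?_, ?_, ?_⟩
  · rw [mem_interior]
    refine ⟨interior (Cv w') ∩ ({z | a' z < y} ∩ {z | y < b' z}), ?_, ?_, hx, h1, h2⟩
    · rintro z ⟨hz, hz1, hz2⟩
      exact (h (show (z, y) ∈ Body w' a' b' from
        ⟨interior_subset hz, le_of_lt hz1, le_of_lt hz2⟩)).1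
    · exact isOpen_interior.inter ((isOpen_lt ca continuous_const).inter
        (isOpen_lt continuous_const cb))
  · have := (h (show (x, (a' x + y) / 2) ∈ Body w' a' b' from
      ⟨hx', by show a' x ≤ (a' x + y) / 2; simp only at h1; linarith,
        by show (a' x + y) / 2 ≤ b' x; simp only at h1 h2; linarith⟩)).2.1
    simp only at this h1 ⊢
    linarith
  · have := (h (show (x, (y + b' x) / 2) ∈ Body w' a' b' from
      ⟨hx', by show a' x ≤ (y + b' x) / 2; simp only at h1 h2; linarith,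
        by show (y + b' x) / 2 ≤ b' x; simp only at h2; linarith⟩)).2.2
    simp only at this h2 ⊢
    linarith

theorem recursion4_cross {D Δ : ℕ} {ι : Type} [Fintype ι] (M : ι → Set (V × ℝ))
    (ψ : ι → Fin (D + 1) → (V →ᵃ[ℝ] ℝ)) (ℓ : ι → (V →ᵃ[ℝ] ℝ)) (P : Finset (ι × ι))
    (π : ι × ι → (V →ᵃ[ℝ] ℝ)) (w τ : Fin (D + 1) → V) (a b : V →ᵃ[ℝ] ℝ) :
    {x : Ix ι D Δ | x ∈ Ac M ℓ P Δ w a b ∧ ∃ y ∈ interior (Cv τ), gf ψ ℓ π a b x y = 0}.ncard ≤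
      (Cross (fun x : ↥(Ac M ℓ P Δ w a b) => gf ψ ℓ π a b x.1) τ).ncard := by
  classical
  have h1 : {x : Ix ι D Δ | x ∈ Ac M ℓ P Δ w a b ∧
      ∃ y ∈ interior (Cv τ), gf ψ ℓ π a b x y = 0} ⊆
      Subtype.val '' (Cross (fun x : ↥(Ac M ℓ P Δ w a b) => gf ψ ℓ π a b x.1) τ) := by
    rintro x ⟨h1, y, hy, h2⟩
    exact ⟨⟨x, h1⟩, ⟨y, hy, h2⟩, rfl⟩
  exact (Set.ncard_le_ncard h1 (Set.toFinite _)).trans (Set.ncard_image_le (Set.toFinite _))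

theorem recursion4_vert {D Δ : ℕ} {ι : Type} [Fintype ι] (M : ι → Set (V × ℝ))
    (ψ : ι → Fin (D + 1) → (V →ᵃ[ℝ] ℝ)) (ℓ : ι → (V →ᵃ[ℝ] ℝ)) (P : Finset (ι × ι))
    (π : ι × ι → (V →ᵃ[ℝ] ℝ)) (w : Fin (D + 1) → V) (a b : V →ᵃ[ℝ] ℝ) :
    (Vert D (fun x : ↥(Ac M ℓ P Δ w a b) => gf ψ ℓ π a b x.1) w).ncard ≤
      (Vx M ψ ℓ P π Δ w a b).ncard := by
  classical
  let g : (Fin D → ↥(Ac M ℓ P Δ w a b)) → (Fin D → Ix ι D Δ) := fun κ m => (κ m).1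
  have hg : Function.Injective g := by
    intro κ κ' h
    funext m
    exact Subtype.ext (congrFun h m)
  rw [← Set.ncard_image_of_injective _ hg]
  apply Set.ncard_le_ncard _ (Set.toFinite _)
  rintro _ ⟨κ, ⟨x, hx, hz⟩, rfl⟩
  exact ⟨fun m => (κ m).2, x, hx, hz⟩

theorem recursion4_Vx_le {D Δ : ℕ} {ι : Type} [Fintype ι] (M : ι → Set (V × ℝ))
    (ψ : ι → Fin (D + 1) → (V →ᵃ[ℝ] ℝ)) (ℓ : ι → (V →ᵃ[ℝ] ℝ)) (P : Finset (ι × ι))
    (π : ι × ι → (V →ᵃ[ℝ] ℝ)) (w : Fin (D + 1) → V) (a b : V →ᵃ[ℝ] ℝ) :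
    (Vx M ψ ℓ P π Δ w a b).ncard ≤ (Ac M ℓ P Δ w a b).ncard ^ D := by
  classical
  let g : (Fin D → ↥(Ac M ℓ P Δ w a b)) → (Fin D → Ix ι D Δ) := fun κ m => (κ m).1
  have h1 : Vx M ψ ℓ P π Δ w a b ⊆ g '' Set.univ := by
    rintro κ ⟨h1, h2⟩
    exact ⟨fun m => ⟨κ m, h1 m⟩, trivial, rfl⟩
  refine (Set.ncard_le_ncard h1 (Set.toFinite _)).trans
    ((Set.ncard_image_le (Set.toFinite _)).trans ?_)
  rw [Set.ncard_univ, Nat.card_fun, Nat.card_fin, Nat.card_coe_set_eq]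

theorem recursion4_Phi_le {D : ℕ} {A B t h v F : ℝ} (hA : 0 ≤ A) (hB : 0 ≤ B) (hF : 0 ≤ F)
    (ht : 0 < t) (hh : 0 ≤ h) (hv : v ≤ F * h ^ D) (hD : 1 ≤ D) :
    Phi D A B t h v ≤ 1 + (A + B * F) * (h / t) ^ D := by
  unfold Phi
  split_ifs with hc
  · have : 0 ≤ (A + B * F) * (h / t) ^ D := by positivity
    linarith
  · push Not at hc
    have hz1 : 1 ≤ h / t := by rw [le_div_iff₀ ht]; linarith
    have hz : 1 ≤ Real.sqrt (h / t) := by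
      rw [Real.le_sqrt' one_pos]; simpa using hz1
    have h1 : (Real.sqrt (h / t)) ^ (2 * D - 1) ≤ (h / t) ^ D := by
      calc (Real.sqrt (h / t)) ^ (2 * D - 1) ≤ (Real.sqrt (h / t)) ^ (2 * D) :=
            pow_le_pow_right₀ hz (by omega)
        _ = (h / t) ^ D := by rw [pow_mul, Real.sq_sqrt (by positivity)]
    have h2 : v / t ^ D ≤ F * (h / t) ^ D := by
      rw [div_pow, ← mul_div_assoc]
      exact div_le_div_of_nonneg_right hv (by positivity)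
    have h3 : 1 - 1 / (2 * Real.sqrt (h / t)) ≤ 1 := by
      have : 0 ≤ 1 / (2 * Real.sqrt (h / t)) := by positivity
      linarith
    have h4 : 0 ≤ 1 - 1 / (2 * Real.sqrt (h / t)) := by
      have : 1 / (2 * Real.sqrt (h / t)) ≤ 1 := by
        rw [div_le_one (by positivity)]; linarith
      linarith
    have h5 : B * (v / t ^ D) * (1 - 1 / (2 * Real.sqrt (h / t))) ≤ B * (F * (h / t) ^ D) := by
      calc B * (v / t ^ D) * (1 - 1 / (2 * Real.sqrt (h / t)))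
          ≤ B * (F * (h / t) ^ D) * (1 - 1 / (2 * Real.sqrt (h / t))) :=
            mul_le_mul_of_nonneg_right (mul_le_mul_of_nonneg_left h2 hB) h4
        _ ≤ B * (F * (h / t) ^ D) * 1 := mul_le_mul_of_nonneg_left h3 (by positivity)
        _ = _ := by ring
    have h6 : A * (Real.sqrt (h / t)) ^ (2 * D - 1) ≤ A * (h / t) ^ D :=
      mul_le_mul_of_nonneg_left h1 hA
    have h7 : (A + B * F) * (h / t) ^ D = A * (h / t) ^ D + B * (F * (h / t) ^ D) := by ring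
    linarith

theorem recursion4_Im_le {D : ℕ} {ι : Type} (M : ι → Set (V × ℝ)) (P : Finset (ι × ι)) (Δ : ℕ)
    (w : Fin (D + 1) → V) (a b : V →ᵃ[ℝ] ℝ) :
    ((Im M w a b).ncard : ℝ) ≤ (Wt M P Δ w a b : ℝ) / ((Δ : ℝ) + 1) := by
  have hΔ : (0 : ℝ) < (Δ : ℝ) + 1 := by positivity
  rw [le_div_iff₀ hΔ]
  have h1 : (Δ + 1) * (Im M w a b).ncard ≤ Wt M P Δ w a b := Nat.le_add_right _ _
  have h2 : ((Δ : ℝ) + 1) * ((Im M w a b).ncard : ℝ) ≤ (Wt M P Δ w a b : ℝ) := by exact_mod_cast h1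
  linarith

theorem recursion4_alg (k : ℕ) (d K W y x : ℝ) (hy : y ≠ 0) :
    (K / y ^ (k + 1) + 5 * d * (d + 3) ^ (k + 1) * x * (W / y) ^ k) * y ^ (k + 1) =
      K + d * (((d + 3) * (y * (5 * x))) * ((d + 3) * W) ^ k) := by
  have h1 : y ^ (k + 1) ≠ 0 := pow_ne_zero _ hy
  have h2 : y ^ k ≠ 0 := pow_ne_zero _ hy
  rw [add_mul, div_mul_cancel₀ _ h1, div_pow, mul_pow, pow_succ y, pow_succ (d + 3)]
  have h3 : 5 * d * ((d + 3) ^ k * (d + 3)) * x * (W ^ k / y ^ k) * (y ^ k * y) =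
      5 * d * ((d + 3) ^ k * (d + 3)) * x * y * (W ^ k / y ^ k * y ^ k) := by ring
  rw [h3, div_mul_cancel₀ _ h2]
  ring

theorem recursion4_main (D : ℕ) (hD : 2 ≤ D) (s Cs Np δ : ℝ) (hs : 4 ≤ s) (hδ : 0 < δ)
    (A B ε : ℝ) (hε : 0 < ε) (hε1 : ε ≤ 1 / 40) (t : ℝ) (ht : 0 < t)
    (hnum : ∀ h v : ℝ, t < h → 0 ≤ v →
      ∀ (α β : Type) (T : Finset α) (L : α → Finset β) (hh vv kk vk : α → β → ℝ),
      (∀ a ∈ T, ∀ b ∈ L a, 0 ≤ hh a b ∧ 0 ≤ vv a b ∧ 0 ≤ kk a b ∧ 0 ≤ vk a b) →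
      (∀ a ∈ T, ∀ b ∈ L a, hh a b ≤ kk a b + 5 * ε * t) →
      (∀ a ∈ T, ∀ b ∈ L a, vv a b ≤ vk a b +
        (5 * (D : ℝ) * ((D : ℝ) + 3) ^ D) * ε * t * (hh a b) ^ (D - 1)) →
      (∀ a ∈ T, ((L a).card : ℝ) ≤ 2 * (h / t) / ε) →
      (∀ a ∈ T, ∑ b ∈ L a, kk a b ≤ h / s ^ 2) →
      (∑ a ∈ T, ∑ b ∈ L a, vk a b ≤ v) →
      (T.card : ℝ) ≤ Cs → (v < δ * h ^ D → (T.card : ℝ) ≤ Np) →
      ∑ a ∈ T, ∑ b ∈ L a, Phi D A B t (hh a b) (vv a b) ≤ Phi D A B t h v)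
    (V : Type) [NormedAddCommGroup V] [NormedSpace ℝ V] [FiniteDimensional ℝ V]
    (hV : Module.finrank ℝ V = D) (hW : WCut V D (((D : ℝ) + 3) * s) Cs Np δ)
    (ι : Type) [Fintype ι] (M : ι → Set (V × ℝ)) (ψ : ι → Fin (D + 1) → (V →ᵃ[ℝ] ℝ))
    (ℓ : ι → (V →ᵃ[ℝ] ℝ)) (P : Finset (ι × ι)) (π : ι × ι → (V →ᵃ[ℝ] ℝ))
    (hM : ∀ i, IsMem (M i) (ψ i) (ℓ i)) (hP : PairSys M ℓ P π) (Δ : ℕ)
    (hΔ1 : (Δ : ℝ) ≤ ε * t) (hΔ2 : ε * t < (Δ : ℝ) + 1) (N : ℕ) :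
    ∀ (w : Fin (D + 1) → V) (a b : V →ᵃ[ℝ] ℝ), GoodC w a b → Wt M P Δ w a b = N →
      ∃ C : Finset ((Fin (D + 1) → V) × (V →ᵃ[ℝ] ℝ) × (V →ᵃ[ℝ] ℝ)),
        (∀ c ∈ C, GoodC c.1 c.2.1 c.2.2) ∧
        (⋃ c ∈ C, Body c.1 c.2.1 c.2.2) = Body w a b ∧
        (∀ c ∈ C, ∀ c' ∈ C, c ≠ c' →
          Disjoint (OBody c.1 c.2.1 c.2.2) (OBody c'.1 c'.2.1 c'.2.2)) ∧
        (∀ c ∈ C, (((Im M c.1 c.2.1 c.2.2).ncard : ℕ) : ℝ) ≤ t) ∧
        (C.card : ℝ) ≤ Phi D A B t ((N : ℝ) / ((Δ : ℝ) + 1))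
          (((Vx M ψ ℓ P π Δ w a b).ncard : ℝ) / ((Δ : ℝ) + 1) ^ D) := by
  classical
  induction N using Nat.strong_induction_on with
  | _ N ih =>
  intro w a b hg hN
  have hΔ : (0 : ℝ) < (Δ : ℝ) + 1 := by positivity
  have hImN := recursion4_Im_le M P Δ w a b
  rw [hN] at hImN
  by_cases hNt : (N : ℝ) / ((Δ : ℝ) + 1) ≤ t
  · refine ⟨{(w, a, b)}, ?_, ?_, ?_, ?_, ?_⟩
    · intro c hc
      rw [Finset.mem_singleton] at hc
      subst hc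
      exact hg
    · simp
    · intro c hc c' hc' hne
      rw [Finset.mem_singleton] at hc hc'
      exact absurd (hc.trans hc'.symm) hne
    · intro c hc
      rw [Finset.mem_singleton] at hc
      subst hc
      exact hImN.trans hNt
    · unfold Phi
      rw [if_pos hNt]
      simp
  · push Not at hNt
    have hNpos : (0 : ℝ) < N := by
      by_contra hc
      have h0 : (N : ℝ) = 0 := le_antisymm (not_lt.1 hc) (Nat.cast_nonneg _)
      rw [h0, zero_div] at hNt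
      linarith
    have hGle : (Ac M ℓ P Δ w a b).ncard ≤ (D + 3) * N := by
      rw [← hN]
      exact Ac_card_le M ℓ P Δ w a b
    have hleG : N ≤ (Ac M ℓ P Δ w a b).ncard := by
      rw [← hN]
      exact Wt_le_Ac M ℓ P Δ w a b
    have hcard : Fintype.card ↥(Ac M ℓ P Δ w a b) = (Ac M ℓ P Δ w a b).ncard := by
      rw [← Nat.card_eq_fintype_card]; rfl
    obtain ⟨T, hT, hT1, hT2, hT3⟩ := hW ↥(Ac M ℓ P Δ w a b) (fun x => gf ψ ℓ π a b x.1) w hg.1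
      (fun x => Ac_lin M ψ ℓ P π Δ hM hP w a b x.1 x.2)
      (by rw [hcard]; exact lt_of_lt_of_le (by exact_mod_cast hNpos) hleG)
    rw [hcard] at hT1 hT3
    obtain ⟨Λ, KW, KV, c1, c2, c3, c4, c5, c6, c7, c8⟩ := cell_step4 D (by omega) hV M ψ ℓ P π Δ
      hM hP w a b hg T hT (Δ + 1) (by omega)
    have hq : Δ + 1 - 1 + 4 * Δ = 5 * Δ := by omega
    rw [hq] at c5 c7
    have hGleR : ((Ac M ℓ P Δ w a b).ncard : ℝ) ≤ ((D : ℝ) + 3) * N := by exact_mod_cast hGle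
    have hleGR : (N : ℝ) ≤ ((Ac M ℓ P Δ w a b).ncard : ℝ) := by exact_mod_cast hleG
    have hD3 : (0 : ℝ) < (D : ℝ) + 3 := by positivity
    have hs0 : 0 < s := by linarith
    have hKW : ∀ τ ∈ T, ((∑ p ∈ Λ τ, KW τ p : ℕ) : ℝ) ≤ N / s ^ 2 := by
      intro τ hτ
      have h1 : ((∑ p ∈ Λ τ, KW τ p : ℕ) : ℝ) ≤
          2 * ((Cross (fun x : ↥(Ac M ℓ P Δ w a b) => gf ψ ℓ π a b x.1) τ).ncard : ℝ) := by
        have h2 := (c6 τ hτ).trans (Nat.mul_le_mul_left 2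
          (recursion4_cross (Δ := Δ) M ψ ℓ P π w τ a b))
        exact_mod_cast h2
      have h2 := hT1 τ hτ
      have h3 : ((Ac M ℓ P Δ w a b).ncard : ℝ) / (((D : ℝ) + 3) * s) ^ 2 ≤
          (N : ℝ) / s ^ 2 / ((D : ℝ) + 3) := by
        rw [div_div, div_le_div_iff₀ (by positivity) (by positivity)]
        calc ((Ac M ℓ P Δ w a b).ncard : ℝ) * (s ^ 2 * ((D : ℝ) + 3))
            ≤ (((D : ℝ) + 3) * N) * (s ^ 2 * ((D : ℝ) + 3)) :=
              mul_le_mul_of_nonneg_right hGleR (by positivity)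
          _ = (N : ℝ) * (((D : ℝ) + 3) * s) ^ 2 := by ring
      have h4 : (N : ℝ) / s ^ 2 / ((D : ℝ) + 3) ≤ (N : ℝ) / s ^ 2 / 2 :=
        div_le_div_of_nonneg_left (by positivity) (by norm_num) (by
          have : (0 : ℝ) ≤ D := Nat.cast_nonneg _
          linarith)
      linarith
    have hKW1 : ∀ τ ∈ T, ∀ p ∈ Λ τ, (KW τ p : ℝ) ≤ N / s ^ 2 := by
      intro τ hτ p hp
      refine le_trans ?_ (hKW τ hτ)
      exact_mod_cast Finset.single_le_sum (f := fun p => KW τ p) (fun _ _ => Nat.zero_le _) hp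
    have hWR : ∀ τ ∈ T, ∀ p ∈ Λ τ, (Wt M P Δ τ p.1 p.2 : ℝ) ≤
        (KW τ p : ℝ) + ((Δ : ℝ) + 1) * (5 * Δ) := by
      intro τ hτ p hp
      exact_mod_cast c5 τ hτ p hp
    have h5Δ : (5 : ℝ) * Δ ≤ t / 8 := by
      have : ε * t ≤ 1 / 40 * t := mul_le_mul_of_nonneg_right hε1 ht.le
      linarith
    have hlt : ∀ τ ∈ T, ∀ p ∈ Λ τ, Wt M P Δ τ p.1 p.2 < N := by
      intro τ hτ p hp
      have h1 := hWR τ hτ p hp
      have h2 := hKW1 τ hτ p hp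
      have h3 : ((Δ : ℝ) + 1) * (5 * Δ) < (N : ℝ) / 8 := by
        have h4 : ((Δ : ℝ) + 1) * t < N := by
          have := (lt_div_iff₀ hΔ).1 hNt
          linarith
        have h5 : ((Δ : ℝ) + 1) * (5 * Δ) ≤ ((Δ : ℝ) + 1) * (t / 8) :=
          mul_le_mul_of_nonneg_left h5Δ hΔ.le
        have h6 : ((Δ : ℝ) + 1) * (t / 8) = ((Δ : ℝ) + 1) * t / 8 := by ring
        linarith
      have h4 : (N : ℝ) / s ^ 2 ≤ N / 16 :=
        div_le_div_of_nonneg_left hNpos.le (by norm_num) (by nlinarith)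
      have h5 : (Wt M P Δ τ p.1 p.2 : ℝ) < N := by linarith
      exact_mod_cast h5
    have key : ∀ τ ∈ T, ∀ p ∈ Λ τ,
        ∃ C : Finset ((Fin (D + 1) → V) × (V →ᵃ[ℝ] ℝ) × (V →ᵃ[ℝ] ℝ)),
        (∀ c ∈ C, GoodC c.1 c.2.1 c.2.2) ∧
        (⋃ c ∈ C, Body c.1 c.2.1 c.2.2) = Body τ p.1 p.2 ∧
        (∀ c ∈ C, ∀ c' ∈ C, c ≠ c' →
          Disjoint (OBody c.1 c.2.1 c.2.2) (OBody c'.1 c'.2.1 c'.2.2)) ∧
        (∀ c ∈ C, (((Im M c.1 c.2.1 c.2.2).ncard : ℕ) : ℝ) ≤ t) ∧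
        (C.card : ℝ) ≤ Phi D A B t ((Wt M P Δ τ p.1 p.2 : ℝ) / ((Δ : ℝ) + 1))
          (((Vx M ψ ℓ P π Δ τ p.1 p.2).ncard : ℝ) / ((Δ : ℝ) + 1) ^ D) := by
      intro τ hτ p hp
      exact ih _ (hlt τ hτ p hp) τ p.1 p.2 (c2 τ hτ p hp) rfl
    choose! C hC1 hC2 hC3 hC4 hC5 using key
    have hsub : ∀ τ ∈ T, ∀ p ∈ Λ τ, ∀ c ∈ C τ p,
        Body c.1 c.2.1 c.2.2 ⊆ Body τ p.1 p.2 := by
      intro τ hτ p hp c hc
      rw [← hC2 τ hτ p hp]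
      exact Set.subset_biUnion_of_mem (u := fun c => Body c.1 c.2.1 c.2.2) hc
    refine ⟨T.biUnion (fun τ => (Λ τ).biUnion (fun p => C τ p)), ?_, ?_, ?_, ?_, ?_⟩
    · intro c hc
      simp only [Finset.mem_biUnion] at hc
      obtain ⟨τ, hτ, p, hp, hc⟩ := hc
      exact hC1 τ hτ p hp c hc
    · rw [← c3]
      ext z
      simp only [Finset.mem_biUnion, Set.mem_iUnion, exists_prop]
      constructor
      · rintro ⟨c, ⟨τ, hτ, p, hp, hc⟩, hz⟩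
        exact ⟨τ, hτ, p, hp, hsub τ hτ p hp c hc hz⟩
      · rintro ⟨τ, hτ, p, hp, hz⟩
        rw [← hC2 τ hτ p hp] at hz
        simp only [Set.mem_iUnion, exists_prop] at hz
        obtain ⟨c, hc, hz⟩ := hz
        exact ⟨c, ⟨τ, hτ, p, hp, hc⟩, hz⟩
    · intro c hc c' hc' hne
      simp only [Finset.mem_biUnion] at hc hc'
      obtain ⟨τ, hτ, p, hp, hc⟩ := hc
      obtain ⟨τ', hτ', p', hp', hc'⟩ := hc'
      by_cases he : (τ, p) = (τ', p')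
      · obtain ⟨rfl, rfl⟩ := Prod.mk.inj he
        exact hC3 τ hτ p hp c hc c' hc' hne
      · exact (c4 τ hτ p hp τ' hτ' p' hp' he).mono
          (recursion4_obody (hsub τ hτ p hp c hc)) (recursion4_obody (hsub τ' hτ' p' hp' c' hc'))
    · intro c hc
      simp only [Finset.mem_biUnion] at hc
      obtain ⟨τ, hτ, p, hp, hc⟩ := hc
      exact hC4 τ hτ p hp c hc
    · have h1 : ((T.biUnion (fun τ => (Λ τ).biUnion (fun p => C τ p))).card : ℝ) ≤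
          ∑ τ ∈ T, ∑ p ∈ Λ τ, ((C τ p).card : ℝ) := by
        have h2 : (T.biUnion (fun τ => (Λ τ).biUnion (fun p => C τ p))).card ≤
            ∑ τ ∈ T, ∑ p ∈ Λ τ, (C τ p).card :=
          Finset.card_biUnion_le.trans (Finset.sum_le_sum fun τ _ => Finset.card_biUnion_le)
        exact_mod_cast h2
      have h2 : ∑ τ ∈ T, ∑ p ∈ Λ τ, ((C τ p).card : ℝ) ≤
          ∑ τ ∈ T, ∑ p ∈ Λ τ,
            Phi D A B t ((Wt M P Δ τ p.1 p.2 : ℝ) / ((Δ : ℝ) + 1))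
          (((Vx M ψ ℓ P π Δ τ p.1 p.2).ncard : ℝ) / ((Δ : ℝ) + 1) ^ D) :=
        Finset.sum_le_sum fun τ hτ => Finset.sum_le_sum fun p hp => hC5 τ hτ p hp
      have h3 := hnum ((N : ℝ) / ((Δ : ℝ) + 1))
        (((Vx M ψ ℓ P π Δ w a b).ncard : ℝ) / ((Δ : ℝ) + 1) ^ D) hNt (by positivity)
        (Fin (D + 1) → V) ((V →ᵃ[ℝ] ℝ) × (V →ᵃ[ℝ] ℝ)) T Λ
        (fun τ p => (Wt M P Δ τ p.1 p.2 : ℝ) / ((Δ : ℝ) + 1))
        (fun τ p => ((Vx M ψ ℓ P π Δ τ p.1 p.2).ncard : ℝ) / ((Δ : ℝ) + 1) ^ D)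
        (fun τ p => (KW τ p : ℝ) / ((Δ : ℝ) + 1))
        (fun τ p => (KV τ p : ℝ) / ((Δ : ℝ) + 1) ^ D)
        (fun _ _ _ _ => ⟨by positivity, by positivity, by positivity, by positivity⟩)
        (by
          intro τ hτ p hp
          have h4 := hWR τ hτ p hp
          rw [div_le_iff₀ hΔ]
          have h5 : ((KW τ p : ℝ) / ((Δ : ℝ) + 1) + 5 * ε * t) * ((Δ : ℝ) + 1) =
              (KW τ p : ℝ) + ((Δ : ℝ) + 1) * (5 * (ε * t)) := by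
            field_simp
          rw [h5]
          have h6 : ((Δ : ℝ) + 1) * (5 * Δ) ≤ ((Δ : ℝ) + 1) * (5 * (ε * t)) :=
            mul_le_mul_of_nonneg_left (by linarith) hΔ.le
          linarith)
        (by
          intro τ hτ p hp
          have h4 : ((Vx M ψ ℓ P π Δ τ p.1 p.2).ncard : ℝ) ≤ (KV τ p : ℝ) +
            (D : ℝ) * ((((D : ℝ) + 3) * (((Δ : ℝ) + 1) * (5 * Δ))) *
              (((D : ℝ) + 3) * (Wt M P Δ τ p.1 p.2 : ℝ)) ^ (D - 1)) := by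
            exact_mod_cast c7 τ hτ p hp
          obtain ⟨k, rfl⟩ : ∃ k, D = k + 1 := ⟨D - 1, by omega⟩
          simp only [Nat.add_sub_cancel] at h4 ⊢
          rw [div_le_iff₀ (by positivity)]
          have h5 : ((KV τ p : ℝ) / ((Δ : ℝ) + 1) ^ (k + 1) +
              5 * ((k + 1 : ℕ) : ℝ) * (((k + 1 : ℕ) : ℝ) + 3) ^ (k + 1) * ε * t *
                ((Wt M P Δ τ p.1 p.2 : ℝ) / ((Δ : ℝ) + 1)) ^ k) * ((Δ : ℝ) + 1) ^ (k + 1) =
              (KV τ p : ℝ) + (((k + 1 : ℕ) : ℝ)) * (((((k + 1 : ℕ) : ℝ) + 3) *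
                (((Δ : ℝ) + 1) * (5 * (ε * t)))) *
              ((((k + 1 : ℕ) : ℝ) + 3) * (Wt M P Δ τ p.1 p.2 : ℝ)) ^ k) := by
            have h6 := recursion4_alg k ((k + 1 : ℕ) : ℝ) (KV τ p : ℝ)
              (Wt M P Δ τ p.1 p.2 : ℝ) ((Δ : ℝ) + 1) (ε * t) hΔ.ne'
            rw [← h6]
            ring
          rw [h5]
          refine h4.trans ?_
          gcongr
          )
        (by
          intro τ hτ
          have h4 : ((Λ τ).card : ℝ) ≤ (N : ℝ) / ((Δ : ℝ) + 1) / ((Δ : ℝ) + 1) + 1 := by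
            have h5 : ((Λ τ).card : ℝ) ≤ (((Im M w a b).ncard / (Δ + 1) : ℕ) : ℝ) + 1 := by
              exact_mod_cast c1 τ hτ
            have h6 : (((Im M w a b).ncard / (Δ + 1) : ℕ) : ℝ) ≤
                ((Im M w a b).ncard : ℝ) / (((Δ + 1 : ℕ)) : ℝ) := Nat.cast_div_le
            have h7 : ((Im M w a b).ncard : ℝ) / (((Δ + 1 : ℕ)) : ℝ) ≤
                (N : ℝ) / ((Δ : ℝ) + 1) / ((Δ : ℝ) + 1) := by
              push_cast
              exact div_le_div_of_nonneg_right hImN hΔ.le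
            linarith
          refine h4.trans ?_
          have hz : 1 ≤ (N : ℝ) / ((Δ : ℝ) + 1) / t := by
            rw [le_div_iff₀ ht]; linarith
          have h5 : (N : ℝ) / ((Δ : ℝ) + 1) / ((Δ : ℝ) + 1) ≤
              (N : ℝ) / ((Δ : ℝ) + 1) / t / ε := by
            rw [div_div (_ / _) t ε]
            exact div_le_div_of_nonneg_left (by positivity) (by positivity) (by linarith)
          have h6 : (1 : ℝ) ≤ (N : ℝ) / ((Δ : ℝ) + 1) / t / ε := by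
            rw [le_div_iff₀ hε]; linarith
          have h7 : 2 * ((N : ℝ) / ((Δ : ℝ) + 1) / t) / ε =
              (N : ℝ) / ((Δ : ℝ) + 1) / t / ε + (N : ℝ) / ((Δ : ℝ) + 1) / t / ε := by ring
          rw [h7]
          linarith)
        (by
          intro τ hτ
          rw [← Finset.sum_div]
          have h4 := hKW τ hτ
          push_cast at h4
          have h5 : (N : ℝ) / ((Δ : ℝ) + 1) / s ^ 2 = (N : ℝ) / s ^ 2 / ((Δ : ℝ) + 1) := by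
            rw [div_div, div_div, mul_comm]
          rw [h5]
          exact div_le_div_of_nonneg_right h4 hΔ.le)
        (by
          have h4 : ∑ τ ∈ T, ∑ p ∈ Λ τ, (KV τ p : ℝ) / ((Δ : ℝ) + 1) ^ D =
              (∑ τ ∈ T, ∑ p ∈ Λ τ, (KV τ p : ℝ)) / ((Δ : ℝ) + 1) ^ D := by
            rw [Finset.sum_div]
            exact Finset.sum_congr rfl fun τ _ => (Finset.sum_div _ _ _).symm
          rw [h4]
          refine div_le_div_of_nonneg_right ?_ (by positivity)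
          exact_mod_cast c8)
        hT2
        (by
          intro hlt
          apply hT3
          rw [div_pow, ← mul_div_assoc] at hlt
          have h4 := (div_lt_div_iff_of_pos_right (show (0 : ℝ) < ((Δ : ℝ) + 1) ^ D by
            positivity)).1 hlt
          have h5 : ((Vert D (fun x : ↥(Ac M ℓ P Δ w a b) => gf ψ ℓ π a b x.1) w).ncard : ℝ) ≤
              ((Vx M ψ ℓ P π Δ w a b).ncard : ℝ) := by
            exact_mod_cast recursion4_vert M ψ ℓ P π w a b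
          have h6 : δ * (N : ℝ) ^ D ≤ δ * ((Ac M ℓ P Δ w a b).ncard : ℝ) ^ D :=
            mul_le_mul_of_nonneg_left (pow_le_pow_left₀ hNpos.le hleGR D) hδ.le
          linarith)
      exact h1.trans (h2.trans h3)

/-! TARGET `recursion4`. A variant of `recursion2`, whose full Lean proof is in the result of job 3315 (`SELECT result FROM jobs WHERE id=3315`; file
`Rec2.lean`); the proof follows that of `recursion2_main` closely (strong induction, union of the cells of the children).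
Let `E = 5 D (D+3)^D`, and `A0 B ε` from `numeric_step4 D hD s Cs Np δ E`. Answer: `A = A0 + B (D+3)^D`, and `ε`.
For `t > 0` let `Δ = ⌊ε t⌋₊`, `q = Δ + 1`, so `Δ ≤ ε t < Δ + 1`. For a cell `(w, a, b)` let `h = Wt M P Δ w a b / (Δ+1)` and
`v = (Vx M ψ ℓ P π Δ w a b).ncard / (Δ+1)^D`. Claim, by strong induction on `N = Wt M P Δ w a b` (all `w a b` with `GoodC`): there is `C` with the
first four items and `C.card ≤ Phi D A0 B t h v`.
* `h ≤ t`: `C = {(w, a, b)}`; `(Im ..).ncard ≤ h ≤ t` since `(Δ+1) * (Im ..).ncard ≤ Wt`.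
* `t < h`: apply `WCut` (ratio `(D+3) s`) to the type `↥(Ac M ℓ P Δ w a b)` and `f x = gf ψ ℓ π a b x.1` (`Ac_lin`), its cardinality
  `G = (Ac ..).ncard` satisfies `0 < N ≤ G ≤ (D+3) N` (`Wt_le_Ac`, `Ac_card_le`). For the resulting `T` use `cell_step4` with this `q`.
  For `τ ∈ T` the number of the `x ∈ Ac` with `gf .. x` zero in `interior (Cv τ)` is at most `(Cross f τ).ncard ≤ G / ((D+3) s)^2 ≤ N / ((D+3) s^2)`, so
  `∑ p, KW τ p ≤ 2 N / ((D+3) s^2) ≤ N / s^2`. The number `(Vert D f w).ncard ≤ (Vx ..).ncard` (injection), and if `v < δ h^D` then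
  `(Vx ..).ncard < δ N^D ≤ δ G^D`, so `T.card ≤ Np`.
  Apply `numeric_step4` with `L τ = Λ τ`, `hh τ p = Wt M P Δ τ p.1 p.2 / (Δ+1)`, `vv τ p = (Vx .. τ p.1 p.2).ncard / (Δ+1)^D`, `kk = KW / (Δ+1)`,
  `vk = KV / (Δ+1)^D`: `q - 1 + 4 Δ = 5 Δ ≤ 5 ε t`; `hh ≤ kk + 5 ε t`;
  `D (D+3) (Δ+1) (5 Δ) ((D+3) Wt)^(D-1) / (Δ+1)^D = D (D+3)^D (5 Δ) hh^(D-1) ≤ E ε t hh^(D-1)`; `(Λ τ).card ≤ (Im ..).ncard / q + 1 ≤ h / (ε t) + 1 ≤
  2 (h/t) / ε` (`q ≥ ε t`, `(Im ..).ncard ≤ h`, `ε ≤ 1`, `1 < h/t`).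
  Children are smaller: `hh ≤ kk + 5 ε t ≤ h/s^2 + t/8 < h/16 + h/8 < h`.
* At the end: `v ≤ ((D+3) h)^D` as `(Vx ..).ncard ≤ G^D`, so as in `recursion2_Phi_le` (with `v ≤ F h^D`, `F = (D+3)^D`)
  `Phi D A0 B t h v ≤ 1 + (A0 + B F) (h/t)^D`, and `h/t ≤ (Im ..).ncard / t + P.card / (ε t^2)` (as `h = (Im ..).ncard + (PA ..).ncard / (Δ+1)`,
  `PA .. ⊆ P`, `Δ + 1 > ε t`).
If a member of a union is needed: `recursion2_obody` (open bodies of smaller cells are in open bodies) can be copied. -/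

theorem recursion4 (D : ℕ) (hD : 2 ≤ D) (s Cs Np δ : ℝ) (hs : 4 ≤ s) (hCs : 0 ≤ Cs) (hNp : 0 ≤ Np)
    (h2 : 8 * Np ≤ s ^ (2 * D - 1)) (hδ : 0 < δ) :
    ∃ A ε : ℝ, 0 ≤ A ∧ 0 < ε ∧ ∀ (V : Type) [NormedAddCommGroup V] [NormedSpace ℝ V]
      [FiniteDimensional ℝ V], Module.finrank ℝ V = D → WCut V D (((D : ℝ) + 3) * s) Cs Np δ →
      ∀ (ι : Type) [Fintype ι] (M : ι → Set (V × ℝ)) (ψ : ι → Fin (D + 1) → (V →ᵃ[ℝ] ℝ))
      (ℓ : ι → (V →ᵃ[ℝ] ℝ)) (P : Finset (ι × ι)) (π : ι × ι → (V →ᵃ[ℝ] ℝ)),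
      (∀ i, IsMem (M i) (ψ i) (ℓ i)) → PairSys M ℓ P π →
      ∀ t : ℝ, 0 < t → ∀ (w : Fin (D + 1) → V) (a b : V →ᵃ[ℝ] ℝ), GoodC w a b →
      ∃ C : Finset ((Fin (D + 1) → V) × (V →ᵃ[ℝ] ℝ) × (V →ᵃ[ℝ] ℝ)),
        (∀ c ∈ C, GoodC c.1 c.2.1 c.2.2) ∧
        (⋃ c ∈ C, Body c.1 c.2.1 c.2.2) = Body w a b ∧
        (∀ c ∈ C, ∀ c' ∈ C, c ≠ c' →
          Disjoint (OBody c.1 c.2.1 c.2.2) (OBody c'.1 c'.2.1 c'.2.2)) ∧
        (∀ c ∈ C, (((Im M c.1 c.2.1 c.2.2).ncard : ℕ) : ℝ) ≤ t) ∧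
        (C.card : ℝ) ≤ 1 + A * (((Im M w a b).ncard : ℝ) / t + (P.card : ℝ) / (ε * t ^ 2)) ^ D := by
  obtain ⟨A, B, ε, hA, hB, hε, hε1, hnum⟩ := numeric_step4 D hD s Cs Np δ
    (5 * (D : ℝ) * ((D : ℝ) + 3) ^ D) hs hCs hNp h2 hδ (by positivity)
  have hA0 : 0 ≤ A := by linarith
  refine ⟨A + B * ((D : ℝ) + 3) ^ D, ε, by positivity, hε, ?_⟩
  intro V _ _ _ hV hW ι _ M ψ ℓ P π hM hP t ht w a b hg
  have hεt : 0 ≤ ε * t := by positivity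
  have hΔ1 : ((⌊ε * t⌋₊ : ℕ) : ℝ) ≤ ε * t := Nat.floor_le hεt
  have hΔ2 : ε * t < ((⌊ε * t⌋₊ : ℕ) : ℝ) + 1 := Nat.lt_floor_add_one _
  obtain ⟨C, h1, h2, h3, h4, h5⟩ := recursion4_main D hD s Cs Np δ hs hδ A B ε hε hε1 t ht
    (fun h v hth hv => hnum t ht h v hth hv) V hV hW ι M ψ ℓ P π hM hP ⌊ε * t⌋₊ hΔ1 hΔ2 _ w a b hg rfl
  refine ⟨C, h1, h2, h3, h4, ?_⟩
  generalize ⌊ε * t⌋₊ = Δ at hΔ1 hΔ2 h5
  have hΔ : (0 : ℝ) < (Δ : ℝ) + 1 := by positivity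
  have hv : ((Vx M ψ ℓ P π Δ w a b).ncard : ℝ) / ((Δ : ℝ) + 1) ^ D ≤
      ((D : ℝ) + 3) ^ D * ((Wt M P Δ w a b : ℝ) / ((Δ : ℝ) + 1)) ^ D := by
    rw [div_pow, ← mul_div_assoc, ← mul_pow]
    refine div_le_div_of_nonneg_right ?_ (by positivity)
    have h6 := (recursion4_Vx_le (Δ := Δ) M ψ ℓ P π w a b).trans
      (Nat.pow_le_pow_left (Ac_card_le M ℓ P Δ w a b) D)
    exact_mod_cast h6
  refine h5.trans ((recursion4_Phi_le hA0 hB (by positivity) ht (by positivity) hv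
    (by omega)).trans ?_)
  have h6 : (Wt M P Δ w a b : ℝ) / ((Δ : ℝ) + 1) / t ≤
      ((Im M w a b).ncard : ℝ) / t + (P.card : ℝ) / (ε * t ^ 2) := by
    have h7 : (Wt M P Δ w a b : ℝ) =
        ((Δ : ℝ) + 1) * ((Im M w a b).ncard : ℝ) + ((PA M P w a b).ncard : ℝ) := by
      unfold Wt
      push_cast
      ring
    have h8 : ((PA M P w a b).ncard : ℝ) ≤ (P.card : ℝ) := by
      have h9 : (PA M P w a b).ncard ≤ P.card := by
        rw [← Set.ncard_coe_finset]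
        exact Set.ncard_le_ncard (fun e he => he.1) (Set.toFinite _)
      exact_mod_cast h9
    rw [h7, add_div, add_div, mul_div_cancel_left₀ _ hΔ.ne']
    have h9 : ((PA M P w a b).ncard : ℝ) / ((Δ : ℝ) + 1) / t ≤ (P.card : ℝ) / (ε * t ^ 2) := by
      rw [div_div]
      have h10 : ε * t ^ 2 = (ε * t) * t := by ring
      rw [h10]
      exact div_le_div₀ (Nat.cast_nonneg _) h8 (by positivity)
        (mul_le_mul_of_nonneg_right hΔ2.le ht.le)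
    linarith
  have h7 : ((Wt M P Δ w a b : ℝ) / ((Δ : ℝ) + 1) / t) ^ D ≤
      (((Im M w a b).ncard : ℝ) / t + (P.card : ℝ) / (ε * t ^ 2)) ^ D :=
    pow_le_pow_left₀ (by positivity) h6 D
  have h8 := mul_le_mul_of_nonneg_left h7
    (show 0 ≤ A + B * ((D : ℝ) + 3) ^ D by positivity)
  linarith

end Pool.Agent.H889
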