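import Pool.Agent.Helper889_Cut.WeakCut4
import Pool.Agent.Helper889_Cut.Rec4
import Pool.Agent.Helper889_Cut.Pairs4
import Pool.Agent.Helper889_Cut.BodyTri
import Pool.Agent.Helper889_Cut.ProjDir
import Pool.Agent.Helper889_Cut.Graph
import Pool.Agent.Helper889_Cut.Root

/-! The final assembly, with crossing pairs. -/

set_option autoImplicit false
open Set

namespace Pool.Agent.H889

variable {V : Type} [NormedAddCommGroup V] [NormedSpace ℝ V]

section final4aux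

variable {W₁ W₂ : Type} [NormedAddCommGroup W₁] [NormedSpace ℝ W₁] [NormedAddCommGroup W₂]
  [NormedSpace ℝ W₂]

theorem final4_Cv (Φ : W₁ ≃L[ℝ] W₂) {m : ℕ} (t : Fin m → W₁) :
    Cv (fun k => Φ (t k)) = Φ '' Cv t := by
  unfold Cv
  have h := (Φ.toLinearEquiv.toLinearMap).image_convexHull (range t)
  have h2 : (range fun k => Φ (t k)) = Φ '' range t := by
    rw [← Set.range_comp]
    rfl
  rw [h2]
  exact h.symm

theorem final4_int (Φ : W₁ ≃L[ℝ] W₂) (s : Set W₁) : interior (Φ '' s) = Φ '' interior s :=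
  (Φ.toHomeomorph.image_interior s).symm

theorem final4_aff (Φ : W₁ ≃L[ℝ] W₂) {m : ℕ} {t : Fin m → W₁} (ht : AffineIndependent ℝ t) :
    AffineIndependent ℝ (fun k => Φ (t k)) :=
  ht.map' Φ.toLinearEquiv.toLinearMap.toAffineMap Φ.injective

end final4aux

/-- the open region of a simplex is not empty -/
theorem final4_Op_ne {m : ℕ} (y : Fin (m + 1) → V) : (Op y).Nonempty := by
  refine ⟨∑ k, (1 / ((m : ℝ) + 1)) • y k, fun _ => 1 / ((m : ℝ) + 1), fun _ => by positivity, ?_, rfl⟩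
  rw [Finset.sum_const, Finset.card_univ, Fintype.card_fin, nsmul_eq_mul]
  push_cast
  field_simp

theorem final4_Op {W₁ W₂ : Type} [NormedAddCommGroup W₁] [NormedSpace ℝ W₁] [NormedAddCommGroup W₂]
    [NormedSpace ℝ W₂] (Φ : W₁ ≃L[ℝ] W₂) {m : ℕ} {t : Fin m → W₁} {q : W₂}
    (hq : q ∈ Op (fun k => Φ (t k))) : Φ.symm q ∈ Op t := by
  obtain ⟨w, h1, h2, h3⟩ := hq
  refine ⟨w, h1, h2, ?_⟩
  rw [h3, map_sum]
  refine Finset.sum_congr rfl fun k _ => ?_
  rw [map_smul, ContinuousLinearEquiv.symm_apply_apply]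

theorem final4_Op_convex {m : ℕ} (t : Fin m → V) : Convex ℝ (Op t) := by
  rintro x ⟨w, hw1, hw2, rfl⟩ z ⟨w', hw1', hw2', rfl⟩ a b ha hb hab
  refine ⟨fun k => a * w k + b * w' k, ?_, ?_, ?_⟩
  · intro k
    have h1 : 0 ≤ a * w k := mul_nonneg ha (hw1 k).le
    have h2 : 0 ≤ b * w' k := mul_nonneg hb (hw1' k).le
    rcases ha.lt_or_eq with h | h
    · have := mul_pos h (hw1 k)
      linarith
    · have hb' : 0 < b := by linarith
      have := mul_pos hb' (hw1' k)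
      linarith
  · rw [Finset.sum_add_distrib, ← Finset.mul_sum, ← Finset.mul_sum, hw2, hw2', mul_one, mul_one, hab]
  · rw [Finset.smul_sum, Finset.smul_sum, ← Finset.sum_add_distrib]
    refine Finset.sum_congr rfl fun k _ => ?_
    rw [smul_smul, smul_smul, add_smul]

theorem final4_Op_sub_Cv {m : ℕ} (t : Fin m → V) : Op t ⊆ Cv t := by
  rintro x ⟨w, hw1, hw2, rfl⟩
  exact (convex_convexHull ℝ (range t)).sum_mem (fun k _ => (hw1 k).le) hw2
    (fun k _ => subset_convexHull ℝ _ ⟨k, rfl⟩)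

theorem final4_mix {m : ℕ} (t : Fin m → V) {x x0 : V} (hx : x ∈ Cv t) (hx0 : x0 ∈ Op t) {θ : ℝ}
    (h0 : 0 < θ) (h1 : θ < 1) : (1 - θ) • x + θ • x0 ∈ Op t := by
  have hsub : Cv t ⊆ {x : V | (1 - θ) • x + θ • x0 ∈ Op t} := by
    refine convexHull_min ?_ ?_
    · rintro _ ⟨k, rfl⟩
      obtain ⟨w, hw1, hw2, rfl⟩ := hx0
      refine ⟨fun j => (if j = k then (1 - θ) else 0) + θ * w j, ?_, ?_, ?_⟩
      · intro j
        have h2 := mul_pos h0 (hw1 j)
        dsimp only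
        split_ifs
        · linarith
        · linarith
      · rw [Finset.sum_add_distrib, ← Finset.mul_sum, hw2]
        simp
      · rw [Finset.smul_sum]
        simp_rw [add_smul]
        rw [Finset.sum_add_distrib]
        congr 1
        · simp [ite_smul]
        · refine Finset.sum_congr rfl fun j _ => ?_
          rw [smul_smul]
    · intro y hy z hz a b ha hb hab
      have h2 := final4_Op_convex t hy hz ha hb hab
      have e : (1 - θ) • (a • y + b • z) + θ • x0 =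
          a • ((1 - θ) • y + θ • x0) + b • ((1 - θ) • z + θ • x0) := by
        have e1 : θ • x0 = a • θ • x0 + b • θ • x0 := by
          rw [← add_smul, hab, one_smul]
        rw [smul_add, smul_add, smul_add, smul_comm (1 - θ) a, smul_comm (1 - θ) b]
        nth_rewrite 1 [e1]
        abel
      show (1 - θ) • (a • y + b • z) + θ • x0 ∈ Op t
      rw [e]
      exact h2
  exact hsub hx

theorem final4_near {m : ℕ} (t : Fin m → V) {x x0 : V} (hx : x ∈ Cv t) (hx0 : x0 ∈ Op t) {U : Set V}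
    (hU : IsOpen U) (hxU : x ∈ U) : (Op t ∩ U).Nonempty := by
  have h1 : Filter.Tendsto (fun θ : ℝ => (1 - θ) • x + θ • x0) (nhdsWithin 0 (Ioi 0)) (nhds x) := by
    have h2 : Continuous (fun θ : ℝ => (1 - θ) • x + θ • x0) := by fun_prop
    have h3 := h2.tendsto 0
    simp only [sub_zero, one_smul, zero_smul, add_zero] at h3
    exact h3.mono_left nhdsWithin_le_nhds
  have h4 := h1.eventually (hU.mem_nhds hxU)
  have h5 : ∀ᶠ θ : ℝ in nhdsWithin 0 (Ioi 0), θ ∈ Ioo (0 : ℝ) 1 := Ioo_mem_nhdsGT one_pos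
  obtain ⟨θ, hθ1, hθ2⟩ := (h4.and h5).exists
  exact ⟨_, final4_mix t hx hx0 hθ2.1 hθ2.2, hθ1⟩

/-- an affine function without zeros on a convex set has constant sign -/
theorem final4_sign (g : V →ᵃ[ℝ] ℝ) {G : Set V} (hG : Convex ℝ G) (h0 : ∀ x ∈ G, g x ≠ 0) {x x' : V}
    (hx : x ∈ G) (hx' : x' ∈ G) (hneg : g x < 0) : g x' < 0 := by
  by_contra hcon
  have hpos : 0 < g x' := lt_of_le_of_ne (not_lt.1 hcon) (Ne.symm (h0 x' hx'))
  have hd : 0 < g x' - g x := by linarith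
  have hmem : (g x' / (g x' - g x)) • x + (-g x / (g x' - g x)) • x' ∈ G :=
    hG hx hx' (div_nonneg hpos.le hd.le) (div_nonneg (by linarith) hd.le) (by field_simp; ring)
  refine h0 _ hmem ?_
  rw [Convex.combo_affine_apply (by field_simp; ring)]
  simp only [smul_eq_mul]
  field_simp
  ring

theorem final4_card {D n : ℕ} {c0 A ε r t N P m2 k Cc : ℝ} (hc0 : 0 ≤ c0) (hA : 0 ≤ A) (hε : 0 < ε)
    (hr : 1 ≤ r) (hn : 0 < (n : ℝ)) (ht : t = (n : ℝ) / (2 * r)) (hN0 : 0 ≤ N) (hN : N ≤ (n : ℝ))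
    (hP0 : 0 ≤ P) (hm0 : 0 ≤ m2) (hP : P ≤ 2 * m2)
    (hC : Cc ≤ 1 + A * (N / t + P / (ε * t ^ 2)) ^ D) (hk : k ≤ Cc * c0) :
    k ≤ (c0 * (1 + A * (2 + 8 / ε) ^ D) + 1) * (r + m2 * r ^ 2 / (n : ℝ) ^ 2) ^ D := by
  have hr0 : 0 < r := by linarith
  have ht0 : 0 < t := by rw [ht]; positivity
  set R : ℝ := r + m2 * r ^ 2 / (n : ℝ) ^ 2 with hR
  have hX0 : 0 ≤ m2 * r ^ 2 / (n : ℝ) ^ 2 := by positivity
  have hR1 : 1 ≤ R := by rw [hR]; linarith
  have h1 : N / t ≤ 2 * r := by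
    rw [div_le_iff₀ ht0, ht]
    refine hN.trans (le_of_eq ?_)
    field_simp
  have h1' : P / (ε * t ^ 2) ≤ 8 / ε * (m2 * r ^ 2 / (n : ℝ) ^ 2) := by
    rw [div_le_iff₀ (by positivity), ht]
    refine hP.trans (le_of_eq ?_)
    field_simp
    ring
  have h8 : 0 ≤ 8 / ε := by positivity
  have h0 : 0 ≤ N / t + P / (ε * t ^ 2) := by positivity
  have h9 : N / t + P / (ε * t ^ 2) ≤ (2 + 8 / ε) * R := by
    have h10 : 0 ≤ 8 / ε * r := mul_nonneg h8 hr0.le
    have h11 : (2 + 8 / ε) * R = 2 * r + 2 * (m2 * r ^ 2 / (n : ℝ) ^ 2) + 8 / ε * r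
        + 8 / ε * (m2 * r ^ 2 / (n : ℝ) ^ 2) := by rw [hR]; ring
    rw [h11]
    linarith
  have h2 : (N / t + P / (ε * t ^ 2)) ^ D ≤ (2 + 8 / ε) ^ D * R ^ D := by
    rw [← mul_pow]
    exact pow_le_pow_left₀ h0 h9 D
  have h3 : 1 ≤ R ^ D := one_le_pow₀ hR1
  have h4 : Cc ≤ (1 + A * (2 + 8 / ε) ^ D) * R ^ D := by
    have h5 : A * (N / t + P / (ε * t ^ 2)) ^ D ≤ A * ((2 + 8 / ε) ^ D * R ^ D) :=
      mul_le_mul_of_nonneg_left h2 hA
    nlinarith
  have h6 := mul_le_mul_of_nonneg_right h4 hc0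
  nlinarith

/-! TARGET `final4`. This is a variant of `final2`, whose full Lean proof is in the result of job
3316 (`SELECT result FROM jobs WHERE id=3316`), and the proof follows it closely (copy its auxiliary lemmas, renamed `final4_...`). Differences:
* constants: `s Cs Np δ` from `wcut_exists4`, `A ε` from `recursion4`, `c0` from `body_tri`; `C = c0 (1 + A (2 + 8 / ε)^D) + 1`.
* `t = n / (2 r)`. The members `M i = Op (fun k => Φ (p i.1 k))` for `i : {i // i ∉ X}`, `ψ`, `ℓ` exactly as in `final2` (`hcase` now also records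
  `u ∈ vectorSpan` in the second case); `P, π` from `final4_pairs`. No `DegLe`, no `InShM`.
* conflicts: `X.card + (Im ..).ncard ≤ n / (2 r) + t = n / r`, where the members `i ∉ X` meeting the interior of a simplex of `T c` are in
  `Im M c.1 c.2.1 c.2.2 = {i | (M i ∩ OBody c.1 c.2.1 c.2.2).Nonempty}` as in `final2` (`final2_near`).
* number: with `m2` the number of pairs in the statement, `(Im M w a b).ncard ≤ n`, `P.card ≤ 2 m2`, so
  `(Im ..).ncard / t + P.card / (ε t^2) ≤ 2 r + 8 m2 r^2 / (ε n^2) ≤ (2 + 8/ε) R` with `R = r + m2 r^2 / n^2 ≥ 1`, and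
  `C.card ≤ 1 + A ((2 + 8/ε) R)^D ≤ (1 + A (2 + 8/ε)^D) R^D`; each cell gives at most `c0` simplices. -/

theorem final4 : ∀ d : ℕ, 3 ≤ d → ∃ C : ℝ, 0 < C ∧
      ∀ n : ℕ, ∀ p : Fin n → Fin d → EuclideanSpace ℝ (Fin d),
        (∀ i, AffineIndependent ℝ (p i)) →
        ∀ r : ℝ, 1 ≤ r → r ≤ (n : ℝ) →
        ∀ X : Finset (Fin n), (X.card : ℝ) ≤ (n : ℝ) / (2 * r) →
        ∀ u : EuclideanSpace ℝ (Fin d), u ≠ 0 →
        ∃ q : Fin (d + 1) → EuclideanSpace ℝ (Fin d), AffineIndependent ℝ q ∧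
          (⋃ i, convexHull ℝ (Set.range (p i))) ⊆ convexHull ℝ (Set.range q) ∧
          ∃ k : ℕ, ∃ c : Fin k → Fin (d + 1) → EuclideanSpace ℝ (Fin d),
            (∀ j, AffineIndependent ℝ (c j)) ∧
            (⋃ j, convexHull ℝ (Set.range (c j))) = convexHull ℝ (Set.range q) ∧
            (∀ j j', j ≠ j' →
              Disjoint (interior (convexHull ℝ (Set.range (c j))))
                (interior (convexHull ℝ (Set.range (c j'))))) ∧
            (∀ j, (({i : Fin n | (interior (convexHull ℝ (Set.range (c j))) ∩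
                  convexHull ℝ (Set.range (p i))).Nonempty}.ncard : ℕ) : ℝ) ≤ (n : ℝ) / r) ∧
            (k : ℝ) ≤ C * (r + (({e : Fin n × Fin n | e.1 ∉ X ∧ e.2 ∉ X ∧ e.1 < e.2 ∧
              ¬ (u ∈ vectorSpan ℝ (Set.range (p e.1)) ∧ u ∈ vectorSpan ℝ (Set.range (p e.2))) ∧
              affineSpan ℝ (Set.range (p e.1)) ≠ affineSpan ℝ (Set.range (p e.2)) ∧
              ¬ Disjoint (intrinsicInterior ℝ (convexHull ℝ (Set.range (p e.1))))
                (intrinsicInterior ℝ (convexHull ℝ (Set.range (p e.2))))}.ncard : ℕ) : ℝ) *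
              r ^ 2 / (n : ℝ) ^ 2) ^ (d - 1) := by
  intro d hd
  obtain ⟨D, rfl⟩ : ∃ D, d = D + 1 := ⟨d - 1, by omega⟩
  have hD : 2 ≤ D := by omega
  have hD1 : 1 ≤ D := by omega
  obtain ⟨s, Cs, Np, δ, hs, hCs, hNp, h2, hδ, hW⟩ := wcut_exists4 D hD
  obtain ⟨A, ε, hA, hε, hrec⟩ := recursion4 D hD s Cs Np δ hs hCs hNp h2 hδ
  obtain ⟨c0, hbt⟩ := body_tri D hD1
  set K : ℝ := (c0 : ℝ) * (1 + A * (2 + 8 / ε) ^ D) + 1 with hK
  have hK1 : 0 ≤ (c0 : ℝ) * (1 + A * (2 + 8 / ε) ^ D) := by positivity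
  have hK0 : 0 < K := by rw [hK]; linarith
  refine ⟨K, hK0, ?_⟩
  intro n p hp r hr hrn X hX u hu
  have hn : 0 < (n : ℝ) := by linarith
  have hr0 : 0 < r := by linarith
  obtain ⟨Φ, hΦ⟩ := proj_dir D u hu
  have hfin : Module.finrank ℝ (EuclideanSpace ℝ (Fin D)) = D := by simp
  have hgs : ∀ i : Fin n, ∃ (ψ : Fin (D + 1) → (EuclideanSpace ℝ (Fin D) →ᵃ[ℝ] ℝ))
      (ℓ : EuclideanSpace ℝ (Fin D) →ᵃ[ℝ] ℝ), (∀ k, (ψ k).linear ≠ 0) ∧
      ((u ∉ vectorSpan ℝ (Set.range (p i)) ∧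
        (Cv (fun k => Φ (p i k)) = {q | (∀ k, 0 ≤ ψ k q.1) ∧ q.2 = ℓ q.1}) ∧
        (Op (fun k => Φ (p i k)) = {q | (∀ k, 0 < ψ k q.1) ∧ q.2 = ℓ q.1}) ∧
        (∀ x, (∀ k, 0 ≤ ψ k x) ↔ x ∈ Cv (fun k => (Φ (p i k)).1)) ∧
        (∀ x, (∀ k, 0 < ψ k x) ↔ x ∈ interior (Cv (fun k => (Φ (p i k)).1)))) ∨
      (u ∈ vectorSpan ℝ (Set.range (p i)) ∧ ∀ q ∈ Cv (fun k => Φ (p i k)), ∀ k, ψ k q.1 = 0)) := by
    intro i
    by_cases hui : u ∈ vectorSpan ℝ (Set.range (p i))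
    · obtain ⟨χ, hχ1, hχ2⟩ := (hΦ (p i) (hp i)).2 hui
      refine ⟨fun _ => χ, 0, fun _ => hχ1, Or.inr ⟨hui, ?_⟩⟩
      have hsub : Cv (fun k => Φ (p i k)) ⊆
          {q : EuclideanSpace ℝ (Fin D) × ℝ | χ q.1 = 0} := by
        refine convexHull_min ?_ ?_
        · rintro _ ⟨k, rfl⟩
          exact hχ2 k
        · intro y hy z hz a b ha hb hab
          show χ (a • y + b • z).1 = 0
          have e : (a • y + b • z).1 = a • y.1 + b • z.1 := rfl
          rw [e, Convex.combo_affine_apply hab]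
          have h3 : χ y.1 = 0 := hy
          have h4 : χ z.1 = 0 := hz
          rw [h3, h4]
          simp
      intro q hq k
      exact hsub hq
    · obtain ⟨ψ, ℓ, g1, g2, g3, g4, g5⟩ := graph_simplex D hD1 hfin (fun k => Φ (p i k))
        ((hΦ (p i) (hp i)).1 hui)
      exact ⟨ψ, ℓ, g1, Or.inl ⟨hui, g2, g3, g4, g5⟩⟩
  choose ψ ℓ hlin hcase using hgs
  -- members
  have hmem : ∀ i : {i : Fin n // i ∉ X},
      IsMem (Op (fun k => Φ (p i.1 k))) (ψ i.1) (ℓ i.1) := by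
    intro i
    refine ⟨final4_Op_convex _, hlin i.1, ?_⟩
    intro G hG h0
    rcases hcase i.1 with ⟨_, _, hOp, _, _⟩ | ⟨_, hz⟩
    · by_cases hneg : ∃ k, ∃ x ∈ G, ψ i.1 k x < 0
      · obtain ⟨k, x, hx, hkx⟩ := hneg
        refine Or.inl ?_
        intro q hq hqG
        have h3 := final4_sign (ψ i.1 k) hG (h0 k) hx hqG hkx
        rw [hOp] at hq
        have h4 := hq.1 k
        linarith
      · push Not at hneg
        refine Or.inr ?_
        intro q hqG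
        rw [hOp]
        constructor
        · intro h; exact h.2
        · intro h
          exact ⟨fun k => lt_of_le_of_ne (hneg k q.1 hqG) (Ne.symm (h0 k q.1 hqG)), h⟩
    · refine Or.inl ?_
      intro q hq hqG
      exact h0 0 q.1 hqG (hz q (final4_Op_sub_Cv _ hq) 0)
  -- pairs
  obtain ⟨P, π, hPS, hPc⟩ := final4_pairs D n hD1 p hp X u Φ ψ ℓ hlin hcase
  -- the root cell
  obtain ⟨w, a, b, q0, hw, hq0, hq0b, hab, hB⟩ := root_cell D hD1 hfin
    (⋃ i, Cv (fun k => Φ (p i k))) (by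
      rw [Bornology.isBounded_iUnion]
      intro i
      exact ((Set.finite_range _).isCompact_convexHull ℝ).isBounded)
  have ht : 0 < (n : ℝ) / (2 * r) := by positivity
  obtain ⟨C, hC1, hC2, hC3, hC4, hC5⟩ := hrec _ hfin (hW _ hfin) {i : Fin n // i ∉ X}
    (fun i => Op (fun k => Φ (p i.1 k))) (fun i => ψ i.1) (fun i => ℓ i.1) P π hmem hPS
    ((n : ℝ) / (2 * r)) ht w a b ⟨hw, hab⟩
  have hIm : (((Im (fun i : {i : Fin n // i ∉ X} => Op (fun k => Φ (p i.1 k))) w a b).ncard : ℕ) : ℝ)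
      ≤ (n : ℝ) := by
    have h3 : (Im (fun i : {i : Fin n // i ∉ X} => Op (fun k => Φ (p i.1 k))) w a b).ncard ≤ n := by
      calc (Im (fun i : {i : Fin n // i ∉ X} => Op (fun k => Φ (p i.1 k))) w a b).ncard
          ≤ (Set.univ : Set {i : Fin n // i ∉ X}).ncard :=
            Set.ncard_le_ncard (Set.subset_univ _) Set.finite_univ
        _ = Fintype.card {i : Fin n // i ∉ X} := by
            rw [Set.ncard_univ, Nat.card_eq_fintype_card]
        _ ≤ n := (Fintype.card_subtype_le _).trans (le_of_eq (Fintype.card_fin n))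
    exact_mod_cast h3
  -- triangulations of the cells
  have hT : ∀ c : (Fin (D + 1) → EuclideanSpace ℝ (Fin D)) ×
      (EuclideanSpace ℝ (Fin D) →ᵃ[ℝ] ℝ) × (EuclideanSpace ℝ (Fin D) →ᵃ[ℝ] ℝ),
      ∃ T : Finset (Fin (D + 2) → EuclideanSpace ℝ (Fin D) × ℝ), c ∈ C →
        interior (Body c.1 c.2.1 c.2.2) = OBody c.1 c.2.1 c.2.2 ∧
        IsTri (Body c.1 c.2.1 c.2.2) T ∧ T.card ≤ c0 := by
    intro c
    by_cases hc : c ∈ C
    · obtain ⟨g1, g2⟩ := hC1 c hc
      obtain ⟨h3, T, h4, h5⟩ := hbt _ hfin c.1 g1 c.2.1 c.2.2 g2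
      exact ⟨T, fun _ => ⟨h3, h4, h5⟩⟩
    · exact ⟨∅, fun h => absurd h hc⟩
  choose T hT using hT
  have hsubT : ∀ c ∈ C, ∀ t ∈ T c, interior (Cv t) ⊆ OBody c.1 c.2.1 c.2.2 := by
    intro c hc t ht'
    obtain ⟨h3, h4, _⟩ := hT c hc
    rw [← h3]
    refine interior_mono ?_
    rw [← h4.union]
    exact Set.subset_biUnion_of_mem (u := fun t => Cv t) ht'
  have hconf : ∀ c ∈ C, ∀ t ∈ T c, (({i : Fin n | (interior (convexHull ℝ
      (Set.range (fun m => Φ.symm (t m)))) ∩ convexHull ℝ (Set.range (p i))).Nonempty}.ncard : ℕ) : ℝ)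
      ≤ (n : ℝ) / r := by
    intro c hc t ht'
    have hopen : IsOpen (OBody c.1 c.2.1 c.2.2) := by
      rw [← (hT c hc).1]
      exact isOpen_interior
    have hsub : {i : Fin n | (interior (convexHull ℝ
        (Set.range (fun m => Φ.symm (t m)))) ∩ convexHull ℝ (Set.range (p i))).Nonempty} ⊆
        (X : Set (Fin n)) ∪ Subtype.val '' (Im (fun i : {i : Fin n // i ∉ X} =>
          Op (fun k => Φ (p i.1 k))) c.1 c.2.1 c.2.2) := by
      rintro i ⟨z, hz1, hz2⟩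
      by_cases hiX : i ∈ X
      · exact Or.inl hiX
      · refine Or.inr ⟨⟨i, hiX⟩, ?_, rfl⟩
        have e1 : convexHull ℝ (Set.range (fun m => Φ.symm (t m))) = Φ.symm '' Cv t :=
          final4_Cv Φ.symm t
        rw [e1, final4_int] at hz1
        obtain ⟨v, hv, rfl⟩ := hz1
        have hv2 : v ∈ Cv (fun k => Φ (p i k)) := by
          rw [final4_Cv]
          exact ⟨_, hz2, by rw [ContinuousLinearEquiv.apply_symm_apply]⟩
        have hv5 := hsubT c hc t ht' hv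
        obtain ⟨v0, hv0⟩ := final4_Op_ne (fun k => Φ (p i k))
        exact final4_near _ hv2 hv0 hopen hv5
    have h3 : ({i : Fin n | (interior (convexHull ℝ
        (Set.range (fun m => Φ.symm (t m)))) ∩ convexHull ℝ (Set.range (p i))).Nonempty}).ncard ≤
        X.card + (Im (fun i : {i : Fin n // i ∉ X} =>
          Op (fun k => Φ (p i.1 k))) c.1 c.2.1 c.2.2).ncard := by
      refine (Set.ncard_le_ncard hsub (Set.toFinite _)).trans ((Set.ncard_union_le _ _).trans ?_)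
      rw [Set.ncard_coe_finset]
      exact Nat.add_le_add_left (Set.ncard_image_le (Set.toFinite _)) _
    have h4 := hC4 c hc
    have h5 : ((({i : Fin n | (interior (convexHull ℝ
        (Set.range (fun m => Φ.symm (t m)))) ∩ convexHull ℝ (Set.range (p i))).Nonempty}).ncard : ℕ) : ℝ) ≤
        (X.card : ℝ) + (((Im (fun i : {i : Fin n // i ∉ X} =>
          Op (fun k => Φ (p i.1 k))) c.1 c.2.1 c.2.2).ncard : ℕ) : ℝ) := by
      exact_mod_cast h3
    have h6 : (n : ℝ) / (2 * r) + (n : ℝ) / (2 * r) = (n : ℝ) / r := by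
      field_simp
      ring
    linarith
  classical
  -- all simplices
  set TT : Finset (Fin (D + 2) → EuclideanSpace ℝ (Fin D) × ℝ) := C.biUnion T with hTT
  have hTTm : ∀ t, t ∈ TT ↔ ∃ c ∈ C, t ∈ T c := fun t => Finset.mem_biUnion
  have hTTu : (⋃ t ∈ TT, Cv t) = Body w a b := by
    rw [← hC2]
    ext z
    simp only [Set.mem_iUnion, hTTm]
    constructor
    · rintro ⟨t, ⟨c, hc, ht'⟩, hz⟩
      refine ⟨c, hc, ?_⟩
      rw [← (hT c hc).2.1.union]
      exact Set.mem_biUnion ht' hz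
    · rintro ⟨c, hc, hz⟩
      rw [← (hT c hc).2.1.union] at hz
      simp only [Set.mem_iUnion] at hz
      obtain ⟨t, ht', hz⟩ := hz
      exact ⟨t, ⟨c, hc, ht'⟩, hz⟩
  have hTTc : (TT.card : ℝ) ≤ (C.card : ℝ) * (c0 : ℝ) := by
    have h3 : TT.card ≤ C.card * c0 := Finset.card_biUnion_le_card_mul _ _ _ fun c hc => (hT c hc).2.2
    exact_mod_cast h3
  refine ⟨fun m => Φ.symm (q0 m), final4_aff Φ.symm hq0, ?_, TT.card,
    fun j m => Φ.symm (((TT.equivFin).symm j).1 m), ?_, ?_, ?_, ?_, ?_⟩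
  · have e1 : convexHull ℝ (Set.range (fun m => Φ.symm (q0 m))) = Φ.symm '' Cv q0 :=
      final4_Cv Φ.symm q0
    rw [e1, hq0b]
    intro z hz
    obtain ⟨i, hi⟩ := Set.mem_iUnion.1 hz
    have h3 : Φ z ∈ Cv (fun k => Φ (p i k)) := by
      rw [final4_Cv]
      exact ⟨z, hi, rfl⟩
    have h4 := hB (Set.mem_iUnion.2 ⟨i, h3⟩)
    exact ⟨Φ z, ⟨interior_subset h4.1, h4.2.1.le, h4.2.2.le⟩, by
      rw [ContinuousLinearEquiv.symm_apply_apply]⟩
  · intro j
    obtain ⟨c, hc, ht'⟩ := (hTTm _).1 ((TT.equivFin).symm j).2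
    exact final4_aff Φ.symm ((hT c hc).2.1.indep _ ht')
  · have e1 : convexHull ℝ (Set.range (fun m => Φ.symm (q0 m))) = Φ.symm '' Cv q0 :=
      final4_Cv Φ.symm q0
    rw [e1, hq0b, ← hTTu, Set.image_iUnion₂]
    ext z
    simp only [Set.mem_iUnion]
    constructor
    · rintro ⟨j, hj⟩
      refine ⟨((TT.equivFin).symm j).1, ((TT.equivFin).symm j).2, ?_⟩
      rw [← final4_Cv]
      exact hj
    · rintro ⟨t, ht', hz⟩
      refine ⟨TT.equivFin ⟨t, ht'⟩, ?_⟩
      rw [← final4_Cv] at hz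
      rw [Equiv.symm_apply_apply]
      exact hz
  · intro j j' hjj
    have e1 : ∀ t : Fin (D + 2) → EuclideanSpace ℝ (Fin D) × ℝ,
        interior (convexHull ℝ (Set.range (fun m => Φ.symm (t m)))) = Φ.symm '' interior (Cv t) := by
      intro t
      have e2 : convexHull ℝ (Set.range (fun m => Φ.symm (t m))) = Φ.symm '' Cv t :=
        final4_Cv Φ.symm t
      rw [e2, final4_int]
    have hne : ((TT.equivFin).symm j).1 ≠ ((TT.equivFin).symm j').1 := by
      intro h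
      exact hjj ((TT.equivFin).symm.injective (Subtype.ext h))
    obtain ⟨c, hc, ht1⟩ := (hTTm _).1 ((TT.equivFin).symm j).2
    obtain ⟨c', hc', ht2⟩ := (hTTm _).1 ((TT.equivFin).symm j').2
    rw [e1, e1]
    refine (Set.disjoint_image_iff Φ.symm.injective).2 ?_
    by_cases hcc : c = c'
    · subst hcc
      exact (hT c hc).2.1.disj _ ht1 _ ht2 hne
    · exact (hC3 c hc c' hc' hcc).mono (hsubT c hc _ ht1) (hsubT c' hc' _ ht2)
  · intro j
    obtain ⟨c, hc, ht'⟩ := (hTTm _).1 ((TT.equivFin).symm j).2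
    exact hconf c hc _ ht'
  · have hPc' : (P.card : ℝ) ≤ 2 * (({e : Fin n × Fin n | e.1 ∉ X ∧ e.2 ∉ X ∧ e.1 < e.2 ∧
        ¬ (u ∈ vectorSpan ℝ (Set.range (p e.1)) ∧ u ∈ vectorSpan ℝ (Set.range (p e.2))) ∧
        affineSpan ℝ (Set.range (p e.1)) ≠ affineSpan ℝ (Set.range (p e.2)) ∧
        ¬ Disjoint (intrinsicInterior ℝ (convexHull ℝ (Set.range (p e.1))))
          (intrinsicInterior ℝ (convexHull ℝ (Set.range (p e.2))))}.ncard : ℕ) : ℝ) := by
      exact_mod_cast hPc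
    have h3 := final4_card (D := D) (n := n) (c0 := (c0 : ℝ)) (A := A) (ε := ε) (r := r)
      (t := (n : ℝ) / (2 * r)) (Nat.cast_nonneg c0) hA hε hr hn rfl (Nat.cast_nonneg _) hIm
      (Nat.cast_nonneg _) (Nat.cast_nonneg _) hPc' hC5 hTTc
    rw [Nat.add_sub_cancel]
    exact h3

end Pool.Agent.H889
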