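import Pool.Agent.Helper889_Cut.Layers

/-! Cutting along every `q`-th graph, for families of graphs which may cross. -/

set_option autoImplicit false
open Set

namespace Pool.Agent.H889

variable {V : Type} [NormedAddCommGroup V] [NormedSpace ℝ V]

/-- an element of rank `k` -/
theorem layers2_rank {ι : Type} [DecidableEq ι] (v : ι → ℝ) (L : Finset ι) (k : ℕ) (hk : k < L.card) :
    ∃ μ ∈ L, (L.filter (fun i => v i < v μ)).card ≤ k ∧ k + 1 ≤ (L.filter (fun i => v i ≤ v μ)).card := by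
  revert hk
  refine Finset.induction_on_max_value v L ?_ ?_
  · intro hk; simp at hk
  · intro a s ha hmax ih hk
    rw [Finset.card_insert_of_notMem ha] at hk
    by_cases hks : k < s.card
    · obtain ⟨μ, hμ, hc1, hc2⟩ := ih hks
      refine ⟨μ, Finset.mem_insert_of_mem hμ, ?_, ?_⟩
      · rw [Finset.filter_insert, if_neg (by simpa using hmax μ hμ)]
        exact hc1
      · refine hc2.trans (Finset.card_le_card ?_)
        exact Finset.filter_subset_filter _ (Finset.subset_insert _ _)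
    · have hk' : k = s.card := by omega
      refine ⟨a, Finset.mem_insert_self _ _, ?_, ?_⟩
      · rw [Finset.filter_insert, if_neg (lt_irrefl _), hk']
        exact Finset.card_filter_le _ _
      · have h1 : (insert a s).filter (fun i => v i ≤ v a) = insert a s := by
          apply Finset.filter_true_of_mem
          intro x hx
          rw [Finset.mem_insert] at hx
          rcases hx with rfl | hx
          · exact le_refl _
          · exact hmax x hx
        rw [h1, Finset.card_insert_of_notMem ha, hk']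

theorem layers2 [FiniteDimensional ℝ V] {ι : Type} (G : Set V) (hne : G.Nonempty)
    (a b : V →ᵃ[ℝ] ℝ) (ℓ : ι → (V →ᵃ[ℝ] ℝ)) (L : Finset ι)
    (hab : ∀ x ∈ G, a x < b x)
    (hL : ∀ i ∈ L, ∀ x ∈ G, a x < ℓ i x ∧ ℓ i x < b x) (q : ℕ) (hq : 1 ≤ q) :
    ∃ Λ : Finset ((V →ᵃ[ℝ] ℝ) × (V →ᵃ[ℝ] ℝ)),
      Λ.card ≤ L.card / q + 1 ∧
      (∀ p ∈ Λ, ∀ x ∈ G, p.1 x < p.2 x) ∧
      (∀ p ∈ Λ, ∀ x ∈ G, a x ≤ p.1 x ∧ p.2 x ≤ b x) ∧
      (∀ p ∈ Λ, (p.1 = a ∨ ∃ i ∈ L, p.1 = ℓ i) ∧ (p.2 = b ∨ ∃ i ∈ L, p.2 = ℓ i)) ∧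
      (∀ x ∈ closure G, ∀ z, a x ≤ z → z ≤ b x → ∃ p ∈ Λ, p.1 x ≤ z ∧ z ≤ p.2 x) ∧
      (∀ p ∈ Λ, ∀ p' ∈ Λ, p ≠ p' → ∀ x ∈ G, ∀ z,
        ¬ (p.1 x < z ∧ z < p.2 x ∧ p'.1 x < z ∧ z < p'.2 x)) ∧
      (∀ p ∈ Λ, {i | i ∈ L ∧ ∀ x ∈ G, p.1 x < ℓ i x ∧ ℓ i x < p.2 x}.ncard < q) := by
  classical
  induction hn : L.card using Nat.strong_induction_on generalizing a L with
  | _ n ih =>
  by_cases hLq : L.card < q
  · refine ⟨{(a, b)}, ?_, ?_, ?_, ?_, ?_, ?_, ?_⟩
    · simp
    · intro p hp x hx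
      rw [Finset.mem_singleton] at hp; subst hp
      exact hab x hx
    · intro p hp x hx
      rw [Finset.mem_singleton] at hp; subst hp
      exact ⟨le_refl _, le_refl _⟩
    · intro p hp
      rw [Finset.mem_singleton] at hp; subst hp
      exact ⟨Or.inl rfl, Or.inl rfl⟩
    · intro x _ z h1 h2
      exact ⟨(a, b), Finset.mem_singleton_self _, h1, h2⟩
    · intro p hp p' hp' hne
      rw [Finset.mem_singleton] at hp hp'
      exact absurd (hp.trans hp'.symm) hne
    · intro p hp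
      have hsub : {i | i ∈ L ∧ ∀ x ∈ G, p.1 x < ℓ i x ∧ ℓ i x < p.2 x} ⊆ (L : Set ι) :=
        fun i hi => hi.1
      have h1 := Set.ncard_le_ncard hsub L.finite_toSet
      rw [Set.ncard_coe_finset] at h1
      omega
  · push Not at hLq
    have hne' := hne
    obtain ⟨x₀, hx₀⟩ := hne
    obtain ⟨μ, hμ, hμc, hμc'⟩ := layers2_rank (fun i => ℓ i x₀) L (q - 1) (by omega)
    try simp only at hμc hμc'
    set L' : Finset ι := L.filter (fun i => ∀ x ∈ G, ℓ μ x < ℓ i x) with hL'
    have hcard' : L'.card + q ≤ L.card := by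
      have hdis : Disjoint (L.filter (fun i => ℓ i x₀ ≤ ℓ μ x₀)) L' := by
        rw [Finset.disjoint_left]
        intro i hi hi'
        rw [Finset.mem_filter] at hi
        rw [hL', Finset.mem_filter] at hi'
        exact absurd (hi'.2 x₀ hx₀) (not_lt.mpr hi.2)
      have h1 : ((L.filter (fun i => ℓ i x₀ ≤ ℓ μ x₀)) ∪ L').card ≤ L.card := by
        apply Finset.card_le_card
        apply Finset.union_subset (Finset.filter_subset _ _) (Finset.filter_subset _ _)
      rw [Finset.card_union_of_disjoint hdis] at h1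
      omega
    have hL'L : ∀ i ∈ L', i ∈ L := fun i hi => (Finset.mem_filter.mp hi).1
    have hup : ∀ i ∈ L', ∀ x ∈ G, ℓ μ x < ℓ i x := fun i hi => (Finset.mem_filter.mp hi).2
    obtain ⟨Λ, c1, c2, c3, c4, c5, c6, c7⟩ := ih L'.card (by omega) (ℓ μ) L'
      (fun x hx => (hL μ hμ x hx).2)
      (fun i hi x hx => ⟨hup i hi x hx, (hL i (hL'L i hi) x hx).2⟩) rfl
    refine ⟨insert (a, ℓ μ) Λ, ?_, ?_, ?_, ?_, ?_, ?_, ?_⟩
    · refine (Finset.card_insert_le _ _).trans ?_
      have h1 := Nat.add_div_right L'.card (show 0 < q by omega)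
      have h2 : (L'.card + q) / q ≤ n / q := Nat.div_le_div_right (by omega)
      rw [h1] at h2
      omega
    · intro p hp x hx
      rw [Finset.mem_insert] at hp
      rcases hp with rfl | hp
      · exact (hL μ hμ x hx).1
      · exact c2 p hp x hx
    · intro p hp x hx
      rw [Finset.mem_insert] at hp
      rcases hp with rfl | hp
      · exact ⟨le_refl _, (hL μ hμ x hx).2.le⟩
      · have h1 := c3 p hp x hx
        exact ⟨(hL μ hμ x hx).1.le.trans h1.1, h1.2⟩
    · intro p hp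
      rw [Finset.mem_insert] at hp
      rcases hp with rfl | hp
      · exact ⟨Or.inl rfl, Or.inr ⟨μ, hμ, rfl⟩⟩
      · obtain ⟨h1, h2⟩ := c4 p hp
        constructor
        · rcases h1 with h1 | ⟨i, hi, h1⟩
          · exact Or.inr ⟨μ, hμ, h1⟩
          · exact Or.inr ⟨i, hL'L i hi, h1⟩
        · rcases h2 with h2 | ⟨i, hi, h2⟩
          · exact Or.inl h2
          · exact Or.inr ⟨i, hL'L i hi, h2⟩
    · intro x hx z h1 h2
      by_cases hz : z ≤ ℓ μ x
      · exact ⟨(a, ℓ μ), Finset.mem_insert_self _ _, h1, hz⟩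
      · obtain ⟨p, hp, hpz⟩ := c5 x hx z (not_le.mp hz).le h2
        exact ⟨p, Finset.mem_insert_of_mem hp, hpz⟩
    · intro p hp p' hp' hpp x hx z
      rw [Finset.mem_insert] at hp hp'
      rcases hp with rfl | hp <;> rcases hp' with rfl | hp'
      · exact absurd rfl hpp
      · rintro ⟨-, h2, h3, -⟩
        have h5 := (c3 p' hp' x hx).1
        simp only at h2
        linarith
      · rintro ⟨h1, -, -, h4⟩
        have h5 := (c3 p hp x hx).1
        simp only at h4
        linarith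
      · exact c6 p hp p' hp' hpp x hx z
    · intro p hp
      rw [Finset.mem_insert] at hp
      rcases hp with rfl | hp
      · have hsub : {i | i ∈ L ∧ ∀ x ∈ G, (a, ℓ μ).1 x < ℓ i x ∧ ℓ i x < (a, ℓ μ).2 x} ⊆
            ((L.filter (fun i => ℓ i x₀ < ℓ μ x₀) : Finset ι) : Set ι) := by
          rintro i ⟨hi, h2⟩
          rw [Finset.mem_coe, Finset.mem_filter]
          exact ⟨hi, (h2 x₀ hx₀).2⟩
        have h1 := Set.ncard_le_ncard hsub (Finset.finite_toSet _)
        rw [Set.ncard_coe_finset] at h1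
        omega
      · refine lt_of_le_of_lt (Set.ncard_le_ncard ?_ ?_) (c7 p hp)
        · rintro i ⟨hi, h2⟩
          refine ⟨?_, h2⟩
          rw [hL', Finset.mem_filter]
          refine ⟨hi, fun x hx => ?_⟩
          have h3 := (c3 p hp x hx).1
          have h4 := (h2 x hx).1
          linarith
        · exact L'.finite_toSet.subset (fun i hi => hi.1)

end Pool.Agent.H889
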