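import Pool.Agent.Helper889_Cut.Cell

/-! Members of a family in `V × ℝ`, possibly vertical, possibly crossing. -/

set_option autoImplicit false
open Set

namespace Pool.Agent.H889

variable {V : Type} [NormedAddCommGroup V] [NormedSpace ℝ V]

/-- over the set `G` the member `M` is the graph of `ℓ` -/
def GrOv (M : Set (V × ℝ)) (ℓ : V →ᵃ[ℝ] ℝ) (G : Set V) : Prop :=
  ∀ p : V × ℝ, p.1 ∈ G → (p ∈ M ↔ p.2 = ℓ p.1)

/-- a member `M`: a convex set, which over every convex set without zeros of the functions `ψ k` is empty or the graph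
of `ℓ` -/
structure IsMem {D : ℕ} (M : Set (V × ℝ)) (ψ : Fin (D + 1) → (V →ᵃ[ℝ] ℝ)) (ℓ : V →ᵃ[ℝ] ℝ) : Prop where
  conv : Convex ℝ M
  lin : ∀ k, (ψ k).linear ≠ 0
  graph : ∀ G : Set V, Convex ℝ G → (∀ k, ∀ x ∈ G, ψ k x ≠ 0) →
    (∀ p ∈ M, p.1 ∉ G) ∨ GrOv M ℓ G

/-- a member which is a graph over some nonempty open set meets at most `Δ` others -/
def DegLe {ι : Type} (M : ι → Set (V × ℝ)) (ℓ : ι → (V →ᵃ[ℝ] ℝ)) (Δ : ℕ) : Prop :=
  ∀ j, ∀ G : Set V, IsOpen G → G.Nonempty → GrOv (M j) (ℓ j) G →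
    {i | i ≠ j ∧ (M i ∩ M j).Nonempty}.ncard ≤ Δ

/-- the members with index in `I` are inside the cell and short -/
def InShM {D : ℕ} {ι : Type} (M : ι → Set (V × ℝ)) (ψ : ι → Fin (D + 1) → (V →ᵃ[ℝ] ℝ))
    (w : Fin (D + 1) → V) (a b : V →ᵃ[ℝ] ℝ) (I : Finset ι) : Prop :=
  (∀ i ∈ I, ∀ p ∈ M i, p.1 ∈ interior (Cv w) → p ∈ OBody w a b) ∧
  (∀ i ∈ I, ∃ k, ∃ x ∈ interior (Cv w), ψ i k x = 0)

end Pool.Agent.H889
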