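import Pool.Agent.Helper889_Cut.Defs

/-! Numerics: the choice of the parameters. -/

set_option autoImplicit false
open Set

namespace Pool.Agent.H889

variable {V : Type} [NormedAddCommGroup V] [NormedSpace ℝ V]

/-! TARGET `param_choice`. Pure numerics. Proof: take `s = M ^ D`, `K = M ^ (2 D + 1)` with a large natural number `M`.
Third: `(1 - 1/s²)^(K - D(D+1)) ≤ exp (-(K - D(D+1)) / s²)` with `s² = M^(2D)`, so this is at most `exp (1) exp (-M)` for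
`M ≥ 2` large (`D (D+1) ≤ M^(2D)`), and `(K + D + 1)^(D (D+1)) ≤ (2 M^(2D+1))^(D(D+1))` is a fixed power of `M` up to a constant,
so the product tends to `0` (Real.tendsto_pow_mul_exp_neg_atTop_nhds_zero). Fourth: `(K + 1)^(D-1) ≤ 2^(D-1) M^((2D+1)(D-1))` and
`(2D+1)(D-1) = 2D² - D - 1`, while `s^(2D-1) = M^(2D² - D)`; so `M ≥ 2 c 2^(D-1)` suffices. -/

theorem param_choice (D : ℕ) (hD : 2 ≤ D) (c : ℕ) : ∃ K : ℕ, ∃ s : ℝ, 4 ≤ s ∧ D * (D + 1) ≤ K ∧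
    ((K : ℝ) + D + 1) ^ (D * (D + 1)) * (1 - 1 / s ^ 2) ^ (K - D * (D + 1)) < 1 / 2 ∧
    2 * ((c : ℝ) * ((K : ℝ) + 1) ^ (D - 1)) ≤ s ^ (2 * D - 1) := by
  have hp0 : 0 < D * (D + 1) := by positivity
  set p := D * (D + 1) with hp
  -- the analytic limit
  have hlim : Filter.Tendsto (fun M : ℕ => (2 : ℝ) ^ p * Real.exp 1 *
      (((M : ℝ)) ^ ((2 * D + 1) * p) * Real.exp (-(M : ℝ)))) Filter.atTop (nhds 0) := by
    have h1 := (Real.tendsto_pow_mul_exp_neg_atTop_nhds_zero ((2 * D + 1) * p)).comp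
      (tendsto_natCast_atTop_atTop (R := ℝ))
    have h2 := h1.const_mul ((2 : ℝ) ^ p * Real.exp 1)
    rw [mul_zero] at h2
    exact h2
  have hev : ∀ᶠ M : ℕ in Filter.atTop, (2 : ℝ) ^ p * Real.exp 1 *
      (((M : ℝ)) ^ ((2 * D + 1) * p) * Real.exp (-(M : ℝ))) < 1 / 2 :=
    hlim.eventually (gt_mem_nhds (by norm_num))
  obtain ⟨M, hM1, hM2⟩ := (hev.and (Filter.eventually_ge_atTop (D + 2 + 2 * c * 2 ^ (D - 1)))).exists
  have hMD : D + 2 ≤ M := le_trans (Nat.le_add_right _ _) hM2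
  have hMc : 2 * c * 2 ^ (D - 1) ≤ M := le_trans (Nat.le_add_left _ _) hM2
  have hM0 : 0 < M := by omega
  have hMR : (1 : ℝ) ≤ M := by exact_mod_cast hM0
  have hMR0 : (0 : ℝ) < M := by linarith
  -- natural number facts
  have hpM2 : p ≤ M ^ 2 := by
    rw [hp]
    calc D * (D + 1) ≤ M * M := Nat.mul_le_mul (by omega) (by omega)
      _ = M ^ 2 := by ring
  have hpM : p ≤ M ^ (2 * D) := hpM2.trans (Nat.pow_le_pow_right hM0 (by omega))
  have hpK : p ≤ M ^ (2 * D + 1) := hpM.trans (Nat.pow_le_pow_right hM0 (by omega))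
  have hDK : D + 1 ≤ M ^ (2 * D + 1) := by
    calc D + 1 ≤ M ^ 1 := by rw [pow_one]; omega
      _ ≤ M ^ (2 * D + 1) := Nat.pow_le_pow_right hM0 (by omega)
  refine ⟨M ^ (2 * D + 1), (M : ℝ) ^ D, ?_, hpK, ?_, ?_⟩
  · have h4 : 4 ≤ M ^ D := by
      calc 4 ≤ M ^ 2 := by nlinarith
        _ ≤ M ^ D := Nat.pow_le_pow_right hM0 hD
    exact_mod_cast h4
  · -- third condition
    have hs2 : ((M : ℝ) ^ D) ^ 2 = (M : ℝ) ^ (2 * D) := by rw [← pow_mul, mul_comm]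
    rw [hs2]
    have hs2pos : 0 < (M : ℝ) ^ (2 * D) := by positivity
    have hs2one : 1 ≤ (M : ℝ) ^ (2 * D) := one_le_pow₀ hMR
    set n := M ^ (2 * D + 1) - p with hn
    have hnR : (n : ℝ) = (M : ℝ) ^ (2 * D + 1) - p := by
      rw [hn, Nat.cast_sub hpK, Nat.cast_pow]
    have h1 : (1 - 1 / (M : ℝ) ^ (2 * D)) ^ n ≤ Real.exp (1 - M) := by
      have h2 : 1 - 1 / (M : ℝ) ^ (2 * D) ≤ Real.exp (-(1 / (M : ℝ) ^ (2 * D))) := by
        have := Real.add_one_le_exp (-(1 / (M : ℝ) ^ (2 * D)))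
        linarith
      have h3 : 0 ≤ 1 - 1 / (M : ℝ) ^ (2 * D) := by
        rw [sub_nonneg, div_le_one hs2pos]
        exact hs2one
      calc (1 - 1 / (M : ℝ) ^ (2 * D)) ^ n ≤ (Real.exp (-(1 / (M : ℝ) ^ (2 * D)))) ^ n :=
            pow_le_pow_left₀ h3 h2 n
        _ = Real.exp (n * (-(1 / (M : ℝ) ^ (2 * D)))) := by rw [Real.exp_nat_mul]
        _ ≤ Real.exp (1 - M) := by
            apply Real.exp_le_exp.mpr
            rw [hnR]
            have h4 : (p : ℝ) / (M : ℝ) ^ (2 * D) ≤ 1 := by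
              rw [div_le_one hs2pos]
              exact_mod_cast hpM
            have h5 : (M : ℝ) ^ (2 * D + 1) / (M : ℝ) ^ (2 * D) = M := by
              rw [pow_succ]
              field_simp
            have h6 : ((M : ℝ) ^ (2 * D + 1) - p) * (-(1 / (M : ℝ) ^ (2 * D)))
                = (p : ℝ) / (M : ℝ) ^ (2 * D) - (M : ℝ) ^ (2 * D + 1) / (M : ℝ) ^ (2 * D) := by
              ring
            rw [h6, h5]
            linarith
    have h7 : ((((M ^ (2 * D + 1) : ℕ) : ℝ)) + D + 1) ^ p ≤ (2 * (M : ℝ) ^ (2 * D + 1)) ^ p := by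
      apply pow_le_pow_left₀ (by positivity)
      have : ((D + 1 : ℕ) : ℝ) ≤ ((M ^ (2 * D + 1) : ℕ) : ℝ) := by exact_mod_cast hDK
      push_cast at this ⊢
      linarith
    have h8 : (0 : ℝ) ≤ (1 - 1 / (M : ℝ) ^ (2 * D)) ^ n := by
      apply pow_nonneg
      rw [sub_nonneg, div_le_one hs2pos]
      exact hs2one
    calc ((((M ^ (2 * D + 1) : ℕ) : ℝ)) + D + 1) ^ p * (1 - 1 / (M : ℝ) ^ (2 * D)) ^ n
        ≤ (2 * (M : ℝ) ^ (2 * D + 1)) ^ p * Real.exp (1 - M) :=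
          mul_le_mul h7 h1 h8 (by positivity)
      _ = (2 : ℝ) ^ p * Real.exp 1 * (((M : ℝ)) ^ ((2 * D + 1) * p) * Real.exp (-(M : ℝ))) := by
          rw [mul_pow, ← pow_mul, sub_eq_add_neg, Real.exp_add]
          ring
      _ < 1 / 2 := hM1
  · -- fourth condition
    have h1 : ((((M ^ (2 * D + 1) : ℕ) : ℝ)) + 1) ^ (D - 1) ≤
        2 ^ (D - 1) * (M : ℝ) ^ ((2 * D + 1) * (D - 1)) := by
      rw [pow_mul, ← mul_pow]
      apply pow_le_pow_left₀ (by positivity)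
      have : (1 : ℝ) ≤ (M : ℝ) ^ (2 * D + 1) := one_le_pow₀ hMR
      push_cast
      linarith
    have h2 : ((M : ℝ) ^ D) ^ (2 * D - 1) = M * (M : ℝ) ^ ((2 * D + 1) * (D - 1)) := by
      rw [← pow_mul, ← pow_succ']
      congr 1
      obtain ⟨E, rfl⟩ : ∃ E, D = E + 1 := ⟨D - 1, by omega⟩
      simp only [Nat.add_sub_cancel]
      have : 2 * (E + 1) - 1 = 2 * E + 1 := by omega
      rw [this]
      ring
    rw [h2]
    have h3 : (2 * c * 2 ^ (D - 1) : ℝ) ≤ M := by exact_mod_cast hMc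
    calc 2 * ((c : ℝ) * ((((M ^ (2 * D + 1) : ℕ) : ℝ)) + 1) ^ (D - 1))
        ≤ 2 * ((c : ℝ) * (2 ^ (D - 1) * (M : ℝ) ^ ((2 * D + 1) * (D - 1)))) := by
          gcongr
      _ = (2 * c * 2 ^ (D - 1)) * (M : ℝ) ^ ((2 * D + 1) * (D - 1)) := by ring
      _ ≤ M * (M : ℝ) ^ ((2 * D + 1) * (D - 1)) := by gcongr

end Pool.Agent.H889
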