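import Pool.Agent.Helper889_Cut.Cell
import Pool.Agent.Helper889_Cut.Tri
import Pool.Agent.Helper889_Cut.Counting
import Pool.Agent.Helper889_Cut.Basic

/-! Cuttings by random sampling. -/

set_option autoImplicit false
open Set

namespace Pool.Agent.H889

variable {V : Type} [NormedAddCommGroup V] [NormedSpace ℝ V]

/-- the simplex as a polyhedron -/
theorem sample_cut_simplex (D : ℕ) (V : Type) [NormedAddCommGroup V] [NormedSpace ℝ V]
    [FiniteDimensional ℝ V] (hV : Module.finrank ℝ V = D) (w : Fin (D + 1) → V)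
    (hw : AffineIndependent ℝ w) :
    ∃ δ : Fin (D + 1) → (V →ᵃ[ℝ] ℝ), Cv w = {x | ∀ i, 0 ≤ δ i x} ∧ IsCompact (Cv w) ∧
      (interior (Cv w)).Nonempty := by
  have htop : affineSpan ℝ (range w) = ⊤ := by
    rw [hw.affineSpan_eq_top_iff_card_eq_finrank_add_one, hV]
    simp
  let b : AffineBasis (Fin (D + 1)) ℝ V := ⟨w, hw, htop⟩
  refine ⟨b.coord, ?_, ?_, ?_⟩
  · exact b.convexHull_eq_nonneg_coord
  · exact (finite_range w).isCompact_convexHull (𝕜 := ℝ)
  · exact interior_convexHull_nonempty_iff_affineSpan_eq_top.2 htop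

/-- one sample -/
theorem sample_cut_one (D : ℕ) (c : ℕ)
    (hc : ∀ (V : Type) [NormedAddCommGroup V] [NormedSpace ℝ V]
    [FiniteDimensional ℝ V], Module.finrank ℝ V = D → ∀ (ι : Type) [Finite ι]
    (a : ι → (V →ᵃ[ℝ] ℝ)) (F G : Finset ι), G.card ≤ D + 1 → IsCompact (Pol a G) →
    (interior (Pol a G)).Nonempty →
    ∃ T : Finset (Fin (D + 1) → V), IsTri (Pol a G) T ∧
      (∀ t ∈ T, ∀ i ∈ F, (a i).linear ≠ 0 → ∀ x ∈ interior (Cv t), a i x ≠ 0) ∧
      (∀ t ∈ T, ∀ l, ∃ κ : Fin D → ι, (∀ m, κ m ∈ F ∨ κ m ∈ G) ∧ UZ (fun m => a (κ m)) (t l)) ∧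
      T.card ≤ 2 ^ D * {κ : Fin D → ι | (∀ m, κ m ∈ F) ∧
          ∃ x ∈ interior (Pol a G), UZ (fun m => a (κ m)) x}.ncard
        + c * (F.card + 1) ^ (D - 1))
    (K : ℕ) (V : Type) [NormedAddCommGroup V] [NormedSpace ℝ V]
    [FiniteDimensional ℝ V] (hV : Module.finrank ℝ V = D) (w : Fin (D + 1) → V)
    (δ : Fin (D + 1) → (V →ᵃ[ℝ] ℝ)) (hδ : Cv w = {x | ∀ i, 0 ≤ δ i x})
    (hcomp : IsCompact (Cv w)) (hint : (interior (Cv w)).Nonempty)
    (g : Fin K → (V →ᵃ[ℝ] ℝ)) (hg : ∀ j, (g j).linear ≠ 0) :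
    ∃ T : Finset (Fin (D + 1) → V), IsTri (Cv w) T ∧
      (∀ t ∈ T, ∀ j, ∀ x ∈ interior (Cv t), g j x ≠ 0) ∧
      (∀ t ∈ T, ∀ l, ∃ κ : Fin D → Fin K ⊕ Fin (D + 1), UZ (fun m => Sum.elim g δ (κ m)) (t l)) ∧
      T.card ≤ 2 ^ D * {κ : Fin D → Fin K |
          ∃ x ∈ interior (Cv w), UZ (fun m => g (κ m)) x}.ncard
        + c * (K + 1) ^ (D - 1) := by
  classical
  have hPol : Pol (Sum.elim g δ) (Finset.univ.map Function.Embedding.inr) = Cv w := by
    rw [hδ]
    ext x
    simp [Pol]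
  have hG : (Finset.univ.map (Function.Embedding.inr : Fin (D + 1) ↪ Fin K ⊕ Fin (D + 1))).card
      ≤ D + 1 := by simp
  obtain ⟨T, h1, h2, h3, h4⟩ := hc V hV (Fin K ⊕ Fin (D + 1)) (Sum.elim g δ)
    (Finset.univ.map Function.Embedding.inl) (Finset.univ.map Function.Embedding.inr) hG
    (by rw [hPol]; exact hcomp) (by rw [hPol]; exact hint)
  refine ⟨T, by rw [← hPol]; exact h1, ?_, ?_, ?_⟩
  · intro t ht j x hx
    exact h2 t ht (Sum.inl j) (by simp) (hg j) x hx
  · intro t ht l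
    obtain ⟨κ, _, hκ⟩ := h3 t ht l
    exact ⟨κ, hκ⟩
  · refine h4.trans ?_
    rw [hPol]
    have hF : (Finset.univ.map (Function.Embedding.inl : Fin K ↪ Fin K ⊕ Fin (D + 1))).card = K := by
      simp
    rw [hF]
    gcongr
    set A : Set (Fin D → Fin K) := {κ | ∃ x ∈ interior (Cv w), UZ (fun m => g (κ m)) x} with hA
    calc _ ≤ ((fun κ : Fin D → Fin K => fun m => (Sum.inl (κ m) : Fin K ⊕ Fin (D + 1))) '' A).ncard := by
          apply Set.ncard_le_ncard _ (Set.toFinite _)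
          rintro κ ⟨hκ, x, hx, hu⟩
          have : ∀ m, ∃ j, κ m = Sum.inl j := by
            intro m
            have := hκ m
            simp only [Finset.mem_map, Finset.mem_univ, true_and] at this
            obtain ⟨j, hj⟩ := this
            exact ⟨j, hj.symm⟩
          choose κ' hκ' using this
          refine ⟨κ', ⟨x, hx, ?_⟩, ?_⟩
          · intro y
            have := hu y
            simp only [hκ', Sum.elim_inl] at this
            exact this
          · funext m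
            exact (hκ' m).symm
      _ ≤ A.ncard := Set.ncard_image_le (Set.toFinite _)

/-- few bad samples -/
theorem sample_cut_bad (D : ℕ) (K : ℕ) (ρ : ℝ) (hρ : 1 < ρ) (hK : D * (D + 1) ≤ K)
    (hsmall : ((K : ℝ) + D + 1) ^ (D * (D + 1)) * (1 - 1 / ρ) ^ (K - D * (D + 1)) < 1 / 2)
    (V : Type) [NormedAddCommGroup V] [NormedSpace ℝ V]
    [FiniteDimensional ℝ V] (ι : Type) [Fintype ι] (f : ι → (V →ᵃ[ℝ] ℝ))
    (δ : Fin (D + 1) → (V →ᵃ[ℝ] ℝ)) (hN : 0 < Fintype.card ι)
    (B : Set (Fin K → ι))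
    (hB : ∀ ω ∈ B, ∃ t : Fin (D + 1) → V, (Fintype.card ι : ℝ) / ρ < ((Cross f t).ncard : ℝ) ∧
      (∀ j, ω j ∉ Cross f t) ∧
      ∀ l, ∃ κ : Fin D → Fin K ⊕ Fin (D + 1),
        UZ (fun m => Sum.elim (fun j => f (ω j)) δ (κ m)) (t l)) :
    (B.ncard : ℝ) < (Fintype.card ι : ℝ) ^ K / 2 := by
  classical
  set N : ℝ := (Fintype.card ι : ℝ) with hNdef
  have hN0 : 0 < N := by rw [hNdef]; exact_mod_cast hN
  let Pt := Fin (D + 1) → Fin D → Fin K ⊕ Fin (D + 1)
  let P : Pt → Finset (Fin K) := fun π => Finset.univ.filter fun j => ∃ l m, π l m = Sum.inl j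
  let X : Pt → (Fin K → ι) → Set ι := fun π ω =>
    {i | ∃ t : Fin (D + 1) → V,
      (∀ l, UZ (fun m => Sum.elim (fun j => f (ω j)) δ (π l m)) (t l)) ∧ i ∈ Cross f t}
  let S : Pt → Set (Fin K → ι) := fun π =>
    {ω | N / ρ < ((X π ω).ncard : ℝ) ∧ ∀ j, j ∉ P π → ω j ∉ X π ω}
  have hPcard : ∀ π, (P π).card ≤ D * (D + 1) := by
    intro π
    have h1 : ((P π).map Function.Embedding.inl : Finset (Fin K ⊕ Fin (D + 1))) ⊆
        (Finset.univ : Finset (Fin (D + 1) × Fin D)).image (fun p => π p.1 p.2) := by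
      intro y hy
      simp only [P, Finset.mem_map, Finset.mem_filter, Finset.mem_univ, true_and] at hy
      obtain ⟨j, ⟨l, m, hlm⟩, rfl⟩ := hy
      simp only [Finset.mem_image, Finset.mem_univ, true_and, Prod.exists]
      exact ⟨l, m, hlm⟩
    have h2 := Finset.card_le_card h1
    rw [Finset.card_map] at h2
    refine h2.trans (Finset.card_image_le.trans ?_)
    simp [mul_comm]
  have hX : ∀ π, ∀ ω ω' : Fin K → ι, (∀ j ∈ P π, ω j = ω' j) → X π ω = X π ω' := by
    intro π ω ω' h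
    have : ∀ l m, Sum.elim (fun j => f (ω j)) δ (π l m) = Sum.elim (fun j => f (ω' j)) δ (π l m) := by
      intro l m
      rcases hπ : π l m with j | j
      · simp only [Sum.elim_inl]
        rw [h j (by simp only [P, Finset.mem_filter, Finset.mem_univ, true_and]; exact ⟨l, m, hπ⟩)]
      · simp only [Sum.elim_inr]
    simp only [X, this]
  have hsub : B ⊆ ⋃ π ∈ (Finset.univ : Finset Pt), S π := by
    intro ω hω
    obtain ⟨t, ht1, ht2, ht3⟩ := hB ω hω
    choose π hπ using ht3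
    have hXe : X π ω = Cross f t := by
      ext i
      constructor
      · rintro ⟨t', ht', hi⟩
        have : t' = t := by
          funext l
          have h1 := (ht' l (t' l)).2 rfl
          exact (hπ l (t' l)).1 h1
        rw [← this]; exact hi
      · intro hi
        exact ⟨t, hπ, hi⟩
    simp only [mem_iUnion]
    refine ⟨π, Finset.mem_univ _, ?_, ?_⟩
    · rw [hXe]; exact ht1
    · intro j _
      rw [hXe]; exact ht2 j
  have hρ0 : 0 < ρ := by linarith
  have hr0 : 0 ≤ 1 - 1 / ρ := by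
    have : 1 / ρ ≤ 1 := by rw [div_le_one hρ0]; exact hρ.le
    linarith
  have hr1 : 1 - 1 / ρ ≤ 1 := by
    have : 0 < 1 / ρ := by positivity
    linarith
  have hS : ∀ π, ((S π).ncard : ℝ) ≤ N ^ K * (1 - 1 / ρ) ^ (K - D * (D + 1)) := by
    intro π
    have h1 := count_bad (ι := ι) K (P π) (X π) (hX π) ρ hρ
    refine h1.trans ?_
    apply mul_le_mul_of_nonneg_left _ (by positivity)
    apply pow_le_pow_of_le_one hr0 hr1
    have := hPcard π
    omega
  have h1 : (B.ncard : ℝ) ≤ ∑ π : Pt, ((S π).ncard : ℝ) := by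
    have h2 : B.ncard ≤ (⋃ π ∈ (Finset.univ : Finset Pt), S π).ncard :=
      Set.ncard_le_ncard hsub (Set.toFinite _)
    have h3 : (⋃ π ∈ (Finset.univ : Finset Pt), S π).ncard ≤ ∑ π : Pt, (S π).ncard :=
      Finset.set_ncard_biUnion_le _ _
    exact_mod_cast h2.trans h3
  have h2 : ∑ π : Pt, ((S π).ncard : ℝ) ≤
      ((K : ℝ) + D + 1) ^ (D * (D + 1)) * (N ^ K * (1 - 1 / ρ) ^ (K - D * (D + 1))) := by
    calc ∑ π : Pt, ((S π).ncard : ℝ)
        ≤ ∑ _π : Pt, (N ^ K * (1 - 1 / ρ) ^ (K - D * (D + 1))) :=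
          Finset.sum_le_sum fun π _ => hS π
      _ = (Fintype.card Pt : ℝ) * (N ^ K * (1 - 1 / ρ) ^ (K - D * (D + 1))) := by
          rw [Finset.sum_const, nsmul_eq_mul, Finset.card_univ]
      _ = _ := by
          congr 1
          simp only [Pt, Fintype.card_pi, Fintype.card_sum, Fintype.card_fin, Finset.prod_const,
            Finset.card_univ]
          rw [← pow_mul]
          push_cast
          ring
  have h3 : ((K : ℝ) + D + 1) ^ (D * (D + 1)) * (N ^ K * (1 - 1 / ρ) ^ (K - D * (D + 1)))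
      < N ^ K / 2 := by
    have h4 : 0 < N ^ K := by positivity
    calc _ = N ^ K * (((K : ℝ) + D + 1) ^ (D * (D + 1)) * (1 - 1 / ρ) ^ (K - D * (D + 1))) := by
            ring
      _ < N ^ K * (1 / 2) := by
            exact mul_lt_mul_of_pos_left hsmall h4
      _ = _ := by ring
  linarith

/-! TARGET `sample_cut` (cuttings by random sampling with replacement).
Proof. `c` is the constant of `arr_tri` for `k = D`, `J = D + 1`. For a tuple `ω : Fin K → ι` (a sample) use `arr_tri` with the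
index type `Fin K ⊕ Fin (D + 1)`, `a = Sum.elim (fun j => f (ω j)) δ`, `δ` the barycentric coordinates of the affine basis `w`,
`F` the left, `G` the right summands: `Pol a G = Cv w` is compact with nonempty interior. It gives `T(ω)` with
`|T(ω)| ≤ 2 ^ D V(ω) + c (K + 1)^(D - 1)`, `V(ω)` the number of the `κ : Fin D → Fin K ⊕ Fin (D + 1)` with all values on the left,
with unique common zero in the open simplex, so `V(ω) ≤ K ^ D`, and `V(ω) = 0` unless there is `κ' : Fin D → Fin K` with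
`ω ∘ κ' ∈ Vert D f w` (and then `κ'` is injective, since `ω ∘ κ'` is, by `UZ_injective`). No `f (ω j)` vanishes inside a
simplex of `T(ω)` (the `f i` are nonconstant).
Bad samples: `ω` is bad if some `t ∈ T(ω)` has `|Cross f t| > N / ρ` (`N = card ι`). The vertices of `t` are the unique zeros of
`D` of the functions `a i`: there is a pattern `π : Fin (D+1) → Fin D → Fin K ⊕ Fin (D + 1)` with
`UZ (fun m => a (π l m)) (t l)` for all `l`. For a fixed pattern `π` let `P` be the set of the `j : Fin K` with `inl j` a value of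
`π`, `|P| ≤ D (D + 1)`, and let `X ω` be `Cross f t` if `t` is the (unique) tuple with `UZ (fun m => a_ω (π l m)) (t l)` for all
`l`, and `∅` if there is no such tuple: it depends only on the values of `ω` on `P`, and `ω j ∉ Cross f t` for all `j` if `t ∈ T(ω)`.
By `count_bad` the number of bad `ω` with the pattern `π` is at most `N ^ K (1 - 1/ρ)^(K - |P|) ≤ N ^ K (1 - 1/ρ)^(K - D (D+1))`;
there are `(K + D + 1)^(D (D+1))` patterns, so fewer than `N ^ K / 2` samples are bad. If `2 K ^ D |Vert D f w| < N ^ D` then by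
`count_poor` fewer than `N ^ K / 2` samples have some `κ'` as above (here `D ≤ K`, since `D ≤ D (D+1) ≤ K`). So there is
a sample which is not bad, and has `V(ω) = 0` in the second case (distinguish the two cases first and choose `T` accordingly). -/

theorem sample_cut (D : ℕ) (hD : 1 ≤ D) : ∃ c : ℕ, ∀ (K : ℕ) (ρ : ℝ), 1 < ρ →
    D * (D + 1) ≤ K →
    ((K : ℝ) + D + 1) ^ (D * (D + 1)) * (1 - 1 / ρ) ^ (K - D * (D + 1)) < 1 / 2 →
    ∀ (V : Type) [NormedAddCommGroup V] [NormedSpace ℝ V]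
    [FiniteDimensional ℝ V], Module.finrank ℝ V = D → ∀ (ι : Type) [Fintype ι]
    (f : ι → (V →ᵃ[ℝ] ℝ)) (w : Fin (D + 1) → V), AffineIndependent ℝ w →
    (∀ i, (f i).linear ≠ 0) → 0 < Fintype.card ι →
    ∃ T : Finset (Fin (D + 1) → V), IsTri (Cv w) T ∧
      (∀ t ∈ T, ((Cross f t).ncard : ℝ) ≤ (Fintype.card ι : ℝ) / ρ) ∧
      T.card ≤ 2 ^ D * K ^ D + c * (K + 1) ^ (D - 1) ∧
      (2 * (K ^ D * (Vert D f w).ncard) < (Fintype.card ι) ^ D → T.card ≤ c * (K + 1) ^ (D - 1)) := by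
  classical
  obtain ⟨c, hc⟩ := arr_tri D (D + 1)
  refine ⟨c, ?_⟩
  intro K ρ hρ hK hsmall V _ _ _ hV ι _ f w hw hf hN
  obtain ⟨δ, hδ, hcomp, hint⟩ := sample_cut_simplex D V hV w hw
  have key : ∀ ω : Fin K → ι, _ := fun ω => sample_cut_one D c hc K V hV w δ hδ hcomp hint
    (fun j => f (ω j)) (fun j => hf (ω j))
  choose T h1 h2 h3 h4 using key
  set B : Set (Fin K → ι) :=
    {ω | ∃ t ∈ T ω, (Fintype.card ι : ℝ) / ρ < ((Cross f t).ncard : ℝ)} with hBdef
  have hB : (B.ncard : ℝ) < (Fintype.card ι : ℝ) ^ K / 2 := by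
    apply sample_cut_bad D K ρ hρ hK hsmall V ι f δ hN B
    rintro ω ⟨t, ht, hlt⟩
    refine ⟨t, hlt, ?_, h3 ω t ht⟩
    rintro j ⟨x, hx, hx0⟩
    exact h2 ω t ht j x hx hx0
  have hgood : ∀ ω, ω ∉ B → ∀ t ∈ T ω, ((Cross f t).ncard : ℝ) ≤ (Fintype.card ι : ℝ) / ρ := by
    intro ω hω t ht
    by_contra h
    push Not at h
    exact hω ⟨t, ht, h⟩
  have hbound : ∀ ω, (T ω).card ≤ 2 ^ D * K ^ D + c * (K + 1) ^ (D - 1) := by
    intro ω
    refine (h4 ω).trans ?_
    gcongr
    calc _ ≤ (Set.univ : Set (Fin D → Fin K)).ncard :=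
          Set.ncard_le_ncard (Set.subset_univ _) (Set.toFinite _)
      _ = K ^ D := by
          rw [Set.ncard_univ, Nat.card_eq_fintype_card]
          simp
  have hcardU : ((Set.univ : Set (Fin K → ι)).ncard : ℝ) = (Fintype.card ι : ℝ) ^ K := by
    rw [Set.ncard_univ, Nat.card_eq_fintype_card]
    simp
  have hNK : (0 : ℝ) < (Fintype.card ι : ℝ) ^ K := by
    have : (0 : ℝ) < (Fintype.card ι : ℝ) := by exact_mod_cast hN
    positivity
  by_cases hcase : 2 * (K ^ D * (Vert D f w).ncard) < (Fintype.card ι) ^ D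
  · set Q : Set (Fin K → ι) :=
      {ω | ∃ κ : Fin D → Fin K, Function.Injective κ ∧ (fun m => ω (κ m)) ∈ Vert D f w} with hQdef
    have hQ : 2 * Q.ncard < (Fintype.card ι) ^ K := by
      have h5 := count_poor (ι := ι) K D (Vert D f w)
      have hDK : D ≤ K := by nlinarith
      have h6 : (Fintype.card ι) ^ K = (Fintype.card ι) ^ D * (Fintype.card ι) ^ (K - D) := by
        rw [← pow_add]; congr 1; omega
      rw [h6]
      calc 2 * Q.ncard ≤ 2 * (K ^ D * (Vert D f w).ncard * (Fintype.card ι) ^ (K - D)) := by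
            exact Nat.mul_le_mul_left 2 h5
        _ = 2 * (K ^ D * (Vert D f w).ncard) * (Fintype.card ι) ^ (K - D) := by ring
        _ < _ := Nat.mul_lt_mul_of_pos_right hcase (by positivity)
    have hQ' : (Q.ncard : ℝ) < (Fintype.card ι : ℝ) ^ K / 2 := by
      have : (2 : ℝ) * Q.ncard < (Fintype.card ι : ℝ) ^ K := by exact_mod_cast hQ
      linarith
    have hex : ∃ ω, ω ∉ B ∧ ω ∉ Q := by
      by_contra hno
      push Not at hno
      have hsub : (Set.univ : Set (Fin K → ι)) ⊆ B ∪ Q := by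
        intro ω _
        by_cases h : ω ∈ B
        · exact Or.inl h
        · exact Or.inr (hno ω h)
      have h7 : (Set.univ : Set (Fin K → ι)).ncard ≤ B.ncard + Q.ncard :=
        (Set.ncard_le_ncard hsub (Set.toFinite _)).trans (Set.ncard_union_le _ _)
      have h8 : ((Set.univ : Set (Fin K → ι)).ncard : ℝ) ≤ B.ncard + Q.ncard := by exact_mod_cast h7
      rw [hcardU] at h8
      linarith
    obtain ⟨ω, hωB, hωQ⟩ := hex
    have hzero : {κ : Fin D → Fin K |
          ∃ x ∈ interior (Cv w), UZ (fun m => f (ω (κ m))) x}.ncard = 0 := by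
      rw [Set.ncard_eq_zero (Set.toFinite _), Set.eq_empty_iff_forall_notMem]
      rintro κ ⟨x, hx, hu⟩
      apply hωQ
      refine ⟨κ, ?_, x, hx, hu⟩
      have := UZ_injective D hV (fun j => f (ω j)) κ x hu
      exact this
    have hfin : (T ω).card ≤ c * (K + 1) ^ (D - 1) := by
      have := h4 ω
      rw [hzero] at this
      simpa using this
    exact ⟨T ω, h1 ω, hgood ω hωB, hbound ω, fun _ => hfin⟩
  · have hex : ∃ ω, ω ∉ B := by
      by_contra hno
      push Not at hno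
      have h7 : (Set.univ : Set (Fin K → ι)).ncard ≤ B.ncard :=
        Set.ncard_le_ncard (fun ω _ => hno ω) (Set.toFinite _)
      have h8 : ((Set.univ : Set (Fin K → ι)).ncard : ℝ) ≤ B.ncard := by exact_mod_cast h7
      rw [hcardU] at h8
      linarith
    obtain ⟨ω, hωB⟩ := hex
    exact ⟨T ω, h1 ω, hgood ω hωB, hbound ω, fun h => absurd h hcase⟩

end Pool.Agent.H889
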