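import Pool.Agent.Helper889_Cut.Basic

/-! Triangulating the section of a polytope by a hyperplane. -/

set_option autoImplicit false
open Set

namespace Pool.Agent.H889

variable {V : Type} [NormedAddCommGroup V] [NormedSpace ℝ V]

/-- The statement of the triangulation lemma in dimension `k`. -/
def ArrStmt (k J c : ℕ) : Prop := ∀ (V : Type) [NormedAddCommGroup V] [NormedSpace ℝ V]
    [FiniteDimensional ℝ V], Module.finrank ℝ V = k → ∀ (ι : Type) [Finite ι]
    (a : ι → (V →ᵃ[ℝ] ℝ)) (F G : Finset ι), G.card ≤ J → IsCompact (Pol a G) →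
    (interior (Pol a G)).Nonempty →
    ∃ T : Finset (Fin (k + 1) → V), IsTri (Pol a G) T ∧
      (∀ t ∈ T, ∀ i ∈ F, (a i).linear ≠ 0 → ∀ x ∈ interior (Cv t), a i x ≠ 0) ∧
      (∀ t ∈ T, ∀ l, ∃ κ : Fin k → ι, (∀ m, κ m ∈ F ∨ κ m ∈ G) ∧ UZ (fun m => a (κ m)) (t l)) ∧
      T.card ≤ 2 ^ k * {κ : Fin k → ι | (∀ m, κ m ∈ F) ∧
          ∃ x ∈ interior (Pol a G), UZ (fun m => a (κ m)) x}.ncard
        + c * (F.card + 1) ^ (k - 1)

/-- The embedding of a hyperplane. -/
def hyp (f : V →ᵃ[ℝ] ℝ) (x₀ : V) : (LinearMap.ker f.linear) →ᵃ[ℝ] V :=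
  (Submodule.subtype _).toAffineMap + AffineMap.const ℝ _ x₀

theorem hyp_apply (f : V →ᵃ[ℝ] ℝ) (x₀ : V) (w : LinearMap.ker f.linear) :
    hyp f x₀ w = (w : V) + x₀ := by
  simp [hyp]

theorem hyp_inj (f : V →ᵃ[ℝ] ℝ) (x₀ : V) : Function.Injective (hyp f x₀) := by
  intro w w' h
  rw [hyp_apply, hyp_apply] at h
  exact Subtype.ext (add_right_cancel h)

theorem hyp_zero (f : V →ᵃ[ℝ] ℝ) (x₀ : V) (h0 : f x₀ = 0) (w : LinearMap.ker f.linear) :
    f (hyp f x₀ w) = 0 := by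
  rw [hyp_apply]
  have := f.map_vadd x₀ (w : V)
  simp only [vadd_eq_add] at this
  rw [this, h0]
  have hw := w.2
  rw [LinearMap.mem_ker] at hw
  rw [hw, add_zero]

theorem hyp_surj (f : V →ᵃ[ℝ] ℝ) (x₀ : V) (h0 : f x₀ = 0) (x : V) (hx : f x = 0) :
    ∃ w, hyp f x₀ w = x := by
  have h : f.linear (x - x₀) = 0 := by
    have := f.linearMap_vsub x x₀
    simp only [vsub_eq_sub] at this
    rw [this, hx, h0, sub_zero]
  exact ⟨⟨x - x₀, h⟩, by rw [hyp_apply]; simp⟩

theorem cv_map {W : Type} [NormedAddCommGroup W] [NormedSpace ℝ W] (φ : W →ᵃ[ℝ] V) {m : ℕ}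
    (τ : Fin m → W) : Cv (fun i => φ (τ i)) = φ '' Cv τ := by
  rw [Cv, Cv, AffineMap.image_convexHull, ← Set.range_comp]
  rfl

theorem pol_convex {ι : Type} (c : ι → (V →ᵃ[ℝ] ℝ)) (S : Finset ι) : Convex ℝ (Pol c S) := by
  have : Pol c S = ⋂ i ∈ S, {x | 0 ≤ c i x} := by
    ext x; simp [Pol]
  rw [this]
  refine convex_iInter₂ fun i _ => ?_
  have : {x | 0 ≤ c i x} = (c i) ⁻¹' (Set.Ici 0) := rfl
  rw [this]
  exact (convex_Ici 0).affine_preimage (c i)

theorem affine_cont [FiniteDimensional ℝ V] (f : V →ᵃ[ℝ] ℝ) : Continuous f :=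
  AffineMap.continuous_of_finiteDimensional f

/-- The position of a point of the section of `Pol a G` in the hyperplane of `a i`: a point of the relative
interior. -/
def RelP {ι : Type} (a : ι → (V →ᵃ[ℝ] ℝ)) (G : Finset ι) (i : ι) (x : V) : Prop :=
  x ∈ Pol a G ∧ a i x = 0 ∧ ∀ j ∈ G, a j x = 0 → ∀ y, a i y = 0 → a j y = 0

structure SecTri {ι : Type} (k : ℕ) (a : ι → (V →ᵃ[ℝ] ℝ)) (F G : Finset ι) (i : ι)
    (T : Finset (Fin (k + 1) → V)) (RI : (Fin (k + 1) → V) → Set V) : Prop where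
  zero : ∀ τ ∈ T, ∀ x ∈ Cv τ, a i x = 0
  sub : ∀ τ ∈ T, RI τ ⊆ Cv τ
  ne : ∀ τ ∈ T, (RI τ).Nonempty
  conv : ∀ τ ∈ T, Convex ℝ (RI τ)
  cl : ∀ τ ∈ T, Cv τ ⊆ closure (RI τ)
  cover : (⋃ τ ∈ T, Cv τ) = Pol a G ∩ {x | a i x = 0}
  disj : ∀ τ ∈ T, ∀ τ' ∈ T, (RI τ ∩ RI τ').Nonempty → τ = τ'
  avoid : ∀ τ ∈ T, ∀ j, (j ∈ F ∨ j ∈ G) → ∀ z ∈ RI τ, a j z = 0 → ∀ y, a i y = 0 → a j y = 0
  vert : ∀ τ ∈ T, ∀ l, ∃ κ : Fin k → ι, (∀ m, κ m ∈ F ∨ κ m ∈ G) ∧
    UZ (fun m : Fin (k + 1) => a ((Fin.cons i κ : Fin (k + 1) → ι) m)) (τ l)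
  cone : ∀ τ ∈ T, ∀ b, a i b ≠ 0 →
    AffineIndependent ℝ (Fin.cons b τ : Fin (k + 2) → V) ∧
    (∀ y, y ∈ Cv (Fin.cons b τ : Fin (k + 2) → V) ↔
      ∃ z ∈ Cv τ, ∃ r : ℝ, 0 ≤ r ∧ r ≤ 1 ∧ y = b + r • (z - b)) ∧
    (∀ y, y ∈ interior (Cv (Fin.cons b τ : Fin (k + 2) → V)) →
      ∃ z ∈ RI τ, ∃ r : ℝ, 0 < r ∧ r < 1 ∧ y = b + r • (z - b))

theorem interior_cv_nonempty [FiniteDimensional ℝ V] {k : ℕ} (hV : Module.finrank ℝ V = k)
    (τ : Fin (k + 1) → V) (hτ : AffineIndependent ℝ τ) : (interior (Cv τ)).Nonempty := by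
  rw [Cv, interior_convexHull_nonempty_iff_affineSpan_eq_top]
  exact hτ.affineSpan_eq_top_iff_card_eq_finrank_add_one.2 (by simp [hV])

theorem section_tri [FiniteDimensional ℝ V] (k J c : ℕ) (hIH : ArrStmt k J c)
    (hV : Module.finrank ℝ V = k + 1) {ι : Type} [Finite ι]
    (a : ι → (V →ᵃ[ℝ] ℝ)) (F G : Finset ι) (hG : G.card ≤ J) (hc : IsCompact (Pol a G))
    (i : ι) (hi : (a i).linear ≠ 0) (x₀ : V) (hx₀ : RelP a G i x₀) :
    ∃ (T : Finset (Fin (k + 1) → V)) (RI : (Fin (k + 1) → V) → Set V),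
      SecTri k a F G i T RI ∧
      T.card ≤ 2 ^ k * {κ : Fin k → ι | (∀ m, κ m ∈ F) ∧
          ∃ x, RelP a G i x ∧
            UZ (fun m : Fin (k + 1) => a ((Fin.cons i κ : Fin (k + 1) → ι) m)) x}.ncard
        + c * (F.card + 1) ^ (k - 1) := by
  classical
  obtain ⟨hxP, hx0, hxR⟩ := hx₀
  set W := LinearMap.ker (a i).linear with hW
  set φ : W →ᵃ[ℝ] V := hyp (a i) x₀ with hφ
  have hφi : Function.Injective φ := hyp_inj _ _
  have hφ0 : ∀ w, a i (φ w) = 0 := hyp_zero _ _ hx0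
  have hφs : ∀ x, a i x = 0 → ∃ w, φ w = x := fun x hx => hyp_surj _ _ hx0 x hx
  have hWk : Module.finrank ℝ W = k := by
    have h1 := Module.Dual.finrank_ker_add_one_of_ne_zero (f := (a i).linear) hi
    rw [hV] at h1
    have : Module.finrank ℝ (LinearMap.ker (a i).linear) = k := by omega
    exact this
  set a' : ι → (W →ᵃ[ℝ] ℝ) := fun j => (a j).comp φ with ha'
  have hpre : φ ⁻¹' (Pol a G) = Pol a' G := by
    ext w; simp [Pol, ha']
  have hc' : IsCompact (Pol a' G) := by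
    rw [← hpre]; exact section_compact φ hφi _ hc
  have hφc : Continuous φ := AffineMap.continuous_of_finiteDimensional φ
  -- relative interior points
  have hint : ∀ w, w ∈ interior (Pol a' G) ↔ RelP a G i (φ w) := by
    intro w
    constructor
    · intro hw
      have hwP : w ∈ Pol a' G := interior_subset hw
      refine ⟨by rw [← hpre] at hwP; exact hwP, hφ0 w, fun j hj h0 y hy => ?_⟩
      obtain ⟨w', rfl⟩ := hφs y hy
      exact zero_of_nonneg (a' j) (Pol a' G) (fun w' hw' => hw' j hj) w hw h0 w'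
    · rintro ⟨h1, -, h2⟩
      have hop : IsOpen (⋂ j ∈ G.filter (fun j => a' j w ≠ 0), {w' : W | 0 < a' j w'}) := by
        refine isOpen_biInter_finset fun j _ => ?_
        exact isOpen_lt continuous_const (AffineMap.continuous_of_finiteDimensional (a' j))
      refine mem_interior.2 ⟨_, ?_, hop, ?_⟩
      · intro w' hw' j hj
        by_cases h0 : a' j w = 0
        · have := h2 j hj h0 (φ w') (hφ0 w')
          exact le_of_eq this.symm
        · exact (Set.mem_iInter₂.1 hw' j (Finset.mem_filter.2 ⟨hj, h0⟩)).le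
      · refine Set.mem_iInter₂.2 fun j hj => ?_
        obtain ⟨hj, h0⟩ := Finset.mem_filter.1 hj
        exact lt_of_le_of_ne (h1 j hj) (Ne.symm h0)
  have hne : (interior (Pol a' G)).Nonempty := by
    obtain ⟨w, hw⟩ := hφs x₀ hx0
    exact ⟨w, (hint w).2 (by rw [hw]; exact ⟨hxP, hx0, hxR⟩)⟩
  obtain ⟨T, hT, hav, hve, hcard⟩ := hIH W hWk ι a' F G hG hc' hne
  set E : (Fin (k + 1) → W) → (Fin (k + 1) → V) := fun τ l => φ (τ l) with hE
  have hEi : Function.Injective E := by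
    intro τ τ' h
    funext l
    exact hφi (congrFun h l)
  have hCE : ∀ τ, Cv (E τ) = φ '' Cv τ := fun τ => cv_map φ τ
  refine ⟨T.image E, fun τ => φ '' (interior (φ ⁻¹' (Cv τ))), ?_, ?_⟩
  · have hRI : ∀ τ : Fin (k + 1) → W, φ ⁻¹' (Cv (E τ)) = Cv τ := by
      intro τ
      rw [hCE, Set.preimage_image_eq _ hφi]
    constructor
    · intro τ hτ x hx
      obtain ⟨τ', hτ', rfl⟩ := Finset.mem_image.1 hτ
      rw [hCE] at hx
      obtain ⟨w, -, rfl⟩ := hx
      exact hφ0 w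
    · intro τ hτ
      obtain ⟨τ', hτ', rfl⟩ := Finset.mem_image.1 hτ
      simp only [hRI]
      rw [hCE]
      exact Set.image_mono interior_subset
    · intro τ hτ
      obtain ⟨τ', hτ', rfl⟩ := Finset.mem_image.1 hτ
      simp only [hRI]
      exact (interior_cv_nonempty hWk τ' (hT.indep τ' hτ')).image _
    · intro τ hτ
      obtain ⟨τ', hτ', rfl⟩ := Finset.mem_image.1 hτ
      simp only [hRI]
      exact ((convex_convexHull ℝ _).interior).affine_image φ
    · intro τ hτ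
      obtain ⟨τ', hτ', rfl⟩ := Finset.mem_image.1 hτ
      simp only [hRI]
      rw [hCE]
      rintro _ ⟨w, hw, rfl⟩
      have h1 : closure (interior (Cv τ')) = closure (Cv τ') :=
        (convex_convexHull ℝ _).closure_interior_eq_closure_of_nonempty_interior
          (interior_cv_nonempty hWk τ' (hT.indep τ' hτ'))
      have h2 : w ∈ closure (interior (Cv τ')) := by
        rw [h1]; exact subset_closure hw
      exact image_closure_subset_closure_image hφc ⟨w, h2, rfl⟩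
    · ext x
      simp only [Set.mem_iUnion, exists_prop, Set.mem_inter_iff, Set.mem_setOf_eq, Finset.mem_image]
      constructor
      · rintro ⟨_, ⟨τ', hτ', rfl⟩, hx⟩
        rw [hCE] at hx
        obtain ⟨w, hw, rfl⟩ := hx
        refine ⟨?_, hφ0 w⟩
        have : w ∈ Pol a' G := by
          rw [← hT.union]; exact Set.mem_biUnion hτ' hw
        rw [← hpre] at this
        exact this
      · rintro ⟨hx, hx0'⟩
        obtain ⟨w, rfl⟩ := hφs x hx0'
        have : w ∈ Pol a' G := by rw [← hpre]; exact hx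
        rw [← hT.union] at this
        obtain ⟨τ', hτ', hw⟩ := Set.mem_iUnion₂.1 this
        exact ⟨E τ', ⟨τ', hτ', rfl⟩, by rw [hCE]; exact ⟨w, hw, rfl⟩⟩
    · intro τ hτ τ' hτ' hne'
      obtain ⟨σ, hσ, rfl⟩ := Finset.mem_image.1 hτ
      obtain ⟨σ', hσ', rfl⟩ := Finset.mem_image.1 hτ'
      simp only [hRI] at hne'
      obtain ⟨x, ⟨w, hw, rfl⟩, ⟨w', hw', hww⟩⟩ := hne'
      have : w' = w := hφi hww
      subst this
      by_contra hcon
      have h3 : σ ≠ σ' := fun h => hcon (by rw [h])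
      exact Set.disjoint_left.1 (hT.disj σ hσ σ' hσ' h3) hw hw'
    · intro τ hτ j hj z hz hz0 y hy
      obtain ⟨σ, hσ, rfl⟩ := Finset.mem_image.1 hτ
      simp only [hRI] at hz
      obtain ⟨w, hw, rfl⟩ := hz
      rcases hj with hj | hj
      · -- j ∈ F
        have h1 : (a' j).linear = 0 := by
          by_contra hcon
          exact hav σ hσ j hj hcon w hw (by simpa [ha'] using hz0)
        obtain ⟨w', rfl⟩ := hφs y hy
        have h2 : a' j w' = a' j w := by
          have := (a' j).linearMap_vsub w' w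
          rw [h1] at this
          simp only [LinearMap.zero_apply, vsub_eq_sub] at this
          linarith
        have h3 : a' j w = 0 := by simpa [ha'] using hz0
        have h4 : a' j w' = a j (φ w') := rfl
        rw [← h4, h2, h3]
      · have hsub : Cv σ ⊆ Pol a' G := by
          rw [← hT.union]; exact Set.subset_biUnion_of_mem (u := fun t => Cv t) hσ
        have h1 : ∀ w', a' j w' = 0 :=
          zero_of_nonneg (a' j) (Pol a' G) (fun w' hw' => hw' j hj) w (interior_mono hsub hw)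
            (by simpa [ha'] using hz0)
        obtain ⟨w', rfl⟩ := hφs y hy
        exact h1 w'
    · intro τ hτ l
      obtain ⟨σ, hσ, rfl⟩ := Finset.mem_image.1 hτ
      obtain ⟨κ, hκ, hz⟩ := hve σ hσ l
      refine ⟨κ, hκ, fun y => ?_⟩
      rw [Fin.forall_fin_succ]
      simp only [Fin.cons_zero, Fin.cons_succ]
      constructor
      · rintro ⟨h0, h1⟩
        obtain ⟨w, rfl⟩ := hφs y h0
        have := (hz w).1 (fun m => h1 m)
        rw [this]
      · rintro rfl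
        exact ⟨hφ0 _, fun m => (hz (σ l)).2 rfl m⟩
    · intro τ hτ b hb
      obtain ⟨σ, hσ, rfl⟩ := Finset.mem_image.1 hτ
      obtain ⟨h1, h2, h3⟩ := cone_simplex k hV hWk (a i) φ hφi hφ0 σ (hT.indep σ hσ) b hb
      refine ⟨h1, fun y => ?_, fun y hy => ?_⟩
      · rw [show (Fin.cons b (E σ) : Fin (k + 2) → V) = Fin.cons b (fun i => φ (σ i)) from rfl, h2]
        rw [hCE]
        constructor
        · rintro ⟨z, hz, r, hr⟩
          exact ⟨φ z, ⟨z, hz, rfl⟩, r, hr⟩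
        · rintro ⟨_, ⟨z, hz, rfl⟩, r, hr⟩
          exact ⟨z, hz, r, hr⟩
      · obtain ⟨z, hz, r, hr⟩ := h3 y hy
        simp only [hRI]
        exact ⟨φ z, ⟨z, hz, rfl⟩, r, hr⟩
  · rw [Finset.card_image_of_injective _ hEi]
    refine hcard.trans ?_
    gcongr
    · exact Set.toFinite _
    · rintro ⟨w, hw, hz⟩
      refine ⟨φ w, (hint w).1 hw, fun y => ?_⟩
      rw [Fin.forall_fin_succ]
      simp only [Fin.cons_zero, Fin.cons_succ]
      constructor
      · rintro ⟨h0, h2⟩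
        obtain ⟨w', rfl⟩ := hφs y h0
        have := (hz w').1 (fun m => h2 m)
        rw [this]
      · rintro rfl
        exact ⟨hφ0 _, fun m => (hz w).2 rfl m⟩

end Pool.Agent.H889
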