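import Pool.Agent.Helper889_Cut.Step
import Pool.Agent.Helper889_Cut.Mem
import Pool.Agent.Helper889_Cut.Layers2

/-! One step of the subdivision of a cell, for members which may cross. -/

set_option autoImplicit false
open Set

namespace Pool.Agent.H889

variable {V : Type} [NormedAddCommGroup V] [NormedSpace ℝ V]

/-- on a segment between a point above and a point not above the graph of `f` there is a point of the graph -/
theorem cell_step2_cross (f : V →ᵃ[ℝ] ℝ) (p p' : V × ℝ) (h1 : f p.1 < p.2) (h2 : p'.2 ≤ f p'.1) :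
    ∃ z ∈ segment ℝ p p', z.2 = f z.1 := by
  set u : ℝ := p.2 - f p.1 with hu
  set v : ℝ := f p'.1 - p'.2 with hv
  have hu0 : 0 < u := by simp only [hu]; linarith
  have hv0 : 0 ≤ v := by simp only [hv]; linarith
  have huv : 0 < u + v := by linarith
  refine ⟨(v / (u + v)) • p + (u / (u + v)) • p', ⟨v / (u + v), u / (u + v), by positivity,
    by positivity, ?_, rfl⟩, ?_⟩
  · field_simp
    ring
  · have h3 : f ((v / (u + v)) • p.1 + (u / (u + v)) • p'.1) =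
        (v / (u + v)) * f p.1 + (u / (u + v)) * f p'.1 := by
      have h4 : (v / (u + v)) + (u / (u + v)) = 1 := by field_simp; ring
      have := Convex.combo_affine_apply (f := f) (x := p.1) (y := p'.1) h4
      simpa using this
    simp only [Prod.snd_add, Prod.smul_snd, Prod.fst_add, Prod.smul_fst, smul_eq_mul]
    rw [h3]
    have h5 : (v / (u + v)) * (p.2 - f p.1) + (u / (u + v)) * (p'.2 - f p'.1) = 0 := by
      have e1 : p.2 - f p.1 = u := rfl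
      have e2 : p'.2 - f p'.1 = -v := by simp only [hv]; ring
      rw [e1, e2]
      field_simp
      ring
    linarith

theorem cell_step2_cross' (f : V →ᵃ[ℝ] ℝ) (p p' : V × ℝ) (h1 : p.2 < f p.1) (h2 : f p'.1 ≤ p'.2) :
    ∃ z ∈ segment ℝ p p', z.2 = f z.1 := by
  obtain ⟨z, hz, h⟩ := cell_step2_cross (-f) (p.1, -p.2) (p'.1, -p'.2) (by simpa using h1)
    (by simpa using h2)
  refine ⟨(z.1, -z.2), ?_, ?_⟩
  · obtain ⟨α, β, hα, hβ, hαβ, rfl⟩ := hz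
    refine ⟨α, β, hα, hβ, hαβ, ?_⟩
    ext
    · simp
    · simp only [Prod.snd_add, Prod.smul_snd, smul_eq_mul]
      ring
  · simp only at h ⊢
    rw [h]
    simp

theorem cell_step2 [FiniteDimensional ℝ V] (D : ℕ) (hD : 1 ≤ D) (hV : Module.finrank ℝ V = D)
    {ι : Type} [Fintype ι] (M : ι → Set (V × ℝ)) (ψ : ι → Fin (D + 1) → (V →ᵃ[ℝ] ℝ))
    (ℓ : ι → (V →ᵃ[ℝ] ℝ)) (Δ : ℕ) (hM : ∀ i, IsMem (M i) (ψ i) (ℓ i)) (hdeg : DegLe M ℓ Δ)
    (w : Fin (D + 1) → V) (a b : V →ᵃ[ℝ] ℝ) (hg : GoodC w a b) (I : Finset ι)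
    (hI : InShM M ψ w a b I) (T : Finset (Fin (D + 1) → V)) (hT : IsTri (Cv w) T)
    (q : ℕ) (hq : 1 ≤ q) :
    ∃ (Λ : (Fin (D + 1) → V) → Finset ((V →ᵃ[ℝ] ℝ) × (V →ᵃ[ℝ] ℝ)))
      (J : (Fin (D + 1) → V) → ((V →ᵃ[ℝ] ℝ) × (V →ᵃ[ℝ] ℝ)) → Finset ι),
      (∀ τ ∈ T, (Λ τ).card ≤ I.card / q + 1) ∧
      (∀ τ ∈ T, ∀ p ∈ Λ τ, GoodC τ p.1 p.2) ∧
      ((⋃ τ ∈ T, ⋃ p ∈ Λ τ, Body τ p.1 p.2) = Body w a b) ∧
      (∀ τ ∈ T, ∀ p ∈ Λ τ, ∀ τ' ∈ T, ∀ p' ∈ Λ τ', (τ, p) ≠ (τ', p') →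
        Disjoint (OBody τ p.1 p.2) (OBody τ' p'.1 p'.2)) ∧
      (∀ τ ∈ T, ∀ p ∈ Λ τ, J τ p ⊆ I ∧ InShM M ψ τ p.1 p.2 (J τ p)) ∧
      (∀ τ ∈ T, ∀ p ∈ Λ τ,
        {i | i ∈ I ∧ i ∉ J τ p ∧ (M i ∩ OBody τ p.1 p.2).Nonempty}.ncard < q + 2 * Δ) ∧
      (∀ τ ∈ T, ∑ p ∈ Λ τ, (HH ψ τ (J τ p)).ncard ≤ (HH ψ τ I).ncard) ∧
      (∑ τ ∈ T, ∑ p ∈ Λ τ, (VV ψ τ (J τ p)).ncard ≤ (VV ψ w I).ncard) := by
  classical
  have hsub : ∀ τ ∈ T, Cv τ ⊆ Cv w := by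
    intro τ hτ x hx
    rw [← hT.union]
    exact Set.mem_biUnion hτ hx
  have hint : ∀ τ ∈ T, interior (Cv τ) ⊆ interior (Cv w) := fun τ hτ => interior_mono (hsub τ hτ)
  have hconv : ∀ τ : Fin (D + 1) → V, Convex ℝ (interior (Cv τ)) :=
    fun τ => (convex_convexHull ℝ _).interior
  set Lo : (Fin (D + 1) → V) → Finset ι := fun τ => I.filter fun i =>
    (¬ ∃ k, ∃ x ∈ interior (Cv τ), ψ i k x = 0) ∧ GrOv (M i) (ℓ i) (interior (Cv τ)) with hLo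
  have key : ∀ τ : Fin (D + 1) → V, ∃ Λ : Finset ((V →ᵃ[ℝ] ℝ) × (V →ᵃ[ℝ] ℝ)), τ ∈ T →
      Λ.card ≤ (Lo τ).card / q + 1 ∧
      (∀ p ∈ Λ, ∀ x ∈ interior (Cv τ), p.1 x < p.2 x) ∧
      (∀ p ∈ Λ, ∀ x ∈ interior (Cv τ), a x ≤ p.1 x ∧ p.2 x ≤ b x) ∧
      (∀ p ∈ Λ, (p.1 = a ∨ ∃ i ∈ Lo τ, p.1 = ℓ i) ∧ (p.2 = b ∨ ∃ i ∈ Lo τ, p.2 = ℓ i)) ∧
      (∀ x ∈ closure (interior (Cv τ)), ∀ z, a x ≤ z → z ≤ b x →
        ∃ p ∈ Λ, p.1 x ≤ z ∧ z ≤ p.2 x) ∧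
      (∀ p ∈ Λ, ∀ p' ∈ Λ, p ≠ p' → ∀ x ∈ interior (Cv τ), ∀ z,
        ¬ (p.1 x < z ∧ z < p.2 x ∧ p'.1 x < z ∧ z < p'.2 x)) ∧
      (∀ p ∈ Λ, {i | i ∈ Lo τ ∧ ∀ x ∈ interior (Cv τ), p.1 x < ℓ i x ∧ ℓ i x < p.2 x}.ncard < q) := by
    intro τ
    by_cases hτ : τ ∈ T
    swap
    · exact ⟨∅, fun h => absurd h hτ⟩
    obtain ⟨hne, -⟩ := cell_step_simplex D hV τ (hT.indep τ hτ)
    obtain ⟨Λ, h1⟩ := layers2 (interior (Cv τ)) hne a b ℓ
      (Lo τ) (fun x hx => hg.2 x (hint τ hτ hx))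
      (fun i hi x hx => by
        rw [hLo, Finset.mem_filter] at hi
        have h2 : ((x, ℓ i x) : V × ℝ) ∈ M i := (hi.2.2 (x, ℓ i x) hx).2 rfl
        exact (hI.1 i hi.1 _ h2 (hint τ hτ hx)).2) q hq
    exact ⟨Λ, fun _ => h1⟩
  choose Λ hΛ using key
  set J : (Fin (D + 1) → V) → ((V →ᵃ[ℝ] ℝ) × (V →ᵃ[ℝ] ℝ)) → Finset ι := fun τ p =>
    I.filter fun i => (∃ k, ∃ x ∈ interior (Cv τ), ψ i k x = 0) ∧
      (∃ z ∈ M i, z.1 ∈ interior (Cv τ)) ∧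
      ∀ z ∈ M i, z.1 ∈ interior (Cv τ) → z ∈ OBody τ p.1 p.2 with hJ
  have hJI : ∀ τ p, J τ p ⊆ I := fun τ p => Finset.filter_subset _ _
  -- a member is in at most one `J τ p`
  have hJd : ∀ τ ∈ T, ∀ p ∈ Λ τ, ∀ p' ∈ Λ τ, p ≠ p' → ∀ i, i ∈ J τ p → i ∈ J τ p' → False := by
    intro τ hτ p hp p' hp' hne i hi hi'
    rw [hJ, Finset.mem_filter] at hi hi'
    obtain ⟨-, -, ⟨z, hz, hzG⟩, h1⟩ := hi
    obtain ⟨-, -, -, h2⟩ := hi'
    exact (hΛ τ hτ).2.2.2.2.2.1 p hp p' hp' hne z.1 hzG z.2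
      ⟨(h1 z hz hzG).2.1, (h1 z hz hzG).2.2, (h2 z hz hzG).2.1, (h2 z hz hzG).2.2⟩
  refine ⟨Λ, J, ?_, ?_, ?_, ?_, ?_, ?_, ?_, ?_⟩
  · intro τ hτ
    refine (hΛ τ hτ).1.trans ?_
    have : (Lo τ).card ≤ I.card := Finset.card_filter_le _ _
    exact Nat.add_le_add_right (Nat.div_le_div_right this) 1
  · intro τ hτ p hp
    exact ⟨hT.indep τ hτ, (hΛ τ hτ).2.1 p hp⟩
  · ext ⟨x, z⟩
    simp only [Set.mem_iUnion, exists_prop]
    constructor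
    · rintro ⟨τ, hτ, p, hp, h1, h2, h3⟩
      have hcl := (cell_step_simplex D hV τ (hT.indep τ hτ)).2
      have h1' : x ∈ closure (interior (Cv τ)) := by rw [hcl]; exact h1
      have h4 := cell_step_closure (interior (Cv τ)) a p.1
        (fun y hy => ((hΛ τ hτ).2.2.1 p hp y hy).1) x h1'
      have h5 := cell_step_closure (interior (Cv τ)) p.2 b
        (fun y hy => ((hΛ τ hτ).2.2.1 p hp y hy).2) x h1'
      exact ⟨hsub τ hτ h1, h4.trans h2, h3.trans h5⟩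
    · rintro ⟨h1, h2, h3⟩
      rw [← hT.union] at h1
      simp only [Set.mem_iUnion, exists_prop] at h1
      obtain ⟨τ, hτ, h1⟩ := h1
      have hcl := (cell_step_simplex D hV τ (hT.indep τ hτ)).2
      obtain ⟨p, hp, h4, h5⟩ := (hΛ τ hτ).2.2.2.2.1 x (by rw [hcl]; exact h1) z h2 h3
      exact ⟨τ, hτ, p, hp, h1, h4, h5⟩
  · intro τ hτ p hp τ' hτ' p' hp' hne
    rw [Set.disjoint_left]
    rintro ⟨x, z⟩ ⟨h1, h2, h3⟩ ⟨h1', h2', h3'⟩
    by_cases hττ : τ = τ'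
    · subst hττ
      have hpp : p ≠ p' := fun h => hne (by rw [h])
      exact (hΛ τ hτ).2.2.2.2.2.1 p hp p' hp' hpp x h1 z ⟨h2, h3, h2', h3'⟩
    · exact Set.disjoint_left.1 (hT.disj τ hτ τ' hτ' hττ) h1 h1'
  · intro τ hτ p hp
    refine ⟨hJI τ p, ?_, ?_⟩
    · intro i hi z hz hzG
      rw [hJ, Finset.mem_filter] at hi
      exact hi.2.2.2 z hz hzG
    · intro i hi
      rw [hJ, Finset.mem_filter] at hi
      exact hi.2.1
  · intro τ hτ p hp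
    obtain ⟨hne, -⟩ := cell_step_simplex D hV τ (hT.indep τ hτ)
    -- the partners of the floor and of the roof
    set Nb : ι → Set ι := fun j => {i | i ≠ j ∧ (M i ∩ M j).Nonempty} with hNb
    have hNbc : ∀ j ∈ Lo τ, (Nb j).ncard ≤ Δ := by
      intro j hj
      rw [hLo, Finset.mem_filter] at hj
      exact hdeg j _ isOpen_interior hne hj.2.2
    -- a set containing the partners of the floor
    have hset : ∀ f : V →ᵃ[ℝ] ℝ, ∃ A : Set ι, A.ncard ≤ Δ ∧ ∀ j ∈ Lo τ, f = ℓ j →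
        ∃ j' ∈ Lo τ, f = ℓ j' ∧ A = Nb j' := by
      intro f
      by_cases h : ∃ j ∈ Lo τ, f = ℓ j
      · obtain ⟨j, hj, hf⟩ := h
        exact ⟨Nb j, hNbc j hj, fun _ _ _ => ⟨j, hj, hf, rfl⟩⟩
      · exact ⟨∅, by simp, fun j hj hf => absurd ⟨j, hj, hf⟩ h⟩
    obtain ⟨A1, hA1, hA1'⟩ := hset p.1
    obtain ⟨A2, hA2, hA2'⟩ := hset p.2
    -- crossing the floor or the roof
    have hcross : ∀ i ∈ I, ∀ z ∈ M i, z ∈ OBody τ p.1 p.2 →
        ∀ z' ∈ M i, z'.1 ∈ interior (Cv τ) → z' ∉ OBody τ p.1 p.2 → i ∈ A1 ∪ A2 := by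
      intro i hiI z hz hzO z' hz' hz'G hz'O
      have hseg : ∀ y ∈ segment ℝ z z', y ∈ M i ∧ y.1 ∈ interior (Cv τ) := by
        intro y hy
        refine ⟨(hM i).conv.segment_subset hz hz' hy, ?_⟩
        obtain ⟨α, β, hα, hβ, hαβ, rfl⟩ := hy
        exact (hconv τ) hzO.1 hz'G hα hβ hαβ
      have hor : z'.2 ≤ p.1 z'.1 ∨ p.2 z'.1 ≤ z'.2 := by
        by_contra hcon
        push Not at hcon
        exact hz'O ⟨hz'G, hcon.1, hcon.2⟩
      rcases hor with hor | hor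
      · obtain ⟨y, hy, hy2⟩ := cell_step2_cross p.1 z z' hzO.2.1 hor
        obtain ⟨hyM, hyG⟩ := hseg y hy
        have hyO := hI.1 i hiI y hyM (hint τ hτ hyG)
        left
        rcases ((hΛ τ hτ).2.2.2.1 p hp).1 with h | ⟨j, hj, h⟩
        · rw [h] at hy2
          exact absurd hy2.symm (ne_of_lt hyO.2.1)
        · obtain ⟨j', hj', hf, hA⟩ := hA1' j hj h
          rw [hA]
          have hj'2 := hj'
          rw [hLo, Finset.mem_filter] at hj'2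
          refine ⟨?_, y, hyM, ?_⟩
          · rintro rfl
            have h6 := (hj'2.2.2 z hzO.1).1 hz
            have h7 := hzO.2.1
            rw [hf, h6] at h7
            exact lt_irrefl _ h7
          · rw [hj'2.2.2 y hyG, ← hf]
            exact hy2
      · obtain ⟨y, hy, hy2⟩ := cell_step2_cross' p.2 z z' hzO.2.2 hor
        obtain ⟨hyM, hyG⟩ := hseg y hy
        have hyO := hI.1 i hiI y hyM (hint τ hτ hyG)
        right
        rcases ((hΛ τ hτ).2.2.2.1 p hp).2 with h | ⟨j, hj, h⟩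
        · rw [h] at hy2
          exact absurd hy2 (ne_of_lt hyO.2.2)
        · obtain ⟨j', hj', hf, hA⟩ := hA2' j hj h
          rw [hA]
          have hj'2 := hj'
          rw [hLo, Finset.mem_filter] at hj'2
          refine ⟨?_, y, hyM, ?_⟩
          · rintro rfl
            have h6 := (hj'2.2.2 z hzO.1).1 hz
            have h7 := hzO.2.2
            rw [hf, h6] at h7
            exact lt_irrefl _ h7
          · rw [hj'2.2.2 y hyG, ← hf]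
            exact hy2
    have hmain : {i | i ∈ I ∧ i ∉ J τ p ∧ (M i ∩ OBody τ p.1 p.2).Nonempty} ⊆
        {i | i ∈ Lo τ ∧ ∀ x ∈ interior (Cv τ), p.1 x < ℓ i x ∧ ℓ i x < p.2 x} ∪ (A1 ∪ A2) := by
      rintro i ⟨hiI, hiJ, z, hz, hzO⟩
      by_cases hall : ∀ z' ∈ M i, z'.1 ∈ interior (Cv τ) → z' ∈ OBody τ p.1 p.2
      · left
        have hns : ¬ ∃ k, ∃ x ∈ interior (Cv τ), ψ i k x = 0 := by
          intro hs
          apply hiJ
          rw [hJ, Finset.mem_filter]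
          exact ⟨hiI, hs, ⟨z, hz, hzO.1⟩, hall⟩
        have hgr : GrOv (M i) (ℓ i) (interior (Cv τ)) := by
          rcases (hM i).graph (interior (Cv τ)) (hconv τ)
            (fun k x hx h0 => hns ⟨k, x, hx, h0⟩) with h | h
          · exact absurd hzO.1 (h z hz)
          · exact h
        refine ⟨?_, ?_⟩
        · rw [hLo, Finset.mem_filter]
          exact ⟨hiI, hns, hgr⟩
        · intro x hx
          exact (hall (x, ℓ i x) ((hgr (x, ℓ i x) hx).2 rfl) hx).2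
      · push Not at hall
        obtain ⟨z', hz', hz'G, hz'O⟩ := hall
        right
        exact hcross i hiI z hz hzO z' hz' hz'G hz'O
    have h1 := Set.ncard_le_ncard hmain (Set.toFinite _)
    have h2 := Set.ncard_union_le
      {i | i ∈ Lo τ ∧ ∀ x ∈ interior (Cv τ), p.1 x < ℓ i x ∧ ℓ i x < p.2 x} (A1 ∪ A2)
    have h3 := Set.ncard_union_le A1 A2
    have h4 := (hΛ τ hτ).2.2.2.2.2.2 p hp
    omega
  · intro τ hτ
    apply cell_step_sum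
    · rintro p hp x ⟨h1, h2⟩
      exact ⟨hJI τ p h1, h2⟩
    · intro p hp p' hp' hpp
      rw [Set.disjoint_left]
      rintro x ⟨h1, -⟩ ⟨h1', -⟩
      exact hJd τ hτ p hp p' hp' hpp x.1 h1 h1'
  · have h1 : ∀ τ ∈ T, ∑ p ∈ Λ τ, (VV ψ τ (J τ p)).ncard ≤
        {κ : Fin D → ι × Fin (D + 1) | (∀ m, κ m ∈ HH ψ w I) ∧
          ∃ x ∈ interior (Cv τ), UZ (fun m => ψ (κ m).1 (κ m).2) x}.ncard := by
      intro τ hτ
      apply cell_step_sum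
      · rintro p hp κ ⟨h2, h3⟩
        refine ⟨fun m => ?_, h3⟩
        obtain ⟨h4, y, hy, hy0⟩ := h2 m
        exact ⟨hJI τ p h4, y, hint τ hτ hy, hy0⟩
      · intro p hp p' hp' hpp
        rw [Set.disjoint_left]
        rintro κ ⟨h2, -⟩ ⟨h2', -⟩
        exact hJd τ hτ p hp p' hp' hpp _ (h2 ⟨0, hD⟩).1 (h2' ⟨0, hD⟩).1
    refine (Finset.sum_le_sum h1).trans ?_
    apply cell_step_sum
    · rintro τ hτ κ ⟨h2, x, hx, h3⟩
      exact ⟨h2, x, hint τ hτ hx, h3⟩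
    · intro τ hτ τ' hτ' hne
      rw [Set.disjoint_left]
      rintro κ ⟨-, x, hx, h3⟩ ⟨-, x', hx', h3'⟩
      have hxx : x = x' := (h3' x).1 ((h3 x).2 rfl)
      subst hxx
      exact Set.disjoint_left.1 (hT.disj τ hτ τ' hτ' hne) hx hx'

end Pool.Agent.H889
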