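import Pool.Agent.Helper889_Cut.Tau4b

/-! One step of the subdivision of a cell, with crossing pairs. -/

set_option autoImplicit false
open Set

namespace Pool.Agent.H889

variable {V : Type} [NormedAddCommGroup V] [NormedSpace ℝ V]

theorem cell_step4 [FiniteDimensional ℝ V] (D : ℕ) (hD : 1 ≤ D) (hV : Module.finrank ℝ V = D)
    {ι : Type} [Fintype ι] (M : ι → Set (V × ℝ)) (ψ : ι → Fin (D + 1) → (V →ᵃ[ℝ] ℝ))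
    (ℓ : ι → (V →ᵃ[ℝ] ℝ)) (P : Finset (ι × ι)) (π : ι × ι → (V →ᵃ[ℝ] ℝ)) (Δ : ℕ)
    (hM : ∀ i, IsMem (M i) (ψ i) (ℓ i)) (hP : PairSys M ℓ P π)
    (w : Fin (D + 1) → V) (a b : V →ᵃ[ℝ] ℝ) (hg : GoodC w a b)
    (T : Finset (Fin (D + 1) → V)) (hT : IsTri (Cv w) T) (q : ℕ) (hq : 1 ≤ q) :
    ∃ (Λ : (Fin (D + 1) → V) → Finset ((V →ᵃ[ℝ] ℝ) × (V →ᵃ[ℝ] ℝ)))
      (KW KV : (Fin (D + 1) → V) → ((V →ᵃ[ℝ] ℝ) × (V →ᵃ[ℝ] ℝ)) → ℕ),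
      (∀ τ ∈ T, (Λ τ).card ≤ (Im M w a b).ncard / q + 1) ∧
      (∀ τ ∈ T, ∀ p ∈ Λ τ, GoodC τ p.1 p.2) ∧
      ((⋃ τ ∈ T, ⋃ p ∈ Λ τ, Body τ p.1 p.2) = Body w a b) ∧
      (∀ τ ∈ T, ∀ p ∈ Λ τ, ∀ τ' ∈ T, ∀ p' ∈ Λ τ', (τ, p) ≠ (τ', p') →
        Disjoint (OBody τ p.1 p.2) (OBody τ' p'.1 p'.2)) ∧
      (∀ τ ∈ T, ∀ p ∈ Λ τ, Wt M P Δ τ p.1 p.2 ≤ KW τ p + (Δ + 1) * (q - 1 + 4 * Δ)) ∧
      (∀ τ ∈ T, ∑ p ∈ Λ τ, KW τ p ≤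
        2 * {x : Ix ι D Δ | x ∈ Ac M ℓ P Δ w a b ∧ ∃ y ∈ interior (Cv τ), gf ψ ℓ π a b x y = 0}.ncard) ∧
      (∀ τ ∈ T, ∀ p ∈ Λ τ, (Vx M ψ ℓ P π Δ τ p.1 p.2).ncard ≤ KV τ p +
        D * (((D + 3) * ((Δ + 1) * (q - 1 + 4 * Δ))) * ((D + 3) * Wt M P Δ τ p.1 p.2) ^ (D - 1))) ∧
      (∑ τ ∈ T, ∑ p ∈ Λ τ, KV τ p ≤ (Vx M ψ ℓ P π Δ w a b).ncard) := by
  classical
  have hsub : ∀ τ ∈ T, Cv τ ⊆ Cv w := by
    intro τ hτ x hx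
    rw [← hT.union]
    exact Set.mem_biUnion hτ hx
  have hint : ∀ τ ∈ T, interior (Cv τ) ⊆ interior (Cv w) := fun τ hτ => interior_mono (hsub τ hτ)
  have key : ∀ τ : Fin (D + 1) → V, ∃ (Λ : Finset ((V →ᵃ[ℝ] ℝ) × (V →ᵃ[ℝ] ℝ)))
      (KI : ((V →ᵃ[ℝ] ℝ) × (V →ᵃ[ℝ] ℝ)) → Set ι) (KP : ((V →ᵃ[ℝ] ℝ) × (V →ᵃ[ℝ] ℝ)) → Set (ι × ι)),
      τ ∈ T →
      Λ.card ≤ (Im M w a b).ncard / q + 1 ∧
      (∀ p ∈ Λ, ∀ x ∈ interior (Cv τ), p.1 x < p.2 x) ∧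
      (∀ p ∈ Λ, ∀ x ∈ interior (Cv τ), a x ≤ p.1 x ∧ p.2 x ≤ b x) ∧
      (∀ x ∈ closure (interior (Cv τ)), ∀ z, a x ≤ z → z ≤ b x → ∃ p ∈ Λ, p.1 x ≤ z ∧ z ≤ p.2 x) ∧
      (∀ p ∈ Λ, ∀ p' ∈ Λ, p ≠ p' → ∀ x ∈ interior (Cv τ), ∀ z,
        ¬ (p.1 x < z ∧ z < p.2 x ∧ p'.1 x < z ∧ z < p'.2 x)) ∧
      (∀ p ∈ Λ, (Im M τ p.1 p.2 \ KI p).ncard ≤ q - 1 + 2 * Δ ∧
        (PA M P τ p.1 p.2 \ KP p).ncard ≤ 2 * (Δ * Δ)) ∧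
      (∀ p ∈ Λ, ∀ p' ∈ Λ, p ≠ p' → Disjoint (KI p) (KI p') ∧ Disjoint (KP p) (KP p')) ∧
      (∑ p ∈ Λ, ((Δ + 1) * (KI p).ncard + (KP p).ncard) ≤
        2 * {x : Ix ι D Δ | x ∈ Ac M ℓ P Δ w a b ∧
          ∃ y ∈ interior (Cv τ), gf ψ ℓ π a b x y = 0}.ncard) ∧
      (∀ p ∈ Λ, ∀ x ∈ (Ac M ℓ P Δ τ p.1 p.2 : Set (Ix ι D Δ)), x ∈ (IxS (KI p) (KP p) : Set (Ix ι D Δ)) →
        x ∈ Ac M ℓ P Δ w a b ∧ gf ψ ℓ π p.1 p.2 x = gf ψ ℓ π a b x) := by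
    intro τ
    by_cases hτ : τ ∈ T
    · obtain ⟨Λ, KI, KP, h⟩ := tau4 D hV M ψ ℓ P π Δ hM hP w a b hg τ (hT.indep τ hτ) (hsub τ hτ) q hq
      exact ⟨Λ, KI, KP, fun _ => h⟩
    · exact ⟨∅, fun _ => ∅, fun _ => ∅, fun h => absurd h hτ⟩
  choose Λ KI KP hΛ using key
  set KA : (Fin (D + 1) → V) → ((V →ᵃ[ℝ] ℝ) × (V →ᵃ[ℝ] ℝ)) → Set (Ix ι D Δ) := fun τ p =>
    {x | x ∈ Ac M ℓ P Δ τ p.1 p.2 ∧ x ∈ (IxS (KI τ p) (KP τ p) : Set (Ix ι D Δ))} with hKA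
  refine ⟨Λ, fun τ p => (Δ + 1) * (KI τ p).ncard + (KP τ p).ncard, fun τ p =>
    {κ : Fin D → Ix ι D Δ | (∀ m, κ m ∈ KA τ p) ∧
      ∃ x ∈ interior (Cv τ), UZ (fun m => gf ψ ℓ π a b (κ m)) x}.ncard, ?_, ?_, ?_, ?_, ?_, ?_, ?_, ?_⟩
  · intro τ hτ
    exact (hΛ τ hτ).1
  · intro τ hτ p hp
    exact ⟨hT.indep τ hτ, (hΛ τ hτ).2.1 p hp⟩
  · ext ⟨x, z⟩
    simp only [Set.mem_iUnion, exists_prop]
    constructor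
    · rintro ⟨τ, hτ, p, hp, h1, h2, h3⟩
      have hcl := (cell_step_simplex D hV τ (hT.indep τ hτ)).2
      have h1' : x ∈ closure (interior (Cv τ)) := by rw [hcl]; exact h1
      have h4 := cell_step_closure (interior (Cv τ)) a p.1
        (fun y hy => ((hΛ τ hτ).2.2.1 p hp y hy).1) x h1'
      have h5 := cell_step_closure (interior (Cv τ)) p.2 b
        (fun y hy => ((hΛ τ hτ).2.2.1 p hp y hy).2) x h1'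
      exact ⟨hsub τ hτ h1, h4.trans h2, h3.trans h5⟩
    · rintro ⟨h1, h2, h3⟩
      rw [← hT.union] at h1
      simp only [Set.mem_iUnion, exists_prop] at h1
      obtain ⟨τ, hτ, h1⟩ := h1
      have hcl := (cell_step_simplex D hV τ (hT.indep τ hτ)).2
      obtain ⟨p, hp, h4, h5⟩ := (hΛ τ hτ).2.2.2.1 x (by rw [hcl]; exact h1) z h2 h3
      exact ⟨τ, hτ, p, hp, h1, h4, h5⟩
  · intro τ hτ p hp τ' hτ' p' hp' hne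
    rw [Set.disjoint_left]
    rintro ⟨x, z⟩ ⟨h1, h2, h3⟩ ⟨h1', h2', h3'⟩
    by_cases hττ : τ = τ'
    · subst hττ
      have hpp : p ≠ p' := fun h => hne (by rw [h])
      exact (hΛ τ hτ).2.2.2.2.1 p hp p' hp' hpp x h1 z ⟨h2, h3, h2', h3'⟩
    · exact Set.disjoint_left.1 (hT.disj τ hτ τ' hτ' hττ) h1 h1'
  · intro τ hτ p hp
    obtain ⟨g1, g2⟩ := (hΛ τ hτ).2.2.2.2.2.1 p hp
    have e1 : (Im M τ p.1 p.2).ncard ≤ (KI τ p).ncard + (Im M τ p.1 p.2 \ KI τ p).ncard := by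
      refine (Set.ncard_le_ncard ?_ (Set.toFinite _)).trans (Set.ncard_union_le _ _)
      intro x hx
      by_cases h : x ∈ KI τ p
      · exact Or.inl h
      · exact Or.inr ⟨hx, h⟩
    have e2 : (PA M P τ p.1 p.2).ncard ≤ (KP τ p).ncard + (PA M P τ p.1 p.2 \ KP τ p).ncard := by
      refine (Set.ncard_le_ncard ?_ (Set.toFinite _)).trans (Set.ncard_union_le _ _)
      intro x hx
      by_cases h : x ∈ KP τ p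
      · exact Or.inl h
      · exact Or.inr ⟨hx, h⟩
    unfold Wt
    have e3 : (Δ + 1) * (Im M τ p.1 p.2).ncard ≤ (Δ + 1) * ((KI τ p).ncard + (q - 1 + 2 * Δ)) :=
      Nat.mul_le_mul_left _ (by omega)
    have e4 : 2 * (Δ * Δ) ≤ (Δ + 1) * (2 * Δ) := by nlinarith
    have e5 : (Δ + 1) * (q - 1 + 4 * Δ) = (Δ + 1) * (q - 1 + 2 * Δ) + (Δ + 1) * (2 * Δ) := by ring
    rw [mul_add] at e3
    rw [e5]
    show (Δ + 1) * (Im M τ p.1 p.2).ncard + (PA M P τ p.1 p.2).ncard ≤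
      ((Δ + 1) * (KI τ p).ncard + (KP τ p).ncard) +
        ((Δ + 1) * (q - 1 + 2 * Δ) + (Δ + 1) * (2 * Δ))
    generalize (Δ + 1) * (Im M τ p.1 p.2).ncard = A1 at *
    generalize (Δ + 1) * (KI τ p).ncard = A2 at *
    generalize (Δ + 1) * (q - 1 + 2 * Δ) = A3 at *
    generalize (Δ + 1) * (2 * Δ) = A4 at *
    omega
  · intro τ hτ
    exact (hΛ τ hτ).2.2.2.2.2.2.2.1
  · intro τ hτ p hp
    obtain ⟨g1, g2⟩ := (hΛ τ hτ).2.2.2.2.2.1 p hp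
    have hS : ∀ κ ∈ Vx M ψ ℓ P π Δ τ p.1 p.2, ∀ m, κ m ∈ Ac M ℓ P Δ τ p.1 p.2 := fun κ hκ => hκ.1
    have h1 := count4_split (Ac M ℓ P Δ τ p.1 p.2) (KA τ p) (Vx M ψ ℓ P π Δ τ p.1 p.2) hS
    refine h1.trans ?_
    have h2 : {κ : Fin D → Ix ι D Δ | κ ∈ Vx M ψ ℓ P π Δ τ p.1 p.2 ∧ ∀ m, κ m ∈ KA τ p}.ncard ≤
        {κ : Fin D → Ix ι D Δ | (∀ m, κ m ∈ KA τ p) ∧
          ∃ x ∈ interior (Cv τ), UZ (fun m => gf ψ ℓ π a b (κ m)) x}.ncard := by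
      apply Set.ncard_le_ncard _ (Set.toFinite _)
      rintro κ ⟨⟨-, x, hx, hu⟩, hK⟩
      refine ⟨hK, x, hx, ?_⟩
      have e : (fun m => gf ψ ℓ π a b (κ m)) = fun m => gf ψ ℓ π p.1 p.2 (κ m) := by
        funext m
        exact (((hΛ τ hτ).2.2.2.2.2.2.2.2 p hp (κ m) (hK m).1 (hK m).2).2).symm
      rw [e]
      exact hu
    refine Nat.add_le_add h2 (Nat.mul_le_mul_left _ (Nat.mul_le_mul ?_ ?_))
    · have h3 : Ac M ℓ P Δ τ p.1 p.2 \ KA τ p ⊆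
          IxS (Im M τ p.1 p.2 \ KI τ p) (PA M P τ p.1 p.2 \ KP τ p) := by
        rintro x ⟨hx, hxK⟩
        have hx2 := Ac_sub M ℓ P Δ τ p.1 p.2 hx
        rcases x with y | e
        · exact ⟨hx2, fun h => hxK ⟨hx, h⟩⟩
        · exact ⟨hx2, fun h => hxK ⟨hx, h⟩⟩
      refine (Set.ncard_le_ncard h3 (Set.toFinite _)).trans ?_
      rw [IxS_card]
      have e3 : (D + 3) * ((Δ + 1) * (Im M τ p.1 p.2 \ KI τ p).ncard) ≤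
          (D + 3) * ((Δ + 1) * (q - 1 + 2 * Δ)) :=
        Nat.mul_le_mul_left _ (Nat.mul_le_mul_left _ g1)
      have e4 : 2 * (Δ * Δ) ≤ (D + 3) * ((Δ + 1) * (2 * Δ)) := by
        have : 2 * (Δ * Δ) ≤ (Δ + 1) * (2 * Δ) := by nlinarith
        refine this.trans ?_
        exact Nat.le_mul_of_pos_left _ (by omega)
      have e5 : (D + 3) * ((Δ + 1) * (q - 1 + 4 * Δ)) =
          (D + 3) * ((Δ + 1) * (q - 1 + 2 * Δ)) + (D + 3) * ((Δ + 1) * (2 * Δ)) := by ring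
      rw [e5]
      omega
    · exact Nat.pow_le_pow_left (Ac_card_le M ℓ P Δ τ p.1 p.2) _
  · have h1 : ∀ τ ∈ T, ∑ p ∈ Λ τ, {κ : Fin D → Ix ι D Δ | (∀ m, κ m ∈ KA τ p) ∧
          ∃ x ∈ interior (Cv τ), UZ (fun m => gf ψ ℓ π a b (κ m)) x}.ncard ≤
        {κ : Fin D → Ix ι D Δ | (∀ m, κ m ∈ Ac M ℓ P Δ w a b) ∧
          ∃ x ∈ interior (Cv τ), UZ (fun m => gf ψ ℓ π a b (κ m)) x}.ncard := by
      intro τ hτ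
      apply cell_step_sum
      · rintro p hp κ ⟨h2, h3⟩
        refine ⟨fun m => ?_, h3⟩
        exact ((hΛ τ hτ).2.2.2.2.2.2.2.2 p hp (κ m) (h2 m).1 (h2 m).2).1
      · intro p hp p' hp' hpp
        obtain ⟨g1, g2⟩ := (hΛ τ hτ).2.2.2.2.2.2.1 p hp p' hp' hpp
        rw [Set.disjoint_left]
        rintro κ ⟨h2, -⟩ ⟨h2', -⟩
        have h3 := (h2 ⟨0, hD⟩).2
        have h3' := (h2' ⟨0, hD⟩).2
        rcases hx : κ ⟨0, hD⟩ with y | e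
        · rw [hx] at h3 h3'
          exact Set.disjoint_left.1 g1 h3 h3'
        · rw [hx] at h3 h3'
          exact Set.disjoint_left.1 g2 h3 h3'
    refine (Finset.sum_le_sum h1).trans ?_
    apply cell_step_sum
    · rintro τ hτ κ ⟨h2, x, hx, h3⟩
      exact ⟨h2, x, hint τ hτ hx, h3⟩
    · intro τ hτ τ' hτ' hne
      rw [Set.disjoint_left]
      rintro κ ⟨-, x, hx, h3⟩ ⟨-, x', hx', h3'⟩
      have hxx : x = x' := (h3' x).1 ((h3 x).2 rfl)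
      subst hxx
      exact Set.disjoint_left.1 (hT.disj τ hτ τ' hτ' hne) hx hx'

end Pool.Agent.H889
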