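import Pool.Agent.Helper889_Cut.Count4
import Pool.Agent.Helper889_Cut.Step2

/-! One simplex of the base: layers, kept members and kept pairs. -/

set_option autoImplicit false
open Set

namespace Pool.Agent.H889

variable {V : Type} [NormedAddCommGroup V] [NormedSpace ℝ V]

theorem tau4_convex {m : ℕ} (w : Fin m → V) (a b : V →ᵃ[ℝ] ℝ) : Convex ℝ (OBody w a b) := by
  rintro x ⟨hx1, hx2, hx3⟩ y ⟨hy1, hy2, hy3⟩ α β hα hβ hαβ
  have hc : Convex ℝ (interior (Cv w)) := (convex_convexHull ℝ _).interior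
  refine ⟨hc hx1 hy1 hα hβ hαβ, ?_, ?_⟩
  · have e1 : a (α • x + β • y).1 = α * a x.1 + β * a y.1 := by
      have := Convex.combo_affine_apply (f := a) (x := x.1) (y := y.1) hαβ
      simpa using this
    rw [e1]
    simp only [Prod.snd_add, Prod.smul_snd, smul_eq_mul]
    rcases hα.lt_or_eq with h | h
    · have := mul_lt_mul_of_pos_left hx2 h
      have := mul_le_mul_of_nonneg_left hy2.le hβ
      linarith
    · have hb' : β = 1 := by linarith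
      subst hb'
      rw [← h]
      linarith
  · have e1 : b (α • x + β • y).1 = α * b x.1 + β * b y.1 := by
      have := Convex.combo_affine_apply (f := b) (x := x.1) (y := y.1) hαβ
      simpa using this
    rw [e1]
    simp only [Prod.snd_add, Prod.smul_snd, smul_eq_mul]
    rcases hα.lt_or_eq with h | h
    · have := mul_lt_mul_of_pos_left hx3 h
      have := mul_le_mul_of_nonneg_left hy3.le hβ
      linarith
    · have hb' : β = 1 := by linarith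
      subst hb'
      rw [← h]
      linarith

/-- a member meeting the open cell over `τ`, none of whose active functions has a zero over `τ`, is a graph over `τ`
between floor and roof -/
theorem tau4_long [FiniteDimensional ℝ V] {D : ℕ} {ι : Type} (M : ι → Set (V × ℝ))
    (ψ : ι → Fin (D + 1) → (V →ᵃ[ℝ] ℝ)) (ℓ : ι → (V →ᵃ[ℝ] ℝ))
    (hM : ∀ i, IsMem (M i) (ψ i) (ℓ i)) (w : Fin (D + 1) → V) (a b : V →ᵃ[ℝ] ℝ)
    (G : Set V) (hG : Convex ℝ G) (hGw : G ⊆ interior (Cv w)) (i : ι) (z : V × ℝ) (hz : z ∈ M i)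
    (hzO : z ∈ OBody w a b) (hzG : z.1 ∈ G)
    (hns : ¬ ∃ y ∈ FA M ℓ w a b, y.1 = i ∧ ∃ x ∈ G, fI ψ ℓ a b y x = 0) :
    GrOv (M i) (ℓ i) G ∧ ∀ x ∈ G, a x < ℓ i x ∧ ℓ i x < b x := by
  have him : i ∈ Im M w a b := ⟨z, hz, hzO⟩
  have hgr : GrOv (M i) (ℓ i) G := by
    rcases (hM i).graph G hG (fun k x hx h0 => hns ⟨(i, Sum.inl k), ⟨him, by simp, by simp⟩, rfl,
      x, hx, h0⟩) with h | h
    · exact absurd hzG (h z hz)
    · exact h
  have hzℓ : z.2 = ℓ i z.1 := (hgr z hzG).1 hz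
  have hlin : ∀ f : V →ᵃ[ℝ] ℝ, (ℓ i - f) z.1 ≠ 0 → ∀ x, (ℓ i - f) x = 0 →
      (ℓ i - f).linear ≠ 0 := by
    intro f h1 x h2 h3
    apply h1
    have h4 := (ℓ i - f).linearMap_vsub z.1 x
    rw [h3, LinearMap.zero_apply, vsub_eq_sub] at h4
    linarith
  have ha0 : ∀ x ∈ G, (ℓ i - a) x ≠ 0 := by
    intro x hx h0
    refine hns ⟨(i, Sum.inr false), ⟨him, fun _ => ⟨?_, (x, ℓ i x), (hgr (x, ℓ i x) hx).2 rfl,
      hGw hx, ?_⟩, by simp⟩, rfl, x, hx, h0⟩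
    · refine hlin a ?_ x h0
      have h1 : a z.1 < z.2 := hzO.2.1
      have : (ℓ i - a) z.1 = ℓ i z.1 - a z.1 := rfl
      rw [this, ← hzℓ]
      linarith
    · have h1 : (ℓ i - a) x = ℓ i x - a x := rfl
      rw [h1] at h0
      show ℓ i x = a x
      linarith
  have hb0 : ∀ x ∈ G, (ℓ i - b) x ≠ 0 := by
    intro x hx h0
    refine hns ⟨(i, Sum.inr true), ⟨him, by simp, fun _ => ⟨?_, (x, ℓ i x), (hgr (x, ℓ i x) hx).2 rfl,
      hGw hx, ?_⟩⟩, rfl, x, hx, h0⟩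
    · refine hlin b ?_ x h0
      have h1 : z.2 < b z.1 := hzO.2.2
      have : (ℓ i - b) z.1 = ℓ i z.1 - b z.1 := rfl
      rw [this, ← hzℓ]
      linarith
    · have h1 : (ℓ i - b) x = ℓ i x - b x := rfl
      rw [h1] at h0
      show ℓ i x = b x
      linarith
  refine ⟨hgr, fun x hx => ⟨?_, ?_⟩⟩
  · have h1 := cell_step_sign G hG (ℓ i - a) ha0 z.1 hzG
      (by
        have h1 : a z.1 < z.2 := hzO.2.1
        have : (ℓ i - a) z.1 = ℓ i z.1 - a z.1 := rfl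
        rw [this, ← hzℓ]
        linarith) x hx
    have : (ℓ i - a) x = ℓ i x - a x := rfl
    rw [this] at h1
    linarith
  · have h1 := cell_step_sign G hG (b - ℓ i) (fun y hy h0 => hb0 y hy (by
        have e1 : (b - ℓ i) y = b y - ℓ i y := rfl
        have e2 : (ℓ i - b) y = ℓ i y - b y := rfl
        rw [e1] at h0
        rw [e2]
        linarith)) z.1 hzG
      (by
        have h1 : z.2 < b z.1 := hzO.2.2
        have : (b - ℓ i) z.1 = b z.1 - ℓ i z.1 := rfl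
        rw [this, ← hzℓ]
        linarith) x hx
    have : (b - ℓ i) x = b x - ℓ i x := rfl
    rw [this] at h1
    linarith

/-- a convex set meeting two layers touches the floor or the roof of the first one -/
theorem tau4_unique {m : ℕ} (w τ : Fin m → V) (a b : V →ᵃ[ℝ] ℝ) (p p' : (V →ᵃ[ℝ] ℝ) × (V →ᵃ[ℝ] ℝ))
    (hτw : interior (Cv τ) ⊆ interior (Cv w))
    (hp : ∀ x ∈ interior (Cv τ), a x ≤ p.1 x ∧ p.2 x ≤ b x)
    (hp' : ∀ x ∈ interior (Cv τ), a x ≤ p'.1 x ∧ p'.2 x ≤ b x)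
    (hd : ∀ x ∈ interior (Cv τ), ∀ z, ¬ (p.1 x < z ∧ z < p.2 x ∧ p'.1 x < z ∧ z < p'.2 x))
    (S : Set (V × ℝ)) (hS : Convex ℝ S) (z z' : V × ℝ) (hz : z ∈ S) (hz' : z' ∈ S)
    (hzO : z ∈ OBody τ p.1 p.2) (hzO' : z' ∈ OBody τ p'.1 p'.2) :
    ∃ y ∈ S, y.1 ∈ interior (Cv τ) ∧ y ∈ OBody w a b ∧ (y.2 = p.1 y.1 ∨ y.2 = p.2 y.1) := by
  have hc : Convex ℝ (interior (Cv τ)) := (convex_convexHull ℝ _).interior
  have h1 : z ∈ OBody w a b := ⟨hτw hzO.1, lt_of_le_of_lt (hp _ hzO.1).1 hzO.2.1,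
    lt_of_lt_of_le hzO.2.2 (hp _ hzO.1).2⟩
  have h2 : z' ∈ OBody w a b := ⟨hτw hzO'.1, lt_of_le_of_lt (hp' _ hzO'.1).1 hzO'.2.1,
    lt_of_lt_of_le hzO'.2.2 (hp' _ hzO'.1).2⟩
  have hseg : ∀ y ∈ segment ℝ z z', y ∈ S ∧ y.1 ∈ interior (Cv τ) ∧ y ∈ OBody w a b := by
    intro y hy
    refine ⟨hS.segment_subset hz hz' hy, ?_, (tau4_convex w a b).segment_subset h1 h2 hy⟩
    obtain ⟨α, β, hα, hβ, hαβ, rfl⟩ := hy
    exact hc hzO.1 hzO'.1 hα hβ hαβ
  have hor : z'.2 ≤ p.1 z'.1 ∨ p.2 z'.1 ≤ z'.2 := by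
    by_contra hcon
    push Not at hcon
    exact hd z'.1 hzO'.1 z'.2 ⟨hcon.1, hcon.2, hzO'.2.1, hzO'.2.2⟩
  rcases hor with hor | hor
  · obtain ⟨y, hy, hy2⟩ := cell_step2_cross p.1 z z' hzO.2.1 hor
    obtain ⟨g1, g2, g3⟩ := hseg y hy
    exact ⟨y, g1, g2, g3, Or.inl hy2⟩
  · obtain ⟨y, hy, hy2⟩ := cell_step2_cross' p.2 z z' hzO.2.2 hor
    obtain ⟨g1, g2, g3⟩ := hseg y hy
    exact ⟨y, g1, g2, g3, Or.inr hy2⟩

end Pool.Agent.H889
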