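import Pool.Agent.Helper889_Cut.Tau4

/-! One simplex of the base: layers, kept members and kept pairs. -/

set_option autoImplicit false
open Set

namespace Pool.Agent.H889

variable {V : Type} [NormedAddCommGroup V] [NormedSpace ℝ V]

theorem tau4 [FiniteDimensional ℝ V] (D : ℕ) (hV : Module.finrank ℝ V = D)
    {ι : Type} [Fintype ι] (M : ι → Set (V × ℝ)) (ψ : ι → Fin (D + 1) → (V →ᵃ[ℝ] ℝ))
    (ℓ : ι → (V →ᵃ[ℝ] ℝ)) (P : Finset (ι × ι)) (π : ι × ι → (V →ᵃ[ℝ] ℝ)) (Δ : ℕ)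
    (hM : ∀ i, IsMem (M i) (ψ i) (ℓ i)) (hP : PairSys M ℓ P π)
    (w : Fin (D + 1) → V) (a b : V →ᵃ[ℝ] ℝ) (hg : GoodC w a b)
    (τ : Fin (D + 1) → V) (hτi : AffineIndependent ℝ τ) (hsub : Cv τ ⊆ Cv w) (q : ℕ) (hq : 1 ≤ q) :
    ∃ (Λ : Finset ((V →ᵃ[ℝ] ℝ) × (V →ᵃ[ℝ] ℝ)))
      (KI : ((V →ᵃ[ℝ] ℝ) × (V →ᵃ[ℝ] ℝ)) → Set ι) (KP : ((V →ᵃ[ℝ] ℝ) × (V →ᵃ[ℝ] ℝ)) → Set (ι × ι)),
      Λ.card ≤ (Im M w a b).ncard / q + 1 ∧
      (∀ p ∈ Λ, ∀ x ∈ interior (Cv τ), p.1 x < p.2 x) ∧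
      (∀ p ∈ Λ, ∀ x ∈ interior (Cv τ), a x ≤ p.1 x ∧ p.2 x ≤ b x) ∧
      (∀ x ∈ closure (interior (Cv τ)), ∀ z, a x ≤ z → z ≤ b x → ∃ p ∈ Λ, p.1 x ≤ z ∧ z ≤ p.2 x) ∧
      (∀ p ∈ Λ, ∀ p' ∈ Λ, p ≠ p' → ∀ x ∈ interior (Cv τ), ∀ z,
        ¬ (p.1 x < z ∧ z < p.2 x ∧ p'.1 x < z ∧ z < p'.2 x)) ∧
      (∀ p ∈ Λ, (Im M τ p.1 p.2 \ KI p).ncard ≤ q - 1 + 2 * Δ ∧
        (PA M P τ p.1 p.2 \ KP p).ncard ≤ 2 * (Δ * Δ)) ∧
      (∀ p ∈ Λ, ∀ p' ∈ Λ, p ≠ p' → Disjoint (KI p) (KI p') ∧ Disjoint (KP p) (KP p')) ∧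
      (∑ p ∈ Λ, ((Δ + 1) * (KI p).ncard + (KP p).ncard) ≤
        2 * {x : Ix ι D Δ | x ∈ Ac M ℓ P Δ w a b ∧
          ∃ y ∈ interior (Cv τ), gf ψ ℓ π a b x y = 0}.ncard) ∧
      (∀ p ∈ Λ, ∀ x ∈ (Ac M ℓ P Δ τ p.1 p.2 : Set (Ix ι D Δ)), x ∈ (IxS (KI p) (KP p) : Set (Ix ι D Δ)) →
        x ∈ Ac M ℓ P Δ w a b ∧ gf ψ ℓ π p.1 p.2 x = gf ψ ℓ π a b x) := by
  classical
  set G := interior (Cv τ) with hGdef
  have hGw : G ⊆ interior (Cv w) := interior_mono hsub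
  have hGc : Convex ℝ G := (convex_convexHull ℝ _).interior
  have hGne : G.Nonempty := (cell_step_simplex D hV τ hτi).1
  set Sh : Set ι := {i | ∃ y ∈ FA M ℓ w a b, y.1 = i ∧ ∃ x ∈ G, fI ψ ℓ a b y x = 0} with hSh
  set PT : Set (ι × ι) := {e | e ∈ P ∧ ∃ z, z ∈ M e.1 ∧ z ∈ M e.2 ∧ z ∈ OBody w a b ∧ z.1 ∈ G} with hPT
  set Nb : ι → Set ι := fun j => {i | (i, j) ∈ PT} with hNb
  set Bd : Set ι := {j | Δ + 1 ≤ (Nb j).ncard} with hBd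
  set Lo : Finset ι := Finset.univ.filter fun i => i ∈ Im M w a b ∧ GrOv (M i) (ℓ i) G ∧
    (∀ x ∈ G, a x < ℓ i x ∧ ℓ i x < b x) ∧ i ∉ Bd with hLo
  have hLoc : Lo.card ≤ (Im M w a b).ncard := by
    rw [← Set.ncard_coe_finset]
    apply Set.ncard_le_ncard _ (Set.toFinite _)
    intro i hi
    rw [Finset.mem_coe, hLo, Finset.mem_filter] at hi
    exact hi.2.1
  obtain ⟨Λ, l1, l2, l3, l4, l5, l6, l7⟩ := layers2 G hGne a b ℓ Lo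
    (fun x hx => hg.2 x (hGw hx))
    (fun i hi x hx => by
      rw [hLo, Finset.mem_filter] at hi
      exact hi.2.2.2.1 x hx) q hq
  -- touching
  set Tc : ((V →ᵃ[ℝ] ℝ) × (V →ᵃ[ℝ] ℝ)) → Set (V × ℝ) → Prop := fun p S =>
    ∃ y ∈ S, y.1 ∈ G ∧ y ∈ OBody w a b ∧ (y.2 = p.1 y.1 ∨ y.2 = p.2 y.1) with hTc
  set KI : ((V →ᵃ[ℝ] ℝ) × (V →ᵃ[ℝ] ℝ)) → Set ι := fun p =>
    {i | (M i ∩ OBody τ p.1 p.2).Nonempty ∧ ¬ Tc p (M i) ∧ (i ∈ Sh ∨ i ∈ Bd)} with hKI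
  set KP : ((V →ᵃ[ℝ] ℝ) × (V →ᵃ[ℝ] ℝ)) → Set (ι × ι) := fun p =>
    {e | e ∈ P ∧ (M e.1 ∩ M e.2 ∩ OBody τ p.1 p.2).Nonempty ∧ ¬ Tc p (M e.1 ∩ M e.2)} with hKP
  have hsubO : ∀ p ∈ Λ, OBody τ p.1 p.2 ⊆ OBody w a b := by
    rintro p hp z ⟨h1, h2, h3⟩
    exact ⟨hGw h1, lt_of_le_of_lt (l3 p hp _ h1).1 h2, lt_of_lt_of_le h3 (l3 p hp _ h1).2⟩
  -- the members touching a new pick
  have hNmem : ∀ p ∈ Λ, ∀ f : V →ᵃ[ℝ] ℝ, (∀ z ∈ OBody τ p.1 p.2, z.2 ≠ f z.1) →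
      (f = a ∨ f = b ∨ ∃ j ∈ Lo, f = ℓ j) →
      ∃ A : Set ι, A.ncard ≤ Δ ∧ ∀ i, (M i ∩ OBody τ p.1 p.2).Nonempty →
        (∃ y ∈ M i, y.1 ∈ G ∧ y ∈ OBody w a b ∧ y.2 = f y.1) → i ∈ A := by
    intro p hp f hf hfor
    by_cases hj : ∃ j ∈ Lo, f = ℓ j
    · obtain ⟨j, hj, hfj⟩ := hj
      refine ⟨Nb j, ?_, ?_⟩
      · rw [hLo, Finset.mem_filter] at hj
        have := hj.2.2.2.2
        rw [hBd, Set.mem_ofPred_eq] at this
        omega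
      · rintro i ⟨z, hz, hzO⟩ ⟨y, hy, hyG, hyO, hyf⟩
        rw [hLo, Finset.mem_filter] at hj
        have hgr := hj.2.2.1
        have hyj : y ∈ M j := (hgr y hyG).2 (by rw [hyf, hfj])
        refine ⟨hP.full i j G isOpen_interior hGne hgr y hy hyj z hz ?_, y, hy, hyj, hyO, hyG⟩
        rw [← hfj]
        exact hf z hzO
    · refine ⟨∅, by simp, ?_⟩
      rintro i - ⟨y, hy, hyG, hyO, hyf⟩
      exfalso
      rcases hfor with h | h | h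
      · have := hyO.2.1
        rw [hyf, h] at this
        exact lt_irrefl _ this
      · have := hyO.2.2
        rw [hyf, h] at this
        exact lt_irrefl _ this
      · exact hj h
  have hpick : ∀ p ∈ Λ, ∃ A1 A2 : Set ι, A1.ncard ≤ Δ ∧ A2.ncard ≤ Δ ∧
      (∀ i, (M i ∩ OBody τ p.1 p.2).Nonempty →
        (∃ y ∈ M i, y.1 ∈ G ∧ y ∈ OBody w a b ∧ y.2 = p.1 y.1) → i ∈ A1) ∧
      (∀ i, (M i ∩ OBody τ p.1 p.2).Nonempty →
        (∃ y ∈ M i, y.1 ∈ G ∧ y ∈ OBody w a b ∧ y.2 = p.2 y.1) → i ∈ A2) := by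
    intro p hp
    obtain ⟨A1, h1, h1'⟩ := hNmem p hp p.1 (fun z hz => ne_of_gt hz.2.1) (by
      rcases (l4 p hp).1 with h | h
      · exact Or.inl h
      · exact Or.inr (Or.inr h))
    obtain ⟨A2, h2, h2'⟩ := hNmem p hp p.2 (fun z hz => ne_of_lt hz.2.2) (by
      rcases (l4 p hp).2 with h | h
      · exact Or.inr (Or.inl h)
      · exact Or.inr (Or.inr h))
    exact ⟨A1, A2, h1, h2, h1', h2'⟩
  -- item 6, members
  have h6a : ∀ p ∈ Λ, (Im M τ p.1 p.2 \ KI p).ncard ≤ q - 1 + 2 * Δ := by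
    intro p hp
    obtain ⟨A1, A2, hA1, hA2, hA1', hA2'⟩ := hpick p hp
    have hsub1 : Im M τ p.1 p.2 \ KI p ⊆
        {i | i ∈ Lo ∧ ∀ x ∈ G, p.1 x < ℓ i x ∧ ℓ i x < p.2 x} ∪ (A1 ∪ A2) := by
      rintro i ⟨hi, hiK⟩
      obtain ⟨z, hz, hzO⟩ := hi
      by_cases htc : Tc p (M i)
      · right
        obtain ⟨y, hy, hyG, hyO, hy1 | hy2⟩ := htc
        · exact Or.inl (hA1' i ⟨z, hz, hzO⟩ ⟨y, hy, hyG, hyO, hy1⟩)
        · exact Or.inr (hA2' i ⟨z, hz, hzO⟩ ⟨y, hy, hyG, hyO, hy2⟩)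
      · left
        have hsb : ¬ (i ∈ Sh ∨ i ∈ Bd) := fun h => hiK ⟨⟨z, hz, hzO⟩, htc, h⟩
        push Not at hsb
        obtain ⟨hgr, hbt⟩ := tau4_long M ψ ℓ hM w a b G hGc hGw i z hz (hsubO p hp hzO) hzO.1 hsb.1
        have hzℓ : z.2 = ℓ i z.1 := (hgr z hzO.1).1 hz
        have hin : ∀ x ∈ G, (x, ℓ i x) ∈ M i ∧ (x, ℓ i x) ∈ OBody w a b := fun x hx =>
          ⟨(hgr (x, ℓ i x) hx).2 rfl, hGw hx, (hbt x hx).1, (hbt x hx).2⟩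
        refine ⟨?_, fun x hx => ⟨?_, ?_⟩⟩
        · rw [hLo, Finset.mem_filter]
          exact ⟨Finset.mem_univ _, ⟨z, hz, hsubO p hp hzO⟩, hgr, hbt, hsb.2⟩
        · have h1 := cell_step_sign G hGc (ℓ i - p.1) (fun y hy h0 => htc ⟨(y, ℓ i y), (hin y hy).1,
            hy, (hin y hy).2, Or.inl (by
              have e : (ℓ i - p.1) y = ℓ i y - p.1 y := rfl
              rw [e] at h0
              show ℓ i y = p.1 y
              linarith)⟩) z.1 hzO.1 (by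
              have e : (ℓ i - p.1) z.1 = ℓ i z.1 - p.1 z.1 := rfl
              have h2 := hzO.2.1
              rw [e, ← hzℓ]
              linarith) x hx
          have e : (ℓ i - p.1) x = ℓ i x - p.1 x := rfl
          rw [e] at h1
          linarith
        · have h1 := cell_step_sign G hGc (p.2 - ℓ i) (fun y hy h0 => htc ⟨(y, ℓ i y), (hin y hy).1,
            hy, (hin y hy).2, Or.inr (by
              have e : (p.2 - ℓ i) y = p.2 y - ℓ i y := rfl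
              rw [e] at h0
              show ℓ i y = p.2 y
              linarith)⟩) z.1 hzO.1 (by
              have e : (p.2 - ℓ i) z.1 = p.2 z.1 - ℓ i z.1 := rfl
              have h2 := hzO.2.2
              rw [e, ← hzℓ]
              linarith) x hx
          have e : (p.2 - ℓ i) x = p.2 x - ℓ i x := rfl
          rw [e] at h1
          linarith
    have h1 := Set.ncard_le_ncard hsub1 (Set.toFinite _)
    have h2 := Set.ncard_union_le {i | i ∈ Lo ∧ ∀ x ∈ G, p.1 x < ℓ i x ∧ ℓ i x < p.2 x} (A1 ∪ A2)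
    have h3 := Set.ncard_union_le A1 A2
    have h4 := l7 p hp
    omega
  -- item 6, pairs
  have h6b : ∀ p ∈ Λ, (PA M P τ p.1 p.2 \ KP p).ncard ≤ 2 * (Δ * Δ) := by
    intro p hp
    obtain ⟨A1, A2, hA1, hA2, hA1', hA2'⟩ := hpick p hp
    have hsub1 : PA M P τ p.1 p.2 \ KP p ⊆ (A1 ×ˢ A1) ∪ (A2 ×ˢ A2) := by
      rintro e ⟨⟨heP, z, hz1, hz2, hzO⟩, heK⟩
      have htc : Tc p (M e.1 ∩ M e.2) := by
        by_contra hcon
        exact heK ⟨heP, ⟨z, ⟨hz1, hz2⟩, hzO⟩, hcon⟩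
      obtain ⟨y, ⟨hy1, hy2⟩, hyG, hyO, hyf | hyf⟩ := htc
      · exact Or.inl ⟨hA1' _ ⟨z, hz1, hzO⟩ ⟨y, hy1, hyG, hyO, hyf⟩,
          hA1' _ ⟨z, hz2, hzO⟩ ⟨y, hy2, hyG, hyO, hyf⟩⟩
      · exact Or.inr ⟨hA2' _ ⟨z, hz1, hzO⟩ ⟨y, hy1, hyG, hyO, hyf⟩,
          hA2' _ ⟨z, hz2, hzO⟩ ⟨y, hy2, hyG, hyO, hyf⟩⟩
    have h1 := Set.ncard_le_ncard hsub1 (Set.toFinite _)
    have h2 := Set.ncard_union_le (A1 ×ˢ A1) (A2 ×ˢ A2)
    rw [Set.ncard_prod, Set.ncard_prod] at h2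
    have h3 := Nat.mul_le_mul hA1 hA1
    have h4 := Nat.mul_le_mul hA2 hA2
    omega
  -- uniqueness of the layer
  have huniq : ∀ p ∈ Λ, ∀ p' ∈ Λ, p ≠ p' → ∀ S : Set (V × ℝ), Convex ℝ S →
      (S ∩ OBody τ p.1 p.2).Nonempty → (S ∩ OBody τ p'.1 p'.2).Nonempty → Tc p S := by
    rintro p hp p' hp' hne S hS ⟨z, hz, hzO⟩ ⟨z', hz', hzO'⟩
    exact tau4_unique w τ a b p p' hGw (l3 p hp) (l3 p' hp') (l6 p hp p' hp' hne) S hS z z' hz hz'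
      hzO hzO'
  have h7a : ∀ p ∈ Λ, ∀ p' ∈ Λ, p ≠ p' → Disjoint (KI p) (KI p') := by
    intro p hp p' hp' hne
    rw [Set.disjoint_left]
    rintro i ⟨h1, h2, -⟩ ⟨h1', -, -⟩
    exact h2 (huniq p hp p' hp' hne _ (hM i).conv h1 h1')
  have h7b : ∀ p ∈ Λ, ∀ p' ∈ Λ, p ≠ p' → Disjoint (KP p) (KP p') := by
    intro p hp p' hp' hne
    rw [Set.disjoint_left]
    rintro e ⟨-, h1, h2⟩ ⟨-, h1', -⟩
    exact h2 (huniq p hp p' hp' hne _ ((hM e.1).conv.inter (hM e.2).conv) h1 h1')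
  refine ⟨Λ, KI, KP, ?_, l2, l3, l5, l6, fun p hp => ⟨h6a p hp, h6b p hp⟩,
    fun p hp p' hp' hne => ⟨h7a p hp p' hp' hne, h7b p hp p' hp' hne⟩, ?_, ?_⟩
  · exact l1.trans (Nat.add_le_add_right (Nat.div_le_div_right hLoc) 1)
  · -- the sum
    set Cr : Set (Ix ι D Δ) := {x | x ∈ Ac M ℓ P Δ w a b ∧ ∃ y ∈ G, gf ψ ℓ π a b x y = 0} with hCr
    have s1 : ∑ p ∈ Λ, (KI p).ncard ≤ (Sh ∪ Bd).ncard := by
      apply cell_step_sum
      · rintro p hp i ⟨-, -, h⟩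
        exact h
      · exact h7a
    have s2 : ∑ p ∈ Λ, (KP p).ncard ≤ PT.ncard := by
      apply cell_step_sum
      · rintro p hp e ⟨h1, ⟨z, ⟨hz1, hz2⟩, hzO⟩, -⟩
        exact ⟨h1, z, hz1, hz2, hsubO p hp hzO, hzO.1⟩
      · exact h7b
    -- bad members
    have s3 : (Δ + 1) * Bd.ncard ≤ PT.ncard := by
      have g1 : ∑ j ∈ Bd.toFinset, {e : ι × ι | e ∈ PT ∧ e.2 = j}.ncard ≤ PT.ncard := by
        apply cell_step_sum
        · rintro j - e ⟨h, -⟩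
          exact h
        · intro j _ j' _ hne
          rw [Set.disjoint_left]
          rintro e ⟨-, h⟩ ⟨-, h'⟩
          exact hne (h.symm.trans h')
      refine le_trans ?_ g1
      rw [Set.ncard_eq_toFinset_card', mul_comm, ← smul_eq_mul]
      apply Finset.card_nsmul_le_sum
      intro j hj
      rw [Set.mem_toFinset, hBd, Set.mem_ofPred_eq] at hj
      refine hj.trans ?_
      have g2 : (fun i : ι => (i, j)) '' (Nb j) ⊆ {e : ι × ι | e ∈ PT ∧ e.2 = j} := by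
        rintro _ ⟨i, hi, rfl⟩
        exact ⟨hi, rfl⟩
      have g3 := Set.ncard_le_ncard g2 (Set.toFinite _)
      rwa [Set.ncard_image_of_injective _ (fun i i' h => (Prod.mk.inj h).1)] at g3
    -- short members and pairs among the crossing indices
    have s4 : (Δ + 1) * Sh.ncard + PT.ncard ≤ Cr.ncard := by
      have hw : ∀ i : ι, ∃ y : ι × (Fin (D + 1) ⊕ Bool), i ∈ Sh →
          (y ∈ FA M ℓ w a b ∧ y.1 = i ∧ ∃ x ∈ G, fI ψ ℓ a b y x = 0) := by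
        intro i
        by_cases hi : i ∈ Sh
        · obtain ⟨y, hy⟩ := hi
          exact ⟨y, fun _ => hy⟩
        · exact ⟨(i, Sum.inl 0), fun h => absurd h hi⟩
      choose y hy using hw
      let g : (ι × Fin (Δ + 1)) → Ix ι D Δ := fun x => Sum.inl (y x.1, x.2)
      have hgi : Set.InjOn g (Sh ×ˢ (univ : Set (Fin (Δ + 1)))) := by
        rintro ⟨i, m⟩ ⟨hi, -⟩ ⟨i', m'⟩ ⟨hi', -⟩ h
        simp only [g, Sum.inl.injEq, Prod.mk.injEq] at h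
        have e1 := (hy i hi).2.1
        have e2 := (hy i' hi').2.1
        rw [h.1] at e1
        exact Prod.ext (e1.symm.trans e2) h.2
      have g1 : g '' (Sh ×ˢ (univ : Set (Fin (Δ + 1)))) ∪ Sum.inr '' PT ⊆ Cr := by
        rintro x (⟨⟨i, m⟩, ⟨hi, -⟩, rfl⟩ | ⟨e, ⟨he, z, hz1, hz2, hzO, hzG⟩, rfl⟩)
        · exact ⟨(hy i hi).1, (hy i hi).2.2⟩
        · exact ⟨⟨he, z, hz1, hz2, hzO⟩, z.1, hzG, hP.zero e he z hz1 hz2⟩
      have g2 : Disjoint (g '' (Sh ×ˢ (univ : Set (Fin (Δ + 1)))))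
          (Sum.inr '' PT : Set (Ix ι D Δ)) := by
        rw [Set.disjoint_left]
        rintro x ⟨y', -, rfl⟩ ⟨e, -, he⟩
        simp [g] at he
      have g3 := Set.ncard_le_ncard g1 (Set.toFinite _)
      rw [Set.ncard_union_eq g2 (Set.toFinite _) (Set.toFinite _), hgi.ncard_image,
        Set.ncard_image_of_injective _ Sum.inr_injective, Set.ncard_prod, Set.ncard_univ,
        Nat.card_eq_fintype_card, Fintype.card_fin, mul_comm] at g3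
      exact g3
    have s5 := Set.ncard_union_le Sh Bd
    rw [Finset.sum_add_distrib, ← Finset.mul_sum]
    have s6 : (Δ + 1) * ∑ p ∈ Λ, (KI p).ncard ≤ (Δ + 1) * (Sh.ncard + Bd.ncard) :=
      Nat.mul_le_mul_left _ (s1.trans s5)
    rw [mul_add] at s6
    omega
  · -- kept indices
    rintro p hp x hx hxK
    have hno : ∀ i, ¬ Tc p (M i) → (∃ z ∈ M i, z.1 ∈ G ∧ z.2 = p.1 z.1) → p.1 = a := by
      rintro i htc ⟨z, hz, hzG, hzp⟩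
      rcases (l4 p hp).1 with h | ⟨j, hj, h⟩
      · exact h
      · exfalso
        rw [hLo, Finset.mem_filter] at hj
        have hb := hj.2.2.2.1 z.1 hzG
        exact htc ⟨z, hz, hzG, ⟨hGw hzG, by rw [hzp, h]; exact hb.1, by rw [hzp, h]; exact hb.2⟩,
          Or.inl hzp⟩
    have hno' : ∀ i, ¬ Tc p (M i) → (∃ z ∈ M i, z.1 ∈ G ∧ z.2 = p.2 z.1) → p.2 = b := by
      rintro i htc ⟨z, hz, hzG, hzp⟩
      rcases (l4 p hp).2 with h | ⟨j, hj, h⟩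
      · exact h
      · exfalso
        rw [hLo, Finset.mem_filter] at hj
        have hb := hj.2.2.2.1 z.1 hzG
        exact htc ⟨z, hz, hzG, ⟨hGw hzG, by rw [hzp, h]; exact hb.1, by rw [hzp, h]; exact hb.2⟩,
          Or.inr hzp⟩
    have him : ∀ i, i ∈ Im M τ p.1 p.2 → i ∈ Im M w a b := by
      rintro i ⟨z, hz, hzO⟩
      exact ⟨z, hz, hsubO p hp hzO⟩
    rcases x with ⟨⟨i, k | f⟩, m⟩ | e
    · refine ⟨⟨him i hx.1, by simp, by simp⟩, rfl⟩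
    · have htc : ¬ Tc p (M i) := hxK.2.1
      cases f
      · obtain ⟨h1, z, hz, hzG, hzp⟩ := hx.2.1 rfl
        have hpa := hno i htc ⟨z, hz, hzG, hzp⟩
        simp only at h1 hz
        refine ⟨⟨him i hx.1, fun _ => ⟨?_, z, hz, hGw hzG, by rw [← hpa]; exact hzp⟩, by simp⟩, ?_⟩
        · rw [← hpa]
          exact h1
        · show ℓ i - p.1 = ℓ i - a
          rw [hpa]
      · obtain ⟨h1, z, hz, hzG, hzp⟩ := hx.2.2 rfl
        have hpa := hno' i htc ⟨z, hz, hzG, hzp⟩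
        simp only at h1 hz
        refine ⟨⟨him i hx.1, by simp, fun _ => ⟨?_, z, hz, hGw hzG, by rw [← hpa]; exact hzp⟩⟩, ?_⟩
        · rw [← hpa]
          exact h1
        · show ℓ i - p.2 = ℓ i - b
          rw [hpa]
    · obtain ⟨he, z, hz1, hz2, hzO⟩ := hx
      exact ⟨⟨he, z, hz1, hz2, hsubO p hp hzO⟩, rfl⟩

end Pool.Agent.H889
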