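import Pool.Agent.Helper889_Cut.Sample
import Pool.Agent.Helper889_Cut.Params

/-! Weak cuttings. -/

set_option autoImplicit false
open Set

namespace Pool.Agent.H889

variable {V : Type} [NormedAddCommGroup V] [NormedSpace ℝ V]

/-! TARGET `wcut_exists`: `c` from `sample_cut`, `K, s` from `param_choice D hD c`, `ρ = s ^ 2`, `Cs = 2 ^ D * K ^ D + c * (K + 1) ^ (D - 1)`,
`Np = c * (K + 1) ^ (D - 1)`, `δ = 1 / (2 * K ^ D)` (`K ≥ D (D + 1) > 0`). -/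

theorem wcut_exists (D : ℕ) (hD : 2 ≤ D) : ∃ s Cs Np δ : ℝ, 4 ≤ s ∧ 0 ≤ Cs ∧ 0 ≤ Np ∧
    2 * Np ≤ s ^ (2 * D - 1) ∧ 0 < δ ∧ ∀ (V : Type) [NormedAddCommGroup V] [NormedSpace ℝ V]
      [FiniteDimensional ℝ V], Module.finrank ℝ V = D → WCut V D s Cs Np δ := by
  obtain ⟨c, hc⟩ := sample_cut D (by omega)
  obtain ⟨K, s, hs4, hK, hnum, hNp⟩ := param_choice D hD c
  have hK0 : 0 < K := lt_of_lt_of_le (by positivity) hK
  have hK0' : (0 : ℝ) < K := by exact_mod_cast hK0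
  have hρ : (1 : ℝ) < s ^ 2 := by nlinarith
  refine ⟨s, 2 ^ D * (K : ℝ) ^ D + c * ((K : ℝ) + 1) ^ (D - 1), c * ((K : ℝ) + 1) ^ (D - 1),
    1 / (2 * (K : ℝ) ^ D), hs4, by positivity, by positivity, hNp, by positivity, ?_⟩
  intro V _ _ _ hV ι _ f w hw hf hι
  obtain ⟨T, hT1, hT2, hT3, hT4⟩ := hc K (s ^ 2) hρ hK hnum V hV ι f w hw hf hι
  refine ⟨T, hT1, hT2, ?_, ?_⟩
  · exact_mod_cast hT3
  · intro h
    have h1 : 2 * (K ^ D * (Vert D f w).ncard) < (Fintype.card ι) ^ D := by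
      have h2 : (0 : ℝ) < 2 * (K : ℝ) ^ D := by positivity
      rw [div_mul_eq_mul_div, one_mul, lt_div_iff₀ h2] at h
      have h3 : ((2 * (K ^ D * (Vert D f w).ncard) : ℕ) : ℝ) < ((Fintype.card ι ^ D : ℕ) : ℝ) := by
        push_cast
        linarith
      exact_mod_cast h3
    exact_mod_cast hT4 h1

end Pool.Agent.H889
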