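import Pool.Agent.Helper889_Cut.Sample
import Pool.Agent.Helper889_Cut.Params

/-! Weak cuttings, with a constant factor more in the ratio. -/

set_option autoImplicit false
open Set

namespace Pool.Agent.H889

variable {V : Type} [NormedAddCommGroup V] [NormedSpace ℝ V]

theorem wcut_exists4 (D : ℕ) (hD : 2 ≤ D) : ∃ s Cs Np δ : ℝ, 4 ≤ s ∧ 0 ≤ Cs ∧ 0 ≤ Np ∧
    8 * Np ≤ s ^ (2 * D - 1) ∧ 0 < δ ∧ ∀ (V : Type) [NormedAddCommGroup V] [NormedSpace ℝ V]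
      [FiniteDimensional ℝ V], Module.finrank ℝ V = D → WCut V D (((D : ℝ) + 3) * s) Cs Np δ := by
  obtain ⟨c, hc⟩ := sample_cut D (by omega)
  obtain ⟨K, s0, hs4, hK, hnum, hNp⟩ := param_choice D hD
    (4 * c * (D + 3) ^ (2 * D - 1) + (4 * (D + 3)) ^ (2 * D - 1))
  have hK0 : 0 < K := lt_of_lt_of_le (by positivity) hK
  have hK0' : (0 : ℝ) < K := by exact_mod_cast hK0
  have hg : (0 : ℝ) < (D : ℝ) + 3 := by positivity
  have hk1 : (1 : ℝ) ≤ ((K : ℝ) + 1) ^ (D - 1) := one_le_pow₀ (by linarith)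
  have hs0 : (0 : ℝ) ≤ s0 := by linarith
  have hodd : 2 * D - 1 ≠ 0 := by omega
  push_cast at hNp
  have hcp : (0 : ℝ) ≤ 4 * c * ((D : ℝ) + 3) ^ (2 * D - 1) := by positivity
  have hgp : (0 : ℝ) ≤ (4 * ((D : ℝ) + 3)) ^ (2 * D - 1) := by positivity
  have h4g : (4 * ((D : ℝ) + 3)) ^ (2 * D - 1) ≤ s0 ^ (2 * D - 1) := by
    refine le_trans ?_ hNp
    nlinarith
  have hs0g : 4 * ((D : ℝ) + 3) ≤ s0 := le_of_pow_le_pow_left₀ hodd hs0 h4g
  have hρ : (1 : ℝ) < s0 ^ 2 := by nlinarith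
  refine ⟨s0 / ((D : ℝ) + 3), 2 ^ D * (K : ℝ) ^ D + c * ((K : ℝ) + 1) ^ (D - 1),
    c * ((K : ℝ) + 1) ^ (D - 1), 1 / (2 * (K : ℝ) ^ D), ?_, by positivity, by positivity, ?_,
    by positivity, ?_⟩
  · rw [le_div_iff₀ hg]
    exact hs0g
  · rw [div_pow, le_div_iff₀ (by positivity)]
    refine le_trans ?_ hNp
    have h1 : (0 : ℝ) ≤ (4 * ((D : ℝ) + 3)) ^ (2 * D - 1) * ((K : ℝ) + 1) ^ (D - 1) := by positivity
    have e : 8 * ((c : ℝ) * ((K : ℝ) + 1) ^ (D - 1)) * ((D : ℝ) + 3) ^ (2 * D - 1) =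
        2 * ((4 * (c : ℝ) * ((D : ℝ) + 3) ^ (2 * D - 1)) * ((K : ℝ) + 1) ^ (D - 1)) := by ring
    rw [e, add_mul]
    linarith
  · intro V _ _ _ hV ι _ f w hw hf hι
    obtain ⟨T, hT1, hT2, hT3, hT4⟩ := hc K (s0 ^ 2) hρ hK hnum V hV ι f w hw hf hι
    refine ⟨T, hT1, ?_, ?_, ?_⟩
    · intro t ht
      have e : (((D : ℝ) + 3) * (s0 / ((D : ℝ) + 3))) ^ 2 = s0 ^ 2 := by
        congr 1
        field_simp
      rw [e]
      exact hT2 t ht
    · exact_mod_cast hT3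
    · intro h
      have h1 : 2 * (K ^ D * (Vert D f w).ncard) < (Fintype.card ι) ^ D := by
        have h2 : (0 : ℝ) < 2 * (K : ℝ) ^ D := by positivity
        rw [div_mul_eq_mul_div, one_mul, lt_div_iff₀ h2] at h
        have h3 : ((2 * (K ^ D * (Vert D f w).ncard) : ℕ) : ℝ) < ((Fintype.card ι ^ D : ℕ) : ℝ) := by
          push_cast
          linarith
        exact_mod_cast h3
      exact_mod_cast hT4 h1

end Pool.Agent.H889
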